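import Mathlib

/-!
# Simplicial chains with the Koszul sign rule

`Ch`: functions `Finset σ → k`; `bd` is the simplicial boundary read on all finsets (removing
direction): `bd φ S = ∑_{v ∉ S} ± φ (S ∪ {v})`.
-/

open Finset

namespace Pool.Agent.LibHelper95.Reg

set_option linter.unusedSectionVars false

variable {σ : Type*} [Fintype σ] [LinearOrder σ] {k : Type*} [Field k]

/-- The sign attached to `v` and `S`. -/
def sgn (k : Type*) [Field k] (v : σ) (S : Finset σ) : k := (-1) ^ (S.filter (· < v)).card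

/-- The boundary. -/
def bd (φ : Finset σ → k) (S : Finset σ) : k := ∑ v ∈ Sᶜ, sgn k v S * φ (insert v S)

/-- The cone operator with apex `j`. -/
def cn (j : σ) (φ : Finset σ → k) (S : Finset σ) : k :=
  if j ∈ S then sgn k j S * φ (S.erase j) else 0

theorem sgn_sq (v : σ) (S : Finset σ) : sgn k v S * sgn k v S = 1 := by
  unfold sgn
  rw [← pow_add, ← two_mul, pow_mul]
  simp

theorem sgn_ne_zero (v : σ) (S : Finset σ) : sgn k v S ≠ 0 := by
  intro h
  have := sgn_sq (k := k) v S
  rw [h] at this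
  simp at this

theorem sgn_insert_self (v : σ) (S : Finset σ) : sgn k v (insert v S) = sgn k v S := by
  unfold sgn
  congr 2
  ext w
  simp only [mem_filter, mem_insert]
  constructor
  · rintro ⟨h1 | h1, h2⟩
    · subst h1; exact absurd h2 (lt_irrefl _)
    · exact ⟨h1, h2⟩
  · rintro ⟨h1, h2⟩
    exact ⟨Or.inr h1, h2⟩

theorem sgn_insert_of_lt {v w : σ} (S : Finset σ) (hw : w ∉ S) (h : w < v) :
    sgn k v (insert w S) = - sgn k v S := by
  unfold sgn
  rw [Finset.filter_insert, if_pos h, Finset.card_insert_of_notMem (by simp [hw]), pow_succ]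
  ring

theorem sgn_insert_of_gt {v w : σ} (S : Finset σ) (h : v < w) :
    sgn k v (insert w S) = sgn k v S := by
  unfold sgn
  rw [Finset.filter_insert, if_neg (not_lt.2 h.le)]

theorem sgn_swap {a b : σ} (hab : a ≠ b) (S : Finset σ) (ha : a ∉ S) (hb : b ∉ S) :
    sgn k a (insert b S) * sgn k b S = - (sgn k b (insert a S) * sgn k a S) := by
  rcases lt_or_gt_of_ne hab with h | h
  · rw [sgn_insert_of_gt S h, sgn_insert_of_lt S ha h]; ring
  · rw [sgn_insert_of_gt S h, sgn_insert_of_lt S hb h]; ring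

theorem bd_add (φ ψ : Finset σ → k) (S : Finset σ) :
    bd (fun T => φ T + ψ T) S = bd φ S + bd ψ S := by
  unfold bd
  rw [← Finset.sum_add_distrib]
  refine Finset.sum_congr rfl fun v _ => by ring

theorem bd_sub (φ ψ : Finset σ → k) (S : Finset σ) :
    bd (fun T => φ T - ψ T) S = bd φ S - bd ψ S := by
  unfold bd
  rw [← Finset.sum_sub_distrib]
  refine Finset.sum_congr rfl fun v _ => by ring

theorem bd_bd (φ : Finset σ → k) (S : Finset σ) : bd (bd φ) S = 0 := by
  unfold bd
  have h1 : ∀ v ∈ Sᶜ, sgn k v S * ∑ w ∈ (insert v S)ᶜ, sgn k w (insert v S) *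
      φ (insert w (insert v S)) =
      ∑ w ∈ Sᶜ, if v = w then 0 else sgn k v S * sgn k w (insert v S) *
        φ (insert w (insert v S)) := by
    intro v hv
    have : (insert v S)ᶜ = Sᶜ.erase v := by
      ext w; simp
    rw [this, Finset.mul_sum, ← Finset.add_sum_erase _ _ hv, if_pos rfl, zero_add]
    refine Finset.sum_congr rfl fun w hw => ?_
    rw [if_neg (fun h => (Finset.mem_erase.1 hw).1 h.symm)]
    ring
  rw [Finset.sum_congr rfl h1, ← Finset.sum_product']
  refine Finset.sum_involution (fun p _ => (p.2, p.1)) ?_ ?_ ?_ ?_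
  · rintro ⟨v, w⟩ hp
    simp only [Finset.mem_product, Finset.mem_compl] at hp
    simp only
    by_cases h : v = w
    · simp [h]
    · rw [if_neg h, if_neg (fun h' => h h'.symm), Finset.insert_comm w v S]
      have := sgn_swap (k := k) h S hp.1 hp.2
      linear_combination φ (insert v (insert w S)) * this
  · rintro ⟨v, w⟩ hp hne heq
    simp only [Prod.mk.injEq] at heq
    simp only at hne
    rw [if_pos heq.2] at hne
    exact hne rfl
  · rintro ⟨v, w⟩ hp
    simp only [Finset.mem_product] at hp ⊢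
    exact ⟨hp.2, hp.1⟩
  · rintro ⟨v, w⟩ _
    rfl

theorem cn_bd (j : σ) (φ : Finset σ → k) (S : Finset σ) :
    bd (cn j φ) S + cn j (bd φ) S = φ S := by
  by_cases hj : j ∈ S
  · set R := S.erase j with hR
    have hS : S = insert j R := (Finset.insert_erase hj).symm
    have hjR : j ∉ R := Finset.notMem_erase j S
    have e1 : cn j (bd φ) S = sgn k j S * ∑ v ∈ Rᶜ, sgn k v R * φ (insert v R) := by
      unfold cn bd
      rw [if_pos hj]
    have e2 : (R : Finset σ)ᶜ = insert j Sᶜ := by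
      ext w
      simp only [Finset.mem_compl, Finset.mem_insert, hR, Finset.mem_erase, not_and_or, not_not]
    have e3 : j ∉ Sᶜ := by simpa using hj
    rw [e1, e2, Finset.sum_insert e3, ← hS]
    have e4 : sgn k j S = sgn k j R := by rw [hS, sgn_insert_self]
    unfold bd
    rw [e4, mul_add, ← mul_assoc, sgn_sq, one_mul, Finset.mul_sum]
    have e5 : (∑ v ∈ Sᶜ, sgn k v S * cn j φ (insert v S)) +
        ∑ v ∈ Sᶜ, sgn k j R * (sgn k v R * φ (insert v R)) = 0 := by
      rw [← Finset.sum_add_distrib]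
      refine Finset.sum_eq_zero fun v hv => ?_
      have hvS : v ∉ S := by simpa using hv
      have hvj : v ≠ j := fun h => hvS (h ▸ hj)
      have hvR : v ∉ R := fun h => hvS (Finset.mem_of_mem_erase h)
      unfold cn
      rw [if_pos (Finset.mem_insert_of_mem hj)]
      have e6 : (insert v S).erase j = insert v R := by
        rw [Finset.erase_insert_of_ne hvj]
      rw [e6]
      have e7 : sgn k j (insert v S) = sgn k j (insert v R) := by
        rw [hS, Finset.insert_comm, sgn_insert_self]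
      rw [e7]
      have := sgn_swap (k := k) hvj R hvR hjR
      rw [← hS] at this
      have q1 := sgn_sq (k := k) j R
      have q2 := sgn_sq (k := k) j (insert v R)
      linear_combination φ (insert v R) * (sgn k j R) * (sgn k j (insert v R)) * this -
        φ (insert v R) * sgn k v S * sgn k j (insert v R) * q1 -
        φ (insert v R) * sgn k j R * sgn k v R * q2
    linear_combination e5
  · have e1 : cn j (bd φ) S = 0 := by
      unfold cn; rw [if_neg hj]
    rw [e1, add_zero]
    unfold bd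
    have hj' : j ∈ Sᶜ := by simpa using hj
    rw [← Finset.add_sum_erase _ _ hj']
    have e2 : ∑ v ∈ Sᶜ.erase j, sgn k v S * cn j φ (insert v S) = 0 := by
      refine Finset.sum_eq_zero fun v hv => ?_
      have hvj : v ≠ j := (Finset.mem_erase.1 hv).1
      unfold cn
      rw [if_neg, mul_zero]
      simp only [Finset.mem_insert, not_or]
      exact ⟨hvj.symm, hj⟩
    rw [e2, add_zero]
    unfold cn
    rw [if_pos (Finset.mem_insert_self _ _), Finset.erase_insert hj, sgn_insert_self, ← mul_assoc,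
      sgn_sq, one_mul]

/-- Relative vanishing of homology in size `i` for `D' ⊆ D`. -/
def RV (k : Type*) [Field k] (D D' : Finset σ → Prop) (i : ℕ) : Prop :=
  ∀ φ : Finset σ → k, (∀ S, φ S ≠ 0 → D S ∧ S.card = i) → (∀ S, bd φ S ≠ 0 → D' S) →
    ∃ ψ : Finset σ → k, (∀ S, ψ S ≠ 0 → D S ∧ S.card = i + 1) ∧ ∀ S, φ S - bd ψ S ≠ 0 → D' S

/-- Vanishing of homology in size `i`. -/
def AV (k : Type*) [Field k] (D : Finset σ → Prop) (i : ℕ) : Prop :=
  ∀ φ : Finset σ → k, (∀ S, φ S ≠ 0 → D S ∧ S.card = i) → (∀ S, bd φ S = 0) →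
    ∃ ψ : Finset σ → k, (∀ S, ψ S ≠ 0 → D S ∧ S.card = i + 1) ∧ ∀ S, φ S = bd ψ S

/-- If `bd ψ` is supported where `ψ` lives, sizes drop by one. -/
theorem card_of_bd_ne {ψ : Finset σ → k} {i : ℕ} (h : ∀ S, ψ S ≠ 0 → S.card = i + 1) (S : Finset σ)
    (hS : bd ψ S ≠ 0) : S.card = i := by
  unfold bd at hS
  obtain ⟨v, hv, hne⟩ := Finset.exists_ne_zero_of_sum_ne_zero hS
  have h1 : ψ (insert v S) ≠ 0 := fun h0 => hne (by rw [h0, mul_zero])
  have h2 := h _ h1
  rw [Finset.card_insert_of_notMem (by simpa using hv)] at h2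
  omega

theorem down_of_bd_ne {D : Finset σ → Prop} (hD : ∀ v S, D (insert v S) → D S)
    {ψ : Finset σ → k} (h : ∀ S, ψ S ≠ 0 → D S) (S : Finset σ)
    (hS : bd ψ S ≠ 0) : D S := by
  unfold bd at hS
  obtain ⟨v, hv, hne⟩ := Finset.exists_ne_zero_of_sum_ne_zero hS
  have h1 : ψ (insert v S) ≠ 0 := fun h0 => hne (by rw [h0, mul_zero])
  exact hD v S (h _ h1)

/-- Long exact sequence. -/
theorem AV_of_RV {D D' : Finset σ → Prop} (hDD' : ∀ S, D' S → D S) {i : ℕ}
    (h1 : RV k D D' (i + 1)) (h2 : AV k D i) : AV k D' i := by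
  intro φ hφ hφ0
  obtain ⟨ψ, hψ, hψφ⟩ := h2 φ (fun S hS => ⟨hDD' S (hφ S hS).1, (hφ S hS).2⟩) hφ0
  obtain ⟨ω, hω, hωψ⟩ := h1 ψ hψ (fun S hS => (hφ S (by rw [hψφ]; exact hS)).1)
  refine ⟨fun S => ψ S - bd ω S, fun S hS => ⟨hωψ S hS, ?_⟩, fun S => ?_⟩
  · by_cases hp : ψ S = 0
    · have : bd ω S ≠ 0 := by
        intro h0; apply hS; simp [hp, h0]
      exact card_of_bd_ne (fun S hS => (hω S hS).2) S this
    · exact (hψ S hp).2
  · rw [bd_sub ψ (bd ω) S, bd_bd, sub_zero, hψφ]

/-- No simplices of the given size in `D \ D'`. -/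
theorem RV_of_empty {D D' : Finset σ → Prop} {i : ℕ} (h : ∀ S, D S → S.card = i → D' S) :
    RV k D D' i := by
  intro φ hφ _
  refine ⟨fun _ => 0, fun S hS => absurd rfl hS, fun S hS => ?_⟩
  have : bd (fun _ : Finset σ => (0 : k)) S = 0 := by simp [bd]
  rw [this, sub_zero] at hS
  exact h S (hφ S hS).1 (hφ S hS).2

open Classical in
/-- `D \ D'` is a cone. -/
theorem RV_of_cone {D D' : Finset σ → Prop} (hD : ∀ v S, D (insert v S) → D S)
    (hD' : ∀ v S, D' (insert v S) → D' S)
    {i : ℕ} (j : σ)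
    (h : ∀ S, j ∉ S → ((D S ∧ ¬ D' S) ↔ (D (insert j S) ∧ ¬ D' (insert j S)))) :
    RV k D D' i := by
  intro φ hφ hφ'
  set φ1 : Finset σ → k := fun S => if D' S then 0 else φ S with hφ1
  set φ2 : Finset σ → k := fun S => if D' S then φ S else 0 with hφ2
  have hsum : ∀ S, φ S = φ1 S + φ2 S := by
    intro S
    simp only [hφ1, hφ2]
    split_ifs <;> simp
  have hbd1 : ∀ S, bd φ1 S ≠ 0 → D' S := by
    intro S hS
    have e : bd φ1 S = bd φ S - bd φ2 S := by
      have : φ = fun S => φ1 S + φ2 S := funext hsum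
      rw [this, bd_add]; ring
    by_contra hcon
    apply hS
    rw [e]
    have e1 : bd φ S = 0 := by
      by_contra h0; exact hcon (hφ' S h0)
    have e2 : bd φ2 S = 0 := by
      by_contra h0
      apply hcon
      refine down_of_bd_ne hD' (ψ := φ2) ?_ S h0
      intro S hS
      by_contra hc
      apply hS
      simp only [hφ2, if_neg hc]
    rw [e1, e2, sub_zero]
  have hφ1C : ∀ S, φ1 S ≠ 0 → (D S ∧ ¬ D' S) ∧ S.card = i := by
    intro S hS
    have hn : ¬ D' S := by
      intro hc; apply hS; simp only [hφ1, if_pos hc]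
    have hS' : φ S ≠ 0 := by
      simpa only [hφ1, if_neg hn] using hS
    exact ⟨⟨(hφ S hS').1, hn⟩, (hφ S hS').2⟩
  have hcnD : ∀ S, cn j φ1 S ≠ 0 → (D S ∧ ¬ D' S) ∧ S.card = i + 1 := by
    intro S hS
    unfold cn at hS
    by_cases hj : j ∈ S
    · rw [if_pos hj] at hS
      have h0 : φ1 (S.erase j) ≠ 0 := fun h0 => hS (by rw [h0, mul_zero])
      obtain ⟨h1, h2⟩ := hφ1C _ h0
      have h3 := (h (S.erase j) (Finset.notMem_erase j S)).1 h1
      rw [Finset.insert_erase hj] at h3
      refine ⟨h3, ?_⟩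
      rw [Finset.card_erase_of_mem hj] at h2
      have : 0 < S.card := Finset.card_pos.2 ⟨j, hj⟩
      omega
    · rw [if_neg hj] at hS
      exact absurd rfl hS
  refine ⟨cn j φ1, fun S hS => ⟨(hcnD S hS).1.1, (hcnD S hS).2⟩, fun S hS => ?_⟩
  have e : φ S - bd (cn j φ1) S = φ2 S + cn j (bd φ1) S := by
    have := cn_bd j φ1 S
    rw [hsum S]
    linear_combination (-1 : k) * this
  rw [e] at hS
  by_contra hcon
  have h2 : φ2 S = 0 := by simp only [hφ2, if_neg hcon]
  rw [h2, zero_add] at hS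
  -- then `S` is in `D`
  have hDS : D S := by
    by_contra hc
    have := cn_bd j φ1 S
    have h3 : bd (cn j φ1) S = 0 := by
      by_contra h0
      exact hc (down_of_bd_ne hD (fun S hS => (hcnD S hS).1.1) S h0)
    have h4 : φ1 S = 0 := by
      by_contra h0
      exact hc (hφ1C S h0).1.1
    rw [h3, h4, zero_add] at this
    exact hS this
  unfold cn at hS
  by_cases hj : j ∈ S
  · rw [if_pos hj] at hS
    have h0 : bd φ1 (S.erase j) ≠ 0 := fun h0 => hS (by rw [h0, mul_zero])
    have h1 := hbd1 _ h0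
    have h3 := (h (S.erase j) (Finset.notMem_erase j S)).2
    rw [Finset.insert_erase hj] at h3
    exact (h3 ⟨hDS, hcon⟩).2 h1
  · rw [if_neg hj] at hS
    exact absurd rfl hS

open Classical in
/-- Surjectivity of the relative boundary. -/
theorem RV_of_surj {D D' : Finset σ → Prop} (hD : ∀ v S, D (insert v S) → D S)
    {i : ℕ}
    (h : ∀ φ : Finset σ → k, (∀ S, φ S ≠ 0 → (D S ∧ ¬ D' S) ∧ S.card = i) →
      ∃ ψ : Finset σ → k, (∀ S, ψ S ≠ 0 → D S ∧ S.card = i + 1) ∧
        ∀ S, D S → ¬ D' S → S.card = i → φ S = bd ψ S) :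
    RV k D D' i := by
  intro φ hφ _
  obtain ⟨ψ, hψ, hψφ⟩ := h (fun S => if D' S then 0 else φ S) (by
    intro S hS
    by_cases hc : D' S
    · simp only [if_pos hc] at hS
      exact absurd rfl hS
    · simp only [if_neg hc] at hS
      exact ⟨⟨(hφ S hS).1, hc⟩, (hφ S hS).2⟩)
  refine ⟨ψ, hψ, fun S hS => ?_⟩
  by_contra hc
  have hD1 : D S ∧ S.card = i := by
    by_cases hp : φ S = 0
    · have : bd ψ S ≠ 0 := by
        intro h0; apply hS; rw [hp, h0, sub_zero]
      exact ⟨down_of_bd_ne hD (fun S hS => (hψ S hS).1) S this,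
        card_of_bd_ne (fun S hS => (hψ S hS).2) S this⟩
    · exact hφ S hp
  have := hψφ S hD1.1 hc hD1.2
  rw [if_neg hc] at this
  exact hS (by rw [this, sub_self])

/-- A cone is acyclic. -/
theorem AV_of_cone {D : Finset σ → Prop} {i : ℕ} (j : σ)
    (h : ∀ S, D S → D (insert j S)) : AV k D i := by
  intro φ hφ hφ0
  refine ⟨cn j φ, fun S hS => ?_, fun S => ?_⟩
  · unfold cn at hS
    by_cases hj : j ∈ S
    · rw [if_pos hj] at hS
      have h0 : φ (S.erase j) ≠ 0 := fun h0 => hS (by rw [h0, mul_zero])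
      obtain ⟨h1, h2⟩ := hφ _ h0
      have h3 := h _ h1
      rw [Finset.insert_erase hj] at h3
      refine ⟨h3, ?_⟩
      rw [Finset.card_erase_of_mem hj] at h2
      have : 0 < S.card := Finset.card_pos.2 ⟨j, hj⟩
      omega
    · rw [if_neg hj] at hS
      exact absurd rfl hS
  · have := cn_bd j φ S
    have h0 : cn j (bd φ) S = 0 := by
      unfold cn
      split_ifs with hj
      · rw [hφ0, mul_zero]
      · rfl
    rw [h0, add_zero] at this
    exact this.symm

end Pool.Agent.LibHelper95.Reg
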