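import Mathlib

/-!
# Multisets of edges: augmentation and exchange

For multisets `M` of edges of a graph, `dg M` is the degree vector.
-/

open Multiset

namespace Pool.Agent.LibHelper95.Reg

set_option linter.unusedSectionVars false

variable {V : Type*} [DecidableEq V]

/-- Degree of `v` in the multiset of edges `M`. -/
def dg (M : Multiset (Sym2 V)) (v : V) : ℕ := M.countP (fun e => v ∈ e)

/-- All members of `M` are edges of `G`. -/
def IsE (G : SimpleGraph V) (M : Multiset (Sym2 V)) : Prop := ∀ e ∈ M, e ∈ G.edgeSet

/-- `1` if `x = u`, `0` otherwise. -/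
def dl (u x : V) : ℕ := if x = u then 1 else 0

theorem dg_zero (v : V) : dg (0 : Multiset (Sym2 V)) v = 0 := by simp [dg]

theorem dg_cons {u w : V} (h : u ≠ w) (M : Multiset (Sym2 V)) (x : V) :
    dg (s(u, w) ::ₘ M) x = dg M x + dl u x + dl w x := by
  unfold dg dl
  rw [Multiset.countP_cons]
  simp only [Sym2.mem_iff]
  by_cases h1 : x = u
  · subst h1
    simp [h]
  · by_cases h2 : x = w
    · subst h2
      simp [h1]
    · simp [h1, h2]

theorem dg_erase {u w : V} (h : u ≠ w) {M : Multiset (Sym2 V)} (hM : s(u, w) ∈ M) (x : V) :
    dg (M.erase s(u, w)) x + dl u x + dl w x = dg M x := by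
  rw [← dg_cons h, Multiset.cons_erase hM]

theorem dg_add (M N : Multiset (Sym2 V)) (x : V) : dg (M + N) x = dg M x + dg N x := by
  unfold dg; rw [Multiset.countP_add]

theorem exists_edge_of_pos {M : Multiset (Sym2 V)} {u : V} (h : 0 < dg M u) :
    ∃ w, s(u, w) ∈ M := by
  unfold dg at h
  rw [Multiset.countP_pos] at h
  obtain ⟨e, he, hu⟩ := h
  obtain ⟨w, rfl⟩ := hu
  exact ⟨w, he⟩

theorem dg_pos_of_mem {M : Multiset (Sym2 V)} {u w : V} (h : s(u, w) ∈ M) : 0 < dg M u := by
  unfold dg
  rw [Multiset.countP_pos]
  exact ⟨_, h, Sym2.mem_mk_left u w⟩

theorem IsE.ne {G : SimpleGraph V} {M : Multiset (Sym2 V)} (hM : IsE G M) {u w : V}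
    (h : s(u, w) ∈ M) : u ≠ w := (hM _ h : G.Adj u w).ne

theorem IsE.cons {G : SimpleGraph V} {M : Multiset (Sym2 V)} (hM : IsE G M) {u w : V}
    (h : G.Adj u w) : IsE G (s(u, w) ::ₘ M) := by
  intro e he
  rcases Multiset.mem_cons.1 he with rfl | he
  · exact h
  · exact hM e he

theorem IsE.erase {G : SimpleGraph V} {M : Multiset (Sym2 V)} (hM : IsE G M) (e : Sym2 V) :
    IsE G (M.erase e) := fun e' he' => hM e' (Multiset.mem_of_mem_erase he')

theorem IsE.zero {G : SimpleGraph V} : IsE G (0 : Multiset (Sym2 V)) := fun _ he => by simp at he

/-- Handshake. -/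
theorem sum_dg [Fintype V] {G : SimpleGraph V} {M : Multiset (Sym2 V)} (hM : IsE G M) :
    ∑ v, dg M v = 2 * M.card := by
  induction M using Multiset.induction with
  | empty => simp [dg]
  | cons e M ih =>
    induction e using Sym2.ind with
    | _ u w =>
      have hne : u ≠ w := hM.ne (Multiset.mem_cons_self _ _)
      have h1 := ih (fun e he => hM e (Multiset.mem_cons_of_mem he))
      simp only [dg_cons hne, Finset.sum_add_distrib, h1, Multiset.card_cons]
      simp [dl]
      ring

/-- A vertex of larger degree in `M'` gives an edge of `M' - M` there. -/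
theorem exists_edge_sub {M M' : Multiset (Sym2 V)} {u : V} (h : dg M u < dg M' u) :
    ∃ w, s(u, w) ∈ M' - M := by
  apply exists_edge_of_pos
  have h1 : M' ≤ (M' - M) + M := le_tsub_add
  have h2 : dg M' u ≤ dg (M' - M) u + dg M u := by
    rw [← dg_add]
    exact Multiset.countP_le_of_le _ h1
  omega

/-- Alternating continuation. -/
theorem exists_edge_sub' {M M' : Multiset (Sym2 V)} {u w : V} (he : s(u, w) ∈ M' - M)
    (h : dg M' w ≤ dg M w) : ∃ z, s(w, z) ∈ M - M' := by
  apply exists_edge_of_pos
  have e1 : dg M' w = dg (M' ∩ M) w + dg (M' - M) w := by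
    rw [← dg_add]; congr 1
    ext e
    simp only [Multiset.count_add, Multiset.count_inter, Multiset.count_sub]
    omega
  have e2 : dg M w = dg (M' ∩ M) w + dg (M - M') w := by
    rw [← dg_add]; congr 1
    ext e
    simp only [Multiset.count_add, Multiset.count_inter, Multiset.count_sub]
    omega
  have h3 : 0 < dg (M' - M) w := by
    rw [Sym2.eq_swap] at he
    exact dg_pos_of_mem he
  omega

theorem count_lt_of_mem_sub {M M' : Multiset (Sym2 V)} {e : Sym2 V} (h : e ∈ M' - M) :
    M.count e < M'.count e := by
  have := Multiset.count_pos.2 h
  rw [Multiset.count_sub] at this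
  omega

/-- Augmentation. -/
theorem augment [Fintype V] {G : SimpleGraph V} : ∀ (n : ℕ) (M M' : Multiset (Sym2 V)),
    (M - M').card = n → IsE G M → IsE G M' → M.card < M'.card →
    ∃ (N : Multiset (Sym2 V)) (u v : V), IsE G N ∧ N.card = M.card + 1 ∧ M ∩ M' ≤ N ∧
      (∀ x, dg N x = dg M x + dl u x + dl v x) ∧
      (∀ x, dg M x + dl u x + dl v x ≤ max (dg M x) (dg M' x)) := by
  intro n
  induction n using Nat.strong_induction_on with
  | _ n ih =>
    intro M M' hn hM hM' hcard
    obtain ⟨u, hu⟩ : ∃ u, dg M u < dg M' u := by
      by_contra hcon
      push Not at hcon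
      have := Finset.sum_le_sum (s := Finset.univ) (fun v _ => hcon v)
      rw [sum_dg hM, sum_dg hM'] at this
      omega
    obtain ⟨w, hw⟩ := exists_edge_sub hu
    have hwM' : s(u, w) ∈ M' := Multiset.mem_of_le (tsub_le_self) hw
    have huw : u ≠ w := hM'.ne hwM'
    have hc1 := count_lt_of_mem_sub hw
    by_cases hcase : dg M w < dg M' w
    · refine ⟨s(u, w) ::ₘ M, u, w, hM.cons (hM' _ hwM'), by simp, ?_, dg_cons huw M, ?_⟩
      · exact (Multiset.inter_le_left).trans (Multiset.le_cons_self _ _)
      · intro x
        unfold dl
        by_cases h1 : x = u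
        · subst h1
          rw [if_pos rfl, if_neg huw]
          omega
        · rw [if_neg h1]
          by_cases h2 : x = w
          · subst h2
            rw [if_pos rfl]; omega
          · rw [if_neg h2]; omega
    · push Not at hcase
      obtain ⟨z, hz⟩ := exists_edge_sub' hw hcase
      have hzM : s(w, z) ∈ M := Multiset.mem_of_le (tsub_le_self) hz
      have hwz : w ≠ z := hM.ne hzM
      have hc2 := count_lt_of_mem_sub hz
      have hee : s(u, w) ≠ s(w, z) := by
        intro h; rw [h] at hc1; omega
      have huz : u ≠ z := by
        intro h; apply hee; rw [h]; exact Sym2.eq_swap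
      set M2 := s(w, z) ::ₘ (M'.erase s(u, w)) with hM2
      have hM2E : IsE G M2 := (hM'.erase _).cons (hM _ hzM)
      have hcM2 : M2.card = M'.card := by
        rw [hM2, Multiset.card_cons, Multiset.card_erase_of_mem hwM', Nat.pred_eq_sub_one]
        have : 0 < M'.card := Multiset.card_pos_iff_exists_mem.2 ⟨_, hwM'⟩
        omega
      have hcount : ∀ e, M2.count e + (if e = s(u, w) then 1 else 0) =
          M'.count e + (if e = s(w, z) then 1 else 0) := by
        intro e
        rw [hM2, Multiset.count_cons]
        by_cases h1 : e = s(u, w)
        · subst h1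
          rw [Multiset.count_erase_self, if_pos rfl, if_neg hee]
          omega
        · rw [Multiset.count_erase_of_ne h1, if_neg h1, add_zero]
      have hdg2 : ∀ x, dg M2 x + dl u x = dg M' x + dl z x := by
        intro x
        have h1 := dg_cons hwz (M'.erase s(u, w)) x
        have h2 := dg_erase huw hwM' x
        rw [← hM2] at h1
        omega
      have hsub : (M - M2).card < n := by
        have : M - M2 = (M - M').erase s(w, z) := by
          ext e
          have h1 := hcount e
          rw [Multiset.count_sub]
          by_cases h2 : e = s(w, z)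
          · subst h2
            rw [Multiset.count_erase_self, Multiset.count_sub]
            rw [if_neg hee.symm, if_pos rfl] at h1
            omega
          · rw [Multiset.count_erase_of_ne h2, Multiset.count_sub]
            rw [if_neg h2] at h1
            by_cases h3 : e = s(u, w)
            · subst h3
              rw [if_pos rfl] at h1
              omega
            · rw [if_neg h3] at h1
              omega
        rw [this, Multiset.card_erase_of_mem hz, ← hn]
        have : 0 < (M - M').card := Multiset.card_pos_iff_exists_mem.2 ⟨_, hz⟩
        exact Nat.pred_lt (by omega)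
      obtain ⟨N2, u', v', hN2E, hN2c, hN2i, hN2d, hN2m⟩ := ih _ hsub M M2 rfl hM hM2E (by omega)
      have hint : M ∩ M' ≤ M ∩ M2 := by
        rw [Multiset.le_iff_count]
        intro e
        have h1 := hcount e
        rw [Multiset.count_inter, Multiset.count_inter]
        by_cases h3 : e = s(u, w)
        · subst h3
          rw [if_pos rfl, if_neg hee] at h1
          omega
        · rw [if_neg h3] at h1
          split_ifs at h1 <;> omega
      by_cases hgood : ∀ x, dg M x + dl u' x + dl v' x ≤ max (dg M x) (dg M' x)
      · exact ⟨N2, u', v', hN2E, hN2c, hint.trans hN2i, hN2d, hgood⟩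
      · push Not at hgood
        obtain ⟨x, hx⟩ := hgood
        have hxz : x = z := by
          by_contra hne
          have h1 := hdg2 x
          have h2 := hN2m x
          have h3 : dl z x = 0 := by unfold dl; rw [if_neg hne]
          omega
        subst hxz
        have hux : dl u x = 0 := by unfold dl; rw [if_neg huz.symm]
        have hxx : dl x x = 1 := by unfold dl; rw [if_pos rfl]
        -- one of `u'`, `v'` is `x`
        have key : ∀ t : V, (∀ y, dg N2 y = dg M y + dl t y + dl x y) →
            (∀ y, dg M y + dl t y + dl x y ≤ max (dg M y) (dg M2 y)) →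
            ∃ (N : Multiset (Sym2 V)) (u v : V), IsE G N ∧ N.card = M.card + 1 ∧ M ∩ M' ≤ N ∧
              (∀ x, dg N x = dg M x + dl u x + dl v x) ∧
              (∀ x, dg M x + dl u x + dl v x ≤ max (dg M x) (dg M' x)) := by
          intro t ht1 ht2
          have hmem : s(w, x) ∈ N2 := by
            apply Multiset.mem_of_le hN2i
            rw [Multiset.mem_inter]
            exact ⟨hzM, by rw [hM2]; exact Multiset.mem_cons_self _ _⟩
          refine ⟨s(u, w) ::ₘ (N2.erase s(w, x)), t, u, (hN2E.erase _).cons (hM' _ hwM'), ?_, ?_,
            ?_, ?_⟩
          · rw [Multiset.card_cons, Multiset.card_erase_of_mem hmem, hN2c, Nat.pred_eq_sub_one]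
            simp
          · rw [Multiset.le_iff_count]
            intro e
            have h1 := hcount e
            have h2 := Multiset.le_iff_count.1 hN2i e
            rw [Multiset.count_inter] at h2 ⊢
            rw [Multiset.count_cons]
            by_cases h3 : e = s(w, x)
            · subst h3
              rw [Multiset.count_erase_self, if_neg hee.symm]
              rw [if_neg hee.symm, if_pos rfl] at h1
              omega
            · rw [Multiset.count_erase_of_ne h3]
              rw [if_neg h3] at h1
              by_cases h4 : e = s(u, w)
              · subst h4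
                rw [if_pos rfl] at h1 ⊢
                omega
              · rw [if_neg h4] at h1 ⊢
                omega
          · intro y
            have h1 := dg_cons huw (N2.erase s(w, x)) y
            have h2 := dg_erase hwz hmem y
            have h3 := ht1 y
            omega
          · intro y
            have h1 := ht2 y
            have h2 := hdg2 y
            by_cases h3 : y = u
            · subst h3
              have h4 : dl y y = 1 := by unfold dl; rw [if_pos rfl]
              have h5 : dl x y = 0 := by unfold dl; rw [if_neg huz]
              have h6 : dl t y ≤ 1 := by unfold dl; split_ifs <;> omega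
              omega
            · have h4 : dl u y = 0 := by unfold dl; rw [if_neg h3]
              by_cases h5 : y = x
              · subst h5
                omega
              · have h6 : dl x y = 0 := by unfold dl; rw [if_neg h5]
                omega
        have hor : u' = x ∨ v' = x := by
          by_contra hcon
          push Not at hcon
          have h1 : dl u' x = 0 := by unfold dl; rw [if_neg hcon.1.symm]
          have h2 : dl v' x = 0 := by unfold dl; rw [if_neg hcon.2.symm]
          omega
        rcases hor with h | h
        · subst h
          refine key v' (fun y => ?_) (fun y => ?_)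
          · rw [hN2d y]; ring
          · have := hN2m y; omega
        · subst h
          exact key u' hN2d hN2m

/-- Exchange. -/
theorem exchange {G : SimpleGraph V} : ∀ (n : ℕ) (M M' : Multiset (Sym2 V)),
    (M - M').card = n → IsE G M → IsE G M' → ∀ u, dg M u < dg M' u →
    (∃ N : Multiset (Sym2 V), IsE G N ∧ N.card = M.card + 1 ∧
      ∀ x, dg N x ≤ max (dg M x) (dg M' x)) ∨
    (∃ (N : Multiset (Sym2 V)) (v : V), IsE G N ∧ N.card = M.card ∧ dg M' v < dg M v ∧
      ∀ x, dg N x + dl v x = dg M x + dl u x) := by
  intro n
  induction n using Nat.strong_induction_on with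
  | _ n ih =>
    intro M M' hn hM hM' u hu
    obtain ⟨w, hw⟩ := exists_edge_sub hu
    have hwM' : s(u, w) ∈ M' := Multiset.mem_of_le (tsub_le_self) hw
    have huw : u ≠ w := hM'.ne hwM'
    have hc1 := count_lt_of_mem_sub hw
    by_cases hcase : dg M w < dg M' w
    · left
      refine ⟨s(u, w) ::ₘ M, hM.cons (hM' _ hwM'), by simp, ?_⟩
      intro x
      rw [dg_cons huw]
      unfold dl
      by_cases h1 : x = u
      · subst h1
        rw [if_pos rfl, if_neg huw]
        omega
      · rw [if_neg h1]
        by_cases h2 : x = w
        · subst h2
          rw [if_pos rfl]; omega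
        · rw [if_neg h2]; omega
    · push Not at hcase
      obtain ⟨z, hz⟩ := exists_edge_sub' hw hcase
      have hzM : s(w, z) ∈ M := Multiset.mem_of_le (tsub_le_self) hz
      have hwz : w ≠ z := hM.ne hzM
      have hc2 := count_lt_of_mem_sub hz
      have hee : s(u, w) ≠ s(w, z) := by
        intro h; rw [h] at hc1; omega
      have huz : u ≠ z := by
        intro h; apply hee; rw [h]; exact Sym2.eq_swap
      set M1 := s(u, w) ::ₘ (M.erase s(w, z)) with hM1
      have hM1E : IsE G M1 := (hM.erase _).cons (hM' _ hwM')
      have hcM1 : M1.card = M.card := by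
        rw [hM1, Multiset.card_cons, Multiset.card_erase_of_mem hzM, Nat.pred_eq_sub_one]
        have : 0 < M.card := Multiset.card_pos_iff_exists_mem.2 ⟨_, hzM⟩
        omega
      have hdg1 : ∀ x, dg M1 x + dl z x = dg M x + dl u x := by
        intro x
        have h1 := dg_cons huw (M.erase s(w, z)) x
        have h2 := dg_erase hwz hzM x
        rw [← hM1] at h1
        omega
      by_cases hcase2 : dg M' z < dg M z
      · right
        exact ⟨M1, z, hM1E, hcM1, hcase2, hdg1⟩
      · push Not at hcase2
        have huz0 : dl u z = 0 := by unfold dl; rw [if_neg huz.symm]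
        have hzz : dl z z = 1 := by unfold dl; rw [if_pos rfl]
        have huu : dl u u = 1 := by unfold dl; rw [if_pos rfl]
        have hzu : dl z u = 0 := by unfold dl; rw [if_neg huz]
        have hz1 := hdg1 z
        have hu1 := hdg1 u
        have hpos : 0 < dg M z := dg_pos_of_mem (by rw [Sym2.eq_swap]; exact hzM)
        have hsub : (M1 - M').card < n := by
          have : M1 - M' = (M - M').erase s(w, z) := by
            ext e
            rw [Multiset.count_sub, hM1, Multiset.count_cons]
            by_cases h2 : e = s(w, z)
            · subst h2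
              rw [Multiset.count_erase_self, Multiset.count_erase_self, Multiset.count_sub,
                if_neg hee.symm]
              omega
            · rw [Multiset.count_erase_of_ne h2, Multiset.count_erase_of_ne h2,
                Multiset.count_sub]
              by_cases h3 : e = s(u, w)
              · subst h3
                rw [if_pos rfl]
                omega
              · rw [if_neg h3]
                omega
          rw [this, Multiset.card_erase_of_mem hz, ← hn]
          have : 0 < (M - M').card := Multiset.card_pos_iff_exists_mem.2 ⟨_, hz⟩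
          exact Nat.pred_lt (by omega)
        rcases ih _ hsub M1 M' rfl hM1E hM' z (by omega) with ⟨N, hN, hNc, hNm⟩ |
          ⟨N, v, hN, hNc, hNv, hNd⟩
        · left
          refine ⟨N, hN, by omega, fun x => (hNm x).trans ?_⟩
          have h1 := hdg1 x
          by_cases h2 : x = u
          · subst h2; omega
          · have : dl u x = 0 := by unfold dl; rw [if_neg h2]
            omega
        · right
          refine ⟨N, v, hN, by omega, ?_, fun x => ?_⟩
          · have h1 := hdg1 v
            by_cases h2 : v = u
            · subst h2; omega
            · have : dl u v = 0 := by unfold dl; rw [if_neg h2]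
              omega
          · have h1 := hdg1 x
            have h2 := hNd x
            omega

end Pool.Agent.LibHelper95.Reg
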