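import Mathlib
import Pool.Agent.Lib_helper95.EdgeMultiset

/-!
# Colon ideals of powers of edge ideals, on the level of exponents
-/

open Finset

namespace Pool.Agent.LibHelper95.Reg

set_option linter.unusedSectionVars false

variable {V : Type*} [Fintype V] [LinearOrder V]

theorem dl_self (u : V) : dl u u = 1 := by unfold dl; rw [if_pos rfl]

theorem dl_ne {u x : V} (h : x ≠ u) : dl u x = 0 := by unfold dl; rw [if_neg h]

theorem dl_le (u x : V) : dl u x ≤ 1 := by unfold dl; split_ifs <;> omega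

/-- `x_u x_v m ∈ I ^ (q + 1)` where `m` is the product of the `q` edges in `M`. -/
def Rel (G : SimpleGraph V) (M : Multiset (Sym2 V)) (u v : V) : Prop :=
  ∃ N : Multiset (Sym2 V), IsE G N ∧ N.card = M.card + 1 ∧ ∀ x, dg N x = dg M x + dl u x + dl v x

variable {G : SimpleGraph V} {M : Multiset (Sym2 V)}

theorem Rel.symm {u v : V} (h : Rel G M u v) : Rel G M v u := by
  obtain ⟨N, h1, h2, h3⟩ := h
  exact ⟨N, h1, h2, fun x => by rw [h3]; ring⟩

theorem Rel.of_adj (hM : IsE G M) {u v : V} (h : G.Adj u v) : Rel G M u v :=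
  ⟨s(u, v) ::ₘ M, hM.cons h, by simp, dg_cons h.ne M⟩

theorem Rel.of_edge (hM : IsE G M) {u v p₁ p₂ : V} (hp : s(p₁, p₂) ∈ M) (hu : G.Adj u p₁)
    (hv : G.Adj v p₂) : Rel G M u v := by
  refine ⟨s(u, p₁) ::ₘ s(v, p₂) ::ₘ M.erase s(p₁, p₂), ((hM.erase _).cons hv).cons hu, ?_, ?_⟩
  · rw [Multiset.card_cons, Multiset.card_cons, Multiset.card_erase_of_mem hp,
      Nat.pred_eq_sub_one]
    have : 0 < M.card := Multiset.card_pos_iff_exists_mem.2 ⟨_, hp⟩
    omega
  · intro x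
    rw [dg_cons hu.ne, dg_cons hv.ne]
    have := dg_erase (hM.ne hp) hp x
    omega

theorem Rel.cons {u v p q : V} (h : Rel G M u v) (hp : G.Adj p q) :
    Rel G (s(p, q) ::ₘ M) u v := by
  obtain ⟨N, h1, h2, h3⟩ := h
  refine ⟨s(p, q) ::ₘ N, h1.cons hp, by simp [h2], fun x => ?_⟩
  rw [dg_cons hp.ne, dg_cons hp.ne, h3]
  ring

theorem Rel.self_path : ∀ (n : ℕ) (M : Multiset (Sym2 V)), M.card = n → IsE G M → ∀ j,
    Rel G M j j → ∃ p₁ p₂, s(p₁, p₂) ∈ M ∧ G.Adj j p₁ ∧ p₂ ≠ j ∧ Rel G M p₂ j := by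
  intro n
  induction n with
  | zero =>
    intro M hM hME j hj
    have hM0 : M = 0 := Multiset.card_eq_zero.1 hM
    subst hM0
    obtain ⟨N, h1, h2, h3⟩ := hj
    have h4 := h3 j
    rw [dg_zero, dl_self] at h4
    obtain ⟨w, hw⟩ := exists_edge_of_pos (M := N) (u := j) (by omega)
    have h5 := h3 w
    rw [dg_zero, dl_ne (h1.ne hw).symm] at h5
    have := dg_pos_of_mem (M := N) (u := w) (w := j) (by rw [Sym2.eq_swap]; exact hw)
    omega
  | succ n ih =>
    intro M hM hME j hj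
    obtain ⟨N, h1, h2, h3⟩ := hj
    have h4 := h3 j
    rw [dl_self] at h4
    obtain ⟨p₁, hp₁⟩ := exists_edge_of_pos (M := N) (u := j) (by omega)
    have hjp := h1.ne hp₁
    have h5 := h3 p₁
    rw [dl_ne hjp.symm] at h5
    have h6 := dg_pos_of_mem (M := N) (u := p₁) (w := j) (by rw [Sym2.eq_swap]; exact hp₁)
    obtain ⟨p₂, hp₂⟩ := exists_edge_of_pos (M := M) (u := p₁) (by omega)
    have hpp := hME.ne hp₂
    have hR : Rel G (M.erase s(p₁, p₂)) p₂ j := by
      refine ⟨N.erase s(j, p₁), h1.erase _, ?_, fun x => ?_⟩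
      · rw [Multiset.card_erase_of_mem hp₁, Multiset.card_erase_of_mem hp₂, Nat.pred_eq_sub_one,
          Nat.pred_eq_sub_one, h2]
        omega
      · have e1 := dg_erase hjp hp₁ x
        have e2 := dg_erase hpp hp₂ x
        have e3 := h3 x
        omega
    by_cases hne : p₂ = j
    · subst hne
      obtain ⟨a, b, hab, h7, h8, h9⟩ := ih (M.erase s(p₁, p₂))
        (by rw [Multiset.card_erase_of_mem hp₂, Nat.pred_eq_sub_one, hM]; omega) (hME.erase _) p₂ hR
      refine ⟨a, b, Multiset.mem_of_mem_erase hab, h7, h8, ?_⟩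
      have := h9.cons (hME _ hp₂ : G.Adj p₁ p₂)
      rwa [Multiset.cons_erase hp₂] at this
    · refine ⟨p₁, p₂, hp₂, h1 _ hp₁, hne, ?_⟩
      have := hR.cons (hME _ hp₂ : G.Adj p₁ p₂)
      rwa [Multiset.cons_erase hp₂] at this

/-- Independent sets. -/
def Ind (G : SimpleGraph V) (T : Finset V) : Prop := ∀ u ∈ T, ∀ v ∈ T, ¬ G.Adj u v

/-- Independent sets for the relation `Rel`. -/
def RInd (G : SimpleGraph V) (M : Multiset (Sym2 V)) (T : Finset V) : Prop :=
  ∀ u ∈ T, ∀ v ∈ T, u ≠ v → ¬ Rel G M u v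

/-- Combinatorial hypotheses on `G`. -/
structure Good (G : SimpleGraph V) : Prop where
  alpha : ∀ T : Finset V, Ind G T → T.card ≤ 4
  ridge : ∀ R : Finset V, R.card = 3 → ∀ p q r, p ∉ R → q ∉ R → r ∉ R → p ≠ q → p ≠ r → q ≠ r →
    Ind G (insert p R) → Ind G (insert q R) → Ind G (insert r R) → False

theorem RInd.ind (hM : IsE G M) {T : Finset V} (h : RInd G M T) : Ind G T := by
  intro u hu v hv huv
  exact h u hu v hv huv.ne (Rel.of_adj hM huv)

theorem Ind.insert {T : Finset V} (hT : Ind G T) {p : V} (h : ∀ t ∈ T, ¬ G.Adj p t) :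
    Ind G (insert p T) := by
  intro u hu v hv
  rw [Finset.mem_insert] at hu hv
  rcases hu with rfl | hu <;> rcases hv with rfl | hv
  · exact G.irrefl
  · exact h v hv
  · exact fun h' => h u hu h'.symm
  · exact hT u hu v hv

/-- No square in an independent 4-set. -/
theorem no_square (hG : Good G) (hM : IsE G M) {T : Finset V} (hT : T.card = 4)
    (hI : RInd G M T) {j : V} (hj : j ∈ T) : ¬ Rel G M j j := by
  intro hjj
  obtain ⟨p₁, p₂, hp, hjp, hne, hR⟩ := Rel.self_path _ M rfl hM j hjj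
  have hpp : G.Adj p₁ p₂ := hM _ hp
  have hGT : Ind G T := hI.ind hM
  set R := T.erase j with hRdef
  have hTR : T = insert j R := (Finset.insert_erase hj).symm
  have hjR : j ∉ R := Finset.notMem_erase j T
  have hRc : R.card = 3 := by rw [hRdef, Finset.card_erase_of_mem hj, hT]
  have hRT : ∀ t ∈ R, t ∈ T ∧ t ≠ j := fun t ht =>
    ⟨Finset.mem_of_mem_erase ht, Finset.ne_of_mem_erase ht⟩
  have hnot : ∀ t ∈ R, ¬ Rel G M t j := fun t ht => hI t (hRT t ht).1 j hj (hRT t ht).2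
  have hIR : Ind G R := fun u hu v hv => hGT u (hRT u hu).1 v (hRT v hv).1
  -- the vertex `p₂`
  have hp2R : p₂ ∉ R := fun h => hnot p₂ h hR
  have h2 : ∀ t ∈ R, ¬ G.Adj p₂ t := by
    intro t ht hadj
    apply hnot t ht
    have hp' : s(p₂, p₁) ∈ M := by rw [Sym2.eq_swap]; exact hp
    exact Rel.of_edge hM hp' hadj.symm hjp
  have hI2 : Ind G (insert p₂ R) := hIR.insert h2
  have hjp2 : G.Adj j p₂ := by
    by_contra hcon
    have hI3 : Ind G (insert j (insert p₂ R)) := by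
      refine hI2.insert fun t ht => ?_
      rcases Finset.mem_insert.1 ht with rfl | ht
      · exact hcon
      · exact hGT j hj t (hRT t ht).1
    have := hG.alpha _ hI3
    rw [Finset.card_insert_of_notMem, Finset.card_insert_of_notMem hp2R, hRc] at this
    · omega
    · rw [Finset.mem_insert, not_or]
      exact ⟨hne.symm, hjR⟩
  -- the vertex `p₁`
  have hp1R : p₁ ∉ R := fun h => hnot p₁ h (Rel.of_adj hM hjp.symm)
  have h1 : ∀ t ∈ R, ¬ G.Adj p₁ t := by
    intro t ht hadj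
    apply hnot t ht
    exact Rel.of_edge hM hp hadj.symm hjp2
  have hI1 : Ind G (insert p₁ R) := hIR.insert h1
  exact hG.ridge R hRc j p₁ p₂ hjR hp1R hp2R hjp.ne hjp2.ne hpp.ne (hTR ▸ hGT) hI1 hI2

/-! ### Exponents -/

/-- Exponents of the monomials in `I ^ q`. -/
def Pw (G : SimpleGraph V) (q : ℕ) : Set (V → ℕ) :=
  {f | ∃ M : Multiset (Sym2 V), IsE G M ∧ M.card = q ∧ ∀ x, dg M x ≤ f x}

/-- Exponents of the minimal generators of `I ^ q`. -/
def Gn (G : SimpleGraph V) (q : ℕ) : Set (V → ℕ) :=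
  {f | ∃ M : Multiset (Sym2 V), IsE G M ∧ M.card = q ∧ ∀ x, dg M x = f x}

/-- Lexicographic order. -/
def lexlt (m m' : V → ℕ) : Prop := ∃ u, (∀ x < u, m x = m' x) ∧ m u < m' u

/-- `I ^ (q + 1)` plus the generators in `A`. -/
def JJ (G : SimpleGraph V) (q : ℕ) (A : Finset (V → ℕ)) : Set (V → ℕ) :=
  Pw G (q + 1) ∪ {f | ∃ m ∈ A, ∀ x, m x ≤ f x}

theorem Pw_up {q : ℕ} {f g : V → ℕ} (hf : f ∈ Pw G q) (h : ∀ x, f x ≤ g x) : g ∈ Pw G q := by
  obtain ⟨M, h1, h2, h3⟩ := hf
  exact ⟨M, h1, h2, fun x => (h3 x).trans (h x)⟩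

theorem JJ_up {q : ℕ} {A : Finset (V → ℕ)} {f g : V → ℕ} (hf : f ∈ JJ G q A)
    (h : ∀ x, f x ≤ g x) : g ∈ JJ G q A := by
  rcases hf with hf | ⟨m, hm, hf⟩
  · exact Or.inl (Pw_up hf h)
  · exact Or.inr ⟨m, hm, fun x => (hf x).trans (h x)⟩

theorem Pw_succ_subset {q : ℕ} {f : V → ℕ} (hf : f ∈ Pw G (q + 1)) : f ∈ Pw G q := by
  obtain ⟨M, h1, h2, h3⟩ := hf
  have hpos : 0 < M.card := by omega
  obtain ⟨e, he⟩ := Multiset.card_pos_iff_exists_mem.1 hpos
  refine ⟨M.erase e, h1.erase e, ?_, fun x => le_trans ?_ (h3 x)⟩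
  · rw [Multiset.card_erase_of_mem he, h2]; rfl
  · exact Multiset.countP_le_of_le _ (Multiset.erase_le e M)

theorem mem_JJ_of_rel {q : ℕ} {A : Finset (V → ℕ)} (hc : M.card = q)
    {u v : V} (h : Rel G M u v) {f : V → ℕ} (hf : ∀ x, dl u x + dl v x ≤ f x) :
    (fun x => f x + dg M x) ∈ JJ G q A := by
  obtain ⟨N, h1, h2, h3⟩ := h
  refine Or.inl ⟨N, h1, by omega, fun x => ?_⟩
  have h4 := h3 x
  have h5 := hf x
  show dg N x ≤ f x + dg M x
  omega

/-- The colon ideal is generated by variables and quadrics. -/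
theorem colon_struct {q : ℕ} {A : Finset (V → ℕ)} (hM : IsE G M) (hc : M.card = q)
    (h1 : ∀ m ∈ A, m ∈ Gn G q ∧ lexlt (dg M) m) (h2 : ∀ m ∈ Gn G q, lexlt (dg M) m → m ∈ A)
    {f : V → ℕ} (hf : (fun x => f x + dg M x) ∈ JJ G q A) :
    (∃ u, 1 ≤ f u ∧ (fun x => dl u x + dg M x) ∈ JJ G q A) ∨
    ∃ u v, Rel G M u v ∧ ∀ x, dl u x + dl v x ≤ f x := by
  have key : ∀ M' : Multiset (Sym2 V), IsE G M' → M'.card = q + 1 →
      (∀ x, dg M' x ≤ max (dg M x) (f x + dg M x)) →
      ∃ u v, Rel G M u v ∧ ∀ x, dl u x + dl v x ≤ f x := by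
    intro M' hM' hc' hle
    obtain ⟨N, u, v, hN, hNc, _, hNd, hNm⟩ := augment _ M M' rfl hM hM' (by omega)
    refine ⟨u, v, ⟨N, hN, hNc, hNd⟩, fun x => ?_⟩
    have h3 := hNm x
    have h4 := hle x
    omega
  rcases hf with ⟨M', hM', hc', hle⟩ | ⟨m, hm, hle⟩
  · right
    refine key M' hM' hc' fun x => ?_
    have : dg M' x ≤ f x + dg M x := hle x
    omega
  · obtain ⟨⟨M', hM', hc', hdm⟩, u, hu1, hu2⟩ := h1 m hm
    have hle' : ∀ x, m x ≤ f x + dg M x := hle
    have hu3 : dg M u < dg M' u := by rw [hdm]; exact hu2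
    rcases exchange _ M M' rfl hM hM' u hu3 with ⟨N, hN, hNc, hNm⟩ | ⟨N, v, hN, hNc, hNv, hNd⟩
    · right
      refine key N hN (by omega) fun x => ?_
      have h3 := hNm x
      have h4 := hle' x
      have h5 := hdm x
      omega
    · left
      refine ⟨u, ?_, ?_⟩
      · have := hle' u
        omega
      · have hvu : v ≠ u := by
          rintro rfl; omega
        have huv : u < v := by
          rcases lt_or_gt_of_ne hvu with h | h
          · have h3 := hu1 v h
            rw [← hdm] at h3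
            omega
          · exact h
        have hmem : (fun x => dg N x) ∈ A := by
          refine h2 _ ⟨N, hN, by omega, fun _ => rfl⟩ ⟨u, fun x hx => ?_, ?_⟩
          · have h3 := hNd x
            rw [dl_ne hx.ne, dl_ne (hx.trans huv).ne] at h3
            show dg M x = dg N x
            omega
          · have h3 := hNd u
            rw [dl_self, dl_ne huv.ne] at h3
            show dg M u < dg N u
            omega
        refine Or.inr ⟨_, hmem, fun x => ?_⟩
        have h3 := hNd x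
        show dg N x ≤ dl u x + dg M x
        omega

end Pool.Agent.LibHelper95.Reg
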