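import Mathlib
import Pool.Agent.Lib_helper95.KoszulChain
import Pool.Agent.Lib_helper95.EdgeColon

/-!
# Multigraded Koszul homology of powers of edge ideals: upper bounds
-/

open Finset

namespace Pool.Agent.LibHelper95.Reg

set_option linter.unusedSectionVars false

variable {V : Type*} [Fintype V] [LinearOrder V]

/-- The upper Koszul complex of `J` in degree `a`. -/
def KK (J : Set (V → ℕ)) (a : V → ℕ) (S : Finset V) : Prop :=
  ∃ c ∈ J, ∀ x, c x + (if x ∈ S then 1 else 0) = a x

theorem KK_down {J : Set (V → ℕ)} (hJ : ∀ f ∈ J, ∀ g : V → ℕ, (∀ x, f x ≤ g x) → g ∈ J)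
    {a : V → ℕ} (v : V) (S : Finset V) (h : KK J a (insert v S)) : KK J a S := by
  obtain ⟨c, hc, hca⟩ := h
  by_cases hv : v ∈ S
  · rw [Finset.insert_eq_self.2 hv] at hca
    exact ⟨c, hc, hca⟩
  · refine ⟨fun x => c x + dl v x, hJ c hc _ (fun x => Nat.le_add_right _ _), fun x => ?_⟩
    have h1 := hca x
    show c x + dl v x + (if x ∈ S then 1 else 0) = a x
    by_cases hx : x = v
    · subst hx
      rw [if_pos (Finset.mem_insert_self _ _)] at h1
      rw [dl_self, if_neg hv]
      omega
    · rw [dl_ne hx]
      simp only [Finset.mem_insert, hx, false_or] at h1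
      omega

section Crit

variable {k : Type*} [Field k]

open Classical in
/-- Surjectivity of the relative boundary from the absence of top cycles. -/
theorem crit_surj (W : Finset V) (Gd : Finset V → Prop) (hGd : ∀ v T, Gd (insert v T) → Gd T)
    (s : ℕ)
    (hF : ∀ Z : Finset V → k, (∀ T, Z T ≠ 0 → T ⊆ W ∧ T.card = s + 1 ∧ Gd T) →
      (∀ R, R.card = s → bd Z R = 0) → ∀ T, Z T = 0)
    (i : ℕ) (hi : i + (s + 1) = W.card) (φ : Finset V → k)
    (hφ : ∀ S, φ S ≠ 0 → S ⊆ W ∧ Gd (W \ S) ∧ S.card = i) :
    ∃ ψ : Finset V → k, (∀ S, ψ S ≠ 0 → S ⊆ W ∧ Gd (W \ S) ∧ S.card = i + 1) ∧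
      ∀ S, S ⊆ W → Gd (W \ S) → S.card = i → φ S = bd ψ S := by
  let C : ℕ → Finset V → Prop := fun n S => S ⊆ W ∧ Gd (W \ S) ∧ S.card = n
  let cut : ℕ → (Finset V → k) → Finset V → k := fun n ψ S => if C n S then ψ S else 0
  let P : (Finset V → k) →ₗ[k] (Finset V → k) :=
    { toFun := fun ψ => cut i (bd (cut (i + 1) ψ))
      map_add' := by
        intro x y
        funext S
        show (if C i S then bd (cut (i + 1) (x + y)) S else 0) =
          (if C i S then bd (cut (i + 1) x) S else 0) + (if C i S then bd (cut (i + 1) y) S else 0)
        split_ifs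
        · rw [← bd_add]
          congr 1
          funext T
          show (if C (i + 1) T then x T + y T else 0) = (if C (i + 1) T then x T else 0) +
            (if C (i + 1) T then y T else 0)
          split_ifs <;> simp
        · simp
      map_smul' := by
        intro r x
        funext S
        show (if C i S then bd (cut (i + 1) (r • x)) S else 0) =
          r * (if C i S then bd (cut (i + 1) x) S else 0)
        split_ifs
        · unfold bd
          rw [Finset.mul_sum]
          refine Finset.sum_congr rfl fun v _ => ?_
          show _ * (if C (i + 1) _ then r * x _ else 0) = r * (_ * (if C (i + 1) _ then x _ else 0))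
          split_ifs <;> ring
        · simp }
  have hP : ∀ ψ S, P ψ S = if C i S then bd (cut (i + 1) ψ) S else 0 := fun _ _ => rfl
  by_cases hmem : φ ∈ LinearMap.range P
  · obtain ⟨ψ, hψ⟩ := hmem
    refine ⟨cut (i + 1) ψ, fun S hS => ?_, fun S h1 h2 h3 => ?_⟩
    · by_contra hc
      exact hS (if_neg hc)
    · rw [← hψ, hP, if_pos ⟨h1, h2, h3⟩]
  · exfalso
    obtain ⟨f, hf1, hf2⟩ := Submodule.exists_dual_map_eq_bot_of_notMem hmem inferInstance
    have hf3 : ∀ ψ, f (P ψ) = 0 := by
      intro ψ
      have : f (P ψ) ∈ (LinearMap.range P).map f := ⟨_, ⟨ψ, rfl⟩, rfl⟩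
      rw [hf2] at this
      exact this
    let z : Finset V → k := fun S => f (fun j => if S = j then 1 else 0)
    have hz : ∀ ψ : Finset V → k, f ψ = ∑ S, ψ S * z S := fun ψ => f.pi_apply_eq_sum_univ ψ
    -- the dual cocycle condition
    have hcoc : ∀ S', C (i + 1) S' →
        ∑ v ∈ S', (if C i (S'.erase v) then sgn k v (S'.erase v) * z (S'.erase v) else 0) = 0 := by
      intro S' hS'
      have h0 := hf3 (fun j => if S' = j then 1 else 0)
      rw [hz] at h0
      have h1 : ∀ S, P (fun j => if S' = j then 1 else 0) S * z S =
          ∑ v ∈ Sᶜ, if insert v S = S' ∧ C i S then sgn k v S * z S else 0 := by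
        intro S
        rw [hP]
        by_cases hS : C i S
        · rw [if_pos hS]
          unfold bd
          rw [Finset.sum_mul]
          refine Finset.sum_congr rfl fun v _ => ?_
          show sgn k v S * (if C (i + 1) (insert v S) then (if S' = insert v S then 1 else 0) else 0)
            * z S = _
          by_cases h : insert v S = S'
          · rw [h, if_pos hS', if_pos rfl, if_pos ⟨rfl, hS⟩]; ring
          · have h' : ¬ (S' = insert v S) := fun h' => h h'.symm
            have h'' : ¬ (insert v S = S' ∧ C i S) := fun h' => h h'.1
            rw [if_neg h', if_neg h'']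
            simp
        · rw [if_neg hS, zero_mul]
          symm
          refine Finset.sum_eq_zero fun v _ => ?_
          rw [if_neg (fun h' => hS h'.2)]
      rw [Finset.sum_congr rfl (fun S _ => h1 S)] at h0
      rw [Finset.sum_sigma', ← Finset.sum_filter] at h0
      refine Eq.trans ?_ h0
      rw [← Finset.sum_filter]
      refine Finset.sum_bij' (fun v _ => (⟨S'.erase v, v⟩ : (_ : Finset V) × V))
        (fun x _ => x.2) ?_ ?_ ?_ ?_ ?_
      · intro v hv
        rw [Finset.mem_filter] at hv
        rw [Finset.mem_filter]
        exact ⟨Finset.mem_sigma.2 ⟨Finset.mem_univ _, by simp⟩, Finset.insert_erase hv.1, hv.2⟩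
      · rintro ⟨S, v⟩ hx
        rw [Finset.mem_filter] at hx
        obtain ⟨hx1, hx2, hx3⟩ := hx
        have hv : v ∉ S := by
          have := (Finset.mem_sigma.1 hx1).2
          simpa using this
        have hx2' : insert v S = S' := hx2
        rw [Finset.mem_filter]
        refine ⟨by rw [← hx2']; exact Finset.mem_insert_self _ _, ?_⟩
        show C i (S'.erase v)
        rw [← hx2', Finset.erase_insert hv]
        exact hx3
      · intro v _; rfl
      · rintro ⟨S, v⟩ hx
        rw [Finset.mem_filter] at hx
        obtain ⟨hx1, hx2, hx3⟩ := hx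
        have hv : v ∉ S := by
          have := (Finset.mem_sigma.1 hx1).2
          simpa using this
        have hx2' : insert v S = S' := hx2
        simp only [← hx2', Finset.erase_insert hv]
      · intro v _; rfl
    -- the twisted cycle
    let pos : V → ℕ := fun v => (W.filter (· < v)).card
    let tw : Finset V → k := fun T => ∏ v ∈ T, (-1) ^ pos v
    have htw : ∀ T, tw T ≠ 0 := by
      intro T
      exact Finset.prod_ne_zero_iff.2 fun v _ => pow_ne_zero _ (by norm_num)
    let Z : Finset V → k := fun T =>
      if T ⊆ W ∧ T.card = s + 1 ∧ Gd T then tw T * z (W \ T) else 0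
    have hZ : ∀ T, Z T = 0 := by
      refine hF Z (fun T hT => ?_) (fun R hR => ?_)
      · by_contra hc
        exact hT (if_neg hc)
      · by_cases hRW : R ⊆ W ∧ Gd R
        · obtain ⟨hRW, hRG⟩ := hRW
          set S' := W \ R with hS'
          have hWS' : W \ S' = R := by
            rw [hS']; exact Finset.sdiff_sdiff_eq_self hRW
          have hS'c : S'.card = i + 1 := by
            rw [hS', Finset.card_sdiff_of_subset hRW]; omega
          have hC : C (i + 1) S' := ⟨Finset.sdiff_subset, by rw [hWS']; exact hRG, hS'c⟩
          have h1 := hcoc S' hC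
          have h2 : bd Z R = tw R * ∑ v ∈ S',
              (if C i (S'.erase v) then sgn k v (S'.erase v) * z (S'.erase v) else 0) := by
            unfold bd
            rw [Finset.mul_sum]
            have hsub : S' ⊆ Rᶜ := by
              intro v hv
              rw [hS', Finset.mem_sdiff] at hv
              simpa using hv.2
            rw [← Finset.sum_subset hsub]
            · refine Finset.sum_congr rfl fun v hv => ?_
              have hvW : v ∈ W := (Finset.mem_sdiff.1 hv).1
              have hvR : v ∉ R := (Finset.mem_sdiff.1 hv).2
              have hins : insert v R ⊆ W := Finset.insert_subset hvW hRW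
              have hcins : (insert v R).card = s + 1 := by
                rw [Finset.card_insert_of_notMem hvR, hR]
              have hdiff : W \ insert v R = S'.erase v := by
                rw [hS']
                ext w
                simp only [Finset.mem_sdiff, Finset.mem_insert, not_or, Finset.mem_erase]
                tauto
              have hdiff2 : W \ (S'.erase v) = insert v R := by
                rw [← hdiff]; exact Finset.sdiff_sdiff_eq_self hins
              show sgn k v R * (if insert v R ⊆ W ∧ (insert v R).card = s + 1 ∧ Gd (insert v R) then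
                tw (insert v R) * z (W \ insert v R) else 0) = _
              by_cases hg : Gd (insert v R)
              · rw [if_pos ⟨hins, hcins, hg⟩, if_pos, hdiff]
                · have e1 : tw (insert v R) = (-1) ^ pos v * tw R := Finset.prod_insert hvR
                  have e2 : sgn k v (S'.erase v) = sgn k v R * (-1) ^ pos v := by
                    have e3 : pos v = (R.filter (· < v)).card +
                        ((S'.erase v).filter (· < v)).card := by
                      show (W.filter (· < v)).card = _
                      rw [← Finset.card_union_of_disjoint]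
                      · congr 1
                        ext w
                        simp only [Finset.mem_filter, Finset.mem_union, Finset.mem_erase, hS',
                          Finset.mem_sdiff]
                        constructor
                        · rintro ⟨h1, h2⟩
                          by_cases h3 : w ∈ R
                          · exact Or.inl ⟨h3, h2⟩
                          · exact Or.inr ⟨⟨h2.ne, h1, h3⟩, h2⟩
                        · rintro (⟨h1, h2⟩ | ⟨⟨_, h1, _⟩, h2⟩)
                          · exact ⟨hRW h1, h2⟩
                          · exact ⟨h1, h2⟩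
                      · rw [Finset.disjoint_left]
                        intro w h1 h2
                        simp only [Finset.mem_filter, Finset.mem_erase, hS',
                          Finset.mem_sdiff] at h1 h2
                        exact h2.1.2.2 h1.1
                    rw [e3, pow_add, ← mul_assoc]
                    unfold sgn
                    rw [← pow_add, ← two_mul, pow_mul]
                    simp
                  rw [e1, e2]
                  ring
                · refine ⟨(Finset.erase_subset _ _).trans Finset.sdiff_subset, ?_, ?_⟩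
                  · rw [hdiff2]; exact hg
                  · rw [Finset.card_erase_of_mem hv, hS'c]; rfl
              · rw [if_neg (fun h => hg h.2.2), if_neg]
                · ring
                · rintro ⟨_, h, _⟩
                  rw [hdiff2] at h
                  exact hg h
            · intro v hv hv'
              have : ¬ (insert v R ⊆ W) := by
                intro h
                apply hv'
                rw [hS', Finset.mem_sdiff]
                exact ⟨h (Finset.mem_insert_self _ _), by simpa using hv⟩
              show sgn k v R * (if insert v R ⊆ W ∧ (insert v R).card = s + 1 ∧ Gd (insert v R) then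
                tw (insert v R) * z (W \ insert v R) else 0) = 0
              rw [if_neg (fun h => this h.1), mul_zero]
          rw [h2, h1, mul_zero]
        · unfold bd
          refine Finset.sum_eq_zero fun v _ => ?_
          show sgn k v R * (if insert v R ⊆ W ∧ (insert v R).card = s + 1 ∧ Gd (insert v R) then
                tw (insert v R) * z (W \ insert v R) else 0) = 0
          rw [if_neg, mul_zero]
          rintro ⟨h1, _, h3⟩
          exact hRW ⟨(Finset.subset_insert _ _).trans h1, hGd _ _ h3⟩
    apply hf1
    rw [hz]
    refine Finset.sum_eq_zero fun S _ => ?_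
    by_cases hS : φ S = 0
    · rw [hS, zero_mul]
    · obtain ⟨h1, h2, h3⟩ := hφ S hS
      have h4 := hZ (W \ S)
      have h5 : W \ (W \ S) = S := Finset.sdiff_sdiff_eq_self h1
      have h6 : Z (W \ S) = tw (W \ S) * z (W \ (W \ S)) := by
        refine if_pos ⟨Finset.sdiff_subset, ?_, h2⟩
        rw [Finset.card_sdiff_of_subset h1]; omega
      rw [h6, h5] at h4
      rw [(mul_eq_zero.1 h4).resolve_left (htw _), mul_zero]

end Crit

variable {G : SimpleGraph V} {M : Multiset (Sym2 V)} {k : Type*} [Field k]

/-- There are no `3`-cycles over `k` on the complex of `Rel`-independent sets. -/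
def NoCyc (k : Type*) [Field k] (G : SimpleGraph V) (M : Multiset (Sym2 V)) : Prop :=
  ∀ Z : Finset V → k, (∀ T, Z T ≠ 0 → T.card = 4 ∧ RInd G M T) →
    (∀ R, R.card = 3 → bd Z R = 0) → ∀ T, Z T = 0

/-- Indicator. -/
def ic (S : Finset V) (x : V) : ℕ := if x ∈ S then 1 else 0

theorem ic_le (S : Finset V) (x : V) : ic S x ≤ 1 := by unfold ic; split_ifs <;> omega

theorem ic_mem {S : Finset V} {x : V} (h : x ∈ S) : ic S x = 1 := if_pos h

theorem ic_notMem {S : Finset V} {x : V} (h : x ∉ S) : ic S x = 0 := if_neg h

theorem sum_ic (S : Finset V) : ∑ x, ic S x = S.card := by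
  unfold ic; simp

theorem RV_step (hG : Good G) (hM : IsE G M) {q : ℕ} (hc : M.card = q) {A : Finset (V → ℕ)}
    (h1 : ∀ m ∈ A, m ∈ Gn G q ∧ lexlt (dg M) m) (h2 : ∀ m ∈ Gn G q, lexlt (dg M) m → m ∈ A)
    {s : ℕ} (hs : s = 5 ∨ (s = 4 ∧ NoCyc k G M)) (a : V → ℕ) (i : ℕ)
    (ha : 2 * q + i + s ≤ ∑ x, a x) :
    RV k (KK (JJ G q (insert (dg M) A)) a) (KK (JJ G q A) a) i := by
  have hsum : ∑ x, dg M x = 2 * q := by rw [sum_dg hM, hc]
  set L : (V → ℕ) → Prop := fun f => (fun x => f x + dg M x) ∈ JJ G q A with hLdef
  have hLup : ∀ f g : V → ℕ, L f → (∀ x, f x ≤ g x) → L g := by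
    intro f g hf hfg
    exact JJ_up hf fun x => Nat.add_le_add_right (hfg x) _
  have hLrel : ∀ f : V → ℕ, ∀ u v, Rel G M u v → (∀ x, dl u x + dl v x ≤ f x) → L f :=
    fun f u v hr hf => mem_JJ_of_rel hc hr hf
  have hLstruct : ∀ f : V → ℕ, L f → (∃ u, 1 ≤ f u ∧ L (dl u)) ∨
      ∃ u v, Rel G M u v ∧ ∀ x, dl u x + dl v x ≤ f x := fun f hf => colon_struct hM hc h1 h2 hf
  have hD : ∀ v S, KK (JJ G q (insert (dg M) A)) a (insert v S) →
      KK (JJ G q (insert (dg M) A)) a S := KK_down fun f hf g hfg => JJ_up hf hfg
  have hD' : ∀ v S, KK (JJ G q A) a (insert v S) →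
      KK (JJ G q A) a S := KK_down fun f hf g hfg => JJ_up hf hfg
  have C_iff : ∀ S, (KK (JJ G q (insert (dg M) A)) a S ∧ ¬ KK (JJ G q A) a S) ↔
      ∃ f : V → ℕ, ¬ L f ∧ ∀ x, f x + dg M x + ic S x = a x := by
    intro S
    constructor
    · rintro ⟨⟨c, hcJ, hca⟩, hn⟩
      have hcn : c ∉ JJ G q A := fun h => hn ⟨c, h, hca⟩
      have hge : ∀ x, dg M x ≤ c x := by
        rcases hcJ with hcJ | ⟨m, hm, hmc⟩
        · exact absurd (Or.inl hcJ) hcn
        · rcases Finset.mem_insert.1 hm with rfl | hm
          · exact hmc
          · exact absurd (Or.inr ⟨m, hm, hmc⟩) hcn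
      refine ⟨fun x => c x - dg M x, fun hL => hcn ?_, fun x => ?_⟩
      · have : (fun x => c x - dg M x + dg M x) = c := by
          funext x
          have := hge x
          omega
        rw [← this]
        exact hL
      · have h3 := hge x
        have h4 : c x + ic S x = a x := hca x
        show c x - dg M x + dg M x + ic S x = a x
        omega
    · rintro ⟨f, hf, hfa⟩
      refine ⟨⟨fun x => f x + dg M x, Or.inr ⟨dg M, Finset.mem_insert_self _ _,
        fun x => Nat.le_add_left _ _⟩, fun x => hfa x⟩, ?_⟩
      rintro ⟨c, hcJ, hca⟩
      apply hf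
      have : (fun x => f x + dg M x) = c := by
        funext x
        have h3 := hfa x
        have h4 : c x + ic S x = a x := hca x
        omega
      show (fun x => f x + dg M x) ∈ JJ G q A
      rw [this]
      exact hcJ
  by_cases hcone : ∃ j, ¬ Rel G M j j ∧ ¬ L (dl j) ∧ dg M j + 2 ≤ a j
  · obtain ⟨j, hj1, hj2, hj3⟩ := hcone
    refine RV_of_cone hD hD' j fun S hjS => ?_
    rw [C_iff, C_iff]
    constructor
    · rintro ⟨f, hf, hfa⟩
      have hfj := hfa j
      rw [ic_notMem hjS] at hfj
      refine ⟨fun x => f x - dl j x, fun hL => hf (hLup _ _ hL fun x => Nat.sub_le _ _),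
        fun x => ?_⟩
      have h3 := hfa x
      show f x - dl j x + dg M x + ic (insert j S) x = a x
      by_cases hx : x = j
      · subst hx
        rw [dl_self, ic_mem (Finset.mem_insert_self _ _)]
        omega
      · have : ic (insert j S) x = ic S x := by unfold ic; simp [hx]
        rw [dl_ne hx, this]
        omega
    · rintro ⟨f, hf, hfa⟩
      have hfj := hfa j
      rw [ic_mem (Finset.mem_insert_self _ _)] at hfj
      refine ⟨fun x => f x + dl j x, fun hL => hf ?_, fun x => ?_⟩
      · rcases hLstruct _ hL with ⟨u, hu, huL⟩ | ⟨u, v, huv, hle⟩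
        · have huj : u ≠ j := fun h => hj2 (h ▸ huL)
          have hu' : 1 ≤ f u + dl j u := hu
          rw [dl_ne huj] at hu'
          refine hLup _ _ huL fun x => ?_
          by_cases hx : x = u
          · subst hx; rw [dl_self]; exact hu'
          · rw [dl_ne hx]; exact Nat.zero_le _
        · refine hLrel f u v huv fun x => ?_
          have h3 : dl u x + dl v x ≤ f x + dl j x := hle x
          by_cases hx : x = j
          · subst hx
            have h4 : dl u x + dl v x ≤ 1 := by
              by_cases hux : x = u
              · by_cases hvx : x = v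
                · subst hux; subst hvx
                  exact absurd huv hj1
                · rw [dl_ne hvx]; have := dl_le u x; omega
              · rw [dl_ne hux]; have := dl_le v x; omega
            omega
          · rw [dl_ne hx] at h3
            exact h3
      · have h3 := hfa x
        show f x + dl j x + dg M x + ic S x = a x
        by_cases hx : x = j
        · subst hx
          rw [dl_self, ic_notMem hjS]
          omega
        · have : ic (insert j S) x = ic S x := by unfold ic; simp [hx]
          rw [dl_ne hx]
          omega
  · push Not at hcone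
    -- the monomials in the relevant degree are squarefree
    have hT : ∀ (S : Finset V) (f : V → ℕ), ¬ L f → (∀ x, f x + dg M x + ic S x = a x) →
        (∀ x, f x = ic (Finset.univ.filter fun x => f x = 1) x) ∧
        RInd G M (Finset.univ.filter fun x => f x = 1) ∧
        (Finset.univ.filter fun x => f x = 1).card + 2 * q + S.card = ∑ x, a x := by
      intro S f hf hfa
      have hle : ∀ x, f x ≤ 1 := by
        intro x
        by_contra hcon
        push Not at hcon
        have h3 := hfa x
        by_cases hx : Rel G M x x
        · apply hf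
          refine hLrel f x x hx fun y => ?_
          by_cases hy : y = x
          · subst hy; rw [dl_self]; omega
          · rw [dl_ne hy]; exact Nat.zero_le _
        · by_cases hx2 : L (dl x)
          · apply hf
            refine hLup _ _ hx2 fun y => ?_
            by_cases hy : y = x
            · subst hy; rw [dl_self]; omega
            · rw [dl_ne hy]; exact Nat.zero_le _
          · have := hcone x hx hx2
            omega
      have he : ∀ x, f x = ic (Finset.univ.filter fun x => f x = 1) x := by
        intro x
        have h3 := hle x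
        unfold ic
        simp only [Finset.mem_filter, Finset.mem_univ, true_and]
        split_ifs with h4
        · exact h4
        · omega
      refine ⟨he, ?_, ?_⟩
      · intro u hu v hv huv hr
        simp only [Finset.mem_filter, Finset.mem_univ, true_and] at hu hv
        apply hf
        refine hLrel f u v hr fun y => ?_
        by_cases hy : y = u
        · subst hy; rw [dl_self, dl_ne huv]; omega
        · rw [dl_ne hy]
          by_cases hy2 : y = v
          · subst hy2; rw [dl_self]; omega
          · rw [dl_ne hy2]; exact Nat.zero_le _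
      · have h3 : ∑ x, a x = ∑ x, f x + ∑ x, dg M x + ∑ x, ic S x := by
          rw [← Finset.sum_add_distrib, ← Finset.sum_add_distrib]
          exact Finset.sum_congr rfl fun x _ => (hfa x).symm
        have h4 : ∑ x, f x = (Finset.univ.filter fun x => f x = 1).card := by
          rw [← sum_ic]
          exact Finset.sum_congr rfl fun x _ => he x
        rw [h3, h4, hsum, sum_ic]
    by_cases hex : ∃ S f, ¬ L f ∧ (∀ x, f x + dg M x + ic S x = a x) ∧ S.card = i
    swap
    · refine RV_of_empty fun S hS hSi => ?_
      by_contra hn
      obtain ⟨f, hf, hfa⟩ := (C_iff S).1 ⟨hS, hn⟩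
      exact hex ⟨S, f, hf, hfa, hSi⟩
    obtain ⟨S₀, f₀, hf₀, hfa₀, hS₀⟩ := hex
    obtain ⟨t1, t2, t3⟩ := hT S₀ f₀ hf₀ hfa₀
    set T₀ := Finset.univ.filter fun x => f₀ x = 1 with hT₀
    have hle4 := hG.alpha T₀ (t2.ind hM)
    rcases hs with rfl | ⟨rfl, hNC⟩
    · omega
    have hT4 : T₀.card = 4 := by omega
    have hatot : ∑ x, a x = 2 * q + i + 4 := by omega
    have ha1 : ∀ x, dg M x ≤ a x ∧ a x ≤ dg M x + 1 := by
      intro x
      have h3 := hfa₀ x
      refine ⟨by omega, ?_⟩
      by_contra hcon
      push Not at hcon
      have h4 := ic_le S₀ x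
      have h5 : 1 ≤ f₀ x := by omega
      have h6 : x ∈ T₀ := by
        rw [hT₀, Finset.mem_filter]
        refine ⟨Finset.mem_univ _, ?_⟩
        have h9 := t1 x
        have h10 := ic_le T₀ x
        omega
      have h7 := no_square hG hM hT4 t2 h6
      by_cases h8 : L (dl x)
      · apply hf₀
        refine hLup _ _ h8 fun y => ?_
        by_cases hy : y = x
        · subst hy; rw [dl_self]; omega
        · rw [dl_ne hy]; exact Nat.zero_le _
      · have := hcone x h7 h8
        omega
    set W := Finset.univ.filter fun x => a x = dg M x + 1 with hW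
    have hWa : ∀ x, a x = dg M x + ic W x := by
      intro x
      have h3 := ha1 x
      unfold ic
      rw [hW]
      simp only [Finset.mem_filter, Finset.mem_univ, true_and]
      split_ifs <;> omega
    have hWc : i + (3 + 1) = W.card := by
      have h3 : ∑ x, a x = ∑ x, dg M x + ∑ x, ic W x := by
        rw [← Finset.sum_add_distrib]
        exact Finset.sum_congr rfl fun x _ => hWa x
      rw [hsum, sum_ic] at h3
      omega
    have hWS : ∀ S ⊆ W, ∀ x, ic (W \ S) x + ic S x = ic W x := by
      intro S hS x
      unfold ic
      simp only [Finset.mem_sdiff]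
      by_cases h3 : x ∈ S
      · simp [h3, hS h3]
      · simp [h3]
    set Gd : Finset V → Prop := fun T => ¬ L (ic T) with hGdef
    have C_iff2 : ∀ S, (KK (JJ G q (insert (dg M) A)) a S ∧ ¬ KK (JJ G q A) a S) ↔
        S ⊆ W ∧ Gd (W \ S) := by
      intro S
      rw [C_iff]
      constructor
      · rintro ⟨f, hf, hfa⟩
        have hSW : S ⊆ W := by
          intro x hx
          have h3 := hfa x
          rw [ic_mem hx] at h3
          have h4 := hWa x
          have h5 := ic_le W x
          by_contra h6
          rw [ic_notMem h6] at h4
          omega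
        refine ⟨hSW, ?_⟩
        have : f = ic (W \ S) := by
          funext x
          have h3 := hfa x
          have h4 := hWa x
          have h5 := hWS S hSW x
          omega
        rw [this] at hf
        exact hf
      · rintro ⟨hSW, hg⟩
        refine ⟨ic (W \ S), hg, fun x => ?_⟩
        have h4 := hWa x
        have h5 := hWS S hSW x
        omega
    refine RV_of_surj hD fun φ hφ => ?_
    obtain ⟨ψ, hψ1, hψ2⟩ := crit_surj (k := k) W Gd (fun v T hT' hL => hT' (hLup _ _ hL fun x => by
        unfold ic
        by_cases h3 : x ∈ T
        · simp [h3]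
        · simp [h3])) 3 (fun Z hZ hZ2 => hNC Z (fun T hT' => by
        obtain ⟨_, h4, h5⟩ := hZ T hT'
        refine ⟨h4, fun u hu v hv huv hr => h5 (hLrel _ u v hr fun y => ?_)⟩
        by_cases hy : y = u
        · subst hy; rw [dl_self, dl_ne huv, ic_mem hu]
        · rw [dl_ne hy]
          by_cases hy2 : y = v
          · subst hy2; rw [dl_self, ic_mem hv]
          · rw [dl_ne hy2]; exact Nat.zero_le _) hZ2) i hWc φ (fun S hS => by
        obtain ⟨h3, h4⟩ := hφ S hS
        obtain ⟨h5, h6⟩ := (C_iff2 S).1 h3
        exact ⟨h5, h6, h4⟩)
    refine ⟨ψ, fun S hS => ?_, fun S h3 h4 h5 => ?_⟩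
    · obtain ⟨h3, h4, h5⟩ := hψ1 S hS
      exact ⟨((C_iff2 S).2 ⟨h3, h4⟩).1, h5⟩
    · obtain ⟨h6, h7⟩ := (C_iff2 S).1 ⟨h3, h4⟩
      exact hψ2 S h6 h7 h5

end Pool.Agent.LibHelper95.Reg
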