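import Mathlib
import Pool.Agent.Lib_helper95.PowerHomology

/-!
# Lower bounds for the regularity of powers of edge ideals (exponent form)
-/

open Finset

namespace Pool.Agent.LibHelper95.Reg

set_option linter.unusedSectionVars false

variable {V : Type*} [Fintype V] [LinearOrder V]
variable {G : SimpleGraph V} {k : Type*} [Field k]

/-- Adjunction for the boundary. -/
theorem sum_mul_bd (z Ψ : Finset V → k) :
    ∑ S, z S * bd Ψ S = ∑ S', Ψ S' * ∑ v ∈ S', sgn k v (S'.erase v) * z (S'.erase v) := by
  unfold bd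
  simp only [Finset.mul_sum]
  rw [Finset.sum_sigma', Finset.sum_sigma']
  refine Finset.sum_bij' (fun x _ => (⟨insert x.2 x.1, x.2⟩ : (_ : Finset V) × V))
    (fun x _ => (⟨x.1.erase x.2, x.2⟩ : (_ : Finset V) × V)) ?_ ?_ ?_ ?_ ?_
  · rintro ⟨S, v⟩ hx
    simp only [Finset.mem_sigma, Finset.mem_univ, true_and, Finset.mem_compl] at hx ⊢
    exact Finset.mem_insert_self _ _
  · rintro ⟨S, v⟩ hx
    simp only [Finset.mem_sigma, Finset.mem_univ, true_and, Finset.mem_compl] at hx ⊢
    exact Finset.notMem_erase _ _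
  · rintro ⟨S, v⟩ hx
    simp only [Finset.mem_sigma, Finset.mem_univ, true_and, Finset.mem_compl] at hx
    simp only [Finset.erase_insert hx]
  · rintro ⟨S, v⟩ hx
    simp only [Finset.mem_sigma, Finset.mem_univ, true_and] at hx
    simp only [Finset.insert_erase hx]
  · rintro ⟨S, v⟩ hx
    simp only [Finset.mem_sigma, Finset.mem_univ, true_and, Finset.mem_compl] at hx
    simp only [Finset.erase_insert hx]
    ring

/-- The basis chain of a set. -/
def dt (k : Type*) [Field k] (F S : Finset V) : k := if S = F then 1 else 0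

theorem bd_dt {F S : Finset V} (h : bd (dt k F) S ≠ 0) : ∃ v ∈ F, S = F.erase v := by
  unfold bd at h
  obtain ⟨v, hv, hne⟩ := Finset.exists_ne_zero_of_sum_ne_zero h
  have h1 : dt k F (insert v S) ≠ 0 := fun h0 => hne (by rw [h0, mul_zero])
  unfold dt at h1
  have h2 : insert v S = F := by
    by_contra hc
    exact h1 (if_neg hc)
  have hvS : v ∉ S := by simpa using hv
  exact ⟨v, h2 ▸ Finset.mem_insert_self _ _, by rw [← h2, Finset.erase_insert hvS]⟩

theorem bd_dt_erase {F : Finset V} {v : V} (hv : v ∈ F) :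
    bd (dt k F) (F.erase v) = sgn k v (F.erase v) := by
  unfold bd
  rw [Finset.sum_eq_single v]
  · rw [Finset.insert_erase hv]; unfold dt; rw [if_pos rfl, mul_one]
  · intro w hw hwv
    unfold dt
    rw [if_neg, mul_zero]
    intro h
    have : v ∈ insert w (F.erase v) := by rw [h]; exact hv
    rw [Finset.mem_insert] at this
    rcases this with h1 | h1
    · exact hwv h1.symm
    · exact Finset.notMem_erase _ _ h1
  · intro h
    exact absurd (by simp) h

theorem Pw_of_edge {x y : V} (hxy : G.Adj x y) (q : ℕ) {f : V → ℕ}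
    (hf : ∀ v, q * dl x v + q * dl y v ≤ f v) : f ∈ Pw G q := by
  refine ⟨Multiset.replicate q s(x, y), ?_, by simp, fun v => le_trans ?_ (hf v)⟩
  · intro e he
    rw [Multiset.eq_of_mem_replicate he]
    exact hxy
  · clear hf
    induction q with
    | zero => simp [dg]
    | succ q ih =>
      rw [Multiset.replicate_succ, dg_cons hxy.ne]
      linarith

theorem Pw_of_edge' {x y u t : V} (hxy : G.Adj x y) (hut : G.Adj u t) (q : ℕ) {f : V → ℕ}
    (hf : ∀ v, q * dl x v + q * dl y v + dl u v + dl t v ≤ f v) : f ∈ Pw G (q + 1) := by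
  refine ⟨s(u, t) ::ₘ Multiset.replicate q s(x, y), ?_, by simp, fun v => le_trans ?_ (hf v)⟩
  · refine IsE.cons (fun e he => ?_) hut
    rw [Multiset.eq_of_mem_replicate he]
    exact hxy
  · clear hf
    rw [dg_cons hut.ne]
    have : dg (Multiset.replicate q s(x, y)) v ≤ q * dl x v + q * dl y v := by
      induction q with
      | zero => simp [dg]
      | succ q ih =>
        rw [Multiset.replicate_succ, dg_cons hxy.ne]
        linarith
    omega

/-- A homology class surviving in all powers. -/
theorem not_AV_of_edge {x y : V} (hxy : G.Adj x y) (W : Finset V) (hxW : x ∉ W) (hyW : y ∉ W)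
    (hxn : ∀ w ∈ W, ¬ G.Adj x w) (hyn : ∀ w ∈ W, ¬ G.Adj y w) {s : ℕ} (z : Finset V → k)
    (hz : ∀ S, z S ≠ 0 → S ⊆ W ∧ S.card + s = W.card ∧ Ind G (W \ S))
    (hcyc : ∀ S' ⊆ W, S'.card + s = W.card + 1 →
      ∑ v ∈ S', sgn k v (S'.erase v) * z (S'.erase v) = 0)
    (T₀ : Finset V) (hT₀W : T₀ ⊆ W) (hT₀c : T₀.card = s)
    (hmax : ∀ w ∈ W, w ∉ T₀ → ∃ t ∈ T₀, G.Adj w t) (hz0 : z (W \ T₀) ≠ 0) (q : ℕ) :
    ∃ (a : V → ℕ) (i : ℕ), ∑ v, a v = i + (2 * (q + 1) + s) ∧ ¬ AV k (KK (Pw G (q + 1)) a) i := by
  have hxyne := hxy.ne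
  set a : V → ℕ := fun v => ic W v + (q + 1) * dl x v + (q + 1) * dl y v with ha
  set F := insert x (W \ T₀) with hF
  have hxF : x ∉ W \ T₀ := fun h => hxW (Finset.mem_sdiff.1 h).1
  have hcardW : (W \ T₀).card + s = W.card := by
    rw [Finset.card_sdiff_of_subset hT₀W, hT₀c]
    have := Finset.card_le_card hT₀W
    omega
  have hax : a x = q + 1 := by
    simp only [ha, ic_notMem hxW, dl_self, dl_ne hxyne]; ring
  have hay : a y = q + 1 := by
    simp only [ha, ic_notMem hyW, dl_self, dl_ne hxyne.symm]; ring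
  have haW : ∀ w ∈ W, a w = 1 := by
    intro w hw
    have h1 : w ≠ x := fun h => hxW (h ▸ hw)
    have h2 : w ≠ y := fun h => hyW (h ▸ hw)
    simp only [ha, ic_mem hw, dl_ne h1, dl_ne h2]
    ring
  have ha0 : ∀ w, w ∉ W → w ≠ x → w ≠ y → a w = 0 := by
    intro w hw h1 h2
    simp only [ha, ic_notMem hw, dl_ne h1, dl_ne h2]; ring
  refine ⟨a, (W \ T₀).card, ?_, fun hAV => ?_⟩
  · simp only [ha, Finset.sum_add_distrib, ← Finset.mul_sum, sum_ic]
    have h1 : ∀ u : V, ∑ v, dl u v = 1 := by intro u; simp [dl]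
    rw [h1, h1]
    omega
  -- the cycle
  obtain ⟨Ψ, hΨ1, hΨ2⟩ := hAV (bd (dt k F)) (by
    intro S hS
    obtain ⟨v, hv, rfl⟩ := bd_dt hS
    refine ⟨?_, ?_⟩
    · rw [hF] at hv
      rcases Finset.mem_insert.1 hv with rfl | hv
      · rw [hF, Finset.erase_insert hxF]
        refine ⟨fun u => ic T₀ u + (q + 1) * dl v u + (q + 1) * dl y u,
          Pw_of_edge hxy (q + 1) fun u => ?_, fun u => ?_⟩
        · show _ ≤ ic T₀ u + (q + 1) * dl v u + (q + 1) * dl y u
          omega
        · show ic T₀ u + (q + 1) * dl v u + (q + 1) * dl y u + ic (W \ T₀) u =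
            ic W u + (q + 1) * dl v u + (q + 1) * dl y u
          have : ic T₀ u + ic (W \ T₀) u = ic W u := by
            unfold ic
            simp only [Finset.mem_sdiff]
            by_cases h3 : u ∈ T₀
            · simp [h3, hT₀W h3]
            · simp [h3]
          omega
      · have hvW := (Finset.mem_sdiff.1 hv).1
        have hvT := (Finset.mem_sdiff.1 hv).2
        have hvx : v ≠ x := fun h => hxW (h ▸ hvW)
        have hvy : v ≠ y := fun h => hyW (h ▸ hvW)
        obtain ⟨t, htT, hvt⟩ := hmax v hvW hvT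
        have htW := hT₀W htT
        have htx : t ≠ x := fun h => hxW (h ▸ htW)
        have hty : t ≠ y := fun h => hyW (h ▸ htW)
        refine ⟨fun u => ic T₀ u + dl v u + q * dl x u + (q + 1) * dl y u,
          Pw_of_edge' hxy hvt q fun u => ?_, fun u => ?_⟩
        · show _ ≤ ic T₀ u + dl v u + q * dl x u + (q + 1) * dl y u
          have : dl t u ≤ ic T₀ u := by
            by_cases h3 : u = t
            · subst h3; rw [dl_self, ic_mem htT]
            · rw [dl_ne h3]; exact Nat.zero_le _
          have h4 : q * dl y u ≤ (q + 1) * dl y u := Nat.mul_le_mul_right _ (by omega)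
          omega
        · show ic T₀ u + dl v u + q * dl x u + (q + 1) * dl y u +
            (if u ∈ F.erase v then 1 else 0) = ic W u + (q + 1) * dl x u + (q + 1) * dl y u
          have h5 : (q + 1) * dl x u = q * dl x u + dl x u := by ring
          have h6 : ic T₀ u + dl v u + (if u ∈ F.erase v then 1 else 0) = ic W u + dl x u := by
            rw [hF]
            unfold ic dl
            simp only [Finset.mem_erase, Finset.mem_insert, Finset.mem_sdiff]
            by_cases h7 : u = x
            · subst h7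
              have h10 : u ∉ T₀ := fun h => hxW (hT₀W h)
              simp [hxW, hvx.symm, h10]
            · by_cases h8 : u = v
              · subst h8
                simp [hvT, hvW, h7]
              · by_cases h9 : u ∈ T₀
                · simp [h7, h8, h9, hT₀W h9]
                · simp [h7, h8, h9]
          omega
    · rw [Finset.card_erase_of_mem hv, hF, Finset.card_insert_of_notMem hxF]
      rfl) (bd_bd _)
  -- pair with `z`
  have h1 : ∑ S, z S * bd (dt k F) S = z (W \ T₀) * sgn k x (W \ T₀) := by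
    rw [Finset.sum_eq_single (W \ T₀)]
    · congr 1
      have := bd_dt_erase (k := k) (F := F) (v := x) (Finset.mem_insert_self _ _)
      rw [hF, Finset.erase_insert hxF] at this
      rw [hF]
      exact this
    · intro S _ hS
      by_contra hne
      have hzS : z S ≠ 0 := fun h => hne (by rw [h, zero_mul])
      have hbS : bd (dt k F) S ≠ 0 := fun h => hne (by rw [h, mul_zero])
      obtain ⟨v, hv, rfl⟩ := bd_dt hbS
      have h2 := (hz _ hzS).1
      by_cases hvx : v = x
      · subst hvx
        rw [hF, Finset.erase_insert hxF] at hS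
        exact hS rfl
      · exact hxW (h2 (Finset.mem_erase.2 ⟨fun h => hvx h.symm, Finset.mem_insert_self _ _⟩))
    · intro h; exact absurd (Finset.mem_univ _) h
  have h2 : ∑ S, z S * bd (dt k F) S = 0 := by
    have h3 : ∀ S, z S * bd (dt k F) S = z S * bd Ψ S := fun S => by rw [hΨ2]
    rw [Finset.sum_congr rfl (fun S _ => h3 S), sum_mul_bd]
    refine Finset.sum_eq_zero fun S' _ => ?_
    by_cases hΨ : Ψ S' = 0
    · rw [hΨ, zero_mul]
    obtain ⟨hK, hc'⟩ := hΨ1 S' hΨ
    by_cases hS'W : S' ⊆ W
    · rw [hcyc S' hS'W (by omega), mul_zero]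
    · rw [Finset.sum_eq_zero, mul_zero]
      intro v hv
      by_contra hne
      have hzS : z (S'.erase v) ≠ 0 := fun h => hne (by rw [h, mul_zero])
      obtain ⟨h4, h5, h6⟩ := hz _ hzS
      have hvW : v ∉ W := by
        intro hvW
        apply hS'W
        intro w hw
        by_cases hwv : w = v
        · rw [hwv]; exact hvW
        · exact h4 (Finset.mem_erase.2 ⟨hwv, hw⟩)
      obtain ⟨c, ⟨M, hM, hMc, hMd⟩, hca⟩ := hK
      have hav : 1 ≤ a v := by
        have := hca v
        rw [if_pos hv] at this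
        omega
      have hvxy : v = x ∨ v = y := by
        by_contra hcon
        push Not at hcon
        have := ha0 v hvW hcon.1 hcon.2
        omega
      have hav' : a v = q + 1 := by rcases hvxy with rfl | rfl <;> assumption
      -- every vertex covered by `M` is in `W \ S'.erase v` or is `x` or `y`
      have hcov : ∀ p p', s(p, p') ∈ M → p ∈ W \ S'.erase v ∨ p = x ∨ p = y := by
        intro p p' hp
        have h7 := dg_pos_of_mem hp
        have h8 := hMd p
        have h9 := hca p
        by_contra hcon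
        rw [not_or, not_or, Finset.mem_sdiff, not_and_or, not_not] at hcon
        obtain ⟨h10 | h10, h11, h12⟩ := hcon
        · have := ha0 p h10 h11 h12
          omega
        · have h13 := haW p (h4 h10)
          rw [if_pos (Finset.mem_of_mem_erase h10)] at h9
          omega
      have hedge : ∀ e ∈ M, v ∈ e := by
        intro e he
        induction e using Sym2.ind with
        | _ p p' =>
          have h7 := hcov p p' he
          have h8 := hcov p' p (by rw [Sym2.eq_swap]; exact he)
          have hadj : G.Adj p p' := hM _ he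
          have hxyin : s(p, p') = s(x, y) := by
            rcases h7 with h7 | rfl | rfl
            · rcases h8 with h8 | rfl | rfl
              · exact absurd hadj (h6 p h7 p' h8)
              · exact absurd hadj.symm (hxn p (Finset.mem_sdiff.1 h7).1)
              · exact absurd hadj.symm (hyn p (Finset.mem_sdiff.1 h7).1)
            · rcases h8 with h8 | rfl | rfl
              · exact absurd hadj (hxn p' (Finset.mem_sdiff.1 h8).1)
              · exact absurd hadj G.irrefl
              · rfl
            · rcases h8 with h8 | rfl | rfl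
              · exact absurd hadj (hyn p' (Finset.mem_sdiff.1 h8).1)
              · exact Sym2.eq_swap
              · exact absurd hadj G.irrefl
          rw [hxyin]
          rcases hvxy with rfl | rfl
          · exact Sym2.mem_mk_left _ _
          · exact Sym2.mem_mk_right _ _
      have h7 : dg M v = q + 1 := by
        unfold dg
        rw [Multiset.countP_eq_card.2 hedge, hMc]
      have h8 := hMd v
      have h9 := hca v
      rw [if_pos hv] at h9
      omega
  rw [h1] at h2
  rcases mul_eq_zero.1 h2 with h3 | h3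
  · exact hz0 h3
  · exact sgn_ne_zero _ _ h3

/-- A homology class for `q = 1`. -/
theorem not_AV_one (W : Finset V) {s : ℕ} (z : Finset V → k)
    (hz : ∀ S, z S ≠ 0 → S ⊆ W ∧ S.card + s = W.card ∧ Ind G (W \ S))
    (hcyc : ∀ S' ⊆ W, S'.card + s = W.card + 1 →
      ∑ v ∈ S', sgn k v (S'.erase v) * z (S'.erase v) = 0)
    (T₀ : Finset V) (hT₀W : T₀ ⊆ W) (hT₀c : T₀.card = s) (hWs : s < W.card)
    (hmax : ∀ w ∈ W, w ∉ T₀ → ∃ t ∈ T₀, G.Adj w t) (hz0 : z (W \ T₀) ≠ 0) :
    ∃ (a : V → ℕ) (i : ℕ), ∑ v, a v = i + (s + 1) ∧ ¬ AV k (KK (Pw G 1) a) i := by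
  have hcardW : (W \ T₀).card + s = W.card := by
    rw [Finset.card_sdiff_of_subset hT₀W, hT₀c]
    have := Finset.card_le_card hT₀W
    omega
  refine ⟨ic W, (W \ T₀).card - 1, ?_, fun hAV => ?_⟩
  · rw [sum_ic]; omega
  obtain ⟨Ψ, hΨ1, hΨ2⟩ := hAV (bd (dt k (W \ T₀))) (by
    intro S hS
    obtain ⟨v, hv, rfl⟩ := bd_dt hS
    refine ⟨?_, Finset.card_erase_of_mem hv⟩
    have hvW := (Finset.mem_sdiff.1 hv).1
    have hvT := (Finset.mem_sdiff.1 hv).2
    obtain ⟨t, htT, hvt⟩ := hmax v hvW hvT
    have htW := hT₀W htT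
    refine ⟨fun u => ic T₀ u + dl v u, Pw_of_edge hvt 1 fun u => ?_, fun u => ?_⟩
    · show _ ≤ ic T₀ u + dl v u
      have : dl t u ≤ ic T₀ u := by
        by_cases h3 : u = t
        · subst h3; rw [dl_self, ic_mem htT]
        · rw [dl_ne h3]; exact Nat.zero_le _
      omega
    · show ic T₀ u + dl v u + (if u ∈ (W \ T₀).erase v then 1 else 0) = ic W u
      unfold ic dl
      simp only [Finset.mem_erase, Finset.mem_sdiff]
      by_cases h8 : u = v
      · subst h8
        simp [hvT, hvW]
      · by_cases h9 : u ∈ T₀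
        · simp [h8, h9, hT₀W h9]
        · simp [h8, h9]) (bd_bd _)
  have hKW : ∀ S, KK (Pw G 1) (ic W) S → S ⊆ W ∧ ¬ Ind G (W \ S) := by
    rintro S ⟨c, ⟨M, hM, hMc, hMd⟩, hca⟩
    have hSW : S ⊆ W := by
      intro u hu
      have h1 := hca u
      rw [if_pos hu] at h1
      by_contra h2
      rw [ic_notMem h2] at h1
      omega
    refine ⟨hSW, fun hI => ?_⟩
    obtain ⟨e, he⟩ := Multiset.card_pos_iff_exists_mem.1 (by omega : 0 < M.card)
    have hcov : ∀ p p', s(p, p') ∈ M → p ∈ W \ S := by
      intro p p' hp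
      have h7 := dg_pos_of_mem hp
      have h8 := hMd p
      have h9 := hca p
      have h10 := ic_le W p
      rw [Finset.mem_sdiff]
      constructor
      · by_contra h; rw [ic_notMem h] at h9; omega
      · intro h; rw [if_pos h] at h9; omega
    induction e using Sym2.ind with
    | _ p p' =>
      exact hI p (hcov p p' he) p' (hcov p' p (by rw [Sym2.eq_swap]; exact he)) (hM _ he)
  -- the difference is a cycle in the full simplex on `W`
  obtain ⟨w, hw⟩ : W.Nonempty := Finset.card_pos.1 (by omega)
  have hfull : AV k (fun S => S ⊆ W) ((W \ T₀).card) :=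
    AV_of_cone w fun S hS => Finset.insert_subset hw hS
  obtain ⟨Ω, hΩ1, hΩ2⟩ := hfull (fun S => dt k (W \ T₀) S - Ψ S) (by
    intro S hS
    by_cases h1 : Ψ S = 0
    · rw [h1, sub_zero] at hS
      have h2 : S = W \ T₀ := by
        by_contra hc; exact hS (if_neg hc)
      rw [h2]
      exact ⟨Finset.sdiff_subset, rfl⟩
    · obtain ⟨h2, h3⟩ := hΨ1 S h1
      refine ⟨(hKW S h2).1, ?_⟩
      omega) (fun S => by
        rw [bd_sub (dt k (W \ T₀)) Ψ S, hΨ2, sub_self])
  have h1 : ∑ S, z S * (dt k (W \ T₀) S - Ψ S) = z (W \ T₀) := by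
    rw [Finset.sum_eq_single (W \ T₀)]
    · have : Ψ (W \ T₀) = 0 := by
        by_contra h
        have h2 := (hKW _ (hΨ1 _ h).1).2
        exact h2 (hz _ hz0).2.2
      rw [this]
      unfold dt
      rw [if_pos rfl]
      ring
    · intro S _ hS
      by_cases hzS : z S = 0
      · rw [hzS, zero_mul]
      · have : Ψ S = 0 := by
          by_contra h
          exact (hKW _ (hΨ1 _ h).1).2 (hz _ hzS).2.2
        rw [this]
        unfold dt
        rw [if_neg hS]
        ring
    · intro h; exact absurd (Finset.mem_univ _) h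
  apply hz0
  rw [← h1, Finset.sum_congr rfl (fun S _ => by rw [hΩ2 S]), sum_mul_bd]
  refine Finset.sum_eq_zero fun S' _ => ?_
  by_cases hΩ : Ω S' = 0
  · rw [hΩ, zero_mul]
  · obtain ⟨h2, h3⟩ := hΩ1 S' hΩ
    rw [hcyc S' h2 (by omega), mul_zero]

end Pool.Agent.LibHelper95.Reg
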