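import Mathlib
import Pool.Agent.Lib_helper95.PowerLower

/-!
# Lower bounds for the regularity of powers from cycles
-/

open Finset

set_option linter.unusedSectionVars false

namespace Pool.Agent.LibHelper95.Reg

variable {V : Type*} [Fintype V] [LinearOrder V] {k : Type*} [Field k]

/-- The dual of a cycle. -/
theorem dual_cycle (G : SimpleGraph V) (W : Finset V) {s : ℕ} (Z : Finset V → k)
    (hZ : ∀ T, Z T ≠ 0 → T ⊆ W ∧ T.card = s + 1 ∧ Ind G T) (hbd : ∀ R, R.card = s → bd Z R = 0) :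
    ∃ z : Finset V → k, (∀ S, z S ≠ 0 → S ⊆ W ∧ S.card + (s + 1) = W.card ∧ Ind G (W \ S)) ∧
      (∀ S' ⊆ W, S'.card + (s + 1) = W.card + 1 → ∑ v ∈ S', sgn k v (S'.erase v) * z (S'.erase v) = 0) ∧
      ∀ T ⊆ W, Z T ≠ 0 → z (W \ T) ≠ 0 := by
  let pos : V → ℕ := fun v => (W.filter (· < v)).card
  let tw : Finset V → k := fun T => ∏ v ∈ T, (-1) ^ pos v
  have htw : ∀ T, tw T ≠ 0 := by
    intro T
    exact Finset.prod_ne_zero_iff.2 fun v _ => pow_ne_zero _ (by norm_num)
  refine ⟨fun S => if S ⊆ W then tw (W \ S) * Z (W \ S) else 0, fun S hS => ?_, fun S' hS' hc => ?_, fun T hT hne => ?_⟩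
  · have hSW : S ⊆ W := by
      by_contra hc
      exact hS (if_neg hc)
    have h1 : Z (W \ S) ≠ 0 := by
      intro h
      apply hS
      show (if S ⊆ W then tw (W \ S) * Z (W \ S) else 0) = 0
      rw [h, mul_zero, ite_self]
    obtain ⟨_, h2, h3⟩ := hZ _ h1
    refine ⟨hSW, ?_, h3⟩
    rw [Finset.card_sdiff_of_subset hSW] at h2
    have := Finset.card_le_card hSW
    omega
  · set R := W \ S' with hR
    have hRc : R.card = s := by
      rw [hR, Finset.card_sdiff_of_subset hS']
      omega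
    have hbR := hbd R hRc
    have key : ∑ v ∈ S', sgn k v (S'.erase v) *
        (if S'.erase v ⊆ W then tw (W \ S'.erase v) * Z (W \ S'.erase v) else 0) = tw R * bd Z R := by
      unfold bd
      rw [Finset.mul_sum]
      have hsub : S' ⊆ Rᶜ := by
        intro v hv
        rw [Finset.mem_compl, hR, Finset.mem_sdiff]
        exact fun h => h.2 hv
      rw [← Finset.sum_subset hsub]
      · refine Finset.sum_congr rfl fun v hv => ?_
        have hvR : v ∉ R := by
          rw [hR, Finset.mem_sdiff]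
          exact fun h => h.2 hv
        have hdiff : W \ S'.erase v = insert v R := by
          rw [hR]
          ext w
          simp only [Finset.mem_sdiff, Finset.mem_insert, Finset.mem_erase, not_and, not_not]
          constructor
          · rintro ⟨h1, h2⟩
            by_cases h3 : w = v
            · exact Or.inl h3
            · exact Or.inr ⟨h1, h2 h3⟩
          · rintro (rfl | ⟨h1, h2⟩)
            · exact ⟨hS' hv, fun h => absurd rfl h⟩
            · exact ⟨h1, fun _ => h2⟩
        rw [if_pos ((Finset.erase_subset _ _).trans hS'), hdiff]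
        have e1 : tw (insert v R) = (-1) ^ pos v * tw R := Finset.prod_insert hvR
        have e2 : sgn k v (S'.erase v) = sgn k v R * (-1) ^ pos v := by
          have e3 : pos v = (R.filter (· < v)).card +
              ((S'.erase v).filter (· < v)).card := by
            show (W.filter (· < v)).card = _
            rw [← Finset.card_union_of_disjoint]
            · congr 1
              ext w
              simp only [Finset.mem_filter, Finset.mem_union, Finset.mem_erase, hR, Finset.mem_sdiff]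
              constructor
              · rintro ⟨h1, h2⟩
                by_cases h3 : w ∈ S'
                · exact Or.inr ⟨⟨h2.ne, h3⟩, h2⟩
                · exact Or.inl ⟨⟨h1, h3⟩, h2⟩
              · rintro (⟨⟨h1, _⟩, h2⟩ | ⟨⟨_, h1⟩, h2⟩)
                · exact ⟨h1, h2⟩
                · exact ⟨hS' h1, h2⟩
            · rw [Finset.disjoint_left]
              intro w h1 h2
              simp only [Finset.mem_filter, Finset.mem_erase, hR, Finset.mem_sdiff] at h1 h2
              exact h1.1.2 h2.1.2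
          rw [e3, pow_add, ← mul_assoc]
          unfold sgn
          rw [← pow_add, ← two_mul, pow_mul]
          simp
        rw [e1, e2]
        have e4 : ((-1 : k) ^ pos v) * (-1) ^ pos v = 1 := by
          rw [← pow_add, ← two_mul, pow_mul]
          simp
        linear_combination (sgn k v R * tw R * Z (insert v R)) * e4
      · intro v hv hv'
        have h1 : Z (insert v R) = 0 := by
          by_contra hne
          obtain ⟨h2, _, _⟩ := hZ _ hne
          have h3 : v ∈ W := h2 (Finset.mem_insert_self _ _)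
          rw [Finset.mem_compl] at hv
          exact hv (by rw [hR, Finset.mem_sdiff]; exact ⟨h3, hv'⟩)
        rw [h1, mul_zero, mul_zero]
    show ∑ v ∈ S', sgn k v (S'.erase v) *
        (if S'.erase v ⊆ W then tw (W \ S'.erase v) * Z (W \ S'.erase v) else 0) = 0
    rw [key, hbR, mul_zero]
  · show (if W \ T ⊆ W then tw (W \ (W \ T)) * Z (W \ (W \ T)) else 0) ≠ 0
    rw [if_pos Finset.sdiff_subset, Finset.sdiff_sdiff_eq_self hT]
    exact mul_ne_zero (htw _) hne

variable {G : SimpleGraph V}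

/-- A homology class surviving in all powers. -/
theorem not_AV_of_edge_cyc {x y : V} (hxy : G.Adj x y) (W : Finset V) (hxW : x ∉ W) (hyW : y ∉ W)
    (hxn : ∀ w ∈ W, ¬ G.Adj x w) (hyn : ∀ w ∈ W, ¬ G.Adj y w) {s : ℕ} (Z : Finset V → k)
    (hZ : ∀ T, Z T ≠ 0 → T ⊆ W ∧ T.card = s + 1 ∧ Ind G T) (hbd : ∀ R, R.card = s → bd Z R = 0)
    (T₀ : Finset V) (hT₀ : Z T₀ ≠ 0) (hmax : ∀ w ∈ W, w ∉ T₀ → ∃ t ∈ T₀, G.Adj w t) (q : ℕ) :
    ∃ (a : V → ℕ) (i : ℕ), ∑ v, a v = i + (2 * (q + 1) + (s + 1)) ∧ ¬ AV k (KK (Pw G (q + 1)) a) i := by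
  obtain ⟨z, h1, h2, h3⟩ := dual_cycle G W Z hZ hbd
  obtain ⟨h4, h5, _⟩ := hZ T₀ hT₀
  exact not_AV_of_edge hxy W hxW hyW hxn hyn z h1 h2 T₀ h4 h5 hmax (h3 T₀ h4 hT₀) q

/-- A homology class for `q = 1`. -/
theorem not_AV_one_cyc (W : Finset V) {s : ℕ} (Z : Finset V → k)
    (hZ : ∀ T, Z T ≠ 0 → T ⊆ W ∧ T.card = s + 1 ∧ Ind G T) (hbd : ∀ R, R.card = s → bd Z R = 0)
    (T₀ : Finset V) (hT₀ : Z T₀ ≠ 0) (hWs : s + 1 < W.card) (hmax : ∀ w ∈ W, w ∉ T₀ → ∃ t ∈ T₀, G.Adj w t) :
    ∃ (a : V → ℕ) (i : ℕ), ∑ v, a v = i + (s + 1 + 1) ∧ ¬ AV k (KK (Pw G 1) a) i := by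
  obtain ⟨z, h1, h2, h3⟩ := dual_cycle G W Z hZ hbd
  obtain ⟨h4, h5, _⟩ := hZ T₀ hT₀
  exact not_AV_one W z h1 h2 T₀ h4 h5 hWs hmax (h3 T₀ h4 hT₀)

end Pool.Agent.LibHelper95.Reg
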