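import Mathlib

/-!
# Castelnuovo–Mumford regularity of ideals of a polynomial ring, through Koszul homology

`S = k[x_0, …, x_{n-1}]`.  For a homogeneous ideal `J` of `S` the number of minimal `i`-th syzygies
of `J` of degree `d` is `dim_k Tor_i^S(J, k)_d`, and `Tor_i^S(J, k)` is the homology of the Koszul
complex `K(x_0, …, x_{n-1}; J)` at the place `i`.
-/

open MvPolynomial

namespace Pool.Agent.LibHelper95

variable {n : ℕ} {k : Type*} [Field k]

/-- The differential of the Koszul complex.  An element `∑_S f_S e_S` of the Koszul complex is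
written as the family of polynomials `f : Finset (Fin n) → S`; then
`∂(f e_T) = ∑_{v ∈ T} ± x_v f e_{T \ {v}}`, with sign `(-1) ^ #{w ∈ T : w < v}`. -/
noncomputable def koszulD (f : Finset (Fin n) → MvPolynomial (Fin n) k) (S : Finset (Fin n)) :
    MvPolynomial (Fin n) k :=
  ∑ v ∈ Sᶜ, (-1) ^ (S.filter (· < v)).card * (X v * f (insert v S))

/-- `f` is an element of degree `d` of the term `K_i = J ⊗ ⋀^i S(-1)^n` of the Koszul complex of
`J`: all coefficients are in `J`, only basis elements `e_S` with `#S = i` occur, and their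
coefficients are homogeneous of degree `d - i`. -/
def IsKoszulChain (J : Ideal (MvPolynomial (Fin n) k)) (i d : ℕ)
    (f : Finset (Fin n) → MvPolynomial (Fin n) k) : Prop :=
  ∀ S, f S ∈ J ∧ (f S ≠ 0 → S.card = i ∧ i ≤ d ∧ (f S).IsHomogeneous (d - i))

/-- `Tor_i^S(J, k)_d ≠ 0`: some cycle of degree `d` in `K_i` is not a boundary. -/
def TorNonzero (J : Ideal (MvPolynomial (Fin n) k)) (i d : ℕ) : Prop :=
  ∃ f, IsKoszulChain J i d f ∧ (∀ S, koszulD f S = 0) ∧
    ¬ ∃ g, IsKoszulChain J (i + 1) d g ∧ ∀ S, koszulD g S = f S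

/-- `reg J = r`: the largest value of `d - i` for which `Tor_i^S(J, k)_d ≠ 0` is `r`. -/
def HasReg (J : Ideal (MvPolynomial (Fin n) k)) (r : ℕ) : Prop :=
  IsGreatest {e : ℕ | ∃ i, TorNonzero J i (i + e)} r

/-- The edge ideal `I(G)` over `k`. -/
noncomputable def edgeIdeal (k : Type*) [Field k] (G : SimpleGraph (Fin n)) : Ideal (MvPolynomial (Fin n) k) :=
  Ideal.span {p | ∃ u v, G.Adj u v ∧ p = X u * X v}

end Pool.Agent.LibHelper95
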