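import Mathlib
import Pool.Agent.Lib_helper95.EdgeColon
import Pool.Agent.Lib_helper95.RegularityDefs

/-!
# Monomials in the powers of an edge ideal
-/

open MvPolynomial

namespace Pool.Agent.LibHelper95.Reg

variable {n : ℕ} {k : Type*} [Field k] {G : SimpleGraph (Fin n)}

/-- Exponents (as finsupps) of products of `q` edges. -/
def Dq (G : SimpleGraph (Fin n)) (q : ℕ) : Set (Fin n →₀ ℕ) :=
  {s | ∃ M : Multiset (Sym2 (Fin n)), IsE G M ∧ M.card = q ∧ ∀ x, dg M x = s x}

theorem edgeIdeal_pow (q : ℕ) :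
    (edgeIdeal k G) ^ q = Ideal.span ((fun s => monomial s (1 : k)) '' Dq G q) := by
  induction q with
  | zero =>
    rw [pow_zero, Ideal.one_eq_top, eq_comm, Ideal.eq_top_iff_one]
    refine Ideal.subset_span ⟨0, ⟨0, IsE.zero, rfl, fun x => ?_⟩, rfl⟩
    rw [dg_zero]; rfl
  | succ q ih =>
    rw [pow_succ, ih]
    unfold edgeIdeal
    rw [Ideal.span_mul_span']
    congr 1
    ext p
    rw [Set.mem_mul]
    have key : ∀ (s : Fin n →₀ ℕ) (u v : Fin n), (monomial s (1 : k)) * (X u * X v) =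
        monomial (s + (Finsupp.single u 1 + Finsupp.single v 1)) 1 := by
      intro s u v
      rw [X, X, monomial_mul, monomial_mul]
      simp
    have key2 : ∀ (s : Fin n →₀ ℕ) (u v x : Fin n),
        (s + (Finsupp.single u 1 + Finsupp.single v 1) : Fin n →₀ ℕ) x = s x + dl u x + dl v x := by
      intro s u v x
      rw [Finsupp.add_apply, Finsupp.add_apply, Finsupp.single_apply, Finsupp.single_apply]
      unfold dl
      simp only [eq_comm (a := u) (b := x), eq_comm (a := v) (b := x)]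
      ring
    constructor
    · rintro ⟨a, ⟨s, ⟨M, hM, hc, hd⟩, rfl⟩, b, ⟨u, v, huv, rfl⟩, rfl⟩
      refine ⟨s + (Finsupp.single u 1 + Finsupp.single v 1),
        ⟨s(u, v) ::ₘ M, hM.cons huv, by rw [Multiset.card_cons, hc], fun x => ?_⟩, (key s u v).symm⟩
      rw [dg_cons huv.ne, key2, hd]
    · rintro ⟨s, ⟨M, hM, hc, hd⟩, rfl⟩
      obtain ⟨e, M', rfl⟩ : ∃ e M', M = e ::ₘ M' := by
        have h1 : M ≠ 0 := by
          rintro rfl; simp at hc
        obtain ⟨e, he⟩ := Multiset.exists_mem_of_ne_zero h1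
        exact ⟨e, _, (Multiset.cons_erase he).symm⟩
      induction e using Sym2.ind with
      | _ u v =>
        have huv : G.Adj u v := hM _ (Multiset.mem_cons_self _ _)
        rw [Multiset.card_cons] at hc
        refine ⟨monomial (Finsupp.equivFunOnFinite.symm (dg M')) 1,
          ⟨_, ⟨M', fun e he => hM e (Multiset.mem_cons_of_mem he), by omega, fun x => rfl⟩, rfl⟩,
          X u * X v, ⟨u, v, huv, rfl⟩, ?_⟩
        rw [key]
        have h5 : Finsupp.equivFunOnFinite.symm (dg M') +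
            (Finsupp.single u 1 + Finsupp.single v 1) = s := by
          ext x
          rw [key2, ← hd, dg_cons huv.ne]
          rfl
        rw [h5]

theorem mem_edgeIdeal_pow (q : ℕ) (p : MvPolynomial (Fin n) k) :
    p ∈ (edgeIdeal k G) ^ q ↔ ∀ c ∈ p.support, (⇑c) ∈ Pw G q := by
  rw [edgeIdeal_pow, mem_ideal_span_monomial_image]
  refine forall₂_congr fun c _ => ?_
  constructor
  · rintro ⟨s, ⟨M, hM, hc, hd⟩, hs⟩
    exact ⟨M, hM, hc, fun x => by rw [hd]; exact hs x⟩
  · rintro ⟨M, hM, hc, hd⟩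
    exact ⟨Finsupp.equivFunOnFinite.symm (dg M), ⟨M, hM, hc, fun x => rfl⟩, fun x => hd x⟩

end Pool.Agent.LibHelper95.Reg
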