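import Mathlib
import Pool.Agent.Lib_helper95.KoszulChain

/-!
# Oriented simplices as chains
-/

open Finset

set_option linter.unusedSectionVars false

namespace Pool.Agent.LibHelper95.Reg

variable {V : Type*} [Fintype V] [LinearOrder V] {k : Type*} [Field k]

/-- The oriented simplex of a list of vertices. -/
def el (k : Type*) [Field k] : List V → Finset V → k
  | [], S => if S = ∅ then 1 else 0
  | a :: l, S => cn a (el k l) S

theorem el_cons (a : V) (l : List V) : el k (a :: l) = cn a (el k l) := rfl

theorem bd_el_nil : bd (el k ([] : List V)) = fun _ => 0 := by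
  funext S
  unfold bd
  refine Finset.sum_eq_zero fun v _ => ?_
  have : ¬ (insert v S = ∅) := Finset.insert_ne_empty v S
  show sgn k v S * (if insert v S = ∅ then 1 else 0) = 0
  rw [if_neg this, mul_zero]

theorem bd_cn (a : V) (φ : Finset V → k) (S : Finset V) : bd (cn a φ) S = φ S - cn a (bd φ) S := by
  have := cn_bd a φ S
  linear_combination this

theorem cn_congr (a : V) {φ ψ : Finset V → k} (h : φ = ψ) : cn a φ = cn a ψ := by rw [h]

theorem cn_zero (a : V) (S : Finset V) : cn a (fun _ => (0 : k)) S = 0 := by
  unfold cn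
  split_ifs <;> simp

theorem bd_el1 (a : V) (S : Finset V) : bd (el k [a]) S = el k [] S := by
  rw [el_cons, bd_cn, bd_el_nil, cn_zero, sub_zero]

theorem bd_el2 (a b : V) (S : Finset V) : bd (el k [a, b]) S = el k [b] S - el k [a] S := by
  rw [el_cons, bd_cn, show bd (el k [b]) = el k [] from funext (bd_el1 b)]
  rfl

theorem cn_sub (a : V) (φ ψ : Finset V → k) (S : Finset V) :
    cn a (fun T => φ T - ψ T) S = cn a φ S - cn a ψ S := by
  unfold cn
  split_ifs <;> ring

theorem cn_neg (a : V) (φ : Finset V → k) (S : Finset V) :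
    cn a (fun T => -φ T) S = -cn a φ S := by
  unfold cn
  split_ifs <;> ring

theorem bd_el3 (a b c : V) (S : Finset V) :
    bd (el k [a, b, c]) S = el k [b, c] S - el k [a, c] S + el k [a, b] S := by
  rw [el_cons, bd_cn, show bd (el k [b, c]) = fun T => el k [c] T - el k [b] T from funext (bd_el2 b c), cn_sub]
  show el k [b, c] S - (el k [a, c] S - el k [a, b] S) = _
  ring

theorem bd_el4 (a b c d : V) (S : Finset V) :
    bd (el k [a, b, c, d]) S = el k [b, c, d] S - el k [a, c, d] S + (el k [a, b, d] S - el k [a, b, c] S) := by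
  rw [el_cons, bd_cn, show bd (el k [b, c, d]) = fun T => (el k [c, d] T - el k [b, d] T) - (fun T => -el k [b, c] T) T
    from funext fun T => by rw [bd_el3]; ring, cn_sub, cn_sub]
  have h1 : cn a (fun T => -el k [b, c] T) S = -el k [a, b, c] S := cn_neg a (el k [b, c]) S
  rw [h1]
  show el k [b, c, d] S - (el k [a, c, d] S - el k [a, b, d] S - -el k [a, b, c] S) = _
  ring

theorem el_ne {l : List V} {T : Finset V} (h : el k l T ≠ 0) : T = l.toFinset ∧ T.card = l.length := by
  induction l generalizing T with
  | nil =>
    have h1 : T = ∅ := by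
      by_contra hc
      exact h (if_neg hc)
    rw [h1]
    simp
  | cons a l ih =>
    have h1 : a ∈ T := by
      by_contra hc
      exact h (if_neg hc)
    have h2 : el k l (T.erase a) ≠ 0 := by
      intro h0
      apply h
      show (if a ∈ T then sgn k a T * el k l (T.erase a) else 0) = 0
      rw [h0, mul_zero, ite_self]
    obtain ⟨h3, h4⟩ := ih h2
    constructor
    · rw [List.toFinset_cons, ← h3, Finset.insert_erase h1]
    · rw [Finset.card_erase_of_mem h1] at h4
      have := Finset.card_pos.2 ⟨a, h1⟩
      rw [List.length_cons]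
      omega

theorem el_self {l : List V} (h : l.Nodup) : el k l l.toFinset ≠ 0 := by
  induction l with
  | nil => simp [el]
  | cons a l ih =>
    rw [List.nodup_cons] at h
    have h1 : a ∉ l.toFinset := by simpa using h.1
    show (if a ∈ (a :: l).toFinset then sgn k a (a :: l).toFinset * el k l ((a :: l).toFinset.erase a) else 0) ≠ 0
    rw [if_pos (by simp), List.toFinset_cons, Finset.erase_insert h1]
    exact mul_ne_zero (sgn_ne_zero _ _) (ih h.2)

theorem bd_sum {ι : Type*} (s : Finset ι) (φ : ι → Finset V → k) (S : Finset V) :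
    bd (fun T => ∑ i ∈ s, φ i T) S = ∑ i ∈ s, bd (φ i) S := by
  unfold bd
  rw [Finset.sum_comm]
  refine Finset.sum_congr rfl fun v _ => ?_
  rw [Finset.mul_sum]

end Pool.Agent.LibHelper95.Reg
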