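import Mathlib
import Pool.Agent.Lib_helper95.EdgeColon
import Pool.Agent.Lib_helper95.PowerHomology

/-!
# The explicit graph

The independence complex of the graph is the disjoint union of the suspension of a flag
triangulation of the projective plane and of a `3`-sphere (join of two pentagons).
-/

open Finset

namespace Pool.Agent.LibHelper95.Reg

/-- Adjacency table of the graph. -/
def adjB (u v : Fin 23) : Bool := Nat.testBit
  495981552587631730162671083248127604981422731421015100836638099669592749744976342183653288218370174355732662002801692908683307797077027055262298577018491496018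
  (23 * u.val + v.val)

/-- The graph. -/
def Gr : SimpleGraph (Fin 23) where
  Adj u v := adjB u v = true
  symm := ⟨by decide +kernel⟩
  loopless := ⟨by decide +kernel⟩

instance : DecidableRel Gr.Adj := fun u v => inferInstanceAs (Decidable (adjB u v = true))

/-- Independent sets of size `m` with elements in the list `cand`, as lists. -/
def indLists : ℕ → List (Fin 23) → List (List (Fin 23))
  | 0, _ => [[]]
  | m + 1, cand => cand.tails.flatMap fun t =>
      match t with
      | [] => []
      | v :: r => (indLists m (r.filter fun w => !adjB v w)).map (v :: ·)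

theorem mem_indLists : ∀ (m : ℕ) (cand : List (Fin 23)) (T : Finset (Fin 23)),
    T ⊆ cand.toFinset → Ind Gr T → T.card = m → ∃ l ∈ indLists m cand, l.toFinset = T := by
  intro m
  induction m with
  | zero =>
    intro cand T _ _ hc
    exact ⟨[], by simp [indLists], by rw [Finset.card_eq_zero.1 hc]; rfl⟩
  | succ m ih =>
    intro cand
    induction cand with
    | nil =>
      intro T hT _ hc
      exfalso
      have : T = ∅ := by
        rw [List.toFinset_nil] at hT
        exact Finset.subset_empty.1 hT
      rw [this] at hc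
      simp at hc
    | cons v r ih2 =>
      intro T hT hI hc
      by_cases hv : v ∈ T
      · obtain ⟨l, hl, hlT⟩ := ih (r.filter fun w => !adjB v w) (T.erase v) (by
          intro w hw
          rw [Finset.mem_erase] at hw
          have h1 := hT hw.2
          rw [List.mem_toFinset, List.mem_cons] at h1
          rw [List.mem_toFinset, List.mem_filter]
          refine ⟨h1.resolve_left hw.1, ?_⟩
          have h2 : ¬ adjB v w = true := hI v hv w hw.2
          simpa using h2) (fun a ha b hb => hI a (Finset.mem_of_mem_erase ha) b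
            (Finset.mem_of_mem_erase hb)) (by rw [Finset.card_erase_of_mem hv, hc]; rfl)
        refine ⟨v :: l, ?_, ?_⟩
        · rw [indLists, List.mem_flatMap]
          refine ⟨v :: r, ?_, ?_⟩
          · rw [List.mem_tails]
          · exact List.mem_map.2 ⟨l, hl, rfl⟩
        · rw [List.toFinset_cons, hlT, Finset.insert_erase hv]
      · obtain ⟨l, hl, hlT⟩ := ih2 T (by
          intro w hw
          have h1 := hT hw
          rw [List.mem_toFinset, List.mem_cons] at h1
          rw [List.mem_toFinset]
          refine h1.resolve_left ?_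
          rintro rfl
          exact hv hw) hI hc
        refine ⟨l, ?_, hlT⟩
        rw [indLists, List.mem_flatMap] at hl ⊢
        obtain ⟨t, ht, hlt⟩ := hl
        refine ⟨t, ?_, hlt⟩
        rw [List.mem_tails] at ht ⊢
        exact ht.trans (List.suffix_cons v r)

/-- All vertices. -/
def allV : List (Fin 23) := List.finRange 23

theorem subset_allV (T : Finset (Fin 23)) : T ⊆ allV.toFinset := by
  intro w _
  rw [List.mem_toFinset]
  exact List.mem_finRange w

theorem ind5 : indLists 5 allV = [] := by decide +kernel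

theorem ind3 : ∀ l ∈ indLists 3 allV,
    (allV.filter fun v => l.all fun w => !(decide (w = v)) && !adjB v w).length ≤ 2 := by
  decide +kernel

theorem good_Gr : Good Gr where
  alpha := by
    intro T hT
    by_contra hc
    push Not at hc
    obtain ⟨T', hT', hc'⟩ := Finset.exists_subset_card_eq (n := 5) (s := T) (by omega)
    obtain ⟨l, hl, -⟩ := mem_indLists 5 allV T' (subset_allV _)
      (fun a ha b hb => hT a (hT' ha) b (hT' hb)) hc'
    rw [ind5] at hl
    simp at hl
  ridge := by
    intro R hR p q r hp hq hr hpq hpr hqr hP hQ hS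
    obtain ⟨l, hl, hlR⟩ := mem_indLists 3 allV R (subset_allV _)
      (fun a ha b hb => hP a (Finset.mem_insert_of_mem ha) b (Finset.mem_insert_of_mem hb)) hR
    have h1 := ind3 l hl
    have h2 : ({p, q, r} : Finset (Fin 23)) ⊆
        (allV.filter fun v => l.all fun w => !(decide (w = v)) && !adjB v w).toFinset := by
      have key : ∀ x, x ∉ R → Ind Gr (insert x R) →
          x ∈ (allV.filter fun v => l.all fun w => !(decide (w = v)) && !adjB v w).toFinset := by
        intro x hx hI
        rw [List.mem_toFinset, List.mem_filter]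
        refine ⟨List.mem_finRange x, ?_⟩
        rw [List.all_eq_true]
        intro w hw
        have hwR : w ∈ R := by rw [← hlR, List.mem_toFinset]; exact hw
        have h3 : w ≠ x := by rintro rfl; exact hx hwR
        have h4 : ¬ adjB x w = true :=
          hI x (Finset.mem_insert_self _ _) w (Finset.mem_insert_of_mem hwR)
        simp [h3, h4]
      intro x hx
      rw [Finset.mem_insert, Finset.mem_insert, Finset.mem_singleton] at hx
      rcases hx with rfl | rfl | rfl
      · exact key _ hp hP
      · exact key _ hq hQ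
      · exact key _ hr hS
    have h3 := Finset.card_le_card h2
    have h4 : ({p, q, r} : Finset (Fin 23)).card = 3 := by
      rw [Finset.card_insert_of_notMem, Finset.card_insert_of_notMem, Finset.card_singleton]
      · simpa using hqr
      · simp [hpq, hpr]
    have h5 := List.toFinset_card_le
      (allV.filter fun v => l.all fun w => !(decide (w = v)) && !adjB v w)
    omega

/-- One step between facets sharing a ridge. -/
def stepOK (T : Finset (Fin 23)) (u v : Fin 23) : Bool :=
  decide (u ∈ T) && decide (v ∉ T) &&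
    allV.all fun r => decide (r ∈ T) || decide (r = v) || decide (∃ t ∈ T.erase u, adjB r t = true)

/-- The facet after a step. -/
def nxt (T : Finset (Fin 23)) (u v : Fin 23) : Finset (Fin 23) := insert v (T.erase u)

/-- The sign of a step. -/
def sgE (T : Finset (Fin 23)) (u v : Fin 23) : ℕ :=
  1 + ((T.erase u).filter (· < u)).card + ((T.erase u).filter (· < v)).card

/-- All steps of a walk are legal. -/
def walkOK : Finset (Fin 23) → List (Fin 23 × Fin 23) → Bool
  | _, [] => true
  | T, s :: l => stepOK T s.1 s.2 && walkOK (nxt T s.1 s.2) l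

/-- The facets of a walk, with signs. -/
def visits : Finset (Fin 23) → ℕ → List (Fin 23 × Fin 23) → List (Finset (Fin 23) × ℕ)
  | T, e, [] => [(T, e)]
  | T, e, s :: l => (T, e) :: visits (nxt T s.1 s.2) (e + sgE T s.1 s.2) l

section Walk

variable {k : Type*} [Field k] {Z : Finset (Fin 23) → k}

theorem step_eq (hZ : ∀ T, Z T ≠ 0 → Ind Gr T) (hb : ∀ R, R.card = 3 → bd Z R = 0)
    {T : Finset (Fin 23)} (hT : T.card = 4) {u v : Fin 23} (h : stepOK T u v = true) :
    (nxt T u v).card = 4 ∧ (-1 : k) ^ sgE T u v * Z (nxt T u v) = Z T := by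
  unfold stepOK at h
  rw [Bool.and_eq_true, Bool.and_eq_true, decide_eq_true_eq, decide_eq_true_eq,
    List.all_eq_true] at h
  obtain ⟨⟨hu, hv⟩, hall⟩ := h
  set R := T.erase u with hRdef
  have hRc : R.card = 3 := by rw [hRdef, Finset.card_erase_of_mem hu, hT]
  have huR : u ∉ R := Finset.notMem_erase u T
  have hvR : v ∉ R := fun h' => hv (Finset.mem_of_mem_erase h')
  have huv : u ≠ v := by rintro rfl; exact hv hu
  have h1 := hb R hRc
  have h2 : bd Z R = ∑ w ∈ {u, v}, sgn k w R * Z (insert w R) := by
    unfold bd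
    symm
    refine Finset.sum_subset ?_ ?_
    · intro w hw
      rw [Finset.mem_insert, Finset.mem_singleton] at hw
      rw [Finset.mem_compl]
      rcases hw with rfl | rfl
      · exact huR
      · exact hvR
    · intro w hw hw'
      rw [Finset.mem_compl] at hw
      rw [Finset.mem_insert, Finset.mem_singleton, not_or] at hw'
      have h3 := hall w (List.mem_finRange w)
      rw [Bool.or_eq_true, Bool.or_eq_true, decide_eq_true_eq, decide_eq_true_eq,
        decide_eq_true_eq] at h3
      rcases h3 with (h3 | h3) | h3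
      · exact absurd (Finset.mem_erase.2 ⟨hw'.1, h3⟩) hw
      · exact absurd h3 hw'.2
      · obtain ⟨t, ht, hwt⟩ := h3
        have h4 : Z (insert w R) = 0 := by
          by_contra hne
          exact hZ _ hne w (Finset.mem_insert_self _ _) t (Finset.mem_insert_of_mem ht) hwt
        rw [h4, mul_zero]
  rw [h2, Finset.sum_pair huv, hRdef, Finset.insert_erase hu, ← hRdef] at h1
  refine ⟨by unfold nxt; rw [Finset.card_insert_of_notMem hvR, hRc], ?_⟩
  have e1 : (-1 : k) ^ sgE T u v = - (sgn k u R * sgn k v R) := by
    unfold sgE sgn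
    rw [pow_add, pow_add, pow_one]
    ring
  rw [e1]
  have h5 := sgn_sq (k := k) u R
  have h6 : sgn k v R * Z (insert v R) = - (sgn k u R * Z T) := by linear_combination h1
  show -(sgn k u R * sgn k v R) * Z (insert v R) = Z T
  linear_combination (-sgn k u R) * h6 + Z T * h5

theorem walk_eq (hZ : ∀ T, Z T ≠ 0 → Ind Gr T) (hb : ∀ R, R.card = 3 → bd Z R = 0) :
    ∀ (l : List (Fin 23 × Fin 23)) (T : Finset (Fin 23)) (e : ℕ), T.card = 4 →
      walkOK T l = true → ∀ p ∈ visits T e l, (-1 : k) ^ p.2 * Z p.1 = (-1) ^ e * Z T := by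
  intro l
  induction l with
  | nil =>
    intro T e _ _ p hp
    rw [visits, List.mem_singleton] at hp
    rw [hp]
  | cons s l ih =>
    intro T e hT hok p hp
    rw [walkOK, Bool.and_eq_true] at hok
    obtain ⟨h1, h2⟩ := step_eq hZ hb hT hok.1
    rw [visits, List.mem_cons] at hp
    rcases hp with rfl | hp
    · rfl
    · rw [ih _ _ h1 hok.2 p hp, pow_add, mul_assoc, h2]

end Walk

/-- A walk through the part of the complex coming from the projective plane. -/
def walkA : List (Fin 23 × Fin 23) :=
  [(0, 4), (2, 6), (3, 8), (4, 7), (6, 0), (7, 5), (0, 10), (5, 4), (8, 2), (4, 1), (2, 5), (10,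
   9), (1, 3), (5, 6), (3, 1), (9, 7), (6, 2), (1, 0), (11, 12), (0, 1), (2, 6), (1, 8), (6, 0),
   (7, 5), (0, 10), (5, 4), (8, 2), (4, 1), (2, 5), (10, 9), (1, 3), (5, 6), (3, 1), (1, 3), (9,
   4), (3, 8), (8, 3), (6, 2), (4, 0), (2, 5), (12, 11), (11, 12), (5, 2), (0, 4), (2, 6), (4,
   9), (6, 5), (3, 1), (9, 10), (5, 2), (1, 4), (2, 8), (4, 5), (10, 0), (5, 7), (0, 6), (8, 1),
   (6, 2), (1, 0), (12, 11), (0, 1), (2, 6), (7, 9), (1, 3), (6, 5), (3, 1), (9, 10), (5, 2),
   (1, 4), (2, 8), (4, 5), (10, 0), (5, 7), (0, 6), (7, 4), (8, 3), (6, 2), (4, 0), (0, 4), (2,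
   6), (3, 8), (4, 7), (6, 0), (8, 2), (7, 3)]

/-- A walk through the sphere. -/
def walkB : List (Fin 23 × Fin 23) :=
  [(13, 17), (15, 14), (17, 16), (14, 13), (18, 22), (13, 14), (16, 17), (14, 15), (17, 13),
   (20, 19), (13, 17), (15, 14), (17, 16), (14, 13), (22, 21), (13, 14), (16, 17), (14, 15),
   (17, 13), (19, 18), (13, 17), (15, 14), (17, 16), (14, 13), (13, 14), (16, 17), (14, 15),
   (17, 13), (18, 19), (13, 17), (15, 14), (17, 16), (14, 13), (21, 22), (13, 14), (16, 17),
   (14, 15), (17, 13), (19, 20), (13, 17), (15, 14), (17, 16), (14, 13), (22, 18), (13, 14),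
   (16, 17), (14, 15), (17, 13)]

/-- Start of `walkA`. -/
def TA : Finset (Fin 23) := {0, 2, 3, 11}

/-- Start of `walkB`. -/
def TB : Finset (Fin 23) := {13, 15, 18, 20}

theorem walkA_ok : walkOK TA walkA = true := by decide +kernel

theorem walkB_ok : walkOK TB walkB = true := by decide +kernel

theorem walkA_rev : ∃ p ∈ visits TA 0 walkA, p.1 = TA ∧ p.2 % 2 = 1 := by decide +kernel

theorem all_visited : ∀ l ∈ indLists 4 allV, (∃ p ∈ visits TA 0 walkA, p.1 = l.toFinset) ∨
    (∃ p ∈ visits TB 0 walkB, p.1 = l.toFinset) := by decide +kernel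

theorem edge_facet : ∀ p₁ p₂ : Fin 23, adjB p₁ p₂ = true → ∃ p ∈ visits TB 0 walkB,
    ∃ u ∈ p.1, ∃ v ∈ p.1, u ≠ v ∧ adjB u p₁ = true ∧ adjB v p₂ = true := by decide +kernel

theorem noCyc_Gr (k : Type*) [Field k] (h2 : (2 : k) ≠ 0) (M : Multiset (Sym2 (Fin 23)))
    (hM : IsE Gr M) (hM0 : M ≠ 0) : NoCyc k Gr M := by
  intro Z hZ hb
  have hZI : ∀ T, Z T ≠ 0 → Ind Gr T := fun T hT => (hZ T hT).2.ind hM
  have cancel : ∀ (e : ℕ) (x : k), (-1 : k) ^ e * x = 0 → x = 0 := by
    intro e x hx
    rcases mul_eq_zero.1 hx with h | h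
    · exact absurd h (pow_ne_zero _ (neg_ne_zero.2 one_ne_zero))
    · exact h
  -- the part of the projective plane
  have hA : Z TA = 0 := by
    obtain ⟨p, hp, hp1, hp2⟩ := walkA_rev
    have h3 := walk_eq hZI hb walkA TA 0 (by decide +kernel) walkA_ok p hp
    rw [hp1, pow_zero, one_mul] at h3
    have h4 : (-1 : k) ^ p.2 = -1 := Odd.neg_one_pow (Nat.odd_iff.2 hp2)
    rw [h4] at h3
    have h5 : (2 : k) * Z TA = 0 := by linear_combination -h3
    exact (mul_eq_zero.1 h5).resolve_left h2
  -- the sphere
  have hB : Z TB = 0 := by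
    obtain ⟨e, he⟩ := Multiset.exists_mem_of_ne_zero hM0
    induction e using Sym2.ind with
    | _ p₁ p₂ =>
      have hadj : adjB p₁ p₂ = true := hM _ he
      obtain ⟨p, hp, u, hu, v, hv, huv, hup, hvp⟩ := edge_facet p₁ p₂ hadj
      have h3 : Z p.1 = 0 := by
        by_contra hne
        exact (hZ _ hne).2 u hu v hv huv (Rel.of_edge hM he hup hvp)
      have h4 := walk_eq hZI hb walkB TB 0 (by decide +kernel) walkB_ok p hp
      rw [h3, mul_zero, pow_zero, one_mul] at h4
      exact h4.symm
  intro T
  by_contra hne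
  obtain ⟨hc, hR⟩ := hZ T hne
  obtain ⟨l, hl, hlT⟩ := mem_indLists 4 allV T (subset_allV _) (hZI T hne) hc
  apply hne
  rcases all_visited l hl with ⟨p, hp, hpl⟩ | ⟨p, hp, hpl⟩
  · have h3 := walk_eq hZI hb walkA TA 0 (by decide +kernel) walkA_ok p hp
    rw [hA, mul_zero] at h3
    rw [← hlT, ← hpl]
    exact cancel _ _ h3
  · have h3 := walk_eq hZI hb walkB TB 0 (by decide +kernel) walkB_ok p hp
    rw [hB, mul_zero] at h3
    rw [← hlT, ← hpl]
    exact cancel _ _ h3

end Pool.Agent.LibHelper95.Reg
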