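import Mathlib
import Pool.Agent.Lib_helper95.RegularityDefs
import Pool.Agent.Lib_helper95.PowerHomology

/-!
# Koszul homology of monomial ideals in multidegrees
-/

open MvPolynomial Finset

namespace Pool.Agent.LibHelper95.Reg

variable {n : ℕ} {k : Type*} [Field k]

/-- Indicator as a finitely supported function. -/
noncomputable def fi (S : Finset (Fin n)) : Fin n →₀ ℕ := Finsupp.equivFunOnFinite.symm (ic S)

theorem fi_apply (S : Finset (Fin n)) (x : Fin n) : fi S x = ic S x := rfl

theorem fi_insert {S : Finset (Fin n)} {v : Fin n} (hv : v ∉ S) :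
    fi (insert v S) = fi S + Finsupp.single v 1 := by
  ext x
  rw [Finsupp.add_apply, fi_apply, fi_apply, Finsupp.single_apply]
  unfold ic
  by_cases h : x = v
  · subst h; simp [hv]
  · have h' : ¬ v = x := fun h' => h h'.symm
    simp [h, h']

theorem fi_le_insert {S : Finset (Fin n)} {v : Fin n} {a : Fin n →₀ ℕ}
    (h : fi (insert v S) ≤ a) : fi S ≤ a := by
  refine le_trans ?_ h
  intro x
  rw [fi_apply, fi_apply]
  unfold ic
  by_cases h1 : x ∈ S
  · simp [h1]
  · simp [h1]

open Classical in
/-- The component of a chain in multidegree `a`. -/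
noncomputable def comp (a : Fin n →₀ ℕ) (f : Finset (Fin n) → MvPolynomial (Fin n) k)
    (S : Finset (Fin n)) : k :=
  if fi S ≤ a then coeff (a - fi S) (f S) else 0

theorem comp_koszulD (a : Fin n →₀ ℕ) (f : Finset (Fin n) → MvPolynomial (Fin n) k)
    (S : Finset (Fin n)) : comp a (koszulD f) S = bd (comp a f) S := by
  by_cases h : fi S ≤ a
  · unfold comp
    rw [if_pos h]
    unfold koszulD bd
    rw [coeff_sum]
    refine Finset.sum_congr rfl fun v hv => ?_
    have hvS : v ∉ S := by simpa using hv
    have e1 : ((-1 : MvPolynomial (Fin n) k) ^ (S.filter (· < v)).card) =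
        C ((-1 : k) ^ (S.filter (· < v)).card) := by simp
    rw [e1, coeff_C_mul, coeff_X_mul']
    unfold sgn
    congr 1
    have e2 : (a - fi S) v = a v := by
      rw [Finsupp.tsub_apply, fi_apply, ic_notMem hvS]; rfl
    by_cases h2 : 1 ≤ a v
    · have h3 : v ∈ (a - fi S).support := by
        rw [Finsupp.mem_support_iff, e2]; omega
      have h4 : fi (insert v S) ≤ a := by
        rw [fi_insert hvS]
        intro x
        rw [Finsupp.add_apply, Finsupp.single_apply]
        split_ifs with h5
        · subst h5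
          rw [fi_apply, ic_notMem hvS]; omega
        · rw [add_zero]; exact h x
      show _ = if fi (insert v S) ≤ a then coeff (a - fi (insert v S)) (f (insert v S)) else 0
      rw [if_pos h3, if_pos h4]
      congr 1
      rw [fi_insert hvS]
      exact tsub_tsub _ _ _
    · have h3 : v ∉ (a - fi S).support := by
        rw [Finsupp.mem_support_iff, e2]; omega
      have h4 : ¬ fi (insert v S) ≤ a := by
        intro h4
        have := h4 v
        rw [fi_apply, ic_mem (Finset.mem_insert_self _ _)] at this
        omega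
      show _ = if fi (insert v S) ≤ a then coeff (a - fi (insert v S)) (f (insert v S)) else 0
      rw [if_neg h3, if_neg h4]
  · have e1 : comp a (koszulD f) S = 0 := by
      unfold comp; rw [if_neg h]
    rw [e1]
    unfold bd
    symm
    refine Finset.sum_eq_zero fun v hv => ?_
    have e2 : comp a f (insert v S) = 0 := by
      unfold comp; rw [if_neg fun h' => h (fi_le_insert h')]
    rw [e2, mul_zero]

theorem coeff_eq_comp (f : Finset (Fin n) → MvPolynomial (Fin n) k) (S : Finset (Fin n))
    (c : Fin n →₀ ℕ) : coeff c (f S) = comp (c + fi S) f S := by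
  unfold comp
  rw [if_pos le_add_self, add_tsub_cancel_right]

theorem sum_fi (S : Finset (Fin n)) : ∑ x, fi S x = S.card := by
  simp only [fi_apply]
  exact sum_ic S

variable {J : Ideal (MvPolynomial (Fin n) k)} {U : Set (Fin n → ℕ)}

theorem KK_iff {a : Fin n →₀ ℕ} {S : Finset (Fin n)} :
    KK U a S ↔ fi S ≤ a ∧ (⇑(a - fi S)) ∈ U := by
  constructor
  · rintro ⟨c, hc, hca⟩
    have h1 : fi S ≤ a := by
      intro x
      have h2 : c x + ic S x = a x := hca x
      rw [fi_apply]; omega
    refine ⟨h1, ?_⟩
    have : (⇑(a - fi S)) = c := by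
      funext x
      have h2 : c x + ic S x = a x := hca x
      rw [Finsupp.tsub_apply, fi_apply]; omega
    rw [this]; exact hc
  · rintro ⟨h1, h2⟩
    refine ⟨_, h2, fun x => ?_⟩
    have h3 := h1 x
    rw [fi_apply] at h3
    rw [Finsupp.tsub_apply, fi_apply]
    show a x - ic S x + ic S x = a x
    omega

theorem comp_ne_zero (hJ : ∀ p, p ∈ J ↔ ∀ c ∈ p.support, (⇑c) ∈ U)
    {i d : ℕ} {f : Finset (Fin n) → MvPolynomial (Fin n) k} (hf : IsKoszulChain J i d f)
    {a : Fin n →₀ ℕ} {S : Finset (Fin n)} (h : comp a f S ≠ 0) : KK U a S ∧ S.card = i := by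
  unfold comp at h
  by_cases h1 : fi S ≤ a
  · rw [if_pos h1] at h
    have h2 : f S ≠ 0 := by
      intro h0; rw [h0, coeff_zero] at h; exact h rfl
    refine ⟨KK_iff.2 ⟨h1, ?_⟩, ((hf S).2 h2).1⟩
    exact (hJ _).1 (hf S).1 _ (mem_support_iff.2 h)
  · rw [if_neg h1] at h
    exact absurd rfl h

theorem tor_of_not_AV (hJ : ∀ p, p ∈ J ↔ ∀ c ∈ p.support, (⇑c) ∈ U) {a : Fin n → ℕ} {i d : ℕ}
    (ha : ∑ x, a x = d) (h : ¬ AV k (KK U a) i) : TorNonzero J i d := by
  classical
  set b : Fin n →₀ ℕ := Finsupp.equivFunOnFinite.symm a with hb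
  have hba : (⇑b : Fin n → ℕ) = a := rfl
  unfold AV at h
  push Not at h
  obtain ⟨φ, hφ1, hφ2, hφ3⟩ := h
  set f : Finset (Fin n) → MvPolynomial (Fin n) k := fun S => monomial (b - fi S) (φ S) with hf
  have hKle : ∀ S, φ S ≠ 0 → fi S ≤ b ∧ (⇑(b - fi S)) ∈ U := fun S hS => KK_iff.1 (hφ1 S hS).1
  have hdeg : ∀ S, fi S ≤ b → ∑ x, (b - fi S) x + S.card = d := by
    intro S hS
    rw [← sum_fi, ← Finset.sum_add_distrib, ← ha]
    refine Finset.sum_congr rfl fun x _ => ?_
    have := hS x
    rw [Finsupp.tsub_apply]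
    rw [← hba]
    omega
  have hchain : IsKoszulChain J i d f := by
    intro S
    refine ⟨(hJ _).2 fun c hc => ?_, fun hne => ?_⟩
    · rw [hf] at hc
      have h1 : φ S ≠ 0 := by
        intro h0
        simp only [h0, map_zero, support_zero, Finset.notMem_empty] at hc
      have h2 := support_monomial_subset hc
      rw [Finset.mem_singleton] at h2
      rw [h2]
      exact (hKle S h1).2
    · have h1 : φ S ≠ 0 := by
        intro h0
        apply hne
        rw [hf]
        simp only [h0, map_zero]
      have h2 := hdeg S (hKle S h1).1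
      have h3 := (hφ1 S h1).2
      refine ⟨h3, by omega, ?_⟩
      rw [hf]
      refine isHomogeneous_monomial _ ?_
      rw [Finsupp.degree_eq_sum]
      omega
  have hcomp : ∀ S, comp b f S = φ S := by
    intro S
    unfold comp
    by_cases h1 : fi S ≤ b
    · rw [if_pos h1, hf]
      simp only [coeff_monomial, if_true]
    · rw [if_neg h1]
      by_contra h2
      exact h1 (hKle S (fun h3 => h2 h3.symm)).1
  have hcomp' : ∀ c, c ≠ b → ∀ S, comp c f S = 0 := by
    intro c hc S
    unfold comp
    by_cases h1 : fi S ≤ c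
    · rw [if_pos h1, hf]
      simp only [coeff_monomial]
      by_cases h2 : φ S = 0
      · rw [h2]; simp
      · rw [if_neg]
        intro h3
        apply hc
        have h4 := (hKle S h2).1
        ext x
        have h5 := DFunLike.congr_fun h3 x
        have h6 := h4 x
        have h7 := h1 x
        rw [Finsupp.tsub_apply, Finsupp.tsub_apply] at h5
        omega
    · rw [if_neg h1]
  refine ⟨f, hchain, fun S => ?_, ?_⟩
  · ext c
    rw [coeff_zero, coeff_eq_comp (koszulD f) S c, comp_koszulD]
    by_cases h1 : c + fi S = b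
    · rw [h1]
      have : comp b f = φ := funext hcomp
      rw [this]
      exact hφ2 S
    · have : comp (c + fi S) f = fun _ => 0 := funext (hcomp' _ h1)
      rw [this]
      simp [bd]
  · rintro ⟨g, hg, hgf⟩
    obtain ⟨S, hS⟩ := hφ3 (comp b g) fun S hS => comp_ne_zero hJ hg hS
    apply hS
    rw [← comp_koszulD, ← hcomp]
    unfold comp
    rw [hgf]

theorem not_tor_of_AV (hJ : ∀ p, p ∈ J ↔ ∀ c ∈ p.support, (⇑c) ∈ U) {i d : ℕ}
    (h : ∀ a : Fin n → ℕ, ∑ x, a x = d → AV k (KK U a) i) : ¬ TorNonzero J i d := by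
  classical
  rintro ⟨f, hf, hf0, hnot⟩
  apply hnot
  have hex : ∀ a : Fin n →₀ ℕ, ∑ x, a x = d → ∃ ψ : Finset (Fin n) → k,
      (∀ S, ψ S ≠ 0 → KK U a S ∧ S.card = i + 1) ∧ ∀ S, comp a f S = bd ψ S := by
    intro a ha
    refine h a ha (comp a f) (fun S hS => comp_ne_zero hJ hf hS) fun S => ?_
    rw [← comp_koszulD]
    unfold comp
    rw [hf0]
    simp
  choose! ψ hψ1 hψ2 using hex
  set A : Finset (Fin n →₀ ℕ) := Finset.finsuppAntidiag Finset.univ d with hA
  have hmemA : ∀ a : Fin n →₀ ℕ, a ∈ A ↔ ∑ x, a x = d := by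
    intro a
    rw [hA, Finset.mem_finsuppAntidiag]
    simp
  set g : Finset (Fin n) → MvPolynomial (Fin n) k := fun S =>
    ∑ a ∈ A, if fi S ≤ a then monomial (a - fi S) (ψ a S) else 0 with hg
  have hcompg : ∀ a : Fin n →₀ ℕ, ∀ S, comp a g S = if ∑ x, a x = d then ψ a S else 0 := by
    intro a S
    unfold comp
    by_cases h1 : fi S ≤ a
    · rw [if_pos h1, hg]
      simp only [coeff_sum]
      have h2 : ∀ b ∈ A, coeff (a - fi S) (if fi S ≤ b then monomial (b - fi S) (ψ b S) else 0) =
          if b = a then ψ a S else 0 := by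
        intro b _
        by_cases h3 : fi S ≤ b
        · rw [if_pos h3, coeff_monomial]
          by_cases h4 : b = a
          · subst h4; simp
          · rw [if_neg h4, if_neg]
            intro h5
            apply h4
            ext x
            have h6 := DFunLike.congr_fun h5 x
            have h7 := h1 x
            have h8 := h3 x
            rw [Finsupp.tsub_apply, Finsupp.tsub_apply] at h6
            omega
        · rw [if_neg h3, coeff_zero, if_neg]
          rintro rfl
          exact h3 h1
      rw [Finset.sum_congr rfl h2, Finset.sum_ite_eq']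
      simp only [hmemA]
    · rw [if_neg h1]
      split_ifs with h2
      · by_contra h3
        exact h1 (KK_iff.1 (hψ1 a h2 S (fun h4 => h3 h4.symm)).1).1
      · rfl
  refine ⟨g, ?_, fun S => ?_⟩
  · intro S
    have hterm : ∀ a ∈ A, fi S ≤ a → ψ a S ≠ 0 → (⇑(a - fi S)) ∈ U ∧ S.card = i + 1 ∧ i + 1 ≤ d ∧
        ∑ x, (a - fi S) x = d - (i + 1) := by
      intro a ha h1 h2
      have h3 := (hmemA a).1 ha
      obtain ⟨h4, h5⟩ := hψ1 a h3 S h2
      have h6 : ∑ x, (a - fi S) x + S.card = d := by
        rw [← sum_fi, ← Finset.sum_add_distrib, ← h3]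
        refine Finset.sum_congr rfl fun x _ => ?_
        have := h1 x
        rw [Finsupp.tsub_apply]
        omega
      exact ⟨(KK_iff.1 h4).2, h5, by omega, by omega⟩
    refine ⟨?_, fun hne => ?_⟩
    · refine Ideal.sum_mem _ fun a ha => ?_
      by_cases h1 : fi S ≤ a
      · rw [if_pos h1]
        by_cases h2 : ψ a S = 0
        · rw [h2, map_zero]; exact Ideal.zero_mem _
        · rw [hJ]
          intro c hc
          have h3 := support_monomial_subset hc
          rw [Finset.mem_singleton] at h3
          rw [h3]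
          exact (hterm a ha h1 h2).1
      · rw [if_neg h1]; exact Ideal.zero_mem _
    · obtain ⟨a, ha, hane⟩ := Finset.exists_ne_zero_of_sum_ne_zero hne
      have h1 : fi S ≤ a := by
        by_contra hc; exact hane (if_neg hc)
      rw [if_pos h1] at hane
      have h2 : ψ a S ≠ 0 := fun h0 => hane (by rw [h0, map_zero])
      obtain ⟨_, h3, h4, _⟩ := hterm a ha h1 h2
      refine ⟨h3, h4, ?_⟩
      refine IsHomogeneous.sum _ _ _ fun b hb => ?_
      by_cases h5 : fi S ≤ b
      · rw [if_pos h5]
        by_cases h6 : ψ b S = 0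
        · rw [h6, map_zero]; exact isHomogeneous_zero _ _ _
        · refine isHomogeneous_monomial _ ?_
          rw [Finsupp.degree_eq_sum]
          exact (hterm b hb h5 h6).2.2.2
      · rw [if_neg h5]; exact isHomogeneous_zero _ _ _
  · ext c
    rw [coeff_eq_comp (koszulD g) S c, comp_koszulD]
    have h1 : comp (c + fi S) g = fun S' => if ∑ x, (c + fi S) x = d then ψ (c + fi S) S' else 0 :=
      funext (hcompg _)
    rw [h1]
    by_cases h2 : ∑ x, (c + fi S) x = d
    · simp only [if_pos h2]
      rw [coeff_eq_comp f S c, hψ2 _ h2]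
    · simp only [if_neg h2]
      have h3 : bd (fun _ : Finset (Fin n) => (0 : k)) S = 0 := by simp [bd]
      rw [h3]
      symm
      by_contra h4
      have h5 : f S ≠ 0 := by
        intro h0; rw [h0, coeff_zero] at h4; exact h4 rfl
      obtain ⟨h6, h7, h8⟩ := (hf S).2 h5
      have h9 := h8 h4
      apply h2
      rw [Pi.one_def, ← Finsupp.degree_eq_weight_one, Finsupp.degree_eq_sum] at h9
      simp only [Finsupp.add_apply, Finset.sum_add_distrib, sum_fi, h9]
      omega

end Pool.Agent.LibHelper95.Reg
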