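import Mathlib

/-!
The logarithmic map `P = (x, y) ↦ Dx / 2y` on the points of a Weierstrass curve
`y² = x³ + a₂ x² + a₄ x + a₆` with constant coefficients over a field `K` with a derivation `D`,
presented as a relation, and its additivity.
-/

namespace Pool.Agent.LibHelper95

open WeierstrassCurve WeierstrassCurve.Affine

variable {K : Type*} [Field K]

/-- `IsLog D W P l` says that `l` is the value at `D` of the pull-back of the invariant
differential `dx / 2y` along `P`. -/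
def IsLog (D : Derivation ℤ K K) (W : WeierstrassCurve.Affine K) : W.Point → K → Prop
  | .zero, l => l = 0
  | .some x y _, l => D x = 2 * y * l ∧ D y = (3 * x ^ 2 + 2 * W.a₂ * x + W.a₄) * l

/-- A Weierstrass curve `y² = x³ + a₂ x² + a₄ x + a₆` with coefficients constant for `D`. -/
structure ConstShort (D : Derivation ℤ K K) (W : WeierstrassCurve.Affine K) : Prop where
  a₁ : W.a₁ = 0
  a₃ : W.a₃ = 0
  d₂ : D W.a₂ = 0
  d₄ : D W.a₄ = 0
  d₆ : D W.a₆ = 0

variable {D : Derivation ℤ K K} {W : WeierstrassCurve.Affine K}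

theorem D_two (D : Derivation ℤ K K) : D (2 : K) = 0 := by
  have := D.map_natCast 2
  simpa using this

theorem D_three (D : Derivation ℤ K K) : D (3 : K) = 0 := by
  have := D.map_natCast 3
  simpa using this

theorem ConstShort.equation (hW : ConstShort D W) {x y : K} (h : W.Equation x y) :
    y ^ 2 = x ^ 3 + W.a₂ * x ^ 2 + W.a₄ * x + W.a₆ := by
  rw [WeierstrassCurve.Affine.equation_iff, hW.a₁, hW.a₃] at h
  linear_combination h

theorem ConstShort.nonsing (hW : ConstShort D W) {x y : K} (h : W.Nonsingular x y) :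
    3 * x ^ 2 + 2 * W.a₂ * x + W.a₄ ≠ 0 ∨ 2 * y ≠ 0 := by
  rw [WeierstrassCurve.Affine.nonsingular_iff, hW.a₁, hW.a₃] at h
  rcases h.2 with h | h
  · left
    intro h0
    apply h
    linear_combination -h0
  · right
    intro h0
    apply h
    linear_combination h0

theorem IsLog.zero : IsLog D W 0 0 := rfl

theorem IsLog.unique (hW : ConstShort D W) {P : W.Point} {l m : K} (h₁ : IsLog D W P l)
    (h₂ : IsLog D W P m) : l = m := by
  cases P with
  | zero => exact (h₁ : l = 0).trans (h₂ : m = 0).symm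
  | some x y h =>
    obtain ⟨h1, h2⟩ := h₁
    obtain ⟨h3, h4⟩ := h₂
    rcases hW.nonsing h with h0 | h0
    · exact mul_left_cancel₀ h0 (h2.symm.trans h4)
    · exact mul_left_cancel₀ h0 (h1.symm.trans h3)

theorem IsLog.neg (hW : ConstShort D W) {P : W.Point} {l : K} (h₁ : IsLog D W P l) :
    IsLog D W (-P) (-l) := by
  cases P with
  | zero =>
    have h0 : l = 0 := h₁
    subst h0
    exact neg_zero
  | some x y h =>
    obtain ⟨h1, h2⟩ := h₁
    have hy : W.negY x y = -y := by simp [negY, hW.a₁, hW.a₃]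
    constructor
    · rw [hy, h1]; ring
    · rw [hy, map_neg, h2]; ring

/-- With `D x = 2 y l` and `y ≠ 0` the second condition is automatic. -/
theorem isLog_of_y_ne_zero (hW : ConstShort D W) (h2 : (2 : K) ≠ 0) {x y : K}
    {h : W.Nonsingular x y} (hy : y ≠ 0) {l : K} (hx : D x = 2 * y * l) :
    IsLog D W (.some x y h) l := by
  refine ⟨hx, ?_⟩
  have e := congrArg D (hW.equation h.1)
  simp only [map_add, Derivation.leibniz, Derivation.leibniz_pow, smul_eq_mul, hW.d₂, hW.d₄,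
    hW.d₆, hx, nsmul_eq_mul] at e
  have h2y : 2 * y ≠ 0 := mul_ne_zero h2 hy
  apply mul_left_cancel₀ h2y
  push_cast at e
  linear_combination e

/-- The key computation: the sum of two points, given the derivative of the slope. -/
theorem isLog_add_aux (hW : ConstShort D W) {x₁ y₁ x₂ y₂ l m s : K}
    (hD1 : D x₁ = 2 * y₁ * l) (hE1 : D y₁ = (3 * x₁ ^ 2 + 2 * W.a₂ * x₁ + W.a₄) * l)
    (hD2 : D x₂ = 2 * y₂ * m)
    (hs : D s = l * (x₁ - W.addX x₁ x₂ s) + m * (x₂ - W.addX x₁ x₂ s))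
    (hy2 : y₂ = y₁ + s * (x₂ - x₁))
    (i1 : (3 * x₁ ^ 2 + 2 * W.a₂ * x₁ + W.a₄) - 2 * s * y₁
      = (x₁ - x₂) * (x₁ - W.addX x₁ x₂ s)) :
    D (W.addX x₁ x₂ s) = 2 * W.addY x₁ x₂ y₁ s * (l + m) ∧
    D (W.addY x₁ x₂ y₁ s) = (3 * (W.addX x₁ x₂ s) ^ 2 + 2 * W.a₂ * (W.addX x₁ x₂ s) + W.a₄)
      * (l + m) := by
  set x₃ := W.addX x₁ x₂ s with hx3
  have hX : x₃ = s ^ 2 - W.a₂ - x₁ - x₂ := by
    rw [hx3, addX, hW.a₁]; ring
  have hY : W.addY x₁ x₂ y₁ s = s * (x₁ - x₃) - y₁ := by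
    rw [addY, negAddY, negY, hW.a₁, hW.a₃, ← hx3]; ring
  have hDx : D x₃ = 2 * W.addY x₁ x₂ y₁ s * (l + m) := by
    rw [hY]
    have : D x₃ = 2 * s * D s - D x₁ - D x₂ := by
      rw [hX]
      simp only [map_sub, Derivation.leibniz_pow, hW.d₂, nsmul_eq_mul, smul_eq_mul]
      push_cast
      ring
    rw [this, hD1, hD2, hs, hy2]
    ring
  refine ⟨hDx, ?_⟩
  have hDy : D (W.addY x₁ x₂ y₁ s) = D s * (x₁ - x₃) + s * (D x₁ - D x₃) - D y₁ := by
    rw [hY]
    simp only [map_sub, Derivation.leibniz, smul_eq_mul]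
    ring
  rw [hDy, hDx, hs, hD1, hE1, hY]
  have i3 : 3 * x₃ ^ 2 + 2 * W.a₂ * x₃ + W.a₄
      = -2 * s * (s * (x₁ - x₃) - y₁) + (x₃ - x₁) * (x₃ - x₂) := by
    have ha2 : W.a₂ = s ^ 2 - x₃ - x₁ - x₂ := by rw [hX]; ring
    have i1' := i1
    rw [ha2] at i1' ⊢
    linear_combination i1'
  rw [i3]
  linear_combination (-l) * i1

theorem IsLog.add [DecidableEq K] (hW : ConstShort D W) {P Q : W.Point} {l m : K}
    (hP : IsLog D W P l) (hQ : IsLog D W Q m) : IsLog D W (P + Q) (l + m) := by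
  rcases P with _ | ⟨x₁, y₁, h₁⟩
  · have h0 : l = 0 := hP
    subst h0
    rw [zero_add]
    exact (zero_add Q).symm ▸ hQ
  rcases Q with _ | ⟨x₂, y₂, h₂⟩
  · have h0 : m = 0 := hQ
    subst h0
    rw [add_zero]
    exact (add_zero (Point.some x₁ y₁ h₁)).symm ▸ hP
  by_cases hxy : x₁ = x₂ ∧ y₁ = W.negY x₂ y₂
  · rw [Point.add_of_Y_eq hxy.1 hxy.2]
    have hneg := IsLog.neg hW hQ
    have hPQ : (Point.some x₁ y₁ h₁ : W.Point) = - Point.some x₂ y₂ h₂ := by
      rw [Point.neg_some]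
      obtain ⟨rfl, rfl⟩ := hxy
      rfl
    rw [hPQ] at hP
    have := IsLog.unique hW hP hneg
    change l + m = 0
    rw [this]; ring
  · rw [Point.add_some hxy]
    have e1 := hW.equation h₁.1
    have e2 := hW.equation h₂.1
    obtain ⟨hD1, hE1⟩ := hP
    obtain ⟨hD2, hE2⟩ := hQ
    by_cases hx : x₁ = x₂
    · subst hx
      have hy' : y₁ ≠ W.negY x₁ y₂ := fun h => hxy ⟨rfl, h⟩
      have hyy : y₁ = y₂ := Y_eq_of_Y_ne h₁.1 h₂.1 rfl hy'
      subst hyy
      have hng : W.negY x₁ y₁ = -y₁ := by simp [negY, hW.a₁, hW.a₃]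
      have h2y : 2 * y₁ ≠ 0 := by
        intro h0
        apply hy'
        rw [hng]
        linear_combination h0
      have hlm : l = m := by
        refine mul_left_cancel₀ h2y (hD1.symm.trans hD2)
      subst hlm
      have hs : W.slope x₁ x₁ y₁ y₁ * (2 * y₁) = 3 * x₁ ^ 2 + 2 * W.a₂ * x₁ + W.a₄ := by
        rw [slope_of_Y_ne rfl hy', hng, hW.a₁]
        have : y₁ - -y₁ = 2 * y₁ := by ring
        rw [this, div_mul_cancel₀ _ h2y]
        ring
      set s := W.slope x₁ x₁ y₁ y₁ with hsdef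
      refine isLog_add_aux hW hD1 hE1 hD2 ?_ (by ring) ?_
      · -- derivative of the slope
        have e := congrArg D hs
        simp only [map_add, Derivation.leibniz, Derivation.leibniz_pow, smul_eq_mul, hW.d₂, hW.d₄,
          nsmul_eq_mul, D_two D, D_three D] at e
        rw [hD1, hE1] at e
        have hX : W.addX x₁ x₁ s = s ^ 2 - W.a₂ - x₁ - x₁ := by
          rw [addX, hW.a₁]; ring
        rw [hX]
        apply mul_left_cancel₀ h2y
        push_cast at e
        linear_combination e + 2 * l * s * hs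
      · linear_combination -hs
    · have hx' : x₁ - x₂ ≠ 0 := sub_ne_zero.mpr hx
      have hs : W.slope x₁ x₂ y₁ y₂ * (x₁ - x₂) = y₁ - y₂ := by
        rw [slope_of_X_ne hx, div_mul_cancel₀ _ hx']
      set s := W.slope x₁ x₂ y₁ y₂ with hsdef
      have hy2 : y₂ = y₁ + s * (x₂ - x₁) := by linear_combination hs
      have hX : W.addX x₁ x₂ s = s ^ 2 - W.a₂ - x₁ - x₂ := by
        rw [addX, hW.a₁]; ring
      have i1 : (3 * x₁ ^ 2 + 2 * W.a₂ * x₁ + W.a₄) - 2 * s * y₁
          = (x₁ - x₂) * (x₁ - W.addX x₁ x₂ s) := by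
        apply mul_left_cancel₀ hx'
        rw [hX]
        rw [hy2] at e2
        linear_combination e2 - e1
      have i2 : (3 * x₂ ^ 2 + 2 * W.a₂ * x₂ + W.a₄) - 2 * s * y₂
          = (x₂ - x₁) * (x₂ - W.addX x₁ x₂ s) := by
        apply mul_left_cancel₀ hx'
        rw [hX]
        rw [hy2] at e2 ⊢
        linear_combination e2 - e1
      refine isLog_add_aux hW hD1 hE1 hD2 ?_ hy2 i1
      have e := congrArg D hs
      simp only [map_sub, Derivation.leibniz, smul_eq_mul] at e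
      rw [hD1, hE1, hD2, hE2] at e
      apply mul_left_cancel₀ hx'
      linear_combination e + l * i1 - m * i2

end Pool.Agent.LibHelper95
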