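import Mathlib
import Pool.Agent.Lib_helper95.PowerLower
import Pool.Agent.Lib_helper95.ExplicitGraph

/-!
# Homology classes of the explicit graph
-/

open Finset

namespace Pool.Agent.LibHelper95.Reg

/-- Alternating sum over the facets (in the list `tb`) containing the ridge `R`. -/
def csum (W : Finset (Fin 23)) (tb : List (Finset (Fin 23))) (R : Finset (Fin 23)) : ℤ :=
  ∑ v ∈ W \ R, (-1) ^ (((W \ R).erase v).filter (· < v)).card * (if insert v R ∈ tb then 1 else 0)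

section Cert

variable {k : Type*} [Field k]

/-- The functional with value `1` on the complements of the sets in `tb`. -/
def zf (k : Type*) [Field k] (W : Finset (Fin 23)) (tb : List (Finset (Fin 23)))
    (S : Finset (Fin 23)) : k := if S ⊆ W ∧ W \ S ∈ tb then 1 else 0

theorem zf_spec {W : Finset (Fin 23)} {tb : List (Finset (Fin 23))} {s : ℕ}
    (htb : ∀ T ∈ tb, T ⊆ W ∧ T.card = s ∧ Ind Gr T) (S : Finset (Fin 23))
    (hS : zf k W tb S ≠ 0) : S ⊆ W ∧ S.card + s = W.card ∧ Ind Gr (W \ S) := by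
  unfold zf at hS
  by_cases h : S ⊆ W ∧ W \ S ∈ tb
  · obtain ⟨h1, h2⟩ := h
    obtain ⟨h3, h4, h5⟩ := htb _ h2
    refine ⟨h1, ?_, h5⟩
    rw [Finset.card_sdiff_of_subset h1] at h4
    have := Finset.card_le_card h1
    omega
  · rw [if_neg h] at hS
    exact absurd rfl hS

theorem zf_cyc {W : Finset (Fin 23)} {Wl : List (Fin 23)} (hWl : W ⊆ Wl.toFinset)
    {tb : List (Finset (Fin 23))} {s : ℕ}
    (htb : ∀ T ∈ tb, T ⊆ W ∧ T.card = s + 1 ∧ Ind Gr T)
    (hc : ∀ l ∈ indLists s Wl, ((csum W tb l.toFinset : ℤ) : k) = 0) (S' : Finset (Fin 23))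
    (hS' : S' ⊆ W) (hcard : S'.card + (s + 1) = W.card + 1) :
    ∑ v ∈ S', sgn k v (S'.erase v) * zf k W tb (S'.erase v) = 0 := by
  set R := W \ S' with hR
  have hWR : W \ R = S' := by rw [hR, Finset.sdiff_sdiff_eq_self hS']
  have hRc : R.card = s := by
    rw [hR, Finset.card_sdiff_of_subset hS']
    have := Finset.card_le_card hS'
    omega
  have hRW : R ⊆ W := Finset.sdiff_subset
  have key : ∀ v ∈ S', W \ (S'.erase v) = insert v R := by
    intro v hv
    ext x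
    rw [Finset.mem_sdiff, Finset.mem_erase, Finset.mem_insert, hR, Finset.mem_sdiff]
    by_cases hx : x = v
    · subst hx
      simp [hS' hv]
    · simp [hx]
  have hsum : ∑ v ∈ S', sgn k v (S'.erase v) * zf k W tb (S'.erase v) =
      ((csum W tb R : ℤ) : k) := by
    unfold csum
    rw [Int.cast_sum, hWR]
    refine Finset.sum_congr rfl fun v hv => ?_
    rw [Int.cast_mul]
    congr 1
    · unfold sgn
      push_cast
      rfl
    · unfold zf
      rw [key v hv]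
      by_cases h : insert v R ∈ tb
      · rw [if_pos h, if_pos ⟨(Finset.erase_subset v S').trans hS', h⟩, Int.cast_one]
      · rw [if_neg h, if_neg fun h' => h h'.2, Int.cast_zero]
  rw [hsum]
  by_cases hI : Ind Gr R
  · obtain ⟨l, hl, hlR⟩ := mem_indLists s Wl R (hRW.trans hWl) hI hRc
    rw [← hlR]
    exact hc l hl
  · have h0 : csum W tb R = 0 := by
      unfold csum
      refine Finset.sum_eq_zero fun v hv => ?_
      rw [if_neg, mul_zero]
      intro h
      obtain ⟨_, _, h5⟩ := htb _ h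
      exact hI fun a ha b hb => h5 a (Finset.mem_insert_of_mem ha) b (Finset.mem_insert_of_mem hb)
    rw [h0, Int.cast_zero]

end Cert

/-- Vertices of the sphere. -/
def WB : Finset (Fin 23) := {13, 14, 15, 16, 17, 18, 19, 20, 21, 22}

/-- Facets of the sphere. -/
def tbB : List (Finset (Fin 23)) :=
  [{13, 15, 18, 20}, {15, 17, 18, 20}, {13, 16, 18, 20}, {13, 15, 20, 22}, {13, 15, 18, 21},
   {14, 17, 18, 20}, {15, 17, 20, 22}, {15, 17, 18, 21}, {14, 16, 18, 20}, {13, 16, 20, 22},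
   {13, 16, 18, 21}, {13, 15, 19, 22}, {13, 15, 19, 21}, {14, 17, 20, 22}, {14, 17, 18, 21},
   {15, 17, 19, 22}, {15, 17, 19, 21}, {14, 16, 20, 22}, {14, 16, 18, 21}, {13, 16, 19, 22},
   {13, 16, 19, 21}, {14, 17, 19, 22}, {14, 17, 19, 21}, {14, 16, 19, 22}, {14, 16, 19, 21}]

/-- Vertices of the projective plane. -/
def WA : Finset (Fin 23) := {0, 1, 2, 3, 4, 5, 6, 7, 8, 9, 10}

/-- Triangles of the projective plane. -/
def tbA : List (Finset (Fin 23)) :=
  [{0, 2, 3}, {0, 2, 7}, {0, 3, 5}, {0, 5, 8}, {0, 7, 8}, {1, 2, 7}, {1, 2, 10}, {1, 5, 9}, {1,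
   5, 10}, {1, 6, 7}, {1, 6, 9}, {2, 3, 4}, {2, 4, 10}, {3, 4, 6}, {3, 5, 9}, {3, 6, 9}, {4, 6,
   8}, {4, 8, 10}, {5, 8, 10}, {6, 7, 8}]

/-- Vertices of a link. -/
def WC : Finset (Fin 23) := {1, 3, 5, 6}

/-- Edges of the link. -/
def tbC : List (Finset (Fin 23)) := [{1, 5}, {3, 5}, {1, 6}, {3, 6}]

instance (T : Finset (Fin 23)) : Decidable (Ind Gr T) :=
  inferInstanceAs (Decidable (∀ u ∈ T, ∀ v ∈ T, ¬ Gr.Adj u v))

theorem tbB_all : (tbB.all fun T => decide (T ⊆ WB ∧ T.card = 3 + 1 ∧ Ind Gr T)) = true := by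
  decide +kernel

theorem tbB_ok : ∀ T ∈ tbB, T ⊆ WB ∧ T.card = 3 + 1 ∧ Ind Gr T := fun T hT =>
  of_decide_eq_true (List.all_eq_true.1 tbB_all T hT)

theorem tbA_all : (tbA.all fun T => decide (T ⊆ WA ∧ T.card = 2 + 1 ∧ Ind Gr T)) = true := by
  decide +kernel

theorem tbA_ok : ∀ T ∈ tbA, T ⊆ WA ∧ T.card = 2 + 1 ∧ Ind Gr T := fun T hT =>
  of_decide_eq_true (List.all_eq_true.1 tbA_all T hT)

theorem tbC_all : (tbC.all fun T => decide (T ⊆ WC ∧ T.card = 1 + 1 ∧ Ind Gr T)) = true := by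
  decide +kernel

theorem tbC_ok : ∀ T ∈ tbC, T ⊆ WC ∧ T.card = 1 + 1 ∧ Ind Gr T := fun T hT =>
  of_decide_eq_true (List.all_eq_true.1 tbC_all T hT)

theorem csumB : ∀ l ∈ indLists 3 [13, 14, 15, 16, 17, 18, 19, 20, 21, 22],
    csum WB tbB l.toFinset = 0 := by decide +kernel

theorem csumA : ∀ l ∈ indLists 2 [0, 1, 2, 3, 4, 5, 6, 7, 8, 9, 10],
    csum WA tbA l.toFinset % 2 = 0 := by decide +kernel

theorem csumC : ∀ l ∈ indLists 1 [1, 3, 5, 6],
    csum WC tbC l.toFinset = 0 := by decide +kernel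

theorem lower_one (k : Type*) [Field k] :
    ∃ (a : Fin 23 → ℕ) (i : ℕ), ∑ v, a v = i + 5 ∧ ¬ AV k (KK (Pw Gr 1) a) i := by
  refine not_AV_one (s := 4) WB (zf k WB tbB) (zf_spec tbB_ok)
    (fun S' h1 h2 => zf_cyc (s := 3) (Wl := [13, 14, 15, 16, 17, 18, 19, 20, 21, 22])
      (by decide +kernel) tbB_ok (fun l hl => by rw [csumB l hl, Int.cast_zero]) S' h1 h2)
    {13, 15, 18, 20} (by decide +kernel) (by decide +kernel) (by decide +kernel)
    (by decide +kernel) ?_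
  have h : WB \ {13, 15, 18, 20} ⊆ WB ∧ WB \ (WB \ {13, 15, 18, 20}) ∈ tbB := by decide +kernel
  unfold zf
  rw [if_pos h]
  exact one_ne_zero

theorem lower_two (k : Type*) [Field k] (h2 : (2 : k) = 0) (q : ℕ) :
    ∃ (a : Fin 23 → ℕ) (i : ℕ), ∑ v, a v = i + (2 * (q + 1) + 3) ∧
      ¬ AV k (KK (Pw Gr (q + 1)) a) i := by
  refine not_AV_of_edge (x := 11) (y := 12) (by decide +kernel) WA (by decide +kernel)
    (by decide +kernel) (by decide +kernel) (by decide +kernel) (zf k WA tbA) (zf_spec tbA_ok)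
    (fun S' h1 h3 => zf_cyc (s := 2) (Wl := [0, 1, 2, 3, 4, 5, 6, 7, 8, 9, 10])
      (by decide +kernel) tbA_ok (fun l hl => ?_) S' h1 h3)
    {0, 2, 3} (by decide +kernel) (by decide +kernel)
    (by decide +kernel) ?_ q
  · obtain ⟨m, hm⟩ := Int.dvd_of_emod_eq_zero (csumA l hl)
    rw [hm, Int.cast_mul, Int.cast_ofNat, h2, zero_mul]
  · have h : WA \ {0, 2, 3} ⊆ WA ∧ WA \ (WA \ {0, 2, 3}) ∈ tbA := by decide +kernel
    unfold zf
    rw [if_pos h]
    exact one_ne_zero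

theorem lower_any (k : Type*) [Field k] (q : ℕ) :
    ∃ (a : Fin 23 → ℕ) (i : ℕ), ∑ v, a v = i + (2 * (q + 1) + 2) ∧
      ¬ AV k (KK (Pw Gr (q + 1)) a) i := by
  refine not_AV_of_edge (x := 11) (y := 12) (by decide +kernel) WC (by decide +kernel)
    (by decide +kernel) (by decide +kernel) (by decide +kernel) (zf k WC tbC) (zf_spec tbC_ok)
    (fun S' h1 h3 => zf_cyc (s := 1) (Wl := [1, 3, 5, 6])
      (by decide +kernel) tbC_ok (fun l hl => by rw [csumC l hl, Int.cast_zero]) S' h1 h3)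
    {1, 5} (by decide +kernel) (by decide +kernel)
    (by decide +kernel) ?_ q
  have h : WC \ {1, 5} ⊆ WC ∧ WC \ (WC \ {1, 5}) ∈ tbC := by decide +kernel
  unfold zf
  rw [if_pos h]
  exact one_ne_zero

end Pool.Agent.LibHelper95.Reg
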