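import Mathlib
import Pool.Agent.Lib_helper95.PowerHomology

/-!
# Koszul homology of powers of edge ideals: upper bounds for branched complexes

The hypothesis on ridges in `Good` is replaced by a condition on common links of three pairwise adjacent vertices.
-/

open Finset

namespace Pool.Agent.LibHelper95.Reg

set_option linter.unusedSectionVars false

variable {V : Type*} [Fintype V] [LinearOrder V]
variable {G : SimpleGraph V} {M : Multiset (Sym2 V)} {k : Type*} [Field k]

/-- `R` has the three pairwise adjacent extensions `j`, `p`, `p'` to an independent set. -/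
structure Tri (G : SimpleGraph V) (j p p' : V) (R : Finset V) : Prop where
  a1 : G.Adj j p
  a2 : G.Adj j p'
  a3 : G.Adj p p'
  i1 : Ind G (insert j R)
  i2 : Ind G (insert p R)
  i3 : Ind G (insert p' R)

/-- Combinatorial hypotheses on `G`. -/
structure Good2 (k : Type*) [Field k] (G : SimpleGraph V) : Prop where
  alpha : ∀ T : Finset V, Ind G T → T.card ≤ 4
  two : ∀ T : Finset V, T.card = 4 → ∀ j ∈ T, ∀ j' ∈ T, j ≠ j' → ∀ p q p' q', Tri G j p q (T.erase j) →
    Tri G j' p' q' (T.erase j') → False
  link : ∀ (j p q : V) (Z : Finset V → k), (∀ R, Z R ≠ 0 → R.card = 3 ∧ Tri G j p q R) →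
    (∀ R, R.card = 2 → bd Z R = 0) → ∀ R, Z R = 0

/-- A square in an independent 4-set. -/
theorem square_tri (hG : ∀ T : Finset V, Ind G T → T.card ≤ 4) (hM : IsE G M) {j : V} (hjj : Rel G M j j) :
    ∃ p q : V, ∀ T : Finset V, T.card = 4 → RInd G M T → j ∈ T → Tri G j p q (T.erase j) := by
  obtain ⟨p₁, p₂, hp, hjp, hne, hR⟩ := Rel.self_path _ M rfl hM j hjj
  refine ⟨p₁, p₂, fun T hT hI hj => ?_⟩
  have hpp : G.Adj p₁ p₂ := hM _ hp
  have hGT : Ind G T := hI.ind hM
  set R := T.erase j with hRdef
  have hTR : T = insert j R := (Finset.insert_erase hj).symm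
  have hjR : j ∉ R := Finset.notMem_erase j T
  have hRc : R.card = 3 := by rw [hRdef, Finset.card_erase_of_mem hj, hT]
  have hRT : ∀ t ∈ R, t ∈ T ∧ t ≠ j := fun t ht =>
    ⟨Finset.mem_of_mem_erase ht, Finset.ne_of_mem_erase ht⟩
  have hnot : ∀ t ∈ R, ¬ Rel G M t j := fun t ht => hI t (hRT t ht).1 j hj (hRT t ht).2
  have hIR : Ind G R := fun u hu v hv => hGT u (hRT u hu).1 v (hRT v hv).1
  -- the vertex `p₂`
  have hp2R : p₂ ∉ R := fun h => hnot p₂ h hR
  have h2 : ∀ t ∈ R, ¬ G.Adj p₂ t := by
    intro t ht hadj
    apply hnot t ht
    have hp' : s(p₂, p₁) ∈ M := by rw [Sym2.eq_swap]; exact hp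
    exact Rel.of_edge hM hp' hadj.symm hjp
  have hI2 : Ind G (insert p₂ R) := hIR.insert h2
  have hjp2 : G.Adj j p₂ := by
    by_contra hcon
    have hI3 : Ind G (insert j (insert p₂ R)) := by
      refine hI2.insert fun t ht => ?_
      rcases Finset.mem_insert.1 ht with rfl | ht
      · exact hcon
      · exact hGT j hj t (hRT t ht).1
    have := hG _ hI3
    rw [Finset.card_insert_of_notMem, Finset.card_insert_of_notMem hp2R, hRc] at this
    · omega
    · rw [Finset.mem_insert, not_or]
      exact ⟨hne.symm, hjR⟩
  -- the vertex `p₁`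
  have h1 : ∀ t ∈ R, ¬ G.Adj p₁ t := by
    intro t ht hadj
    apply hnot t ht
    exact Rel.of_edge hM hp hadj.symm hjp2
  have hI1 : Ind G (insert p₁ R) := hIR.insert h1
  exact ⟨hjp, hjp2, hpp, hTR ▸ hGT, hI1, hI2⟩

theorem RV_step2 (hG : Good2 k G) (hM : IsE G M) {q : ℕ} (hc : M.card = q) {A : Finset (V → ℕ)}
    (h1 : ∀ m ∈ A, m ∈ Gn G q ∧ lexlt (dg M) m) (h2 : ∀ m ∈ Gn G q, lexlt (dg M) m → m ∈ A)
    {s : ℕ} (hs : s = 5 ∨ (s = 4 ∧ NoCyc k G M)) (a : V → ℕ) (i : ℕ)
    (ha : 2 * q + i + s ≤ ∑ x, a x) :
    RV k (KK (JJ G q (insert (dg M) A)) a) (KK (JJ G q A) a) i := by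
  have hsum : ∑ x, dg M x = 2 * q := by rw [sum_dg hM, hc]
  set L : (V → ℕ) → Prop := fun f => (fun x => f x + dg M x) ∈ JJ G q A with hLdef
  have hLup : ∀ f g : V → ℕ, L f → (∀ x, f x ≤ g x) → L g := by
    intro f g hf hfg
    exact JJ_up hf fun x => Nat.add_le_add_right (hfg x) _
  have hLrel : ∀ f : V → ℕ, ∀ u v, Rel G M u v → (∀ x, dl u x + dl v x ≤ f x) → L f :=
    fun f u v hr hf => mem_JJ_of_rel hc hr hf
  have hLstruct : ∀ f : V → ℕ, L f → (∃ u, 1 ≤ f u ∧ L (dl u)) ∨
      ∃ u v, Rel G M u v ∧ ∀ x, dl u x + dl v x ≤ f x := fun f hf => colon_struct hM hc h1 h2 hf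
  have hD : ∀ v S, KK (JJ G q (insert (dg M) A)) a (insert v S) →
      KK (JJ G q (insert (dg M) A)) a S := KK_down fun f hf g hfg => JJ_up hf hfg
  have hD' : ∀ v S, KK (JJ G q A) a (insert v S) →
      KK (JJ G q A) a S := KK_down fun f hf g hfg => JJ_up hf hfg
  have C_iff : ∀ S, (KK (JJ G q (insert (dg M) A)) a S ∧ ¬ KK (JJ G q A) a S) ↔
      ∃ f : V → ℕ, ¬ L f ∧ ∀ x, f x + dg M x + ic S x = a x := by
    intro S
    constructor
    · rintro ⟨⟨c, hcJ, hca⟩, hn⟩
      have hcn : c ∉ JJ G q A := fun h => hn ⟨c, h, hca⟩
      have hge : ∀ x, dg M x ≤ c x := by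
        rcases hcJ with hcJ | ⟨m, hm, hmc⟩
        · exact absurd (Or.inl hcJ) hcn
        · rcases Finset.mem_insert.1 hm with rfl | hm
          · exact hmc
          · exact absurd (Or.inr ⟨m, hm, hmc⟩) hcn
      refine ⟨fun x => c x - dg M x, fun hL => hcn ?_, fun x => ?_⟩
      · have : (fun x => c x - dg M x + dg M x) = c := by
          funext x
          have := hge x
          omega
        rw [← this]
        exact hL
      · have h3 := hge x
        have h4 : c x + ic S x = a x := hca x
        show c x - dg M x + dg M x + ic S x = a x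
        omega
    · rintro ⟨f, hf, hfa⟩
      refine ⟨⟨fun x => f x + dg M x, Or.inr ⟨dg M, Finset.mem_insert_self _ _,
        fun x => Nat.le_add_left _ _⟩, fun x => hfa x⟩, ?_⟩
      rintro ⟨c, hcJ, hca⟩
      apply hf
      have : (fun x => f x + dg M x) = c := by
        funext x
        have h3 := hfa x
        have h4 : c x + ic S x = a x := hca x
        omega
      show (fun x => f x + dg M x) ∈ JJ G q A
      rw [this]
      exact hcJ
  by_cases hcone : ∃ j, ¬ Rel G M j j ∧ ¬ L (dl j) ∧ dg M j + 2 ≤ a j
  · obtain ⟨j, hj1, hj2, hj3⟩ := hcone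
    refine RV_of_cone hD hD' j fun S hjS => ?_
    rw [C_iff, C_iff]
    constructor
    · rintro ⟨f, hf, hfa⟩
      have hfj := hfa j
      rw [ic_notMem hjS] at hfj
      refine ⟨fun x => f x - dl j x, fun hL => hf (hLup _ _ hL fun x => Nat.sub_le _ _),
        fun x => ?_⟩
      have h3 := hfa x
      show f x - dl j x + dg M x + ic (insert j S) x = a x
      by_cases hx : x = j
      · subst hx
        rw [dl_self, ic_mem (Finset.mem_insert_self _ _)]
        omega
      · have : ic (insert j S) x = ic S x := by unfold ic; simp [hx]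
        rw [dl_ne hx, this]
        omega
    · rintro ⟨f, hf, hfa⟩
      have hfj := hfa j
      rw [ic_mem (Finset.mem_insert_self _ _)] at hfj
      refine ⟨fun x => f x + dl j x, fun hL => hf ?_, fun x => ?_⟩
      · rcases hLstruct _ hL with ⟨u, hu, huL⟩ | ⟨u, v, huv, hle⟩
        · have huj : u ≠ j := fun h => hj2 (h ▸ huL)
          have hu' : 1 ≤ f u + dl j u := hu
          rw [dl_ne huj] at hu'
          refine hLup _ _ huL fun x => ?_
          by_cases hx : x = u
          · subst hx; rw [dl_self]; exact hu'
          · rw [dl_ne hx]; exact Nat.zero_le _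
        · refine hLrel f u v huv fun x => ?_
          have h3 : dl u x + dl v x ≤ f x + dl j x := hle x
          by_cases hx : x = j
          · subst hx
            have h4 : dl u x + dl v x ≤ 1 := by
              by_cases hux : x = u
              · by_cases hvx : x = v
                · subst hux; subst hvx
                  exact absurd huv hj1
                · rw [dl_ne hvx]; have := dl_le u x; omega
              · rw [dl_ne hux]; have := dl_le v x; omega
            omega
          · rw [dl_ne hx] at h3
            exact h3
      · have h3 := hfa x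
        show f x + dl j x + dg M x + ic S x = a x
        by_cases hx : x = j
        · subst hx
          rw [dl_self, ic_notMem hjS]
          omega
        · have : ic (insert j S) x = ic S x := by unfold ic; simp [hx]
          rw [dl_ne hx]
          omega
  · push Not at hcone
    -- the monomials in the relevant degree are squarefree
    have hT : ∀ (S : Finset V) (f : V → ℕ), ¬ L f → (∀ x, f x + dg M x + ic S x = a x) →
        (∀ x, f x = ic (Finset.univ.filter fun x => f x = 1) x) ∧
        RInd G M (Finset.univ.filter fun x => f x = 1) ∧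
        (Finset.univ.filter fun x => f x = 1).card + 2 * q + S.card = ∑ x, a x := by
      intro S f hf hfa
      have hle : ∀ x, f x ≤ 1 := by
        intro x
        by_contra hcon
        push Not at hcon
        have h3 := hfa x
        by_cases hx : Rel G M x x
        · apply hf
          refine hLrel f x x hx fun y => ?_
          by_cases hy : y = x
          · subst hy; rw [dl_self]; omega
          · rw [dl_ne hy]; exact Nat.zero_le _
        · by_cases hx2 : L (dl x)
          · apply hf
            refine hLup _ _ hx2 fun y => ?_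
            by_cases hy : y = x
            · subst hy; rw [dl_self]; omega
            · rw [dl_ne hy]; exact Nat.zero_le _
          · have := hcone x hx hx2
            omega
      have he : ∀ x, f x = ic (Finset.univ.filter fun x => f x = 1) x := by
        intro x
        have h3 := hle x
        unfold ic
        simp only [Finset.mem_filter, Finset.mem_univ, true_and]
        split_ifs with h4
        · exact h4
        · omega
      refine ⟨he, ?_, ?_⟩
      · intro u hu v hv huv hr
        simp only [Finset.mem_filter, Finset.mem_univ, true_and] at hu hv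
        apply hf
        refine hLrel f u v hr fun y => ?_
        by_cases hy : y = u
        · subst hy; rw [dl_self, dl_ne huv]; omega
        · rw [dl_ne hy]
          by_cases hy2 : y = v
          · subst hy2; rw [dl_self]; omega
          · rw [dl_ne hy2]; exact Nat.zero_le _
      · have h3 : ∑ x, a x = ∑ x, f x + ∑ x, dg M x + ∑ x, ic S x := by
          rw [← Finset.sum_add_distrib, ← Finset.sum_add_distrib]
          exact Finset.sum_congr rfl fun x _ => (hfa x).symm
        have h4 : ∑ x, f x = (Finset.univ.filter fun x => f x = 1).card := by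
          rw [← sum_ic]
          exact Finset.sum_congr rfl fun x _ => he x
        rw [h3, h4, hsum, sum_ic]
    by_cases hex : ∃ S f, ¬ L f ∧ (∀ x, f x + dg M x + ic S x = a x) ∧ S.card = i
    swap
    · refine RV_of_empty fun S hS hSi => ?_
      by_contra hn
      obtain ⟨f, hf, hfa⟩ := (C_iff S).1 ⟨hS, hn⟩
      exact hex ⟨S, f, hf, hfa, hSi⟩
    obtain ⟨S₀, f₀, hf₀, hfa₀, hS₀⟩ := hex
    obtain ⟨t1, t2, t3⟩ := hT S₀ f₀ hf₀ hfa₀
    set T₀ := Finset.univ.filter fun x => f₀ x = 1 with hT₀
    have hle4 := hG.alpha T₀ (t2.ind hM)
    rcases hs with rfl | ⟨rfl, hNC⟩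
    · omega
    have hT4 : T₀.card = 4 := by omega
    have hatot : ∑ x, a x = 2 * q + i + 4 := by omega
    have hdg : ∀ x, dg M x ≤ a x := fun x => by
      have h3 := hfa₀ x
      omega
    -- vertices of multiplicity two
    have hsq : ∀ x, dg M x + 2 ≤ a x → a x = dg M x + 2 ∧ x ∈ T₀ ∧ Rel G M x x := by
      intro x hx
      have h3 := hfa₀ x
      have h4 := ic_le S₀ x
      have h9 := t1 x
      have h10 := ic_le T₀ x
      have h6 : x ∈ T₀ := by
        rw [hT₀, Finset.mem_filter]
        refine ⟨Finset.mem_univ _, ?_⟩
        omega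
      refine ⟨by omega, h6, ?_⟩
      by_contra h7
      have h8 : ¬ L (dl x) := by
        intro h8
        apply hf₀
        refine hLup _ _ h8 fun y => ?_
        by_cases hy : y = x
        · subst hy; rw [dl_self]; omega
        · rw [dl_ne hy]; exact Nat.zero_le _
      have := hcone x h7 h8
      omega
    by_cases hJ : ∃ j, dg M j + 2 ≤ a j
    · obtain ⟨j, hj⟩ := hJ
      obtain ⟨haj, hjT, hjj⟩ := hsq j hj
      obtain ⟨p, p', htri⟩ := square_tri hG.alpha hM hjj
      have hoth : ∀ x, x ≠ j → a x ≤ dg M x + 1 := by
        intro x hxj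
        by_contra hcon
        push Not at hcon
        obtain ⟨_, hxT, hxx⟩ := hsq x (by omega)
        obtain ⟨r, r', htri'⟩ := square_tri hG.alpha hM hxx
        exact hG.two T₀ hT4 j hjT x hxT (fun h => hxj h.symm) p p' r r' (htri T₀ hT4 t2 hjT) (htri' T₀ hT4 t2 hxT)
      set W := Finset.univ.filter fun x => a x = dg M x + 1 with hW
      have hjW : j ∉ W := by
        rw [hW, Finset.mem_filter]
        rintro ⟨_, h⟩
        omega
      have hWa : ∀ x, a x = dg M x + ic W x + 2 * dl j x := by
        intro x
        by_cases hx : x = j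
        · subst hx
          rw [ic_notMem hjW, dl_self]
          omega
        · have h3 := hoth x hx
          have h4 := hdg x
          rw [dl_ne hx]
          unfold ic
          rw [hW]
          simp only [Finset.mem_filter, Finset.mem_univ, true_and]
          split_ifs <;> omega
      have hWc : i + 2 = W.card := by
        have h3 : ∑ x, a x = ∑ x, dg M x + ∑ x, ic W x + ∑ x, 2 * dl j x := by
          rw [← Finset.sum_add_distrib, ← Finset.sum_add_distrib]
          exact Finset.sum_congr rfl fun x _ => hWa x
        have h4 : ∑ x, 2 * dl j x = 2 := by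
          unfold dl
          simp
        rw [hsum, sum_ic, h4] at h3
        omega
      set Gd : Finset V → Prop := fun T => ¬ L (ic (insert j T)) with hGdef
      have hS' : ∀ S x, x ≠ j → ic (S.erase j) x = ic S x := by
        intro S x hx
        unfold ic
        simp [hx]
      have hS2 : ∀ S x, x ≠ j → ic (insert j S) x = ic S x := by
        intro S x hx
        unfold ic
        simp [hx]
      have hWS : ∀ S ⊆ W, ∀ x, ic (W \ S) x + ic S x = ic W x := by
        intro S hS x
        unfold ic
        simp only [Finset.mem_sdiff]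
        by_cases h3 : x ∈ S
        · simp [h3, hS h3]
        · simp [h3]
      have C_iff2 : ∀ S, (KK (JJ G q (insert (dg M) A)) a S ∧ ¬ KK (JJ G q A) a S) ↔
          j ∈ S ∧ S.erase j ⊆ W ∧ Gd (W \ S.erase j) := by
        intro S
        rw [C_iff]
        constructor
        · rintro ⟨f, hf, hfa⟩
          obtain ⟨u1, _, _⟩ := hT S f hf hfa
          have hf1 : ∀ x, f x ≤ 1 := fun x => by rw [u1 x]; exact ic_le _ x
          have hjS : j ∈ S := by
            by_contra h
            have h3 := hfa j
            rw [ic_notMem h] at h3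
            have h4 := hf1 j
            omega
          have hSW : S.erase j ⊆ W := by
            intro x hx
            have hxj := Finset.ne_of_mem_erase hx
            have h3 := hfa x
            rw [ic_mem (Finset.mem_of_mem_erase hx)] at h3
            have h4 := hWa x
            rw [dl_ne hxj] at h4
            by_contra h6
            rw [ic_notMem h6] at h4
            omega
          refine ⟨hjS, hSW, ?_⟩
          have : f = ic (insert j (W \ S.erase j)) := by
            funext x
            have h3 := hfa x
            by_cases hx : x = j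
            · subst hx
              rw [ic_mem (Finset.mem_insert_self _ _)]
              rw [ic_mem hjS] at h3
              omega
            · have h4 := hWa x
              rw [dl_ne hx] at h4
              have h5 := hWS _ hSW x
              rw [hS' S x hx] at h5
              rw [hS2 _ x hx]
              omega
          rw [this] at hf
          exact hf
        · rintro ⟨hjS, hSW, hg⟩
          refine ⟨ic (insert j (W \ S.erase j)), hg, fun x => ?_⟩
          by_cases hx : x = j
          · subst hx
            rw [ic_mem (Finset.mem_insert_self _ _), ic_mem hjS]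
            omega
          · have h4 := hWa x
            rw [dl_ne hx] at h4
            have h5 := hWS _ hSW x
            rw [hS' S x hx] at h5
            rw [hS2 _ x hx]
            omega
      obtain ⟨i', rfl⟩ : ∃ i', i = i' + 1 := by
        refine ⟨i - 1, ?_⟩
        have h3 := hfa₀ j
        have h4 := t1 j
        have h5 := ic_le T₀ j
        have h6 : j ∈ S₀ := by
          by_contra h
          rw [ic_notMem h] at h3
          omega
        have := Finset.card_pos.2 ⟨j, h6⟩
        omega
      refine RV_of_surj hD fun φ hφ => ?_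
      set φ' : Finset V → k := fun S' => if S' ⊆ W then -(sgn k j S') * φ (insert j S') else 0 with hφ'
      have hφ'1 : ∀ S', φ' S' ≠ 0 → S' ⊆ W ∧ Gd (W \ S') ∧ S'.card = i' := by
        intro S' hS'0
        have hSW : S' ⊆ W := by
          by_contra hc
          exact hS'0 (if_neg hc)
        have hjS' : j ∉ S' := fun h => hjW (hSW h)
        have h3 : φ (insert j S') ≠ 0 := by
          intro h
          apply hS'0
          rw [hφ']
          simp only [h, mul_zero, ite_self]
        obtain ⟨h4, h5⟩ := hφ _ h3
        obtain ⟨_, h6, h7⟩ := (C_iff2 _).1 h4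
        rw [Finset.erase_insert hjS'] at h6 h7
        rw [Finset.card_insert_of_notMem hjS'] at h5
        exact ⟨h6, h7, by omega⟩
      obtain ⟨ψ', hψ1, hψ2⟩ := crit_surj (k := k) W Gd (fun v T hT' hL => hT' (hLup _ _ hL fun x => by
          unfold ic
          by_cases h3 : x ∈ insert j T
          · have : x ∈ insert j (insert v T) := by
              rw [Finset.mem_insert] at h3 ⊢
              rcases h3 with h3 | h3
              · exact Or.inl h3
              · exact Or.inr (Finset.mem_insert_of_mem h3)
            rw [if_pos h3, if_pos this]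
          · rw [if_neg h3]
            exact Nat.zero_le _)) 2 (fun Z hZ hZ2 => hG.link j p p' Z (fun R hR => by
          obtain ⟨h3, h4, h5⟩ := hZ R hR
          have hjR : j ∉ R := fun h => hjW (h3 h)
          have h6 : RInd G M (insert j R) := by
            intro u hu v hv huv hr
            refine h5 (hLrel _ u v hr fun y => ?_)
            by_cases hy : y = u
            · subst hy; rw [dl_self, dl_ne huv, ic_mem hu]
            · rw [dl_ne hy]
              by_cases hy2 : y = v
              · subst hy2; rw [dl_self, ic_mem hv]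
              · rw [dl_ne hy2]; exact Nat.zero_le _
          have h7 := htri (insert j R) (by rw [Finset.card_insert_of_notMem hjR, h4]) h6
            (Finset.mem_insert_self _ _)
          rw [Finset.erase_insert hjR] at h7
          exact ⟨h4, h7⟩) hZ2) i' (by omega) φ' hφ'1
      refine ⟨cn j ψ', fun S hS => ?_, fun S h3 h4 h5 => ?_⟩
      · have hjS : j ∈ S := by
          by_contra h
          exact hS (if_neg h)
        have h6 : ψ' (S.erase j) ≠ 0 := by
          intro h
          apply hS
          show (if j ∈ S then sgn k j S * ψ' (S.erase j) else 0) = 0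
          rw [h, mul_zero, ite_self]
        obtain ⟨h7, h8, h9⟩ := hψ1 _ h6
        refine ⟨((C_iff2 S).2 ⟨hjS, h7, h8⟩).1, ?_⟩
        rw [Finset.card_erase_of_mem hjS] at h9
        have := Finset.card_pos.2 ⟨j, hjS⟩
        omega
      · obtain ⟨h6, h7, h8⟩ := (C_iff2 S).1 ⟨h3, h4⟩
        have h9 := cn_bd j ψ' S
        have h10 : ψ' S = 0 := by
          by_contra h
          exact hjW ((hψ1 S h).1 h6)
        have h11 : cn j (bd ψ') S = sgn k j S * bd ψ' (S.erase j) := if_pos h6
        have h12 : (S.erase j).card = i' := by
          rw [Finset.card_erase_of_mem h6]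
          omega
        have h13 := hψ2 (S.erase j) h7 h8 h12
        have h14 : φ' (S.erase j) = -(sgn k j (S.erase j)) * φ (insert j (S.erase j)) := if_pos h7
        have h15 : sgn k j S = sgn k j (S.erase j) := by
          conv_lhs => rw [← Finset.insert_erase h6]
          exact sgn_insert_self j _
        rw [Finset.insert_erase h6, h13] at h14
        rw [h10, h11, h14, h15] at h9
        have h16 := sgn_sq (k := k) j (S.erase j)
        linear_combination (-1 : k) * h9 - φ S * h16
    push Not at hJ
    have ha1 : ∀ x, dg M x ≤ a x ∧ a x ≤ dg M x + 1 := fun x => ⟨hdg x, by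
      have := hJ x
      omega⟩
    set W := Finset.univ.filter fun x => a x = dg M x + 1 with hW
    have hWa : ∀ x, a x = dg M x + ic W x := by
      intro x
      have h3 := ha1 x
      unfold ic
      rw [hW]
      simp only [Finset.mem_filter, Finset.mem_univ, true_and]
      split_ifs <;> omega
    have hWc : i + (3 + 1) = W.card := by
      have h3 : ∑ x, a x = ∑ x, dg M x + ∑ x, ic W x := by
        rw [← Finset.sum_add_distrib]
        exact Finset.sum_congr rfl fun x _ => hWa x
      rw [hsum, sum_ic] at h3
      omega
    have hWS : ∀ S ⊆ W, ∀ x, ic (W \ S) x + ic S x = ic W x := by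
      intro S hS x
      unfold ic
      simp only [Finset.mem_sdiff]
      by_cases h3 : x ∈ S
      · simp [h3, hS h3]
      · simp [h3]
    set Gd : Finset V → Prop := fun T => ¬ L (ic T) with hGdef
    have C_iff2 : ∀ S, (KK (JJ G q (insert (dg M) A)) a S ∧ ¬ KK (JJ G q A) a S) ↔
        S ⊆ W ∧ Gd (W \ S) := by
      intro S
      rw [C_iff]
      constructor
      · rintro ⟨f, hf, hfa⟩
        have hSW : S ⊆ W := by
          intro x hx
          have h3 := hfa x
          rw [ic_mem hx] at h3
          have h4 := hWa x
          have h5 := ic_le W x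
          by_contra h6
          rw [ic_notMem h6] at h4
          omega
        refine ⟨hSW, ?_⟩
        have : f = ic (W \ S) := by
          funext x
          have h3 := hfa x
          have h4 := hWa x
          have h5 := hWS S hSW x
          omega
        rw [this] at hf
        exact hf
      · rintro ⟨hSW, hg⟩
        refine ⟨ic (W \ S), hg, fun x => ?_⟩
        have h4 := hWa x
        have h5 := hWS S hSW x
        omega
    refine RV_of_surj hD fun φ hφ => ?_
    obtain ⟨ψ, hψ1, hψ2⟩ := crit_surj (k := k) W Gd (fun v T hT' hL => hT' (hLup _ _ hL fun x => by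
        unfold ic
        by_cases h3 : x ∈ T
        · simp [h3]
        · simp [h3])) 3 (fun Z hZ hZ2 => hNC Z (fun T hT' => by
        obtain ⟨_, h4, h5⟩ := hZ T hT'
        refine ⟨h4, fun u hu v hv huv hr => h5 (hLrel _ u v hr fun y => ?_)⟩
        by_cases hy : y = u
        · subst hy; rw [dl_self, dl_ne huv, ic_mem hu]
        · rw [dl_ne hy]
          by_cases hy2 : y = v
          · subst hy2; rw [dl_self, ic_mem hv]
          · rw [dl_ne hy2]; exact Nat.zero_le _) hZ2) i hWc φ (fun S hS => by
        obtain ⟨h3, h4⟩ := hφ S hS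
        obtain ⟨h5, h6⟩ := (C_iff2 S).1 h3
        exact ⟨h5, h6, h4⟩)
    refine ⟨ψ, fun S hS => ?_, fun S h3 h4 h5 => ?_⟩
    · obtain ⟨h3, h4, h5⟩ := hψ1 S hS
      exact ⟨((C_iff2 S).2 ⟨h3, h4⟩).1, h5⟩
    · obtain ⟨h6, h7⟩ := (C_iff2 S).1 ⟨h3, h4⟩
      exact hψ2 S h6 h7 h5

end Pool.Agent.LibHelper95.Reg
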