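import Mathlib
import Pool.Agent.Lib_helper95.PowerHomology

/-!
# Upper bounds for the regularity of powers of edge ideals (exponent form)
-/

open Finset

namespace Pool.Agent.LibHelper95.Reg

set_option linter.unusedSectionVars false

variable {V : Type*} [Fintype V] [LinearOrder V]
variable {G : SimpleGraph V} {k : Type*} [Field k]

theorem lexlt_iff (m m' : V → ℕ) : lexlt m m' ↔ toLex m < toLex m' := Iff.rfl

theorem Gn_finite (G : SimpleGraph V) (q : ℕ) : (Gn G q).Finite := by
  have h : (Set.pi Set.univ (fun _ : V => Set.Iic q)).Finite :=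
    Set.Finite.pi' (fun _ => Set.finite_Iic q) |>.subset (fun f hf => fun i => hf i (Set.mem_univ i))
  refine h.subset ?_
  rintro f ⟨M, _, hM, hf⟩ x _
  rw [Set.mem_Iic, ← hf x, ← hM]
  exact Multiset.countP_le_card _ _

theorem JJ_empty (q : ℕ) : JJ G q ∅ = Pw G (q + 1) := by
  unfold JJ
  simp

theorem AV_succ (hG : Good G) {q s : ℕ}
    (hs : s = 5 ∨ (s = 4 ∧ ∀ M : Multiset (Sym2 V), IsE G M → M.card = q → NoCyc k G M))
    (a : V → ℕ) (i : ℕ) (ha : 2 * q + (i + 1) + s ≤ ∑ x, a x)
    (h : AV k (KK (Pw G q) a) i) : AV k (KK (Pw G (q + 1)) a) i := by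
  classical
  have claim : ∀ (n : ℕ) (A : Finset (V → ℕ)), A.card = n → (∀ m ∈ A, m ∈ Gn G q) →
      (∀ m ∈ A, ∀ m' ∈ Gn G q, lexlt m m' → m' ∈ A) →
      AV k (KK (JJ G q A) a) i → AV k (KK (Pw G (q + 1)) a) i := by
    intro n
    induction n with
    | zero =>
      intro A hA _ _ hAV
      rw [Finset.card_eq_zero.1 hA, JJ_empty] at hAV
      exact hAV
    | succ n ih =>
      intro A hA hAG hAup hAV
      have hne : A.Nonempty := Finset.card_pos.1 (by omega)
      obtain ⟨m, hm, hmin⟩ := Finset.exists_min_image A toLex hne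
      set A' := A.erase m with hA'
      have hins : insert m A' = A := Finset.insert_erase hm
      have hlt : ∀ m' ∈ A', lexlt m m' := by
        intro m' hm'
        rw [lexlt_iff]
        refine lt_of_le_of_ne (hmin m' (Finset.mem_of_mem_erase hm')) ?_
        intro h'
        exact Finset.ne_of_mem_erase hm' (toLex.injective h').symm
      refine ih A' (by rw [hA', Finset.card_erase_of_mem hm, hA]; rfl)
        (fun m' hm' => hAG m' (Finset.mem_of_mem_erase hm')) ?_ ?_
      · intro m₁ hm₁ m' hm' hlt'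
        refine Finset.mem_erase.2 ⟨?_, hAup m₁ (Finset.mem_of_mem_erase hm₁) m' hm' hlt'⟩
        rintro rfl
        have := hlt m₁ hm₁
        rw [lexlt_iff] at this hlt'
        exact lt_asymm this hlt'
      · obtain ⟨M, hM, hMc, hMm⟩ := hAG m hm
        have hMm' : dg M = m := funext hMm
        refine AV_of_RV (D := KK (JJ G q A) a) (D' := KK (JJ G q A') a) ?_ ?_ hAV
        · rintro S ⟨c, hc, hca⟩
          refine ⟨c, ?_, hca⟩
          rcases hc with hc | ⟨m', hm', hc⟩
          · exact Or.inl hc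
          · exact Or.inr ⟨m', Finset.mem_of_mem_erase hm', hc⟩
        · have := RV_step (k := k) hG hM hMc (A := A') (s := s)
            (fun m' hm' => ⟨hAG m' (Finset.mem_of_mem_erase hm'), by rw [hMm']; exact hlt m' hm'⟩)
            (fun m' hm' hlt' => by
              rw [hMm'] at hlt'
              refine Finset.mem_erase.2 ⟨?_, hAup m hm m' hm' hlt'⟩
              rintro rfl
              rw [lexlt_iff] at hlt'
              exact lt_irrefl _ hlt')
            (hs.imp id fun h' => ⟨h'.1, h'.2 M hM hMc⟩) a (i + 1) ha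
          rw [hMm', hins] at this
          exact this
  set A₀ := (Gn_finite G q).toFinset with hA₀
  have hmemA : ∀ m, m ∈ A₀ ↔ m ∈ Gn G q := fun m => (Gn_finite G q).mem_toFinset
  refine claim A₀.card A₀ rfl (fun m hm => (hmemA m).1 hm)
    (fun m _ m' hm' _ => (hmemA m').2 hm') ?_
  have : JJ G q A₀ = Pw G q := by
    ext f
    constructor
    · rintro (hf | ⟨m, hm, hf⟩)
      · exact Pw_succ_subset hf
      · obtain ⟨M, h1, h2, h3⟩ := (hmemA m).1 hm
        exact ⟨M, h1, h2, fun x => by rw [h3]; exact hf x⟩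
    · rintro ⟨M, h1, h2, h3⟩
      exact Or.inr ⟨dg M, (hmemA _).2 ⟨M, h1, h2, fun _ => rfl⟩, h3⟩
  rw [this]
  exact h

/-- Regularity of `I ^ q` at most `r`, multigraded form. -/
def RegLe (k : Type*) [Field k] (G : SimpleGraph V) (r q : ℕ) : Prop :=
  ∀ (a : V → ℕ) (i : ℕ), i + r + 1 ≤ ∑ x, a x → AV k (KK (Pw G q) a) i

theorem regLe_zero : RegLe k G 0 0 := by
  intro a i ha
  obtain ⟨j, hj⟩ : ∃ j, 1 ≤ a j := by
    by_contra hcon
    push Not at hcon
    have : ∑ x, a x = 0 := Finset.sum_eq_zero fun x _ => by have := hcon x; omega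
    omega
  refine AV_of_cone j fun S hS => ?_
  obtain ⟨c, hc, hca⟩ := hS
  by_cases hjS : j ∈ S
  · rw [Finset.insert_eq_self.2 hjS]
    exact ⟨c, hc, hca⟩
  · refine ⟨fun x => c x - dl j x, ⟨0, IsE.zero, rfl, fun x => by rw [dg_zero]; exact Nat.zero_le _⟩,
      fun x => ?_⟩
    have h1 := hca x
    show c x - dl j x + (if x ∈ insert j S then 1 else 0) = a x
    by_cases hx : x = j
    · subst hx
      rw [if_neg hjS] at h1
      rw [dl_self, if_pos (Finset.mem_insert_self _ _)]
      omega
    · rw [dl_ne hx]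
      simp only [Finset.mem_insert, hx, false_or]
      omega

theorem regLe_succ (hG : Good G) {q s r r' : ℕ}
    (hs : s = 5 ∨ (s = 4 ∧ ∀ M : Multiset (Sym2 V), IsE G M → M.card = q → NoCyc k G M))
    (h : RegLe k G r q) (h1 : r ≤ r') (h2 : 2 * q + s ≤ r') : RegLe k G r' (q + 1) := by
  intro a i ha
  exact AV_succ hG hs a i (by omega) (h a i (by omega))

theorem regLe_any (hG : Good G) : ∀ q : ℕ, RegLe k G (2 * (q + 1) + 3) (q + 1) := by
  intro q
  induction q with
  | zero => exact regLe_succ hG (Or.inl rfl) regLe_zero (by omega) (by omega)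
  | succ q ih => exact regLe_succ hG (Or.inl rfl) ih (by omega) (by omega)

theorem regLe_char (hG : Good G)
    (hN : ∀ M : Multiset (Sym2 V), IsE G M → M ≠ 0 → NoCyc k G M) :
    ∀ q : ℕ, RegLe k G (2 * (q + 2) + 2) (q + 2) := by
  intro q
  have hs : ∀ q : ℕ, 4 = 5 ∨ (4 = 4 ∧ ∀ M : Multiset (Sym2 V), IsE G M → M.card = q + 1 →
      NoCyc k G M) := fun q => Or.inr ⟨rfl, fun M hM hMc => hN M hM (by
      rintro rfl
      simp at hMc)⟩
  induction q with
  | zero => exact regLe_succ hG (hs 0) (regLe_any hG 0) (by omega) (by omega)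
  | succ q ih => exact regLe_succ hG (hs (q + 1)) ih (by omega) (by omega)

end Pool.Agent.LibHelper95.Reg
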