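import Mathlib
import Pool.Agent.Lib_helper95.PowerUpper2
import Pool.Agent.Lib_helper95.PowerLower

/-!
# The graphs of the suspended mod `N` Moore space and a flag 3-sphere

The vertices `v, o, e, h, f` are the cells of a regular cell structure of the disc whose boundary circle (`v 0`, `e 0`, `v 1`, `e 1`) is
attached `N` times; `w` are the two suspension points, `s` the vertices of two 5-cycles.
-/

open Finset

namespace Pool.Agent.LibHelper95.Moore

open Pool.Agent.LibHelper95.Reg

/-- The vertices. -/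
inductive Vx (N : ℕ) where
  | w (b : Bool)
  | v (i : ZMod 2)
  | o
  | e (i : ZMod 2)
  | h (j : ZMod (2 * N))
  | f (j : ZMod (2 * N))
  | s (b : Bool) (a : ZMod 5)

variable {N : ℕ}

/-- The parity. -/
def pr : ZMod (2 * N) →+* ZMod 2 := ZMod.castHom (dvd_mul_right 2 N) (ZMod 2)

/-- The rank of a vertex. -/
def col : Vx N → ℕ
  | .w _ => 0
  | .v _ => 1
  | .o => 1
  | .e _ => 2
  | .h _ => 2
  | .f _ => 3
  | .s _ _ => 4

/-- The number of a vertex in its rank. -/
def idx : Vx N → ℕ
  | .w b => b.toNat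
  | .v i => i.val
  | .o => 2
  | .e i => i.val
  | .h j => 2 + j.val
  | .f j => j.val
  | .s b a => 5 * b.toNat + a.val

theorem code_inj [NeZero N] : Function.Injective (fun u : Vx N => toLex (col u, idx u)) := by
  have h2 : ∀ i : ZMod 2, i.val < 2 := fun i => ZMod.val_lt i
  have h5 : ∀ i : ZMod 5, i.val < 5 := fun i => ZMod.val_lt i
  intro u u' huu
  have h0 : (col u, idx u) = (col u', idx u') := toLex.injective huu
  rw [Prod.mk.injEq] at h0
  obtain ⟨h1, h3⟩ := h0
  rcases u with b | i | _ | i | j | j | ⟨b, a⟩ <;> rcases u' with b' | i' | _ | i' | j' | j' | ⟨b', a'⟩ <;>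
    simp only [col, idx] at h1 h3 <;> first
      | rfl
      | (exfalso; omega)
      | (exfalso; have := h2 i; omega)
      | (exfalso; have := h2 i'; omega)
      | (rw [ZMod.val_injective _ (by omega : i.val = i'.val)])
      | (rw [ZMod.val_injective _ (by omega : j.val = j'.val)])
      | (have h6 := h5 a
         have h7 := h5 a'
         cases b <;> cases b' <;> simp only [Bool.toNat_true, Bool.toNat_false] at h3 <;> first
           | (exfalso; omega)
           | (rw [ZMod.val_injective 5 (by omega : a.val = a'.val)]))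
      | (cases b <;> cases b' <;> simp at h3 ⊢)

noncomputable instance [NeZero N] : LinearOrder (Vx N) := LinearOrder.lift' _ (code_inj (N := N))

/-- The vertices as a sum. -/
def eqv : Vx N ≃ Bool ⊕ ZMod 2 ⊕ Unit ⊕ ZMod 2 ⊕ ZMod (2 * N) ⊕ ZMod (2 * N) ⊕ (Bool × ZMod 5) where
  toFun
    | .w b => .inl b
    | .v i => .inr (.inl i)
    | .o => .inr (.inr (.inl ()))
    | .e i => .inr (.inr (.inr (.inl i)))
    | .h j => .inr (.inr (.inr (.inr (.inl j))))
    | .f j => .inr (.inr (.inr (.inr (.inr (.inl j)))))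
    | .s b a => .inr (.inr (.inr (.inr (.inr (.inr (b, a))))))
  invFun
    | .inl b => .w b
    | .inr (.inl i) => .v i
    | .inr (.inr (.inl _)) => .o
    | .inr (.inr (.inr (.inl i))) => .e i
    | .inr (.inr (.inr (.inr (.inl j)))) => .h j
    | .inr (.inr (.inr (.inr (.inr (.inl j))))) => .f j
    | .inr (.inr (.inr (.inr (.inr (.inr p))))) => .s p.1 p.2
  left_inv u := by cases u <;> rfl
  right_inv u := by
    rcases u with b | i | _ | i | j | j | ⟨b, a⟩ <;> rfl

instance [NeZero N] : Fintype (Vx N) := Fintype.ofEquiv _ eqv.symm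

theorem card_Vx [NeZero N] : Fintype.card (Vx N) = 4 * N + 17 := by
  rw [Fintype.card_congr eqv]
  simp only [Fintype.card_sum, Fintype.card_prod, Fintype.card_bool, ZMod.card, Fintype.card_unit]
  omega

theorem lt_of_col [NeZero N] {u u' : Vx N} (h : col u < col u') : u < u' := by
  show toLex (col u, idx u) < toLex (col u', idx u')
  exact Prod.Lex.toLex_lt_toLex.2 (Or.inl h)

/-- Half of the compatibility relation. -/
def lt0 : Vx N → Vx N → Prop
  | .w _, .v _ => True
  | .w _, .o => True
  | .w _, .e _ => True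
  | .w _, .h _ => True
  | .w _, .f _ => True
  | .v _, .e _ => True
  | .v i, .h j => i = pr j
  | .v _, .f _ => True
  | .o, .h _ => True
  | .o, .f _ => True
  | .e i, .f j => i = pr j
  | .h l, .f j => l = j ∨ l = j + 1
  | .s b a, .s b' a' => b ≠ b' ∨ a' = a + 2
  | _, _ => False

/-- Compatible vertices. -/
def cp (u u' : Vx N) : Prop := lt0 u u' ∨ lt0 u' u

theorem cp_symm {u u' : Vx N} (h : cp u u') : cp u' u := h.symm

/-- The graph. -/
def GV (N : ℕ) : SimpleGraph (Vx N) where
  Adj u u' := u ≠ u' ∧ ¬ cp u u'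
  symm := ⟨fun _ _ h => ⟨h.1.symm, fun h' => h.2 (cp_symm h')⟩⟩
  loopless := ⟨fun _ h => h.1 rfl⟩

theorem ind_iff [NeZero N] {T : Finset (Vx N)} : Ind (GV N) T ↔ ∀ u ∈ T, ∀ u' ∈ T, u ≠ u' → cp u u' := by
  constructor
  · intro h u hu u' hu' hne
    by_contra hc
    exact h u hu u' hu' ⟨hne, hc⟩
  · intro h u hu u' hu' hadj
    exact hadj.2 (h u hu u' hu' hadj.1)

end Pool.Agent.LibHelper95.Moore
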