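import Mathlib
import Pool.Agent.Lib_helper95.MooreVx

/-!
# Combinatorics of the graphs `GV N`
-/

open Finset

set_option linter.unusedSectionVars false

namespace Pool.Agent.LibHelper95.Moore

open Pool.Agent.LibHelper95.Reg

variable {N : ℕ} [NeZero N]

theorem z2 : ∀ a b c : ZMod 2, a ≠ b → a ≠ c → b ≠ c → False := by decide

theorem z2' : ∀ a : ZMod 2, a ≠ a + 1 := by decide

theorem z5 : ∀ a b c : ZMod 5, a ≠ b → a ≠ c → b ≠ c → (b = a + 2 ∨ a = b + 2) → (c = a + 2 ∨ a = c + 2) →
    (c = b + 2 ∨ b = c + 2) → False := by decide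

theorem z5' : ∀ a b c : ZMod 5, a ≠ b → a ≠ c → b ≠ c → ¬ (b = a + 2 ∨ a = b + 2) → ¬ (c = a + 2 ∨ a = c + 2) →
    ¬ (c = b + 2 ∨ b = c + 2) → False := by decide

/-- A vertex of the 3-sphere. -/
def IsS (u : Vx N) : Prop := ∃ b a, u = .s b a

theorem isS_iff (u : Vx N) : IsS u ↔ col u = 4 := by
  cases u <;> simp [IsS, col]

theorem cp_isS {u u' : Vx N} (h : cp u u') (hu : IsS u) : IsS u' := by
  obtain ⟨b, a, rfl⟩ := hu
  cases u' <;> simp [cp, lt0, IsS] at h ⊢

theorem cp_col {u u' : Vx N} (h : cp u u') (hu : ¬ IsS u) : col u ≠ col u' := by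
  cases u <;> cases u' <;> simp [cp, lt0, IsS, col] at h hu ⊢

theorem col_le {u : Vx N} (hu : ¬ IsS u) : col u < 4 := by
  cases u <;> simp [IsS, col] at hu ⊢

theorem all_isS {T : Finset (Vx N)} (hT : Ind (GV N) T) {u : Vx N} (hu : u ∈ T) (hs : IsS u) :
    ∀ u' ∈ T, IsS u' := by
  intro u' hu'
  by_cases h : u = u'
  · exact h ▸ hs
  · exact cp_isS (ind_iff.1 hT u hu u' hu' h) hs

theorem col_inj {T : Finset (Vx N)} (hT : Ind (GV N) T) (hs : ∀ u ∈ T, ¬ IsS u) :
    Set.InjOn (col : Vx N → ℕ) T := by
  intro u hu u' hu' h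
  by_contra hne
  exact cp_col (ind_iff.1 hT u hu u' hu' hne) (hs u hu) h

theorem alpha (T : Finset (Vx N)) (hT : Ind (GV N) T) : T.card ≤ 4 := by
  classical
  by_cases hs : ∃ u ∈ T, IsS u
  · obtain ⟨u, hu, hus⟩ := hs
    have hall := all_isS hT hu hus
    have key : ∀ b : Bool, (T.filter fun u => ∃ a, u = Vx.s b a).card ≤ 2 := by
      intro b
      by_contra hc
      push Not at hc
      obtain ⟨x, hx, y, hy, z, hz, hxy, hxz, hyz⟩ := Finset.two_lt_card.1 hc
      rw [Finset.mem_filter] at hx hy hz
      obtain ⟨hx, a, rfl⟩ := hx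
      obtain ⟨hy, a', rfl⟩ := hy
      obtain ⟨hz, a'', rfl⟩ := hz
      have h1 := ind_iff.1 hT _ hx _ hy hxy
      have h2 := ind_iff.1 hT _ hx _ hz hxz
      have h3 := ind_iff.1 hT _ hy _ hz hyz
      simp only [cp, lt0, ne_eq, not_true_eq_false, false_or] at h1 h2 h3
      exact z5 a a' a'' (fun h => hxy (by rw [h])) (fun h => hxz (by rw [h])) (fun h => hyz (by rw [h])) h1 h2 h3
    have h1 : T ⊆ (T.filter fun u => ∃ a, u = Vx.s false a) ∪ (T.filter fun u => ∃ a, u = Vx.s true a) := by
      intro u hu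
      obtain ⟨b, a, rfl⟩ := hall u hu
      rw [Finset.mem_union, Finset.mem_filter, Finset.mem_filter]
      cases b
      · exact Or.inl ⟨hu, a, rfl⟩
      · exact Or.inr ⟨hu, a, rfl⟩
    have h2 := (Finset.card_le_card h1).trans (Finset.card_union_le _ _)
    have h3 := key false
    have h4 := key true
    omega
  · push Not at hs
    have h1 : Set.MapsTo (col : Vx N → ℕ) T (Finset.range 4) := fun u hu => by
      simpa using col_le (hs u hu)
    have := Finset.card_le_card_of_injOn _ h1 (col_inj hT hs)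
    simpa using this

/-- The ridges with three pairwise adjacent extensions. -/
theorem key {j p q : Vx N} {R : Finset (Vx N)} (hR : R.card = 3) (h : Tri (GV N) j p q R) :
    ∃ b i m, R = {Vx.w b, Vx.v i, Vx.e (pr m)} ∧ j = Vx.f m := by
  classical
  have hjR : j ∉ R := fun hj => h.i2 p (Finset.mem_insert_self _ _) j (Finset.mem_insert_of_mem hj) h.a1.symm
  have hpR : p ∉ R := fun hp => h.i1 j (Finset.mem_insert_self _ _) p (Finset.mem_insert_of_mem hp) h.a1
  have hqR : q ∉ R := fun hq => h.i1 j (Finset.mem_insert_self _ _) q (Finset.mem_insert_of_mem hq) h.a2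
  have cj : ∀ u ∈ R, cp j u := fun u hu => ind_iff.1 h.i1 j (Finset.mem_insert_self _ _) u
    (Finset.mem_insert_of_mem hu) (fun hh => hjR (hh ▸ hu))
  have cp1 : ∀ u ∈ R, cp p u := fun u hu => ind_iff.1 h.i2 p (Finset.mem_insert_self _ _) u
    (Finset.mem_insert_of_mem hu) (fun hh => hpR (hh ▸ hu))
  have cq : ∀ u ∈ R, cp q u := fun u hu => ind_iff.1 h.i3 q (Finset.mem_insert_self _ _) u
    (Finset.mem_insert_of_mem hu) (fun hh => hqR (hh ▸ hu))
  obtain ⟨u₀, hu₀⟩ := Finset.card_pos.1 (by omega : 0 < R.card)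
  by_cases hs : IsS u₀
  · exfalso
    obtain ⟨b, a, rfl⟩ := cp_isS (cp_symm (cj u₀ hu₀)) hs
    obtain ⟨b', a', rfl⟩ := cp_isS (cp_symm (cp1 u₀ hu₀)) hs
    obtain ⟨b'', a'', rfl⟩ := cp_isS (cp_symm (cq u₀ hu₀)) hs
    have h1 := h.a1
    have h2 := h.a2
    have h3 := h.a3
    simp only [GV, cp, lt0, ne_eq, Vx.s.injEq] at h1 h2 h3
    have e1 : b = b' := by by_contra hc; exact h1.2 (Or.inl (Or.inl hc))
    have e2 : b = b'' := by by_contra hc; exact h2.2 (Or.inl (Or.inl hc))
    subst e1
    subst e2
    simp only [true_and, not_true_eq_false, false_or] at h1 h2 h3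
    exact z5' a a' a'' h1.1 h2.1 h3.1 h1.2 h2.2 h3.2
  · have hRs : ∀ u ∈ R, ¬ IsS u := by
      intro u hu hus
      exact hs (all_isS h.i1 (Finset.mem_insert_of_mem hu) hus u₀ (Finset.mem_insert_of_mem hu₀))
    have sj : ¬ IsS j := fun hh => hs (cp_isS (cj u₀ hu₀) hh)
    have sp : ¬ IsS p := fun hh => hs (cp_isS (cp1 u₀ hu₀) hh)
    have sq : ¬ IsS q := fun hh => hs (cp_isS (cq u₀ hu₀) hh)
    have hRi : Ind (GV N) R := fun u hu u' hu' => h.i1 u (Finset.mem_insert_of_mem hu) u' (Finset.mem_insert_of_mem hu')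
    have hRc : (R.image col).card = 3 := by
      rw [Finset.card_image_of_injOn (col_inj hRi hRs), hR]
    have hR4 : ∀ m ∈ R.image col, m < 4 := by
      intro m hm
      obtain ⟨u, hu, rfl⟩ := Finset.mem_image.1 hm
      exact col_le (hRs u hu)
    have nj : col j ∉ R.image col := by
      intro hm
      obtain ⟨u, hu, he⟩ := Finset.mem_image.1 hm
      exact cp_col (cj u hu) sj he.symm
    have np : col p ∉ R.image col := by
      intro hm
      obtain ⟨u, hu, he⟩ := Finset.mem_image.1 hm
      exact cp_col (cp1 u hu) sp he.symm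
    have nq : col q ∉ R.image col := by
      intro hm
      obtain ⟨u, hu, he⟩ := Finset.mem_image.1 hm
      exact cp_col (cq u hu) sq he.symm
    -- all colours different from the one of `j` are in `R`
    have hcov : ∀ m, m < 4 → m ≠ col j → m ∈ R.image col := by
      intro m hm hmj
      by_contra hc
      have h1 : insert m (insert (col j) (R.image col)) ⊆ Finset.range 4 := by
        intro x hx
        rw [Finset.mem_range]
        rcases Finset.mem_insert.1 hx with rfl | hx
        · exact hm
        · rcases Finset.mem_insert.1 hx with rfl | hx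
          · exact col_le sj
          · exact hR4 x hx
      have h2 := Finset.card_le_card h1
      rw [Finset.card_insert_of_notMem, Finset.card_insert_of_notMem nj, hRc, Finset.card_range] at h2
      · omega
      · rw [Finset.mem_insert, not_or]
        exact ⟨hmj, hc⟩
    have epj : col p = col j := by
      by_contra hc
      exact np (hcov _ (col_le sp) hc)
    have eqj : col q = col j := by
      by_contra hc
      exact nq (hcov _ (col_le sq) hc)
    have hget : ∀ m, m < 4 → m ≠ col j → ∃ u ∈ R, col u = m := by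
      intro m hm hmj
      obtain ⟨u, hu, he⟩ := Finset.mem_image.1 (hcov m hm hmj)
      exact ⟨u, hu, he⟩
    have d1 : j ≠ p := h.a1.ne
    have d2 : j ≠ q := h.a2.ne
    have d3 : p ≠ q := h.a3.ne
    have hcases : col j = 0 ∨ col j = 1 ∨ col j = 2 ∨ col j = 3 := by
      have := col_le sj
      omega
    rcases hcases with hc | hc | hc | hc
    · exfalso
      rw [hc] at epj eqj
      rcases j with b | i | _ | i | j | j | ⟨b, a⟩ <;> simp only [col] at hc <;> try omega
      rcases p with b' | i' | _ | i' | j' | j' | ⟨b', a'⟩ <;> simp only [col] at epj <;> try omega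
      rcases q with b'' | i'' | _ | i'' | j'' | j'' | ⟨b'', a''⟩ <;> simp only [col] at eqj <;> try omega
      revert d1 d2 d3
      cases b <;> cases b' <;> cases b'' <;> simp
    · exfalso
      obtain ⟨x, hx, hxc⟩ := hget 2 (by omega) (by omega)
      have c1 := cj x hx
      have c2 := cp1 x hx
      have c3 := cq x hx
      rw [hc] at epj eqj
      rcases j with b | i | _ | i | j | j | ⟨b, a⟩ <;> simp only [col] at hc <;> try omega
      all_goals
        rcases p with b' | i' | _ | i' | j' | j' | ⟨b', a'⟩ <;> simp only [col] at epj <;> try omega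
      all_goals
        rcases q with b'' | i'' | _ | i'' | j'' | j'' | ⟨b'', a''⟩ <;> simp only [col] at eqj <;> try omega
      all_goals
        rcases x with b3 | i3 | _ | i3 | j3 | j3 | ⟨b3, a3⟩ <;> simp only [col] at hxc <;> try omega
      all_goals
        simp [cp, lt0] at c1 c2 c3 d1 d2 d3
      all_goals first
        | exact z2 _ _ _ d1 d2 d3
        | (exact d1 (c1.trans c2.symm))
        | (exact d2 (c1.trans c3.symm))
        | (exact d3 (c2.trans c3.symm))
    · exfalso
      obtain ⟨x, hx, hxc⟩ := hget 1 (by omega) (by omega)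
      obtain ⟨y, hy, hyc⟩ := hget 3 (by omega) (by omega)
      have c1 := cj x hx
      have c2 := cp1 x hx
      have c3 := cq x hx
      have c4 := cj y hy
      have c5 := cp1 y hy
      have c6 := cq y hy
      rw [hc] at epj eqj
      rcases y with b4 | i4 | _ | i4 | j4 | j4 | ⟨b4, a4⟩ <;> simp only [col] at hyc <;> try omega
      have z2a : ∀ a : ZMod 2, ¬ a = a + 1 := by decide
      have z2b : ∀ a : ZMod 2, ¬ a + 1 = a := by decide
      rcases j with b | i | _ | i | j | j | ⟨b, a⟩ <;> simp only [col] at hc <;> try omega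
      all_goals
        rcases p with b' | i' | _ | i' | j' | j' | ⟨b', a'⟩ <;> simp only [col] at epj <;> try omega
      all_goals
        rcases q with b'' | i'' | _ | i'' | j'' | j'' | ⟨b'', a''⟩ <;> simp only [col] at eqj <;> try omega
      all_goals
        rcases x with b3 | i3 | _ | i3 | j3 | j3 | ⟨b3, a3⟩ <;> simp only [col] at hxc <;> try omega
      all_goals
        simp [cp, lt0] at c1 c2 c3 c4 c5 c6 d1 d2 d3
      all_goals first
        | exact d1 (c4.trans c5.symm)
        | exact d2 (c4.trans c6.symm)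
        | exact d3 (c5.trans c6.symm)
        | (rcases c4 with rfl | rfl <;> rcases c5 with rfl | rfl <;> rcases c6 with rfl | rfl <;> simp_all [map_add, map_one])
    · obtain ⟨x, hx, hxc⟩ := hget 1 (by omega) (by omega)
      obtain ⟨y, hy, hyc⟩ := hget 2 (by omega) (by omega)
      obtain ⟨z, hz, hzc⟩ := hget 0 (by omega) (by omega)
      have c1 := cj x hx
      have cxy := ind_iff.1 hRi x hx y hy (fun hh => by rw [hh] at hxc; omega)
      have c4 := cj y hy
      have c5 := cp1 y hy
      have c6 := cq y hy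
      rw [hc] at epj eqj
      have hRe : R = {z, x, y} := by
        symm
        apply Finset.eq_of_subset_of_card_le
        · intro u hu
          rw [Finset.mem_insert, Finset.mem_insert, Finset.mem_singleton] at hu
          rcases hu with rfl | rfl | rfl <;> assumption
        · have hzx : z ≠ x := fun hh => by rw [hh] at hzc; omega
          have hzy : z ≠ y := fun hh => by rw [hh] at hzc; omega
          have hxy : x ≠ y := fun hh => by rw [hh] at hxc; omega
          rw [hR, Finset.card_insert_of_notMem, Finset.card_insert_of_notMem, Finset.card_singleton]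
          · simpa using hxy
          · simp [hzx, hzy]
      rcases j with b | i | _ | i | j | j | ⟨b, a⟩ <;> simp only [col] at hc <;> try omega
      rcases p with b' | i' | _ | i' | j' | j' | ⟨b', a'⟩ <;> simp only [col] at epj <;> try omega
      rcases q with b'' | i'' | _ | i'' | j'' | j'' | ⟨b'', a''⟩ <;> simp only [col] at eqj <;> try omega
      rcases z with b5 | i5 | _ | i5 | j5 | j5 | ⟨b5, a5⟩ <;> simp only [col] at hzc <;> try omega
      rcases y with b4 | i4 | _ | i4 | j4 | j4 | ⟨b4, a4⟩ <;> simp only [col] at hyc <;> try omega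
      · rcases x with b3 | i3 | _ | i3 | j3 | j3 | ⟨b3, a3⟩ <;> simp only [col] at hxc <;> try omega
        · simp [cp, lt0] at c4
          exact ⟨b5, i3, j, by rw [hRe, c4], rfl⟩
        · simp [cp, lt0] at cxy
      · exfalso
        simp [cp, lt0] at c4 c5 c6 d1 d2 d3
        rcases c4 with h4 | h4 <;> rcases c5 with h5 | h5 <;> rcases c6 with h6 | h6 <;> first
          | exact d1 (h4.symm.trans h5)
          | exact d1 (add_right_cancel (h4.symm.trans h5))
          | exact d2 (h4.symm.trans h6)
          | exact d2 (add_right_cancel (h4.symm.trans h6))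
          | exact d3 (h5.symm.trans h6)
          | exact d3 (add_right_cancel (h5.symm.trans h6))

theorem two (T : Finset (Vx N)) (hT : T.card = 4) (j : Vx N) (hj : j ∈ T) (j' : Vx N) (hj' : j' ∈ T) (hne : j ≠ j')
    (p q p' q' : Vx N) (h : Tri (GV N) j p q (T.erase j)) (h' : Tri (GV N) j' p' q' (T.erase j')) : False := by
  obtain ⟨b, i, m, h1, rfl⟩ := key (by rw [Finset.card_erase_of_mem hj, hT]) h
  obtain ⟨b', i', m', h2, rfl⟩ := key (by rw [Finset.card_erase_of_mem hj', hT]) h'
  have h3 : Vx.f m ∈ T.erase (Vx.f m') := Finset.mem_erase.2 ⟨hne, hj⟩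
  rw [h2] at h3
  simp at h3

theorem link {k : Type*} [Field k] (j p q : Vx N) (Z : Finset (Vx N) → k)
    (hZ : ∀ R, Z R ≠ 0 → R.card = 3 ∧ Tri (GV N) j p q R) (hb : ∀ R, R.card = 2 → bd Z R = 0) :
    ∀ R, Z R = 0 := by
  intro R
  by_contra hR
  obtain ⟨h1, h2⟩ := hZ R hR
  obtain ⟨b, i, m, rfl, rfl⟩ := key h1 h2
  have h3 := hb ({Vx.w b, Vx.v i} : Finset (Vx N)) (Finset.card_pair (by simp))
  have h4 : bd Z ({Vx.w b, Vx.v i} : Finset (Vx N)) =
      sgn k (Vx.e (pr m) : Vx N) {Vx.w b, Vx.v i} * Z (insert (Vx.e (pr m)) {Vx.w b, Vx.v i}) := by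
    unfold bd
    refine Finset.sum_eq_single_of_mem _ (by simp) fun x hx hne => ?_
    have h5 : Z (insert x {Vx.w b, Vx.v i}) = 0 := by
      by_contra hc
      obtain ⟨h6, h7⟩ := hZ _ hc
      obtain ⟨b', i', m', h8, h9⟩ := key h6 h7
      have h10 : m = m' := Vx.f.inj h9
      subst h10
      have h11 : Vx.e (pr m) ∈ insert x ({Vx.w b, Vx.v i} : Finset (Vx N)) := by
        rw [h8]
        simp
      rw [Finset.mem_insert] at h11
      rcases h11 with h11 | h11
      · exact hne h11.symm
      · simp at h11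
    rw [h5, mul_zero]
  have h5 : (insert (Vx.e (pr m)) {Vx.w b, Vx.v i} : Finset (Vx N)) = {Vx.w b, Vx.v i, Vx.e (pr m)} := by
    ext x
    simp only [Finset.mem_insert, Finset.mem_singleton]
    tauto
  rw [h4, h5] at h3
  rcases mul_eq_zero.1 h3 with h6 | h6
  · exact sgn_ne_zero _ _ h6
  · exact hR h6

theorem good2 (k : Type*) [Field k] : Good2 k (GV N) := ⟨alpha, two, link⟩

end Pool.Agent.LibHelper95.Moore
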