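import Mathlib
import Pool.Agent.Lib_helper95.MooreComb

/-!
# Three-dimensional cycles on the complexes of `GV N`
-/

open Finset

set_option linter.unusedSectionVars false

namespace Pool.Agent.LibHelper95.Reg

variable {V : Type*} [Fintype V] [LinearOrder V]

/-- There are no 3-cycles avoiding the sets which are related through an edge. -/
def Cyc3 (k : Type*) [Field k] (G : SimpleGraph V) : Prop :=
  ∀ p₁ p₂, G.Adj p₁ p₂ → ∀ Z : Finset V → k,
    (∀ T, Z T ≠ 0 → T.card = 4 ∧ Ind G T ∧ ¬ ∃ u ∈ T, ∃ v ∈ T, u ≠ v ∧ G.Adj u p₁ ∧ G.Adj v p₂) →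
    (∀ R, R.card = 3 → bd Z R = 0) → ∀ T, Z T = 0

theorem Cyc3.noCyc {k : Type*} [Field k] {G : SimpleGraph V} (h : Cyc3 k G) (M : Multiset (Sym2 V))
    (hM : IsE G M) (hM0 : M ≠ 0) : NoCyc k G M := by
  intro Z hZ hb
  obtain ⟨e, he⟩ := Multiset.exists_mem_of_ne_zero hM0
  induction e using Sym2.ind with
  | _ p₁ p₂ =>
    refine h p₁ p₂ (hM _ he) Z (fun T hT => ?_) hb
    obtain ⟨h1, h2⟩ := hZ T hT
    refine ⟨h1, h2.ind hM, ?_⟩
    rintro ⟨u, hu, v, hv, huv, hup, hvp⟩
    exact h2 u hu v hv huv (Rel.of_edge hM he hup hvp)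

theorem bd_pair {k : Type*} [Field k] (Z : Finset V → k) {R : Finset V} {p q : V} (hpq : p ≠ q) (hp : p ∉ R)
    (hq : q ∉ R) (h : ∀ x, x ∉ R → Z (insert x R) ≠ 0 → x = p ∨ x = q) :
    bd Z R = sgn k p R * Z (insert p R) + sgn k q R * Z (insert q R) := by
  unfold bd
  rw [← Finset.sum_pair hpq (f := fun x => sgn k x R * Z (insert x R))]
  symm
  refine Finset.sum_subset (fun x hx => ?_) fun x hx hx' => ?_
  · rw [Finset.mem_insert, Finset.mem_singleton] at hx
    rw [Finset.mem_compl]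
    rcases hx with rfl | rfl <;> assumption
  · rw [Finset.mem_compl] at hx
    have h1 : Z (insert x R) = 0 := by
      by_contra hc
      apply hx'
      rw [Finset.mem_insert, Finset.mem_singleton]
      exact h x hx hc
    rw [h1, mul_zero]

end Pool.Agent.LibHelper95.Reg

namespace Pool.Agent.LibHelper95.Moore

open Pool.Agent.LibHelper95.Reg

variable {N : ℕ} [NeZero N]

theorem cp_irrefl (u : Vx N) : ¬ cp u u := by
  have h1 : ¬ (2 : ZMod 5) = 0 := by decide
  cases u <;> simp [cp, lt0, h1]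

theorem sgn_col {k : Type*} [Field k] {R : Finset (Vx N)} {p q : Vx N} (hp : ∀ u ∈ R, col u ≠ col p)
    (hpq : col p = col q) : sgn k p R = sgn k q R := by
  unfold sgn
  congr 2
  ext u
  simp only [Finset.mem_filter]
  refine and_congr_right fun hu => ?_
  have h1 := hp u hu
  rcases lt_or_gt_of_ne h1 with h2 | h2
  · exact ⟨fun _ => lt_of_col (hpq ▸ h2), fun _ => lt_of_col h2⟩
  · refine ⟨fun h => absurd h (not_lt.2 (lt_of_col h2).le), fun h => absurd h (not_lt.2 (lt_of_col ?_).le)⟩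
    rw [← hpq]
    exact h2

theorem i2 {α : Type*} [DecidableEq α] (a b c x : α) : (insert x {a, b, c} : Finset α) = {a, x, b, c} :=
  Finset.insert_comm _ _ _

theorem i3 {α : Type*} [DecidableEq α] (a b c x : α) : (insert x {a, b, c} : Finset α) = {a, b, x, c} := by
  rw [i2, Finset.insert_comm x b]

theorem i4 {α : Type*} [DecidableEq α] (a b c x : α) : (insert x {a, b, c} : Finset α) = {a, b, c, x} := by
  rw [i3, Finset.pair_comm x c]

section Part

variable {k : Type*} [Field k] {Z : Finset (Vx N) → k} (hZ : ∀ T, Z T ≠ 0 → Ind (GV N) T)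
  (hb : ∀ R, R.card = 3 → bd Z R = 0)

include hZ hb

theorem step {R : Finset (Vx N)} {p q : Vx N} (hR : R.card = 3) (hpq : p ≠ q) (hp : ∀ u ∈ R, cp p u)
    (hq : ∀ u ∈ R, cp q u) (ho : ∀ x, (∀ u ∈ R, cp x u) → x = p ∨ x = q) :
    sgn k p R * Z (insert p R) + sgn k q R * Z (insert q R) = 0 := by
  have hpR : p ∉ R := fun h => cp_irrefl _ (hp p h)
  have hqR : q ∉ R := fun h => cp_irrefl _ (hq q h)
  rw [← bd_pair Z hpq hpR hqR, hb R hR]
  intro x hx hne
  refine ho x fun u hu => ind_iff.1 (hZ _ hne) x (Finset.mem_insert_self _ _) u (Finset.mem_insert_of_mem hu) ?_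
  rintro rfl
  exact hx hu

theorem flip {R : Finset (Vx N)} {p q : Vx N} (hR : R.card = 3) (hpq : p ≠ q) (hp : ∀ u ∈ R, cp p u)
    (hq : ∀ u ∈ R, cp q u) (ho : ∀ x, (∀ u ∈ R, cp x u) → x = p ∨ x = q) (hc : col p = col q) (hs : ¬ IsS p) :
    Z (insert p R) + Z (insert q R) = 0 := by
  have h1 := step hZ hb hR hpq hp hq ho
  rw [← sgn_col (fun u hu h => cp_col (hp u hu) hs h.symm) hc, ← mul_add] at h1
  exact (mul_eq_zero.1 h1).resolve_left (sgn_ne_zero _ _)

theorem s1 (b : Bool) (j : ZMod (2 * N)) :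
    Z {.w b, .o, .h j, .f j} + Z {.w b, .o, .h (j + 1), .f j} = 0 := by
  have h1 : j ≠ j + 1 := fun h => z2' (pr j) (by simpa using congrArg pr h)
  rw [← i3 (Vx.w b) .o (.f j) (.h j), ← i3 (Vx.w b) .o (.f j) (.h (j + 1))]
  refine flip hZ hb ?_ ?_ ?_ ?_ ?_ rfl ?_
  · simp
  · simpa using h1
  · simp [cp, lt0]
  · simp [cp, lt0]
  · intro x hx
    simp only [Finset.mem_insert, Finset.mem_singleton, forall_eq_or_imp, forall_eq] at hx
    cases x <;> simp [cp, lt0] at hx ⊢
    exact hx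
  · simp [IsS]

theorem s2 (b : Bool) (j : ZMod (2 * N)) :
    Z {.w b, .o, .h (j + 1), .f j} + Z {.w b, .o, .h (j + 1), .f (j + 1)} = 0 := by
  have h1 : j ≠ j + 1 := fun h => z2' (pr j) (by simpa using congrArg pr h)
  rw [← i4 (Vx.w b) .o (.h (j + 1)) (.f j), ← i4 (Vx.w b) .o (.h (j + 1)) (.f (j + 1))]
  refine flip hZ hb ?_ ?_ ?_ ?_ ?_ rfl ?_
  · simp
  · simpa using h1
  · simp [cp, lt0]
  · simp [cp, lt0]
  · intro x hx
    simp only [Finset.mem_insert, Finset.mem_singleton, forall_eq_or_imp, forall_eq] at hx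
    cases x <;> simp [cp, lt0] at hx ⊢
    rcases hx with hx | hx
    · exact Or.inr hx.symm
    · exact Or.inl hx.symm
  · simp [IsS]

theorem s3 (b : Bool) (l j : ZMod (2 * N)) :
    Z {.w b, .o, .h l, .f j} + Z {.w b, .v (pr l), .h l, .f j} = 0 := by
  rw [← i2 (Vx.w b) (.h l) (.f j) .o, ← i2 (Vx.w b) (.h l) (.f j) (.v (pr l))]
  refine flip hZ hb ?_ ?_ ?_ ?_ ?_ rfl ?_
  · simp
  · simp
  · simp [cp, lt0]
  · simp [cp, lt0]
  · intro x hx
    simp only [Finset.mem_insert, Finset.mem_singleton, forall_eq_or_imp, forall_eq] at hx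
    cases x <;> simp [cp, lt0] at hx ⊢
    exact hx
  · simp [IsS]

theorem s4 (b : Bool) (l j : ZMod (2 * N)) (hl : l = j ∨ l = j + 1) :
    Z {.w b, .v (pr l), .h l, .f j} + Z {.w b, .v (pr l), .e (pr j), .f j} = 0 := by
  rw [← i3 (Vx.w b) (.v (pr l)) (.f j) (.h l), ← i3 (Vx.w b) (.v (pr l)) (.f j) (.e (pr j))]
  refine flip hZ hb ?_ ?_ ?_ ?_ ?_ rfl ?_
  · simp
  · simp
  · simp [cp, lt0, hl]
  · simp [cp, lt0]
  · intro x hx
    simp only [Finset.mem_insert, Finset.mem_singleton, forall_eq_or_imp, forall_eq] at hx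
    cases x <;> simp [cp, lt0] at hx ⊢
    · exact hx
    · obtain ⟨h1, h2⟩ := hx
      rcases h2 with rfl | rfl <;> rcases hl with rfl | rfl
      · rfl
      · exfalso
        rw [map_add, map_one] at h1
        exact z2' _ h1.symm
      · exfalso
        rw [map_add, map_one] at h1
        exact z2' _ h1
      · rfl
  · simp [IsS]

theorem lam (b : Bool) (j : ZMod (2 * N)) : Z {.w b, .o, .h j, .f j} = Z {.w b, .o, .h 0, .f 0} := by
  obtain ⟨n, rfl⟩ := ZMod.natCast_zmod_surjective j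
  induction n with
  | zero => rw [Nat.cast_zero]
  | succ n ih =>
    have h1 := s1 hZ hb b (n : ZMod (2 * N))
    have h2 := s2 hZ hb b (n : ZMod (2 * N))
    rw [Nat.cast_succ, ← ih]
    linear_combination h2 - h1

theorem s6 (b : Bool) (j : ZMod (2 * N)) :
    Z {.w b, .v (pr j), .e (pr j), .f j} = Z {.w b, .o, .h 0, .f 0} := by
  have h1 := s3 hZ hb b j j
  have h2 := s4 hZ hb b j j (Or.inl rfl)
  rw [← lam hZ hb b j]
  linear_combination h2 - h1

theorem s5 (b : Bool) (i : ZMod 2) :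
    ∑ j ∈ Finset.univ.filter (fun j : ZMod (2 * N) => pr j = i), Z {.w b, .v i, .e i, .f j} = 0 := by
  have h1 := hb {.w b, .v i, .e i} (by simp)
  have h2 : bd Z ({.w b, .v i, .e i} : Finset (Vx N)) = sgn k (Vx.f 0 : Vx N) {.w b, .v i, .e i} *
      ∑ j ∈ Finset.univ.filter (fun j : ZMod (2 * N) => pr j = i), Z {.w b, .v i, .e i, .f j} := by
    have hinj : Function.Injective (Vx.f : ZMod (2 * N) → Vx N) := fun a b h => Vx.f.inj h
    rw [Finset.mul_sum]
    unfold bd
    have h3 : ∑ j ∈ Finset.univ.filter (fun j : ZMod (2 * N) => pr j = i),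
        sgn k (Vx.f 0 : Vx N) {.w b, .v i, .e i} * Z {.w b, .v i, .e i, .f j} =
        ∑ x ∈ (Finset.univ.filter (fun j : ZMod (2 * N) => pr j = i)).map ⟨Vx.f, hinj⟩,
          sgn k x {.w b, .v i, .e i} * Z (insert x {.w b, .v i, .e i}) := by
      rw [Finset.sum_map]
      refine Finset.sum_congr rfl fun j _ => ?_
      show _ = sgn k (Vx.f j : Vx N) {.w b, .v i, .e i} * Z (insert (.f j) {.w b, .v i, .e i})
      rw [i4 (Vx.w b) (.v i) (.e i) (.f j)]
      rw [sgn_col (p := Vx.f 0) (q := Vx.f j) (fun u hu => ?_) rfl]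
      simp only [Finset.mem_insert, Finset.mem_singleton] at hu
      rcases hu with rfl | rfl | rfl <;> simp [col]
    rw [h3]
    symm
    refine Finset.sum_subset (fun x hx => ?_) fun x hx hx' => ?_
    · obtain ⟨j, _, rfl⟩ := Finset.mem_map.1 hx
      simp
    · rw [Finset.mem_compl] at hx
      have h4 : Z (insert x {.w b, .v i, .e i}) = 0 := by
        by_contra hc
        apply hx'
        have h5 : ∀ u ∈ ({.w b, .v i, .e i} : Finset (Vx N)), cp x u := fun u hu =>
          ind_iff.1 (hZ _ hc) x (Finset.mem_insert_self _ _) u (Finset.mem_insert_of_mem hu)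
            (fun h => hx (h ▸ hu))
        simp only [Finset.mem_insert, Finset.mem_singleton, forall_eq_or_imp, forall_eq] at h5
        cases x <;> simp [cp, lt0] at h5 ⊢
        exact h5.symm
      rw [h4, mul_zero]
  rw [h1] at h2
  exact (mul_eq_zero.1 h2.symm).resolve_left (sgn_ne_zero _ _)

end Part

theorem card_fiber (i : ZMod 2) : (Finset.univ.filter (fun j : ZMod (2 * N) => pr j = i)).card = N := by
  have hs : Function.Surjective (pr : ZMod (2 * N) →+* ZMod 2) := ZMod.ringHom_surjective _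
  have h1 : ∀ i' : ZMod 2, (Finset.univ.filter (fun j : ZMod (2 * N) => pr j = i')).card =
      (Finset.univ.filter (fun j : ZMod (2 * N) => pr j = i)).card := by
    intro i'
    exact AddMonoidHom.card_fiber_eq_of_mem_range (pr : ZMod (2 * N) →+* ZMod 2).toAddMonoidHom (hs i') (hs i)
  have h2 : (Finset.univ : Finset (ZMod (2 * N))).card =
      ∑ i' : ZMod 2, (Finset.univ.filter (fun j : ZMod (2 * N) => pr j = i')).card :=
    Finset.card_eq_sum_card_fiberwise fun _ _ => Finset.mem_univ _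
  rw [Finset.sum_congr rfl fun i' _ => h1 i', Finset.sum_const, Finset.card_univ, Finset.card_univ, ZMod.card,
    ZMod.card, smul_eq_mul] at h2
  omega

theorem lam_zero {k : Type*} [Field k] (hN : (N : k) ≠ 0) {Z : Finset (Vx N) → k}
    (hZ : ∀ T, Z T ≠ 0 → Ind (GV N) T) (hb : ∀ R, R.card = 3 → bd Z R = 0) (b : Bool) :
    Z {.w b, .o, .h 0, .f 0} = 0 := by
  have h1 := s5 hZ hb b 0
  rw [Finset.sum_congr rfl (g := fun _ => Z {.w b, .o, .h 0, .f 0}) fun j hj => by
    have h2 := (Finset.mem_filter.1 hj).2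
    rw [← s6 hZ hb b j, h2], Finset.sum_const, card_fiber, nsmul_eq_mul] at h1
  exact (mul_eq_zero.1 h1).resolve_left hN

theorem partA {k : Type*} [Field k] (hN : (N : k) ≠ 0) {Z : Finset (Vx N) → k}
    (hZ : ∀ T, Z T ≠ 0 → Ind (GV N) T) (hb : ∀ R, R.card = 3 → bd Z R = 0) {T : Finset (Vx N)}
    (hT : T.card = 4) (hI : Ind (GV N) T) (hs : ∀ u ∈ T, ¬ IsS u) : Z T = 0 := by
  classical
  have hinj := col_inj hI hs
  have himg : T.image col = Finset.range 4 := by
    apply Finset.eq_of_subset_of_card_le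
    · intro m hm
      obtain ⟨u, hu, rfl⟩ := Finset.mem_image.1 hm
      exact Finset.mem_range.2 (col_le (hs u hu))
    · rw [Finset.card_image_of_injOn hinj, hT, Finset.card_range]
  have hget : ∀ m, m < 4 → ∃ u ∈ T, col u = m := by
    intro m hm
    have : m ∈ T.image col := by rw [himg]; exact Finset.mem_range.2 hm
    obtain ⟨u, hu, he⟩ := Finset.mem_image.1 this
    exact ⟨u, hu, he⟩
  obtain ⟨z, hz, hzc⟩ := hget 0 (by omega)
  obtain ⟨x, hx, hxc⟩ := hget 1 (by omega)
  obtain ⟨y, hy, hyc⟩ := hget 2 (by omega)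
  obtain ⟨t, ht, htc⟩ := hget 3 (by omega)
  have hzx : z ≠ x := fun hh => by rw [hh] at hzc; omega
  have hzy : z ≠ y := fun hh => by rw [hh] at hzc; omega
  have hzt : z ≠ t := fun hh => by rw [hh] at hzc; omega
  have hxy : x ≠ y := fun hh => by rw [hh] at hxc; omega
  have hxt : x ≠ t := fun hh => by rw [hh] at hxc; omega
  have hyt : y ≠ t := fun hh => by rw [hh] at hyc; omega
  have hTe : T = {z, x, y, t} := by
    symm
    apply Finset.eq_of_subset_of_card_le
    · intro u hu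
      simp only [Finset.mem_insert, Finset.mem_singleton] at hu
      rcases hu with rfl | rfl | rfl | rfl <;> assumption
    · rw [hT, Finset.card_insert_of_notMem, Finset.card_insert_of_notMem, Finset.card_insert_of_notMem,
        Finset.card_singleton]
      · simpa using hyt
      · simp [hxy, hxt]
      · simp [hzx, hzy, hzt]
  have c1 := ind_iff.1 hI x hx y hy hxy
  have c2 := ind_iff.1 hI x hx t ht hxt
  have c3 := ind_iff.1 hI y hy t ht hyt
  rw [hTe]
  have l0 := lam_zero hN hZ hb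
  rcases z with b5 | i5 | _ | i5 | j5 | j5 | ⟨b5, a5⟩ <;> simp only [col] at hzc <;> try omega
  rcases t with b4 | i4 | _ | i4 | j4 | j4 | ⟨b4, a4⟩ <;> simp only [col] at htc <;> try omega
  have f1 : Z {.w b5, .o, .h j4, .f j4} = 0 := by rw [lam hZ hb b5 j4, l0]
  have f2 : Z {.w b5, .o, .h (j4 + 1), .f j4} = 0 := by
    have := s1 hZ hb b5 j4
    rwa [f1, zero_add] at this
  have f3 : ∀ l, (l = j4 ∨ l = j4 + 1) → Z {.w b5, .o, .h l, .f j4} = 0 := by
    rintro l (rfl | rfl)
    · exact f1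
    · exact f2
  have f4 : ∀ l, (l = j4 ∨ l = j4 + 1) → Z {.w b5, .v (pr l), .h l, .f j4} = 0 := by
    intro l hl
    have := s3 hZ hb b5 l j4
    rwa [f3 l hl, zero_add] at this
  have f5 : ∀ l, (l = j4 ∨ l = j4 + 1) → Z {.w b5, .v (pr l), .e (pr j4), .f j4} = 0 := by
    intro l hl
    have := s4 hZ hb b5 l j4 hl
    rwa [f4 l hl, zero_add] at this
  rcases x with b | i | _ | i | j | j | ⟨b, a⟩ <;> simp only [col] at hxc <;> try omega
  · rcases y with b3 | i3 | _ | i3 | j3 | j3 | ⟨b3, a3⟩ <;> simp only [col] at hyc <;> try omega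
    · simp [cp, lt0] at c3
      rw [c3]
      have h2 : ∀ a c : ZMod 2, c = a ∨ c = a + 1 := by decide
      rcases h2 (pr j4) i with h | h
      · rw [h]
        exact f5 j4 (Or.inl rfl)
      · rw [h]
        have := f5 (j4 + 1) (Or.inr rfl)
        rwa [map_add, map_one] at this
    · simp [cp, lt0] at c1 c3
      rw [c1]
      exact f4 j3 c3
  · rcases y with b3 | i3 | _ | i3 | j3 | j3 | ⟨b3, a3⟩ <;> simp only [col] at hyc <;> try omega
    · simp [cp, lt0] at c1
    · simp [cp, lt0] at c3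
      exact f3 j3 c3

end Pool.Agent.LibHelper95.Moore
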