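import Mathlib
import Pool.Agent.Lib_helper95.MooreCyc

/-!
# The 3-sphere in the complexes of `GV N`
-/

open Finset

set_option linter.unusedSectionVars false

namespace Pool.Agent.LibHelper95.Moore

open Pool.Agent.LibHelper95.Reg

variable {N : ℕ} [NeZero N]

/-- The facets of the sphere. -/
noncomputable def FB (a c : ZMod 5) : Finset (Vx N) := {.s false a, .s false (a + 2), .s true c, .s true (c + 2)}

theorem z5ne : ∀ a : ZMod 5, ¬ a = a + 2 ∧ ¬ a = a + 2 + 2 := by decide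

theorem z5c : ∀ x c : ZMod 5, (c = x + 2 ∨ x = c + 2) → (c + 2 = x + 2 ∨ x = c + 2 + 2) → False := by decide

section Part

variable {k : Type*} [Field k] {Z : Finset (Vx N) → k} (hZ : ∀ T, Z T ≠ 0 → Ind (GV N) T)
  (hb : ∀ R, R.card = 3 → bd Z R = 0)

include hZ hb

theorem b1 (a c : ZMod 5) (h : Z (FB a c) = 0) : Z (FB (a + 2) c) = 0 := by
  have e1 : FB a c = (insert (.s false a) {.s false (a + 2), .s true c, .s true (c + 2)} : Finset (Vx N)) := rfl
  have e2 : FB (a + 2) c =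
      (insert (.s false (a + 2 + 2)) {.s false (a + 2), .s true c, .s true (c + 2)} : Finset (Vx N)) := by
    rw [i2]
    rfl
  have h1 := step hZ hb (R := {.s false (a + 2), .s true c, .s true (c + 2)}) (p := .s false a)
    (q := .s false (a + 2 + 2)) ?_ ?_ ?_ ?_ ?_
  · rw [← e1, h, mul_zero, zero_add, ← e2] at h1
    exact (mul_eq_zero.1 h1).resolve_left (sgn_ne_zero _ _)
  · have := (z5ne c).1
    simp [this]
  · have := (z5ne a).2
    simpa using this
  · simp [cp, lt0]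
  · simp [cp, lt0]
  · intro x hx
    simp only [Finset.mem_insert, Finset.mem_singleton, forall_eq_or_imp, forall_eq] at hx
    rcases x with b5 | i5 | _ | i5 | j5 | j5 | ⟨b, x⟩ <;> try (exfalso; simp [cp, lt0] at hx; done)
    cases b
    · have h2 := hx.1
      simp only [cp, lt0, ne_eq, not_true_eq_false, false_or] at h2
      rcases h2 with h2 | h2
      · left
        rw [add_right_cancel h2]
      · right
        rw [h2]
    · exfalso
      have h2 := hx.2.1
      have h3 := hx.2.2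
      simp only [cp, lt0, ne_eq, not_true_eq_false, false_or] at h2 h3
      exact z5c x c h2 h3

theorem b2 (a c : ZMod 5) (h : Z (FB a c) = 0) : Z (FB a (c + 2)) = 0 := by
  have e1 : FB a c = (insert (.s true c) {.s false a, .s false (a + 2), .s true (c + 2)} : Finset (Vx N)) := by
    rw [i3]
    rfl
  have e2 : FB a (c + 2) =
      (insert (.s true (c + 2 + 2)) {.s false a, .s false (a + 2), .s true (c + 2)} : Finset (Vx N)) := by
    rw [i4]
    rfl
  have h1 := step hZ hb (R := {.s false a, .s false (a + 2), .s true (c + 2)}) (p := .s true c)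
    (q := .s true (c + 2 + 2)) ?_ ?_ ?_ ?_ ?_
  · rw [← e1, h, mul_zero, zero_add, ← e2] at h1
    exact (mul_eq_zero.1 h1).resolve_left (sgn_ne_zero _ _)
  · have := (z5ne a).1
    simp [this]
  · have := (z5ne c).2
    simpa using this
  · simp [cp, lt0]
  · simp [cp, lt0]
  · intro x hx
    simp only [Finset.mem_insert, Finset.mem_singleton, forall_eq_or_imp, forall_eq] at hx
    rcases x with b5 | i5 | _ | i5 | j5 | j5 | ⟨b, x⟩ <;> try (exfalso; simp [cp, lt0] at hx; done)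
    cases b
    · exfalso
      have h2 := hx.1
      have h3 := hx.2.1
      simp only [cp, lt0, ne_eq, not_true_eq_false, false_or] at h2 h3
      exact z5c x a h2 h3
    · have h2 := hx.2.2
      simp only [cp, lt0, ne_eq, not_true_eq_false, false_or] at h2
      rcases h2 with h2 | h2
      · left
        rw [add_right_cancel h2]
      · right
        rw [h2]

theorem allB {a₀ c₀ : ZMod 5} (h : Z (FB a₀ c₀) = 0) (a c : ZMod 5) : Z (FB a c) = 0 := by
  have h5 : ∀ x y : ZMod 5, y = x ∨ y = x + 2 ∨ y = x + 2 + 2 ∨ y = x + 2 + 2 + 2 ∨ y = x + 2 + 2 + 2 + 2 := by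
    decide
  have ha : ∀ a, Z (FB a c₀) = 0 := by
    intro a
    rcases h5 a₀ a with rfl | rfl | rfl | rfl | rfl
    · exact h
    · exact b1 hZ hb _ _ h
    · exact b1 hZ hb _ _ (b1 hZ hb _ _ h)
    · exact b1 hZ hb _ _ (b1 hZ hb _ _ (b1 hZ hb _ _ h))
    · exact b1 hZ hb _ _ (b1 hZ hb _ _ (b1 hZ hb _ _ (b1 hZ hb _ _ h)))
  have h' := ha a
  rcases h5 c₀ c with rfl | rfl | rfl | rfl | rfl
  · exact h'
  · exact b2 hZ hb _ _ h'
  · exact b2 hZ hb _ _ (b2 hZ hb _ _ h')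
  · exact b2 hZ hb _ _ (b2 hZ hb _ _ (b2 hZ hb _ _ h'))
  · exact b2 hZ hb _ _ (b2 hZ hb _ _ (b2 hZ hb _ _ (b2 hZ hb _ _ h')))

end Part

theorem ind_FB (a c : ZMod 5) : Ind (GV N) (FB a c) := by
  rw [ind_iff]
  intro u hu u' hu' hne
  simp only [FB, Finset.mem_insert, Finset.mem_singleton] at hu hu'
  rcases hu with rfl | rfl | rfl | rfl <;> rcases hu' with rfl | rfl | rfl | rfl <;>
    first
      | exact absurd rfl hne
      | simp [cp, lt0]

theorem card_FB (a c : ZMod 5) : (FB a c : Finset (Vx N)).card = 4 := by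
  have h1 := (z5ne a).1
  have h2 := (z5ne c).1
  unfold FB
  rw [Finset.card_insert_of_notMem, Finset.card_insert_of_notMem, Finset.card_insert_of_notMem,
    Finset.card_singleton]
  · simpa using h2
  · simp
  · have h0 : ¬ (2 : ZMod 5) = 0 := by decide
    simp [h0]

/-- The independent 4-sets of the sphere. -/
theorem form_FB {T : Finset (Vx N)} (hT : T.card = 4) (hI : Ind (GV N) T) {u : Vx N} (hu : u ∈ T) (hs : IsS u) :
    ∃ a c, T = FB a c := by
  classical
  have hall := all_isS hI hu hs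
  have key : ∀ b : Bool, (T.filter fun u => ∃ a, u = Vx.s b a).card ≤ 2 := by
    intro b
    by_contra hc
    push Not at hc
    obtain ⟨x, hx, y, hy, z, hz, hxy, hxz, hyz⟩ := Finset.two_lt_card.1 hc
    rw [Finset.mem_filter] at hx hy hz
    obtain ⟨hx, a, rfl⟩ := hx
    obtain ⟨hy, a', rfl⟩ := hy
    obtain ⟨hz, a'', rfl⟩ := hz
    have h1 := ind_iff.1 hI _ hx _ hy hxy
    have h2 := ind_iff.1 hI _ hx _ hz hxz
    have h3 := ind_iff.1 hI _ hy _ hz hyz
    simp only [cp, lt0, ne_eq, not_true_eq_false, false_or] at h1 h2 h3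
    exact z5 a a' a'' (fun h => hxy (by rw [h])) (fun h => hxz (by rw [h])) (fun h => hyz (by rw [h])) h1 h2 h3
  have h1 : T = (T.filter fun u => ∃ a, u = Vx.s false a) ∪ (T.filter fun u => ∃ a, u = Vx.s true a) := by
    ext u
    rw [Finset.mem_union, Finset.mem_filter, Finset.mem_filter]
    constructor
    · intro hu
      obtain ⟨b, a, rfl⟩ := hall u hu
      cases b
      · exact Or.inl ⟨hu, a, rfl⟩
      · exact Or.inr ⟨hu, a, rfl⟩
    · rintro (h | h) <;> exact h.1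
  have h2 := Finset.card_union_le (T.filter fun u => ∃ a, u = Vx.s false a) (T.filter fun u => ∃ a, u = Vx.s true a)
  rw [← h1, hT] at h2
  have k1 := key false
  have k2 := key true
  have key2 : ∀ b : Bool, (T.filter fun u => ∃ a, u = Vx.s b a).card = 2 → ∃ a,
      (T.filter fun u => ∃ a, u = Vx.s b a) = {.s b a, .s b (a + 2)} := by
    intro b hb
    obtain ⟨x, y, hxy, he⟩ := Finset.card_eq_two.1 hb
    have hx : x ∈ T.filter fun u => ∃ a, u = Vx.s b a := by rw [he]; simp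
    have hy : y ∈ T.filter fun u => ∃ a, u = Vx.s b a := by rw [he]; simp
    rw [Finset.mem_filter] at hx hy
    obtain ⟨hx, a, rfl⟩ := hx
    obtain ⟨hy, a', rfl⟩ := hy
    have h3 := ind_iff.1 hI _ hx _ hy hxy
    simp only [cp, lt0, ne_eq, not_true_eq_false, false_or] at h3
    rcases h3 with h3 | h3
    · exact ⟨a, by rw [he, h3]⟩
    · exact ⟨a', by rw [he, h3, Finset.pair_comm]⟩
  obtain ⟨a, ha⟩ := key2 false (by omega)
  obtain ⟨c, hc⟩ := key2 true (by omega)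
  refine ⟨a, c, ?_⟩
  rw [h1, ha, hc]
  unfold FB
  ext x
  simp only [Finset.mem_union, Finset.mem_insert, Finset.mem_singleton]
  tauto

/-- Every edge is related to two compatible vertices of the sphere. -/
theorem nbrs {p₁ p₂ : Vx N} (h : (GV N).Adj p₁ p₂) : ∃ a c, ∃ u ∈ (FB a c : Finset (Vx N)), ∃ v ∈ (FB a c : Finset (Vx N)),
    u ≠ v ∧ (GV N).Adj u p₁ ∧ (GV N).Adj v p₂ := by
  have hnb : ∀ p : Vx N, ¬ IsS p → ∀ b a, (GV N).Adj (.s b a) p := by
    intro p hp b a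
    refine ⟨?_, ?_⟩
    · rintro rfl
      exact hp ⟨b, a, rfl⟩
    · intro hc
      exact hp (cp_isS hc ⟨b, a, rfl⟩)
  have h1 : ∀ a : ZMod 5, ¬ a + 1 = a ∧ ¬ (a = a + 1 + 2) ∧ ¬ (a + 1 = a + 2) := by decide
  have hself : ∀ b (a : ZMod 5), (GV N).Adj (.s b (a + 1)) (.s b a) := by
    intro b a
    refine ⟨?_, ?_⟩
    · simpa using (h1 a).1
    · simp only [cp, lt0, ne_eq, not_true_eq_false, false_or, not_or]
      exact (h1 a).2
  have hmem : ∀ b (a : ZMod 5), ∃ a₀ c₀, (Vx.s b a : Vx N) ∈ (FB a₀ c₀ : Finset (Vx N)) ∧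
      ∃ a' b', (Vx.s b' a' : Vx N) ∈ (FB a₀ c₀ : Finset (Vx N)) ∧ (Vx.s b' a' : Vx N) ≠ .s b a := by
    intro b a
    cases b
    · exact ⟨a, 0, by simp [FB], 0, true, by simp [FB], by simp⟩
    · exact ⟨0, a, by simp [FB], 0, false, by simp [FB], by simp⟩
  by_cases hs1 : IsS p₁
  · obtain ⟨b, a, rfl⟩ := hs1
    by_cases hs2 : IsS p₂
    · obtain ⟨b', a', rfl⟩ := hs2
      have h2 : b = b' := by
        by_contra hc
        exact h.2 (Or.inl (Or.inl hc))
      subst h2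
      have h3 : ¬ a = a' ∧ ¬ (a' = a + 2 ∨ a = a' + 2) := by
        refine ⟨fun hh => h.1 (by rw [hh]), fun hh => h.2 ?_⟩
        simp only [cp, lt0, ne_eq, not_true_eq_false, false_or]
        exact hh
      have h4 : ∀ a a' : ZMod 5, ¬ a = a' ∧ ¬ (a' = a + 2 ∨ a = a' + 2) → ∃ x : ZMod 5,
          ((¬ x = a ∧ ¬ (a = x + 2 ∨ x = a + 2)) ∧ (¬ x + 2 = a' ∧ ¬ (a' = x + 2 + 2 ∨ x + 2 = a' + 2))) ∨
          ((¬ x = a' ∧ ¬ (a' = x + 2 ∨ x = a' + 2)) ∧ (¬ x + 2 = a ∧ ¬ (a = x + 2 + 2 ∨ x + 2 = a + 2))) := by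
        decide
      have hadj : ∀ x y : ZMod 5, (¬ x = y ∧ ¬ (y = x + 2 ∨ x = y + 2)) → (GV N).Adj (.s b x) (.s b y) := by
        intro x y hxy
        refine ⟨by simpa using hxy.1, ?_⟩
        simp only [cp, lt0, ne_eq, not_true_eq_false, false_or]
        exact hxy.2
      have hne : ∀ x : ZMod 5, (Vx.s b x : Vx N) ≠ .s b (x + 2) := by
        intro x
        simpa using (z5ne x).1
      have hfb : ∀ x : ZMod 5, ∃ a₀ c₀, (Vx.s b x : Vx N) ∈ (FB a₀ c₀ : Finset (Vx N)) ∧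
          (Vx.s b (x + 2) : Vx N) ∈ (FB a₀ c₀ : Finset (Vx N)) := by
        intro x
        cases b
        · exact ⟨x, 0, by simp [FB], by simp [FB]⟩
        · exact ⟨0, x, by simp [FB], by simp [FB]⟩
      obtain ⟨x, hx | hx⟩ := h4 a a' h3
      · obtain ⟨a₀, c₀, m1, m2⟩ := hfb x
        exact ⟨a₀, c₀, _, m1, _, m2, hne x, hadj _ _ hx.1, hadj _ _ hx.2⟩
      · obtain ⟨a₀, c₀, m1, m2⟩ := hfb x
        exact ⟨a₀, c₀, _, m2, _, m1, (hne x).symm, hadj _ _ hx.2, hadj _ _ hx.1⟩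
    · obtain ⟨a₀, c₀, m1, a', b', m2, hne⟩ := hmem b (a + 1)
      exact ⟨a₀, c₀, _, m1, _, m2, hne.symm, hself b a, hnb _ hs2 _ _⟩
  · by_cases hs2 : IsS p₂
    · obtain ⟨b, a, rfl⟩ := hs2
      obtain ⟨a₀, c₀, m1, a', b', m2, hne⟩ := hmem b (a + 1)
      exact ⟨a₀, c₀, _, m2, _, m1, hne, hnb _ hs1 _ _, hself b a⟩
    · obtain ⟨a₀, c₀, m1, a', b', m2, hne⟩ := hmem false 0
      exact ⟨a₀, c₀, _, m2, _, m1, hne, hnb _ hs1 _ _, hnb _ hs2 _ _⟩

theorem cyc3 {k : Type*} [Field k] (hN : (N : k) ≠ 0) : Cyc3 k (GV N) := by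
  intro p₁ p₂ hp Z hZ hb T
  have hZI : ∀ T, Z T ≠ 0 → Ind (GV N) T := fun T hT => (hZ T hT).2.1
  by_contra hT
  obtain ⟨h1, h2, _⟩ := hZ T hT
  by_cases hs : ∃ u ∈ T, IsS u
  · obtain ⟨u, hu, hus⟩ := hs
    obtain ⟨a, c, rfl⟩ := form_FB h1 h2 hu hus
    obtain ⟨a₀, c₀, u, hu, v, hv, huv, h3, h4⟩ := nbrs hp
    have h5 : Z (FB a₀ c₀) = 0 := by
      by_contra hc
      exact (hZ _ hc).2.2 ⟨u, hu, v, hv, huv, h3, h4⟩
    exact hT (allB hZI hb h5 a c)
  · push Not at hs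
    exact hT (partA hN hZI hb h1 h2 hs)

end Pool.Agent.LibHelper95.Moore
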