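import Mathlib
import Pool.Agent.Lib_helper95.ElChain
import Pool.Agent.Lib_helper95.CycLower
import Pool.Agent.Lib_helper95.MooreSph

/-!
# Cycles on the complexes of `GV N`
-/

open Finset

set_option linter.unusedSectionVars false

namespace Pool.Agent.LibHelper95.Reg

variable {V : Type*} [Fintype V] [LinearOrder V] {k : Type*} [Field k]

theorem bd_add' (φ ψ : Finset V → k) (S : Finset V) : bd (fun T => φ T + ψ T) S = bd φ S + bd ψ S := by
  unfold bd
  rw [← Finset.sum_add_distrib]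
  exact Finset.sum_congr rfl fun v _ => by ring

theorem bd_sub' (φ ψ : Finset V → k) (S : Finset V) : bd (fun T => φ T - ψ T) S = bd φ S - bd ψ S := by
  unfold bd
  rw [← Finset.sum_sub_distrib]
  exact Finset.sum_congr rfl fun v _ => by ring

end Pool.Agent.LibHelper95.Reg

namespace Pool.Agent.LibHelper95.Moore

open Pool.Agent.LibHelper95.Reg

variable {N : ℕ} [NeZero N] (k : Type*) [Field k]

theorem z2l : ∀ a c : ZMod 2, c = a ∨ c = a + 1 := by decide

theorem adj_w : (GV N).Adj (.w false) (.w true) := by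
  refine ⟨by simp, ?_⟩
  simp [cp, lt0]

theorem adj_of_col {u u' : Vx N} (h : u ≠ u') (hs : ¬ IsS u) (hc : col u = col u') : (GV N).Adj u u' :=
  ⟨h, fun h' => cp_col h' hs hc⟩

open Classical in
/-- The vertices compatible with the suspension points. -/
noncomputable def WA : Finset (Vx N) := Finset.univ.filter fun u => ¬ IsS u ∧ col u ≠ 0

theorem mem_WA {u : Vx N} : u ∈ (WA : Finset (Vx N)) ↔ ¬ IsS u ∧ col u ≠ 0 := by
  unfold WA
  simp

theorem cp_WA {u : Vx N} (b : Bool) (hu : u ∈ (WA : Finset (Vx N))) : cp (.w b) u := by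
  rw [mem_WA] at hu
  cases u <;> simp [cp, lt0, IsS, col] at hu ⊢

/-- A summand of the 2-cycle. -/
noncomputable def ZA (j : ZMod (2 * N)) (T : Finset (Vx N)) : k :=
  (el k [.o, .h j, .f j] T - el k [.o, .h (j + 1), .f j] T) -
    (el k [.v (pr j), .h j, .f j] T - el k [.v (pr j + 1), .h (j + 1), .f j] T) +
    (el k [.v (pr j), .e (pr j), .f j] T - el k [.v (pr j + 1), .e (pr j), .f j] T)

theorem bd_ZA (j : ZMod (2 * N)) (S : Finset (Vx N)) : bd (ZA k j) S =
    (el k [.o, .h j] S - el k [.o, .h (j + 1)] S) -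
      (el k [.v (pr j), .h j] S - el k [.v (pr (j + 1)), .h (j + 1)] S) +
      (el k [.v (pr j), .e (pr j)] S - el k [.v (pr j + 1), .e (pr j)] S) := by
  unfold ZA
  rw [bd_add', bd_sub', bd_sub', bd_sub', bd_sub', bd_el3, bd_el3, bd_el3, bd_el3, bd_el3, bd_el3, map_add, map_one]
  ring

theorem sum_shift {ι : Type*} [Fintype ι] [AddGroup ι] (c : ι) (A : ι → k) : ∑ j, (A j - A (j + c)) = 0 := by
  rw [Finset.sum_sub_distrib, sub_eq_zero]
  exact (Equiv.sum_comp (Equiv.addRight c) A).symm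

theorem bd_ZA_sum (hN : (N : k) = 0) (S : Finset (Vx N)) : bd (fun T => ∑ j, ZA k j T) S = 0 := by
  rw [bd_sum, Finset.sum_congr rfl fun j _ => bd_ZA k j S, Finset.sum_add_distrib, Finset.sum_sub_distrib,
    sum_shift k 1 (fun j => el k [.o, .h j] S), sum_shift k 1 (fun j => el k [.v (pr j), .h j] S), sub_zero, zero_add]
  rw [← Finset.sum_fiberwise Finset.univ (pr : ZMod (2 * N) →+* ZMod 2)]
  refine Finset.sum_eq_zero fun i _ => ?_
  rw [Finset.sum_congr rfl (g := fun _ => el k [.v i, .e i] S - el k [.v (i + 1), .e i] S) fun j hj => by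
    rw [(Finset.mem_filter.1 hj).2], Finset.sum_const, card_fiber, nsmul_eq_mul, hN, zero_mul]

/-- Ordered lists give independent sets. -/
theorem ind_list3 {a b c : Vx N} (h1 : cp a b) (h2 : cp a c) (h3 : cp b c) :
    Ind (GV N) ([a, b, c] : List (Vx N)).toFinset := by
  rw [ind_iff]
  intro u hu u' hu' hne
  simp only [List.mem_toFinset, List.mem_cons, List.not_mem_nil, or_false] at hu hu'
  rcases hu with rfl | rfl | rfl <;> rcases hu' with rfl | rfl | rfl <;> first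
    | exact absurd rfl hne
    | assumption
    | (apply cp_symm; assumption)

theorem good_list {a b c : Vx N} (ha : a ∈ (WA : Finset (Vx N))) (hb : b ∈ (WA : Finset (Vx N)))
    (hc : c ∈ (WA : Finset (Vx N))) (h1 : cp a b) (h2 : cp a c) (h3 : cp b c) (T : Finset (Vx N))
    (h : el k [a, b, c] T ≠ 0) : T ⊆ WA ∧ T.card = 3 ∧ Ind (GV N) T := by
  obtain ⟨rfl, h5⟩ := el_ne h
  refine ⟨?_, h5, ind_list3 h1 h2 h3⟩
  intro u hu
  simp only [List.mem_toFinset, List.mem_cons, List.not_mem_nil, or_false] at hu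
  rcases hu with rfl | rfl | rfl <;> assumption

theorem ZA_good (j : ZMod (2 * N)) (T : Finset (Vx N)) (h : ZA k j T ≠ 0) :
    T ⊆ WA ∧ T.card = 3 ∧ Ind (GV N) T := by
  by_contra hc
  have m1 : (Vx.o : Vx N) ∈ (WA : Finset (Vx N)) := by rw [mem_WA]; simp [IsS, col]
  have m2 : ∀ i, (Vx.v i : Vx N) ∈ (WA : Finset (Vx N)) := fun i => by rw [mem_WA]; simp [IsS, col]
  have m3 : ∀ i, (Vx.e i : Vx N) ∈ (WA : Finset (Vx N)) := fun i => by rw [mem_WA]; simp [IsS, col]
  have m4 : ∀ i, (Vx.h i : Vx N) ∈ (WA : Finset (Vx N)) := fun i => by rw [mem_WA]; simp [IsS, col]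
  have m5 : ∀ i, (Vx.f i : Vx N) ∈ (WA : Finset (Vx N)) := fun i => by rw [mem_WA]; simp [IsS, col]
  have e1 : el k [Vx.o, .h j, .f j] T = 0 := by
    by_contra hne
    exact hc (good_list k m1 (m4 _) (m5 _) (by simp [cp, lt0]) (by simp [cp, lt0]) (by simp [cp, lt0]) T hne)
  have e2 : el k [Vx.o, .h (j + 1), .f j] T = 0 := by
    by_contra hne
    exact hc (good_list k m1 (m4 _) (m5 _) (by simp [cp, lt0]) (by simp [cp, lt0]) (by simp [cp, lt0]) T hne)
  have e3 : el k [Vx.v (pr j), .h j, .f j] T = 0 := by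
    by_contra hne
    exact hc (good_list k (m2 _) (m4 _) (m5 _) (by simp [cp, lt0]) (by simp [cp, lt0]) (by simp [cp, lt0]) T hne)
  have e4 : el k [Vx.v (pr j + 1), .h (j + 1), .f j] T = 0 := by
    by_contra hne
    exact hc (good_list k (m2 _) (m4 _) (m5 _) (by simp [cp, lt0]) (by simp [cp, lt0]) (by simp [cp, lt0]) T hne)
  have e5 : el k [Vx.v (pr j), .e (pr j), .f j] T = 0 := by
    by_contra hne
    exact hc (good_list k (m2 _) (m3 _) (m5 _) (by simp [cp, lt0]) (by simp [cp, lt0]) (by simp [cp, lt0]) T hne)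
  have e6 : el k [Vx.v (pr j + 1), .e (pr j), .f j] T = 0 := by
    by_contra hne
    exact hc (good_list k (m2 _) (m3 _) (m5 _) (by simp [cp, lt0]) (by simp [cp, lt0]) (by simp [cp, lt0]) T hne)
  apply h
  unfold ZA
  rw [e1, e2, e3, e4, e5, e6]
  ring

theorem ZA_T0 : ∑ j, ZA k j ({.o, .h 0, .f 0} : Finset (Vx N)) ≠ 0 := by
  have hnv : ∀ (i : ZMod 2) (b c : Vx N), el k [.v i, b, c] ({.o, .h 0, .f 0} : Finset (Vx N)) = 0 := by
    intro i b c
    by_contra hne
    obtain ⟨h1, _⟩ := el_ne hne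
    have h2 : (Vx.v i : Vx N) ∈ ({.o, .h 0, .f 0} : Finset (Vx N)) := by
      rw [h1]
      simp
    simp at h2
  have h10 : ¬ (1 : ZMod (2 * N)) = 0 := fun h => z2' (0 : ZMod 2) (by
    have := congrArg (pr : ZMod (2 * N) →+* ZMod 2) h
    rw [map_one, map_zero] at this
    rw [this, add_zero])
  rw [Finset.sum_eq_single_of_mem (0 : ZMod (2 * N)) (Finset.mem_univ _)]
  · unfold ZA
    rw [hnv, hnv, hnv, hnv]
    have h2 : el k [.o, .h (0 + 1), .f 0] ({.o, .h 0, .f 0} : Finset (Vx N)) = 0 := by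
      by_contra hne
      obtain ⟨h1, _⟩ := el_ne hne
      have h2 : (Vx.h (0 + 1) : Vx N) ∈ ({.o, .h 0, .f 0} : Finset (Vx N)) := by
        rw [h1]
        simp
      simp [h10] at h2
    rw [h2]
    have h3 : el k [Vx.o, .h 0, .f 0] ({.o, .h 0, .f 0} : Finset (Vx N)) ≠ 0 := by
      have h4 : ({.o, .h 0, .f 0} : Finset (Vx N)) = ([Vx.o, .h 0, .f 0] : List (Vx N)).toFinset := by
        simp
      rw [h4]
      exact el_self (by simp)
    simpa using h3
  · intro j _ hj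
    unfold ZA
    rw [hnv, hnv, hnv, hnv]
    have h2 : ∀ b : Vx N, el k [.o, b, .f j] ({.o, .h 0, .f 0} : Finset (Vx N)) = 0 := by
      intro b
      by_contra hne
      obtain ⟨h1, _⟩ := el_ne hne
      have h2 : (Vx.f j : Vx N) ∈ ({.o, .h 0, .f 0} : Finset (Vx N)) := by
        rw [h1]
        simp
      simp [hj] at h2
    rw [h2, h2]
    ring

theorem hmaxA (w : Vx N) (hw : w ∈ (WA : Finset (Vx N))) (hwT : w ∉ ({.o, .h 0, .f 0} : Finset (Vx N))) :
    ∃ t ∈ ({.o, .h 0, .f 0} : Finset (Vx N)), (GV N).Adj w t := by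
  rw [mem_WA] at hw
  obtain ⟨h1, h2⟩ := hw
  have h3 : ∀ u ∈ ({.o, .h 0, .f 0} : Finset (Vx N)), w ≠ u := fun u hu h => hwT (h ▸ hu)
  have h4 := col_le h1
  have h5 : col w = 1 ∨ col w = 2 ∨ col w = 3 := by omega
  rcases h5 with h5 | h5 | h5
  · exact ⟨.o, by simp, adj_of_col (h3 _ (by simp)) h1 h5⟩
  · exact ⟨.h 0, by simp, adj_of_col (h3 _ (by simp)) h1 h5⟩
  · exact ⟨.f 0, by simp, adj_of_col (h3 _ (by simp)) h1 h5⟩

theorem w_notMem_WA (b : Bool) : (Vx.w b : Vx N) ∉ (WA : Finset (Vx N)) := by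
  rw [mem_WA]
  simp [col]

theorem not_adj_WA (b : Bool) (w : Vx N) (hw : w ∈ (WA : Finset (Vx N))) : ¬ (GV N).Adj (.w b) w :=
  fun h => h.2 (cp_WA _ hw)

/-- The 2-cycle. -/
noncomputable def ZS (T : Finset (Vx N)) : k := ∑ j : ZMod (2 * N), ZA k j T

theorem ZS_good (T : Finset (Vx N)) (hT : ZS k T ≠ 0) : T ⊆ (WA : Finset (Vx N)) ∧ T.card = 3 ∧ Ind (GV N) T := by
  obtain ⟨j, _, hj⟩ := Finset.exists_ne_zero_of_sum_ne_zero hT
  exact ZA_good k j T hj

theorem bd_ZS (hN : (N : k) = 0) (R : Finset (Vx N)) : bd (ZS k) R = 0 := bd_ZA_sum k hN R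

theorem ZS_T0 : ZS k ({.o, .h 0, .f 0} : Finset (Vx N)) ≠ 0 := ZA_T0 k
theorem lowA (hN : (N : k) = 0) (q : ℕ) :
    ∃ (a : Vx N → ℕ) (i : ℕ), ∑ v, a v = i + (2 * (q + 1) + 3) ∧ ¬ AV k (KK (Pw (GV N) (q + 1)) a) i := by
  have hT := ZS_T0 (N := N) k
  have h := not_AV_of_edge_cyc (k := k) (G := GV N) (x := .w false) (y := .w true) adj_w WA (w_notMem_WA _)
    (w_notMem_WA _) (not_adj_WA _) (not_adj_WA _) (s := 2) (ZS k) (ZS_good k) (fun R _ => bd_ZS k hN R)
    _ hT hmaxA q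
  exact h
end Pool.Agent.LibHelper95.Moore
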