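import Mathlib
import Pool.Agent.Lib_helper95.MooreLow

/-!
# More cycles on the complexes of `GV N`
-/

open Finset

set_option linter.unusedSectionVars false

namespace Pool.Agent.LibHelper95.Moore

open Pool.Agent.LibHelper95.Reg

variable {N : ℕ} [NeZero N] (k : Type*) [Field k]

/-- The four vertices of the circle. -/
noncomputable def WB : Finset (Vx N) := {.v 0, .v 1, .e 0, .e 1}

/-- The 1-cycle. -/
noncomputable def ZB (T : Finset (Vx N)) : k :=
  (el k [.v 0, .e 0] T - el k [.v 1, .e 0] T) + (el k [.v 1, .e 1] T - el k [.v 0, .e 1] T)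

theorem bd_ZB (R : Finset (Vx N)) : bd (ZB k) R = 0 := by
  unfold ZB
  rw [bd_add', bd_sub', bd_sub', bd_el2, bd_el2, bd_el2, bd_el2]
  ring

theorem good_list2 (i j : ZMod 2) (T : Finset (Vx N)) (h : el k [.v i, .e j] T ≠ 0) :
    T ⊆ WB ∧ T.card = 2 ∧ Ind (GV N) T := by
  obtain ⟨rfl, h5⟩ := el_ne h
  have h2 : ∀ a : ZMod 2, a = 0 ∨ a = 1 := by decide
  refine ⟨?_, h5, ?_⟩
  · intro u hu
    simp only [List.mem_toFinset, List.mem_cons, List.not_mem_nil, or_false] at hu
    unfold WB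
    rcases hu with rfl | rfl
    · rcases h2 i with rfl | rfl <;> simp
    · rcases h2 j with rfl | rfl <;> simp
  · rw [ind_iff]
    intro u hu u' hu' hne
    simp only [List.mem_toFinset, List.mem_cons, List.not_mem_nil, or_false] at hu hu'
    rcases hu with rfl | rfl <;> rcases hu' with rfl | rfl <;> first
      | exact absurd rfl hne
      | simp [cp, lt0]

theorem ZB_good (T : Finset (Vx N)) (h : ZB k T ≠ 0) : T ⊆ (WB : Finset (Vx N)) ∧ T.card = 2 ∧ Ind (GV N) T := by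
  by_contra hc
  have e1 : ∀ i j : ZMod 2, el k [.v i, .e j] T = 0 := by
    intro i j
    by_contra hne
    exact hc (good_list2 k i j T hne)
  apply h
  unfold ZB
  rw [e1, e1, e1, e1]
  ring

theorem ZB_T0 : ZB k ({.v 0, .e 0} : Finset (Vx N)) ≠ 0 := by
  have e1 : ∀ i j : ZMod 2, (i ≠ 0 ∨ j ≠ 0) → el k [.v i, .e j] ({.v 0, .e 0} : Finset (Vx N)) = 0 := by
    intro i j hij
    by_contra hne
    obtain ⟨h1, _⟩ := el_ne hne
    have h2 : (Vx.v i : Vx N) ∈ ({.v 0, .e 0} : Finset (Vx N)) := by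
      rw [h1]
      simp
    have h3 : (Vx.e j : Vx N) ∈ ({.v 0, .e 0} : Finset (Vx N)) := by
      rw [h1]
      simp
    simp at h2 h3
    rcases hij with h | h
    · exact h h2
    · exact h h3
  have h10 : (1 : ZMod 2) ≠ 0 := by decide
  unfold ZB
  rw [e1 1 0 (Or.inl h10), e1 1 1 (Or.inl h10), e1 0 1 (Or.inr h10)]
  have h3 : el k [Vx.v 0, .e 0] ({.v 0, .e 0} : Finset (Vx N)) ≠ 0 := by
    have h4 : ({.v 0, .e 0} : Finset (Vx N)) = ([Vx.v 0, .e 0] : List (Vx N)).toFinset := by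
      simp
    rw [h4]
    exact el_self (by simp)
  simpa using h3

theorem hmaxB (w : Vx N) (hw : w ∈ (WB : Finset (Vx N))) (hwT : w ∉ ({.v 0, .e 0} : Finset (Vx N))) :
    ∃ t ∈ ({.v 0, .e 0} : Finset (Vx N)), (GV N).Adj w t := by
  unfold WB at hw
  simp only [Finset.mem_insert, Finset.mem_singleton] at hw
  rcases hw with rfl | rfl | rfl | rfl
  · exact absurd (by simp) hwT
  · exact ⟨.v 0, by simp, adj_of_col (by simp) (by simp [IsS]) rfl⟩
  · exact absurd (by simp) hwT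
  · exact ⟨.e 0, by simp, adj_of_col (by simp) (by simp [IsS]) rfl⟩

theorem w_notMem_WB (b : Bool) : (Vx.w b : Vx N) ∉ (WB : Finset (Vx N)) := by
  unfold WB
  simp

theorem not_adj_WB (b : Bool) (w : Vx N) (hw : w ∈ (WB : Finset (Vx N))) : ¬ (GV N).Adj (.w b) w := by
  unfold WB at hw
  simp only [Finset.mem_insert, Finset.mem_singleton] at hw
  refine fun h => h.2 ?_
  rcases hw with rfl | rfl | rfl | rfl <;> simp [cp, lt0]

theorem lowB (q : ℕ) :
    ∃ (a : Vx N → ℕ) (i : ℕ), ∑ v, a v = i + (2 * (q + 1) + 2) ∧ ¬ AV k (KK (Pw (GV N) (q + 1)) a) i := by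
  have hT := ZB_T0 (N := N) k
  have h := not_AV_of_edge_cyc (k := k) (G := GV N) (x := .w false) (y := .w true) adj_w WB (w_notMem_WB _)
    (w_notMem_WB _) (not_adj_WB _) (not_adj_WB _) (s := 1) (ZB k) (ZB_good k) (fun R _ => bd_ZB k R)
    _ hT hmaxB q
  exact h

open Classical in
/-- The vertices of the sphere. -/
noncomputable def WC : Finset (Vx N) := Finset.univ.filter fun u => IsS u

theorem mem_WC {u : Vx N} : u ∈ (WC : Finset (Vx N)) ↔ IsS u := by
  unfold WC
  simp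

theorem card_WC : 4 < (WC : Finset (Vx N)).card := by
  have hinj : Function.Injective (fun a : ZMod 5 => (Vx.s false a : Vx N)) := fun a b h => (Vx.s.inj h).2
  have h1 : Finset.univ.map ⟨_, hinj⟩ ⊆ (WC : Finset (Vx N)) := by
    intro u hu
    obtain ⟨a, _, rfl⟩ := Finset.mem_map.1 hu
    exact mem_WC.2 ⟨false, a, rfl⟩
  have h2 := Finset.card_le_card h1
  rw [Finset.card_map, Finset.card_univ, ZMod.card] at h2
  omega

/-- The 3-cycle. -/
noncomputable def ZC (T : Finset (Vx N)) : k :=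
  ∑ a : ZMod 5, ∑ c : ZMod 5, el k [.s false a, .s false (a + 2), .s true c, .s true (c + 2)] T

theorem bd_ZC (R : Finset (Vx N)) : bd (ZC k) R = 0 := by
  unfold ZC
  rw [bd_sum, Finset.sum_congr rfl fun a _ => bd_sum _ _ _,
    Finset.sum_congr rfl fun a _ => Finset.sum_congr rfl fun c _ => bd_el4 _ _ _ _ _]
  rw [Finset.sum_congr rfl fun a _ => Finset.sum_add_distrib, Finset.sum_add_distrib]
  have h1 : ∑ a : ZMod 5, ∑ c : ZMod 5, (el k [.s false (a + 2), .s true c, .s true (c + 2)] R -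
      el k [.s false a, .s true c, .s true (c + 2)] R) = 0 := by
    rw [Finset.sum_comm]
    refine Finset.sum_eq_zero fun c _ => ?_
    have := sum_shift k (2 : ZMod 5) (fun a => el k [.s false a, .s true c, .s true (c + 2)] R)
    rw [← neg_eq_zero, ← Finset.sum_neg_distrib]
    simpa using this
  have h2 : ∑ a : ZMod 5, ∑ c : ZMod 5, (el k [.s false a, .s false (a + 2), .s true (c + 2)] R -
      el k [.s false a, .s false (a + 2), .s true c] R) = 0 := by
    refine Finset.sum_eq_zero fun a _ => ?_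
    have := sum_shift k (2 : ZMod 5) (fun c => el k [.s false a, .s false (a + 2), .s true c] R)
    rw [← neg_eq_zero, ← Finset.sum_neg_distrib]
    simpa using this
  rw [h1, h2, add_zero]

theorem FB_list (a c : ZMod 5) :
    (FB a c : Finset (Vx N)) = ([.s false a, .s false (a + 2), .s true c, .s true (c + 2)] : List (Vx N)).toFinset := by
  simp [FB]

theorem FB_sub (a c : ZMod 5) : (FB a c : Finset (Vx N)) ⊆ WC := by
  intro u hu
  rw [mem_WC]
  simp only [FB, Finset.mem_insert, Finset.mem_singleton] at hu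
  rcases hu with rfl | rfl | rfl | rfl <;> exact ⟨_, _, rfl⟩

theorem ZC_good (T : Finset (Vx N)) (h : ZC k T ≠ 0) : T ⊆ (WC : Finset (Vx N)) ∧ T.card = 4 ∧ Ind (GV N) T := by
  obtain ⟨a, _, ha⟩ := Finset.exists_ne_zero_of_sum_ne_zero h
  obtain ⟨c, _, hc⟩ := Finset.exists_ne_zero_of_sum_ne_zero ha
  obtain ⟨h1, _⟩ := el_ne hc
  rw [← FB_list] at h1
  subst h1
  exact ⟨FB_sub a c, card_FB a c, ind_FB a c⟩

theorem FB_inj {a c : ZMod 5} (h : (FB 0 0 : Finset (Vx N)) = FB a c) : a = 0 ∧ c = 0 := by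
  have h1 : ∀ a : ZMod 5, (a = 0 ∨ a = 0 + 2) → (a + 2 = 0 ∨ a + 2 = 0 + 2) → a = 0 := by decide
  have m1 : (Vx.s false a : Vx N) ∈ (FB 0 0 : Finset (Vx N)) := by rw [h]; simp [FB]
  have m2 : (Vx.s false (a + 2) : Vx N) ∈ (FB 0 0 : Finset (Vx N)) := by rw [h]; simp [FB]
  have m3 : (Vx.s true c : Vx N) ∈ (FB 0 0 : Finset (Vx N)) := by rw [h]; simp [FB]
  have m4 : (Vx.s true (c + 2) : Vx N) ∈ (FB 0 0 : Finset (Vx N)) := by rw [h]; simp [FB]
  simp only [FB, Finset.mem_insert, Finset.mem_singleton, Vx.s.injEq, true_and, false_and, or_false,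
    false_or, Bool.false_eq_true, Bool.true_eq_false] at m1 m2 m3 m4
  exact ⟨h1 a m1 m2, h1 c m3 m4⟩

theorem ZC_T0 : ZC k (FB 0 0 : Finset (Vx N)) ≠ 0 := by
  unfold ZC
  have h0 : ∀ a c : ZMod 5, (a ≠ 0 ∨ c ≠ 0) →
      el k [.s false a, .s false (a + 2), .s true c, .s true (c + 2)] (FB 0 0 : Finset (Vx N)) = 0 := by
    intro a c hac
    by_contra hne
    obtain ⟨h1, _⟩ := el_ne hne
    rw [← FB_list] at h1
    obtain ⟨h2, h3⟩ := FB_inj h1
    rcases hac with h | h
    · exact h h2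
    · exact h h3
  rw [Finset.sum_eq_single_of_mem (0 : ZMod 5) (Finset.mem_univ _) fun a _ ha =>
      Finset.sum_eq_zero fun c _ => h0 a c (Or.inl ha),
    Finset.sum_eq_single_of_mem (0 : ZMod 5) (Finset.mem_univ _) fun c _ hc => h0 0 c (Or.inr hc), FB_list]
  refine el_self ?_
  have h2 : ¬ (0 : ZMod 5) = 2 := by decide
  simp [h2]

theorem hmaxC (w : Vx N) (_ : w ∈ (WC : Finset (Vx N))) (hwT : w ∉ (FB 0 0 : Finset (Vx N))) :
    ∃ t ∈ (FB 0 0 : Finset (Vx N)), (GV N).Adj w t := by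
  by_contra hc
  push Not at hc
  have h1 : Ind (GV N) (insert w (FB 0 0)) := by
    intro u hu v hv hadj
    rcases Finset.mem_insert.1 hu with rfl | hu'
    · rcases Finset.mem_insert.1 hv with rfl | hv'
      · exact hadj.1 rfl
      · exact hc v hv' hadj
    · rcases Finset.mem_insert.1 hv with rfl | hv'
      · exact hc u hu' hadj.symm
      · exact ind_FB 0 0 u hu' v hv' hadj
  have h2 := alpha _ h1
  rw [Finset.card_insert_of_notMem hwT, card_FB] at h2
  omega

theorem lowC : ∃ (a : Vx N → ℕ) (i : ℕ), ∑ v, a v = i + 5 ∧ ¬ AV k (KK (Pw (GV N) 1) a) i := by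
  have hT := ZC_T0 (N := N) k
  have h := not_AV_one_cyc (k := k) (G := GV N) WC (s := 3) (ZC k) (ZC_good k) (fun R _ => bd_ZC k R)
    _ hT card_WC hmaxC
  exact h

end Pool.Agent.LibHelper95.Moore
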