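import Mathlib

/-!
The derivation `d/dt` on the field `ℚ(t)` of rational functions.
-/

open Polynomial

namespace Pool.Agent.LibHelper95

noncomputable section

/-- the ring homomorphism `ℚ[t] → ℚ(t)[ε]`, `p ↦ p + p' ε`. -/
def toDual : ℚ[X] →+* TrivSqZeroExt (RatFunc ℚ) (RatFunc ℚ) :=
  Polynomial.eval₂RingHom
    ((TrivSqZeroExt.inlHom (RatFunc ℚ) (RatFunc ℚ)).comp (algebraMap ℚ (RatFunc ℚ)))
    (TrivSqZeroExt.inl RatFunc.X + TrivSqZeroExt.inr 1)

theorem toDual_C (a : ℚ) : toDual (C a) = TrivSqZeroExt.inl (algebraMap ℚ (RatFunc ℚ) a) := by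
  simp [toDual]

theorem toDual_X : toDual X = TrivSqZeroExt.inl RatFunc.X + TrivSqZeroExt.inr 1 := by
  simp [toDual]

theorem toDual_fst (p : ℚ[X]) : (toDual p).fst = algebraMap ℚ[X] (RatFunc ℚ) p := by
  induction p using Polynomial.induction_on with
  | C a =>
    rw [toDual_C, TrivSqZeroExt.fst_inl, RatFunc.algebraMap_C]
    exact DFunLike.congr_fun (Subsingleton.elim (algebraMap ℚ (RatFunc ℚ)) RatFunc.C) a
  | add p q hp hq => rw [map_add, TrivSqZeroExt.fst_add, hp, hq, map_add]
  | monomial n a h =>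
    rw [pow_succ, ← mul_assoc, map_mul, TrivSqZeroExt.fst_mul, h, map_mul, toDual_X]
    simp

theorem toDual_snd (p : ℚ[X]) :
    (toDual p).snd = algebraMap ℚ[X] (RatFunc ℚ) (derivative p) := by
  induction p using Polynomial.induction_on with
  | C a => simp [toDual_C]
  | add p q hp hq => rw [map_add, TrivSqZeroExt.snd_add, hp, hq, map_add, map_add]
  | monomial n a h =>
    rw [pow_succ, ← mul_assoc, map_mul, TrivSqZeroExt.snd_mul, h, toDual_fst, derivative_mul,
      map_add, map_mul, map_mul, toDual_X]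
    simp only [TrivSqZeroExt.snd_add, TrivSqZeroExt.snd_inl, TrivSqZeroExt.snd_inr,
      TrivSqZeroExt.fst_add, TrivSqZeroExt.fst_inl, TrivSqZeroExt.fst_inr, MulOpposite.op_add,
      smul_eq_mul, MulOpposite.smul_eq_mul_unop]
    simp
    ring

theorem isUnit_toDual (y : nonZeroDivisors ℚ[X]) : IsUnit (toDual (y : ℚ[X])) := by
  rw [TrivSqZeroExt.isUnit_iff_isUnit_fst, toDual_fst]
  exact IsLocalization.map_units (RatFunc ℚ) y

/-- the ring homomorphism `ℚ(t) → ℚ(t)[ε]`, `f ↦ f + f' ε`. -/
def ratToDual : RatFunc ℚ →+* TrivSqZeroExt (RatFunc ℚ) (RatFunc ℚ) :=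
  IsLocalization.lift (M := nonZeroDivisors ℚ[X]) (S := RatFunc ℚ) isUnit_toDual

theorem ratToDual_algebraMap (p : ℚ[X]) :
    ratToDual (algebraMap ℚ[X] (RatFunc ℚ) p) = toDual p :=
  IsLocalization.lift_eq _ _

theorem ratToDual_fst (f : RatFunc ℚ) : (ratToDual f).fst = f := by
  have h : ((TrivSqZeroExt.fstHom (RatFunc ℚ) (RatFunc ℚ) (RatFunc ℚ)).toRingHom.comp ratToDual)
      = RingHom.id _ := by
    apply IsLocalization.ringHom_ext (nonZeroDivisors ℚ[X])
    ext p
    · simp only [RingHom.comp_apply, ratToDual_algebraMap]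
      exact toDual_fst _
    · simp only [RingHom.comp_apply, ratToDual_algebraMap]
      exact toDual_fst _
  exact DFunLike.congr_fun h f

/-- `d/dt` as an additive map. -/
def ddtAdd : RatFunc ℚ →+ RatFunc ℚ where
  toFun f := (ratToDual f).snd
  map_zero' := by simp
  map_add' f g := by simp

/-- A differential ring structure from an additive map satisfying the Leibniz rule. -/
@[reducible]
def mkDifferential {R : Type*} [CommRing R] (D : R →+ R)
    (h : ∀ a b, D (a * b) = a * D b + b * D a) : Differential R :=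
  ⟨Derivation.mk' D.toIntLinearMap (by simpa using h)⟩

theorem mkDifferential_apply {R : Type*} [CommRing R] (D : R →+ R)
    (h : ∀ a b, D (a * b) = a * D b + b * D a) (a : R) :
    (mkDifferential D h).deriv a = D a := rfl

theorem ddtAdd_mul (f g : RatFunc ℚ) : ddtAdd (f * g) = f * ddtAdd g + g * ddtAdd f := by
  change (ratToDual (f * g)).snd = f * (ratToDual g).snd + g * (ratToDual f).snd
  simp only [map_mul, TrivSqZeroExt.snd_mul, ratToDual_fst, smul_eq_mul,
    MulOpposite.smul_eq_mul_unop, MulOpposite.unop_op]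
  ring

/-- The differential field `ℚ(t)` with derivation `d/dt`. -/
@[reducible]
def ratFuncDifferential : Differential (RatFunc ℚ) := mkDifferential ddtAdd ddtAdd_mul

theorem ddtAdd_algebraMap (p : ℚ[X]) :
    ddtAdd (algebraMap ℚ[X] (RatFunc ℚ) p) = algebraMap ℚ[X] (RatFunc ℚ) (derivative p) := by
  change (ratToDual _).snd = _
  rw [ratToDual_algebraMap, toDual_snd]

end

end Pool.Agent.LibHelper95
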