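import Mathlib
import Pool.Agent.Lib_helper95.EdgeIdealPower
import Pool.Agent.Lib_helper95.KoszulMonomial
import Pool.Agent.Lib_helper95.PowerUpper2
import Pool.Agent.Lib_helper95.CycLower

/-!
# Regularity of powers of the edge ideal of a graph on an ordered type
-/

open Finset

set_option linter.unusedSectionVars false

namespace Pool.Agent.LibHelper95.Reg

variable {V W : Type*} [Fintype V] [LinearOrder V] [Fintype W] [LinearOrder W] {k : Type*} [Field k]

/-- The image of a set. -/
def im (e : V ≃o W) (S : Finset V) : Finset W := S.map e.toEquiv.toEmbedding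

theorem mem_im {e : V ≃o W} {S : Finset V} {w : W} : w ∈ im e S ↔ e.symm w ∈ S := by
  unfold im
  rw [Finset.mem_map]
  constructor
  · rintro ⟨v, hv, rfl⟩
    show e.symm (e v) ∈ S
    rwa [e.symm_apply_apply]
  · intro h
    exact ⟨_, h, e.apply_symm_apply w⟩

theorem mem_im' {e : V ≃o W} {S : Finset V} {v : V} : e v ∈ im e S ↔ v ∈ S := by
  rw [mem_im, e.symm_apply_apply]

theorem card_im (e : V ≃o W) (S : Finset V) : (im e S).card = S.card := Finset.card_map _

theorem im_im (e : V ≃o W) (S : Finset W) : im e (im e.symm S) = S := by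
  ext w
  rw [mem_im, mem_im, OrderIso.symm_symm, e.apply_symm_apply]

theorem im_insert (e : V ≃o W) (v : V) (S : Finset V) : im e (insert v S) = insert (e v) (im e S) := by
  unfold im
  rw [Finset.map_insert]
  rfl

theorem sgn_im (e : V ≃o W) (v : V) (S : Finset V) : sgn k (e v) (im e S) = sgn k v S := by
  unfold sgn
  congr 1
  unfold im
  rw [Finset.filter_map, Finset.card_map]
  congr 1
  ext u
  rw [Finset.mem_filter, Finset.mem_filter]
  refine and_congr_right fun _ => ?_
  exact e.lt_iff_lt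

theorem bd_im (e : V ≃o W) (φ : Finset W → k) (S : Finset V) :
    bd (fun T => φ (im e T)) S = bd φ (im e S) := by
  unfold bd
  have h : (im e S)ᶜ = Sᶜ.map e.toEquiv.toEmbedding := by
    ext w
    rw [Finset.mem_compl, mem_im, Finset.mem_map]
    constructor
    · intro h
      exact ⟨e.symm w, Finset.mem_compl.2 h, e.apply_symm_apply w⟩
    · rintro ⟨v, hv, rfl⟩
      rw [Finset.mem_compl] at hv
      show e.symm (e v) ∉ S
      rwa [e.symm_apply_apply]
  rw [h, Finset.sum_map]
  refine Finset.sum_congr rfl fun v _ => ?_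
  show sgn k v S * φ (im e (insert v S)) = sgn k (e v) (im e S) * φ (insert (e v) (im e S))
  rw [im_insert, sgn_im]

theorem AV_im (e : V ≃o W) {D : Finset W → Prop} {D' : Finset V → Prop} (hD : ∀ S, D' S ↔ D (im e S)) {i : ℕ}
    (h : AV k D' i) : AV k D i := by
  intro φ hφ hb
  obtain ⟨ψ, h1, h2⟩ := h (fun T => φ (im e T)) (fun S hS => by
    obtain ⟨a, b⟩ := hφ _ hS
    exact ⟨(hD S).2 a, by rwa [card_im] at b⟩) (fun S => by rw [bd_im, hb])
  refine ⟨fun T => ψ (im e.symm T), fun S hS => ?_, fun S => ?_⟩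
  · obtain ⟨a, b⟩ := h1 _ hS
    have := (hD _).1 a
    rw [im_im] at this
    rw [card_im] at b
    exact ⟨this, b⟩
  · rw [bd_im e.symm ψ S, ← h2]
    show φ S = φ (im e (im e.symm S))
    rw [im_im]

theorem Pw_im {G : SimpleGraph W} {H : SimpleGraph V} (e : V ≃ W) (hGH : ∀ u v, H.Adj (e.symm u) (e.symm v) ↔ G.Adj u v)
    {q : ℕ} {f : W → ℕ} (hf : f ∈ Pw G q) : (fun v => f (e v)) ∈ Pw H q := by
  obtain ⟨M, h1, h2, h3⟩ := hf
  refine ⟨M.map (Sym2.map e.symm), ?_, by rw [Multiset.card_map, h2], fun v => ?_⟩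
  · intro x hx
    obtain ⟨y, hy, rfl⟩ := Multiset.mem_map.1 hx
    have h4 := h1 y hy
    induction y using Sym2.ind with
    | _ a b => exact (hGH a b).2 h4
  · refine le_trans (le_of_eq ?_) (h3 (e v))
    unfold dg
    rw [Multiset.countP_map, Multiset.countP_eq_card_filter]
    congr 1
    refine Multiset.filter_congr fun x _ => ?_
    induction x using Sym2.ind with
    | _ a b =>
      rw [Sym2.map_mk, Sym2.mem_iff, Sym2.mem_iff, Equiv.eq_symm_apply, Equiv.eq_symm_apply]

theorem KK_im {G : SimpleGraph W} {H : SimpleGraph V} (e : V ≃o W) (hGH : ∀ u v, H.Adj u v ↔ G.Adj (e u) (e v))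
    {q : ℕ} {a : W → ℕ} (S : Finset V) : KK (Pw H q) (fun v => a (e v)) S ↔ KK (Pw G q) a (im e S) := by
  constructor
  · rintro ⟨c, hc, hca⟩
    refine ⟨fun w => c (e.symm w), Pw_im e.symm.toEquiv (fun u v => (hGH u v).symm) hc, fun w => ?_⟩
    have h1 : (c (e.symm w) + if e.symm w ∈ S then 1 else 0) = a (e (e.symm w)) := hca (e.symm w)
    rw [e.apply_symm_apply] at h1
    rw [← h1]
    congr 1
    exact if_congr mem_im rfl rfl
  · rintro ⟨c, hc, hca⟩
    refine ⟨fun v => c (e v), Pw_im e.toEquiv (fun u v => ?_) hc, fun v => ?_⟩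
    · rw [hGH]
      show G.Adj (e (e.symm u)) (e (e.symm v)) ↔ _
      rw [e.apply_symm_apply, e.apply_symm_apply]
    · show (c (e v) + if v ∈ S then 1 else 0) = a (e v)
      rw [← hca (e v)]
      congr 1
      exact if_congr mem_im'.symm rfl rfl

/-- The regularity of a power of the edge ideal of a graph on an ordered type. -/
theorem hasReg_tr {n : ℕ} (σ : Fin n ≃o V) (G : SimpleGraph V) {q r : ℕ} (hup : RegLe k G r q)
    (hlow : ∃ (a : V → ℕ) (i : ℕ), ∑ v, a v = i + r ∧ ¬ AV k (KK (Pw G q) a) i) :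
    HasReg ((edgeIdeal k (G.comap σ)) ^ q) r := by
  constructor
  · obtain ⟨a, i, ha, h⟩ := hlow
    refine ⟨i, tor_of_not_AV (mem_edgeIdeal_pow q) (a := fun x => a (σ x)) ?_ fun hAV => h ?_⟩
    · rw [← ha]
      exact Equiv.sum_comp σ.toEquiv a
    · exact AV_im σ (fun S => KK_im σ (fun u v => Iff.rfl) S) hAV
  · rintro e ⟨i, he⟩
    by_contra hlt
    push Not at hlt
    refine not_tor_of_AV (mem_edgeIdeal_pow q) (fun a ha => ?_) he
    refine AV_im σ.symm (fun S => KK_im σ.symm (fun u v => ?_) S) (hup (fun v => a (σ.symm v)) i ?_)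
    · show G.Adj u v ↔ G.Adj (σ (σ.symm u)) (σ (σ.symm v))
      rw [σ.apply_symm_apply, σ.apply_symm_apply]
    · have h1 : ∑ v, a (σ.symm v) = ∑ x, a x := Equiv.sum_comp σ.symm.toEquiv a
      rw [h1, ha]
      omega

end Pool.Agent.LibHelper95.Reg
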