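import Pool.Agent.Lib_helper95.SCDCStrong

/-!
# Colouring the edges outside a circuit
-/

namespace Pool.Agent.SCDC

open Finset

/-- A bipartite multigraph (edges `d ∈ D` with ends `l d` and `r d`) which is regular of degree `k` has a
proper edge colouring with `k` colours. -/
theorem regular_colour {α ι : Type} [DecidableEq α] [DecidableEq ι] (O : Finset ι) (l r : α → ι) :
    ∀ (k : ℕ) (D : Finset α), (∀ d ∈ D, l d ∈ O) → (∀ d ∈ D, r d ∈ O) →
      (∀ v ∈ O, (D.filter fun d => l d = v).card = k) →
      (∀ v ∈ O, (D.filter fun d => r d = v).card = k) →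
      ∃ φ : α → ℕ, (∀ d ∈ D, φ d < k) ∧
        ∀ d ∈ D, ∀ d' ∈ D, d ≠ d' → (l d = l d' ∨ r d = r d') → φ d ≠ φ d' := by
  intro k
  induction k with
  | zero =>
    intro D hl hr h1 h2
    have h0 : ∀ d, d ∉ D := by
      intro d hd
      have h := h1 (l d) (hl d hd)
      rw [Finset.card_eq_zero, Finset.filter_eq_empty_iff] at h
      exact h hd rfl
    exact ⟨fun _ => 0, fun d hd => absurd hd (h0 d), fun d hd => absurd hd (h0 d)⟩
  | succ k ih =>
    intro D hl hr h1 h2
    have hall : ∀ s : Finset O,
        s.card ≤ (s.biUnion fun v => (D.filter fun d => l d = v.1).image r).card := by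
      intro s
      set N := s.biUnion fun v => (D.filter fun d => l d = v.1).image r with hN
      have hNO : ∀ w ∈ N, w ∈ O := by
        intro w hw
        rw [hN, Finset.mem_biUnion] at hw
        obtain ⟨v, -, hw⟩ := hw
        obtain ⟨d, hd, rfl⟩ := Finset.mem_image.1 hw
        exact hr d (Finset.mem_filter.1 hd).1
      let S : Finset ι := s.image Subtype.val
      have hS : S.card = s.card := Finset.card_image_of_injective _ Subtype.val_injective
      have e1 : (D.filter fun d => l d ∈ S).card = S.card * (k + 1) := by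
        have H : Set.MapsTo l (D.filter fun d => l d ∈ S : Finset α) (S : Set ι) :=
          fun d hd => (Finset.mem_filter.1 (Finset.mem_coe.1 hd)).2
        rw [Finset.card_eq_sum_card_fiberwise H]
        rw [Finset.sum_const_nat (m := k + 1)]
        intro v hv
        have hvO : v ∈ O := by
          obtain ⟨x, -, rfl⟩ := Finset.mem_image.1 hv
          exact x.2
        rw [← h1 v hvO]
        congr 1
        ext d
        simp only [Finset.mem_filter]
        constructor
        · rintro ⟨⟨a, _⟩, b⟩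
          exact ⟨a, b⟩
        · rintro ⟨a, b⟩
          exact ⟨⟨a, by rw [b]; exact hv⟩, b⟩
      have e2 : (D.filter fun d => r d ∈ N).card = N.card * (k + 1) := by
        have H : Set.MapsTo r (D.filter fun d => r d ∈ N : Finset α) (N : Set ι) :=
          fun d hd => (Finset.mem_filter.1 (Finset.mem_coe.1 hd)).2
        rw [Finset.card_eq_sum_card_fiberwise H]
        rw [Finset.sum_const_nat (m := k + 1)]
        intro v hv
        rw [← h2 v (hNO v hv)]
        congr 1
        ext d
        simp only [Finset.mem_filter]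
        constructor
        · rintro ⟨⟨a, _⟩, b⟩
          exact ⟨a, b⟩
        · rintro ⟨a, b⟩
          exact ⟨⟨a, by rw [b]; exact hv⟩, b⟩
      have e3 : (D.filter fun d => l d ∈ S) ⊆ D.filter fun d => r d ∈ N := by
        intro d hd
        rw [Finset.mem_filter] at hd ⊢
        refine ⟨hd.1, ?_⟩
        obtain ⟨x, hx, hx'⟩ := Finset.mem_image.1 hd.2
        rw [hN, Finset.mem_biUnion]
        exact ⟨x, hx, Finset.mem_image.2 ⟨d, Finset.mem_filter.2 ⟨hd.1, hx'.symm⟩, rfl⟩⟩
      have e4 := Finset.card_le_card e3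
      rw [e1, e2, hS] at e4
      exact Nat.le_of_mul_le_mul_right e4 (Nat.succ_pos k)
    obtain ⟨f, hf, hft⟩ := (Finset.all_card_le_biUnion_card_iff_exists_injective _).1 hall
    have hm : ∀ v : O, ∃ d ∈ D, l d = v.1 ∧ r d = f v := by
      intro v
      obtain ⟨d, hd, h⟩ := Finset.mem_image.1 (hft v)
      rw [Finset.mem_filter] at hd
      exact ⟨d, hd.1, hd.2, h⟩
    choose m hmD hml hmr using hm
    have hg : ∀ w ∈ O, ∃ v : O, f v = w := by
      let g : O → O := fun v => ⟨f v, by rw [← hmr v]; exact hr _ (hmD v)⟩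
      have hgi : Function.Injective g := fun v w h => hf (congrArg Subtype.val h)
      have hgs := Finite.surjective_of_injective hgi
      intro w hw
      obtain ⟨v, hv⟩ := hgs ⟨w, hw⟩
      exact ⟨v, congrArg Subtype.val hv⟩
    let M : Finset α := Finset.univ.image m
    have hM : ∀ d, d ∈ M ↔ ∃ v, m v = d := by
      intro d
      simp [M]
    have k1 : ∀ v ∈ O, ((D \ M).filter fun d => l d = v).card = k := by
      intro v hv
      have h3 : ((D \ M).filter fun d => l d = v) = (D.filter fun d => l d = v).erase (m ⟨v, hv⟩) := by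
        ext d
        simp only [Finset.mem_filter, Finset.mem_sdiff, Finset.mem_erase]
        constructor
        · rintro ⟨⟨a, b⟩, c⟩
          exact ⟨fun h => b ((hM d).2 ⟨_, h.symm⟩), a, c⟩
        · rintro ⟨a, b, c⟩
          refine ⟨⟨b, fun h => ?_⟩, c⟩
          obtain ⟨w, rfl⟩ := (hM d).1 h
          rw [hml w] at c
          exact a (congrArg m (Subtype.ext c))
      rw [h3, Finset.card_erase_of_mem (Finset.mem_filter.2 ⟨hmD _, hml _⟩), h1 v hv]
      rfl
    have k2 : ∀ v ∈ O, ((D \ M).filter fun d => r d = v).card = k := by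
      intro w hw
      obtain ⟨v, hv⟩ := hg w hw
      have h3 : ((D \ M).filter fun d => r d = w) = (D.filter fun d => r d = w).erase (m v) := by
        ext d
        simp only [Finset.mem_filter, Finset.mem_sdiff, Finset.mem_erase]
        constructor
        · rintro ⟨⟨a, b⟩, c⟩
          exact ⟨fun h => b ((hM d).2 ⟨_, h.symm⟩), a, c⟩
        · rintro ⟨a, b, c⟩
          refine ⟨⟨b, fun h => ?_⟩, c⟩
          obtain ⟨w', rfl⟩ := (hM d).1 h
          rw [hmr w', ← hv] at c
          exact a (congrArg m (hf c))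
      rw [h3, Finset.card_erase_of_mem (Finset.mem_filter.2 ⟨hmD _, (hmr _).trans hv⟩), h2 w hw]
      rfl
    obtain ⟨φ, hφ1, hφ2⟩ := ih (D \ M) (fun d hd => hl d (Finset.mem_sdiff.1 hd).1)
      (fun d hd => hr d (Finset.mem_sdiff.1 hd).1) k1 k2
    refine ⟨fun d => if d ∈ M then k else φ d, fun d hd => ?_, fun d hd d' hd' hne h => ?_⟩
    · show (if d ∈ M then k else φ d) < k + 1
      split_ifs with hdM
      · exact Nat.lt_succ_self k
      · exact (hφ1 d (Finset.mem_sdiff.2 ⟨hd, hdM⟩)).trans (Nat.lt_succ_self k)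
    · show (if d ∈ M then k else φ d) ≠ (if d' ∈ M then k else φ d')
      split_ifs with a b b
      · exfalso
        obtain ⟨v, rfl⟩ := (hM d).1 a
        obtain ⟨w, rfl⟩ := (hM d').1 b
        rcases h with h | h
        · rw [hml, hml] at h
          exact hne (congrArg m (Subtype.ext h))
        · rw [hmr, hmr] at h
          exact hne (congrArg m (hf h))
      · exact (hφ1 d' (Finset.mem_sdiff.2 ⟨hd', b⟩)).ne'
      · exact (hφ1 d (Finset.mem_sdiff.2 ⟨hd, a⟩)).ne
      · exact hφ2 d (Finset.mem_sdiff.2 ⟨hd, a⟩) d' (Finset.mem_sdiff.2 ⟨hd', b⟩) hne h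

namespace MGraph

variable {V E : Type} [DecidableEq V] [DecidableEq E] [Fintype V] [Fintype E] {G : MGraph V E}
  {C : Finset E}

/-- `e` has both ends outside `C` -/
def Inner (G : MGraph V E) (C : Finset E) (e : E) : Prop := ∀ u ∈ G.ends e, G.deg C u = 0

/-- `φ` is a proper edge colouring of `G - V(C)` -/
def Proper (G : MGraph V E) (C : Finset E) (φ : E → Fin 3) : Prop :=
  ∀ e f u, G.Inner C e → G.Inner C f → e ≠ f → u ∈ G.ends e → u ∈ G.ends f → φ e ≠ φ f

omit [Fintype V] [Fintype E] [DecidableEq E] in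
lemma inner_of {e : E} {u w : V} (h : G.ends e = s(u, w)) (hu : G.deg C u = 0) (hw : G.deg C w = 0) :
    G.Inner C e := by
  intro x hx
  rw [h, Sym2.mem_iff] at hx
  rcases hx with rfl | rfl
  · exact hu
  · exact hw

/-- A proper 3-edge-colouring of `G - V(C)` extends to `G - E(C)`. -/
lemma exists_extend (hcub : G.Cubic) (hG : G.Loopless) (hC : G.IsCircuit C) {φ : E → Fin 3}
    (hφ : G.Proper C φ) :
    ∃ ψ : E → Fin 3, ∀ f f' u, f ∉ C → f' ∉ C → f ≠ f' → u ∈ G.ends f →
      u ∈ G.ends f' → ψ f ≠ ψ f' := by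
  classical
  let δ : V → Finset E := fun u => Finset.univ.filter fun f => u ∈ G.ends f
  have hδ : ∀ u, (δ u).card = 3 := fun u => card_at hcub hG u
  have hι : ∀ u : V, G.deg C u = 0 → ∃ ι : E → Fin 3,
      (∀ f ∈ δ u, G.Inner C f → ι f = φ f) ∧ ∀ f ∈ δ u, ∀ f' ∈ δ u, ι f = ι f' → f = f' := by
    intro u hu
    obtain ⟨ι, hι⟩ := Finset.exists_equiv_extend_of_card_eq (α := δ u) (β := Fin 3)
      (t := Finset.univ) (by rw [Fintype.card_coe, hδ u, Finset.card_univ, Fintype.card_fin])
      (s := Finset.univ.filter fun f : δ u => G.Inner C (f : E)) (f := fun f => φ f)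
      (Finset.subset_univ _) (by
        intro f hf f' hf' h
        have h1 : G.Inner C (f : E) := by simpa using hf
        have h2 : G.Inner C (f' : E) := by simpa using hf'
        by_contra hne
        have h3 : (f : E) ≠ (f' : E) := fun h => hne (Subtype.ext h)
        have h4 : u ∈ G.ends (f : E) := (Finset.mem_filter.1 f.2).2
        have h5 : u ∈ G.ends (f' : E) := (Finset.mem_filter.1 f'.2).2
        exact hφ _ _ u h1 h2 h3 h4 h5 h)
    refine ⟨fun f => if hf : f ∈ δ u then (ι ⟨f, hf⟩ : Fin 3) else 0, ?_, ?_⟩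
    · intro f hf hin
      simp only [dif_pos hf]
      exact hι ⟨f, hf⟩ (by simpa using hin)
    · intro f hf f' hf' h
      simp only [dif_pos hf, dif_pos hf'] at h
      have := ι.injective (Subtype.ext h)
      exact congrArg Subtype.val this
  choose! ι hι1 hι2 using hι
  let ψ : E → Fin 3 := fun f => if h : ∃ v, v ∈ G.ends f ∧ G.deg C v = 0 then ι h.choose f else 0
  have hψ : ∀ f u, u ∈ G.ends f → G.deg C u = 0 → ψ f = ι u f := by
    intro f u hu hu0
    have h : ∃ v, v ∈ G.ends f ∧ G.deg C v = 0 := ⟨u, hu, hu0⟩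
    have h1 : ψ f = ι h.choose f := by
      simp only [ψ, dif_pos h]
    obtain ⟨h2, h3⟩ := h.choose_spec
    generalize h.choose = v at h1 h2 h3
    rw [h1]
    by_cases huv : v = u
    · rw [huv]
    · have h4 : G.ends f = s(v, u) := (Sym2.mem_and_mem_iff huv).1 ⟨h2, hu⟩
      have hin : G.Inner C f := inner_of h4 h3 hu0
      rw [hι1 v h3 f (by simpa [δ] using h2) hin, hι1 u hu0 f (by simpa [δ] using hu) hin]
  refine ⟨ψ, fun f f' u hf hf' hne hu hu' h => ?_⟩
  by_cases hu0 : G.deg C u = 0
  · rw [hψ f u hu hu0, hψ f' u hu' hu0] at h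
    exact hne (hι2 u hu0 f (by simpa [δ] using hu) f' (by simpa [δ] using hu') h)
  · obtain ⟨g, _, _, h3⟩ := exists_third hcub hG hC hu0
    exact hne ((h3 f hf hu).trans (h3 f' hf' hu').symm)

/-- `G - V(C)` is 3-edge-colourable if it is bipartite. -/
lemma proper_of_bipartite (hcub : G.Cubic) (hG : G.Loopless) {side : V → Bool}
    (hs : ∀ e u v, G.ends e = s(u, v) → G.deg C u = 0 → G.deg C v = 0 → side u ≠ side v) :
    ∃ φ : E → Fin 3, G.Proper C φ := by
  classical
  let O : Finset V := Finset.univ.filter fun u => G.deg C u = 0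
  let D : Finset (V × E) := Finset.univ.filter fun d => G.deg C d.1 = 0 ∧ d.1 ∈ G.ends d.2
  let r : V × E → V := fun d =>
    if h : ∃ w, w ≠ d.1 ∧ G.ends d.2 = s(d.1, w) ∧ G.deg C w = 0 then h.choose else d.1
  have hO : ∀ u, u ∈ O ↔ G.deg C u = 0 := fun u => by simp [O]
  have hD : ∀ d, d ∈ D ↔ G.deg C d.1 = 0 ∧ d.1 ∈ G.ends d.2 := fun d => by simp [D]
  have hr1 : ∀ u w e, G.ends e = s(u, w) → G.deg C w = 0 → r (u, e) = w := by
    intro u w e he hw
    have hne : w ≠ u := by
      rintro rfl
      exact hG e (by rw [he]; exact Sym2.mk_isDiag_iff.2 rfl)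
    have h : ∃ w, w ≠ (u, e).1 ∧ G.ends (u, e).2 = s((u, e).1, w) ∧ G.deg C w = 0 := ⟨w, hne, he, hw⟩
    have h1 : r (u, e) = h.choose := by
      simp only [r, dif_pos h]
    obtain ⟨_, h2, _⟩ := h.choose_spec
    rw [h1]
    generalize h.choose = w' at h2
    have h3 : s(u, w) = s(u, w') := by rw [← he]; exact h2
    exact (Sym2.congr_right.1 h3).symm
  have hr2 : ∀ u w e, G.ends e = s(u, w) → G.deg C w ≠ 0 → r (u, e) = u := by
    intro u w e he hw
    have h : ¬ ∃ w, w ≠ (u, e).1 ∧ G.ends (u, e).2 = s((u, e).1, w) ∧ G.deg C w = 0 := by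
      rintro ⟨w', _, h2, h3⟩
      have h4 : s(u, w) = s(u, w') := by rw [← he]; exact h2
      rw [Sym2.congr_right.1 h4] at hw
      exact hw h3
    simp only [r, dif_neg h]
  obtain ⟨φ, hφ1, hφ2⟩ := regular_colour O (fun d : V × E => d.1) r 3 D
    (fun d hd => (hO _).2 ((hD d).1 hd).1)
    (fun d hd => by
      obtain ⟨u, e⟩ := d
      obtain ⟨h0, w, hw⟩ := (hD _).1 hd
      rw [hO]
      by_cases hw0 : G.deg C w = 0
      · rw [hr1 u w e hw hw0]
        exact hw0
      · rw [hr2 u w e hw hw0]
        exact h0)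
    (fun v hv => by
      rw [← card_at hcub hG v]
      refine Finset.card_bij' (fun d _ => d.2) (fun e _ => (v, e)) ?_ ?_ ?_ ?_
      · rintro ⟨u, e⟩ hd
        rw [Finset.mem_filter] at hd
        obtain ⟨hd, rfl⟩ := hd
        exact Finset.mem_filter.2 ⟨Finset.mem_univ _, ((hD _).1 hd).2⟩
      · intro e he
        exact Finset.mem_filter.2 ⟨(hD _).2 ⟨(hO v).1 hv, (Finset.mem_filter.1 he).2⟩, rfl⟩
      · rintro ⟨u, e⟩ hd
        rw [Finset.mem_filter] at hd
        obtain ⟨hd, rfl⟩ := hd
        rfl
      · intro e he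
        rfl)
    (fun v hv => by
      have hv0 := (hO v).1 hv
      rw [← card_at hcub hG v]
      refine Finset.card_bij (fun d _ => d.2) ?_ ?_ ?_
      · rintro ⟨u, e⟩ hd
        rw [Finset.mem_filter] at hd
        obtain ⟨hd, hrv⟩ := hd
        obtain ⟨h0, w, hw⟩ := (hD _).1 hd
        refine Finset.mem_filter.2 ⟨Finset.mem_univ _, ?_⟩
        show v ∈ G.ends e
        have hw' : G.ends e = s(u, w) := hw
        by_cases hw0 : G.deg C w = 0
        · rw [hr1 u w e hw hw0] at hrv
          rw [hw', hrv]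
          exact Sym2.mem_mk_right _ _
        · rw [hr2 u w e hw hw0] at hrv
          rw [hw', hrv]
          exact Sym2.mem_mk_left _ _
      · rintro ⟨u, e⟩ hd ⟨u', e'⟩ hd' h
        have he : e = e' := h
        subst he
        rw [Finset.mem_filter] at hd hd'
        obtain ⟨hd, hrv⟩ := hd
        obtain ⟨hd', hrv'⟩ := hd'
        obtain ⟨h0, w, hw⟩ := (hD _).1 hd
        obtain ⟨h0', w', hw'⟩ := (hD _).1 hd'
        have hw : G.ends e = s(u, w) := hw
        have hw' : G.ends e = s(u', w') := hw'
        have h0 : G.deg C u = 0 := h0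
        have h0' : G.deg C u' = 0 := h0'
        have h5 : s(u, w) = s(u', w') := by rw [← hw, hw']
        rcases Sym2.eq_iff.1 h5 with ⟨h6, h7⟩ | ⟨h6, h7⟩
        · rw [h6]
        · subst h6 h7
          exfalso
          have e1 := hr1 u w e hw h0'
          have e2 := hr1 w u e hw' h0
          have hrv : r (u, e) = v := hrv
          have hrv' : r (w, e) = v := hrv'
          have e3 : u = w := by rw [← e2, hrv', ← hrv, e1]
          exact hG e (by rw [hw, e3]; exact Sym2.mk_isDiag_iff.2 rfl)
      · intro e he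
        obtain ⟨w, hw⟩ := (Finset.mem_filter.1 he).2
        have hw : G.ends e = s(v, w) := hw
        by_cases hw0 : G.deg C w = 0
        · refine ⟨(w, e), Finset.mem_filter.2 ⟨(hD _).2 ⟨hw0, ?_⟩, ?_⟩, rfl⟩
          · show w ∈ G.ends e
            rw [hw]
            exact Sym2.mem_mk_right _ _
          · exact hr1 w v e (by rw [hw]; exact Sym2.eq_swap) hv0
        · refine ⟨(v, e), Finset.mem_filter.2 ⟨(hD _).2 ⟨hv0, ?_⟩, ?_⟩, rfl⟩
          · show v ∈ G.ends e
            rw [hw]
            exact Sym2.mem_mk_left _ _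
          · exact hr2 v w e hw hw0)
  let ψ : E → Fin 3 := fun e =>
    if h : ∃ x, x ∈ G.ends e ∧ side x = true then
      (if h' : φ (h.choose, e) < 3 then ⟨φ (h.choose, e), h'⟩ else 0) else 0
  have hψ : ∀ e u w, G.ends e = s(u, w) → G.deg C u = 0 → G.deg C w = 0 → side u = true →
      (ψ e : ℕ) = φ (u, e) ∧ side w = false := by
    intro e u w he hu hw hsu
    have hsw : side w = false := by
      have := hs e u w he hu hw
      rw [hsu] at this
      exact Bool.eq_false_iff.2 (Ne.symm this)
    have h : ∃ x, x ∈ G.ends e ∧ side x = true := ⟨u, by rw [he]; exact Sym2.mem_mk_left _ _, hsu⟩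
    refine ⟨?_, hsw⟩
    have h1 : h.choose = u := by
      obtain ⟨h2, h3⟩ := h.choose_spec
      generalize h.choose = x at h2 h3
      rw [he, Sym2.mem_iff] at h2
      rcases h2 with rfl | rfl
      · rfl
      · rw [hsw] at h3
        exact absurd h3 (by simp)
    have h2 : φ (h.choose, e) < 3 := by
      rw [h1]
      exact hφ1 _ ((hD _).2 ⟨hu, by show u ∈ G.ends e; rw [he]; exact Sym2.mem_mk_left _ _⟩)
    simp only [ψ, dif_pos h, dif_pos h2]
    rw [h1]
  refine ⟨ψ, fun e f u he hf hne hue huf heq => ?_⟩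
  have hu0 := he u hue
  obtain ⟨w, hw⟩ := hue
  obtain ⟨w', hw'⟩ := huf
  have hw0 : G.deg C w = 0 := he w (by rw [hw]; exact Sym2.mem_mk_right _ _)
  have hw0' : G.deg C w' = 0 := hf w' (by rw [hw']; exact Sym2.mem_mk_right _ _)
  by_cases hsu : side u = true
  · obtain ⟨a, _⟩ := hψ e u w hw hu0 hw0 hsu
    obtain ⟨b, _⟩ := hψ f u w' hw' hu0 hw0' hsu
    refine hφ2 (u, e) ((hD _).2 ⟨hu0, by show u ∈ G.ends e; rw [hw]; exact Sym2.mem_mk_left _ _⟩)
      (u, f) ((hD _).2 ⟨hu0, by show u ∈ G.ends f; rw [hw']; exact Sym2.mem_mk_left _ _⟩)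
      (fun h => hne (congrArg Prod.snd h)) (Or.inl rfl) ?_
    rw [← a, ← b, heq]
  · have hsw : side w = true := by
      have := hs e u w hw hu0 hw0
      revert hsu this
      cases side u <;> cases side w <;> simp
    have hsw' : side w' = true := by
      have := hs f u w' hw' hu0 hw0'
      revert hsu this
      cases side u <;> cases side w' <;> simp
    have hwe : G.ends e = s(w, u) := by rw [hw]; exact Sym2.eq_swap
    have hwf : G.ends f = s(w', u) := by rw [hw']; exact Sym2.eq_swap
    obtain ⟨a, _⟩ := hψ e w u hwe hw0 hu0 hsw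
    obtain ⟨b, _⟩ := hψ f w' u hwf hw0' hu0 hsw'
    refine hφ2 (w, e) ((hD _).2 ⟨hw0, by show w ∈ G.ends e; rw [hwe]; exact Sym2.mem_mk_left _ _⟩)
      (w', f) ((hD _).2 ⟨hw0', by show w' ∈ G.ends f; rw [hwf]; exact Sym2.mem_mk_left _ _⟩)
      (fun h => hne (congrArg Prod.snd h))
      (Or.inr (by rw [hr1 w u e hwe hu0, hr1 w' u f hwf hu0])) ?_
    rw [← a, ← b, heq]

/-- `G - V(C)` is 3-edge-colourable if every vertex outside `C` has a neighbour on `C`. -/
lemma proper_of_dominating (hcub : G.Cubic) (hG : G.Loopless)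
    (hd : ∀ u, G.deg C u = 0 → ∃ e, u ∈ G.ends e ∧ ∃ v ∈ G.ends e, G.deg C v ≠ 0) :
    ∃ φ : E → Fin 3, G.Proper C φ := by
  classical
  -- at most two inner edges at a vertex
  have h2 : ∀ u, G.deg C u = 0 →
      (Finset.univ.filter fun f => u ∈ G.ends f ∧ G.Inner C f).card ≤ 2 := by
    intro u hu
    obtain ⟨e, he, v, hv, hv0⟩ := hd u hu
    have hsub : (Finset.univ.filter fun f => u ∈ G.ends f ∧ G.Inner C f) ⊆
        (Finset.univ.filter fun f => u ∈ G.ends f).erase e := by
      intro f hf
      rw [Finset.mem_filter] at hf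
      refine Finset.mem_erase.2 ⟨?_, Finset.mem_filter.2 ⟨Finset.mem_univ _, hf.2.1⟩⟩
      rintro rfl
      exact hv0 (hf.2.2 v hv)
    have h := Finset.card_le_card hsub
    have hmem : e ∈ Finset.univ.filter fun f => u ∈ G.ends f :=
      Finset.mem_filter.2 ⟨Finset.mem_univ _, he⟩
    rw [Finset.card_erase_of_mem hmem, card_at hcub hG] at h
    exact h
  have key : ∀ S : Finset E, ∃ φ : E → Fin 3, ∀ e ∈ S, ∀ f ∈ S, ∀ u, G.Inner C e → G.Inner C f →
      e ≠ f → u ∈ G.ends e → u ∈ G.ends f → φ e ≠ φ f := by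
    intro S
    induction S using Finset.induction_on with
    | empty => exact ⟨fun _ => 0, fun e he => absurd he (Finset.notMem_empty e)⟩
    | @insert g S hgS ih =>
      obtain ⟨φ, hφ⟩ := ih
      by_cases hg : G.Inner C g
      · obtain ⟨x, hx⟩ := exists_end (G := G) g
        obtain ⟨y, hyx, hxy⟩ := exists_other hG hx
        let X : V → Finset E := fun u => (Finset.univ.filter fun f => u ∈ G.ends f ∧ G.Inner C f).erase g
        have hy : y ∈ G.ends g := by rw [hxy]; exact Sym2.mem_mk_right _ _
        have hX : ∀ u, u ∈ G.ends g → (X u).card ≤ 1 := by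
          intro u hu
          have h := h2 u (hg u hu)
          have hmem : g ∈ Finset.univ.filter fun f => u ∈ G.ends f ∧ G.Inner C f :=
            Finset.mem_filter.2 ⟨Finset.mem_univ _, hu, hg⟩
          show ((Finset.univ.filter fun f => u ∈ G.ends f ∧ G.Inner C f).erase g).card ≤ 1
          rw [Finset.card_erase_of_mem hmem]
          omega
        have hcard : ((X x ∪ X y).image φ).card < (Finset.univ : Finset (Fin 3)).card := by
          have a1 := Finset.card_image_le (s := X x ∪ X y) (f := φ)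
          have a2 := Finset.card_union_le (X x) (X y)
          have a3 := hX x hx
          have a4 := hX y hy
          rw [Finset.card_univ, Fintype.card_fin]
          omega
        obtain ⟨c, _, hc⟩ := Finset.exists_mem_notMem_of_card_lt_card hcard
        have hcg : ∀ f u, f ∈ S → G.Inner C f → u ∈ G.ends g → u ∈ G.ends f → φ f ≠ c := by
          intro f u hf hfi hug huf h
          apply hc
          have hfg : f ≠ g := by
            rintro rfl
            exact hgS hf
          have hfX : f ∈ X u := Finset.mem_erase.2 ⟨hfg, Finset.mem_filter.2 ⟨Finset.mem_univ _, huf, hfi⟩⟩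
          rw [hxy, Sym2.mem_iff] at hug
          refine Finset.mem_image.2 ⟨f, ?_, h⟩
          rcases hug with rfl | rfl
          · exact Finset.mem_union_left _ hfX
          · exact Finset.mem_union_right _ hfX
        refine ⟨Function.update φ g c, fun e he f hf u hei hfi hne hue huf => ?_⟩
        rw [Finset.mem_insert] at he hf
        by_cases heg : e = g
        · subst heg
          have hfS : f ∈ S := hf.resolve_left (Ne.symm hne)
          rw [Function.update_self, Function.update_of_ne (Ne.symm hne)]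
          exact (hcg f u hfS hfi hue huf).symm
        · by_cases hfg : f = g
          · subst hfg
            have heS : e ∈ S := he.resolve_left hne
            rw [Function.update_self, Function.update_of_ne hne]
            exact hcg e u heS hei huf hue
          · rw [Function.update_of_ne heg, Function.update_of_ne hfg]
            exact hφ e (he.resolve_left heg) f (hf.resolve_left hfg) u hei hfi hne hue huf
      · refine ⟨φ, fun e he f hf u hei hfi hne hue huf => ?_⟩
        rw [Finset.mem_insert] at he hf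
        rcases he with rfl | he
        · exact absurd hei hg
        · rcases hf with rfl | hf
          · exact absurd hfi hg
          · exact hφ e he f hf u hei hfi hne hue huf
  obtain ⟨φ, hφ⟩ := key Finset.univ
  exact ⟨φ, fun e f u => hφ e (Finset.mem_univ _) f (Finset.mem_univ _) u⟩

/-- the class of a pair of indices: `{0, 1}` and `{2, 3}`, `{0, 2}` and `{1, 3}`, `{0, 3}` and `{1, 2}` -/
def cls (a : Fin 4 → Bool) : Fin 3 :=
  if a 0 = a 1 then 0 else if a 0 = a 2 then 1 else 2

lemma cls_ne : ∀ a b c : Fin 4 → Bool, (∑ i, (if a i then 1 else 0) = 2) →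
    (∑ i, (if b i then 1 else 0) = 2) → (∑ i, (if c i then 1 else 0) = 2) →
    (∀ i, (if a i then 1 else 0) + (if b i then 1 else 0) + (if c i then 1 else 0) = 0 ∨
      (if a i then 1 else 0) + (if b i then 1 else 0) + (if c i then 1 else 0) = 2) →
    cls a ≠ cls b := by
  decide

/-- If the circuit `C` is a member of a 5-cycle double cover then `G - V(C)` is 3-edge-colourable. -/
lemma proper_of_cover (hcub : G.Cubic) (hG : G.Loopless)
    {A : Fin 4 → Finset E} (hA : ∀ i u, G.deg (A i) u = 0 ∨ G.deg (A i) u = 2)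
    (hA' : ∀ f, (if f ∈ C then 1 else 0) + ∑ i, (if f ∈ A i then 1 else 0) = 2) :
    ∃ φ : E → Fin 3, G.Proper C φ := by
  classical
  refine ⟨fun f => cls fun i => decide (f ∈ A i), fun e f u he hf hne hue huf => ?_⟩
  have hu0 := he u hue
  -- the third edge at `u`
  have h3 := card_at hcub hG u
  have hef : ({e, f} : Finset E) ⊆ Finset.univ.filter fun f => u ∈ G.ends f := by
    intro x hx
    rw [Finset.mem_insert, Finset.mem_singleton] at hx
    rcases hx with rfl | rfl
    · exact Finset.mem_filter.2 ⟨Finset.mem_univ _, hue⟩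
    · exact Finset.mem_filter.2 ⟨Finset.mem_univ _, huf⟩
  have h4 := Finset.card_sdiff_add_card_eq_card hef
  rw [Finset.card_pair hne] at h4
  have h5 : ((Finset.univ.filter fun f => u ∈ G.ends f) \ ({e, f} : Finset E)).card = 1 := by omega
  obtain ⟨g, hg⟩ := Finset.card_eq_one.1 h5
  have hgm : g ∈ (Finset.univ.filter fun f => u ∈ G.ends f) \ ({e, f} : Finset E) := by
    rw [hg]; exact Finset.mem_singleton_self _
  rw [Finset.mem_sdiff, Finset.mem_insert, Finset.mem_singleton, Finset.mem_filter] at hgm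
  have hge : e ≠ g := fun h => hgm.2 (Or.inl h.symm)
  have hgf : f ≠ g := fun h => hgm.2 (Or.inr h.symm)
  have hnC : ∀ x, u ∈ G.ends x → x ∉ C := fun x hx hxC => deg_eq_zero_iff.1 hu0 x hxC hx
  have hsum : ∀ x, u ∈ G.ends x → ∑ i, (if decide (x ∈ A i) = true then 1 else 0) = 2 := by
    intro x hx
    have h := hA' x
    rw [if_neg (hnC x hx), zero_add] at h
    rw [← h]
    exact Finset.sum_congr rfl fun i _ => by simp
  have hset : (Finset.univ.filter fun f => u ∈ G.ends f) = {e, f, g} := by
    have h6 : ({e, f, g} : Finset E) ⊆ Finset.univ.filter fun f => u ∈ G.ends f := by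
      intro x hx
      rw [Finset.mem_insert, Finset.mem_insert, Finset.mem_singleton] at hx
      rcases hx with rfl | rfl | rfl
      · exact Finset.mem_filter.2 ⟨Finset.mem_univ _, hue⟩
      · exact Finset.mem_filter.2 ⟨Finset.mem_univ _, huf⟩
      · exact Finset.mem_filter.2 ⟨Finset.mem_univ _, hgm.1.2⟩
    symm
    apply Finset.eq_of_subset_of_card_le h6
    rw [h3, Finset.card_eq_three.2 ⟨e, f, g, hne, hge, hgf, rfl⟩]
  refine cls_ne _ _ (fun i => decide (g ∈ A i)) (hsum e hue) (hsum f huf) (hsum g hgm.1.2) fun i => ?_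
  have h7 := hA i u
  have h8 : G.deg (A i) u = (if decide (e ∈ A i) = true then 1 else 0) +
      (if decide (f ∈ A i) = true then 1 else 0) + (if decide (g ∈ A i) = true then 1 else 0) := by
    rw [deg_eq_card hG]
    have h9 : ((A i).filter fun x => u ∈ G.ends x) = ({e, f, g} : Finset E).filter fun x => x ∈ A i := by
      rw [← hset]
      ext x
      simp only [Finset.mem_filter, Finset.mem_univ, true_and]
      tauto
    rw [h9, Finset.card_filter, Finset.sum_insert, Finset.sum_insert, Finset.sum_singleton]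
    · simp only [decide_eq_true_eq]
      ring
    · simpa using hgf
    · simpa using ⟨hne, hge⟩
  rw [h8] at h7
  exact h7

/-- A circuit `C` of a loopless cubic graph is a member of a 5-cycle double cover if and only if `G - V(C)` is
3-edge-colourable. -/
theorem five_cover_iff (hcub : G.Cubic) (hG : G.Loopless) (hC : G.IsCircuit C) :
    (∃ A : Fin 4 → Finset E, (∀ i u, G.deg (A i) u = 0 ∨ G.deg (A i) u = 2) ∧
      ∀ f, (if f ∈ C then 1 else 0) + ∑ i, (if f ∈ A i then 1 else 0) = 2) ↔
    ∃ φ : E → Fin 3, G.Proper C φ := by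
  constructor
  · rintro ⟨A, hA, hA'⟩
    exact proper_of_cover hcub hG hA hA'
  · rintro ⟨φ, hφ⟩
    exact exists_five_cover hcub hG hC (exists_extend hcub hG hC hφ)

end MGraph

end Pool.Agent.SCDC
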