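import Pool.Agent.Lib_helper95.SCDCDefs

/-!
# Decomposition of 2-regular edge sets into circuits
-/

set_option linter.unusedSectionVars false

namespace Pool.Agent.SCDC.MGraph

variable {V E : Type} [DecidableEq V] [DecidableEq E] {G : MGraph V E}

lemma Adj.symm {D : Finset E} {u v : V} (h : G.Adj D u v) : G.Adj D v u := by
  obtain ⟨e, he, h⟩ := h
  exact ⟨e, he, by rw [h, Sym2.eq_swap]⟩

lemma Reach.symm {D : Finset E} {u v : V} (h : G.Reach D u v) : G.Reach D v u := by
  induction h with
  | refl => exact Relation.ReflTransGen.refl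
  | tail _ hbc ih => exact Relation.ReflTransGen.head hbc.symm ih

lemma Reach.trans {D : Finset E} {u v w : V} (h : G.Reach D u v) (h' : G.Reach D v w) :
    G.Reach D u w := Relation.ReflTransGen.trans h h'

lemma reach_ends {D : Finset E} {f : E} (hf : f ∈ D) {u w : V} (hu : u ∈ G.ends f)
    (hw : w ∈ G.ends f) : G.Reach D u w := by
  by_cases h : u = w
  · subst h
    exact Relation.ReflTransGen.refl
  · exact Relation.ReflTransGen.single ⟨f, hf, (Sym2.mem_and_mem_iff h).1 ⟨hu, hw⟩⟩

lemma deg_eq_zero_iff {D : Finset E} {v : V} : G.deg D v = 0 ↔ ∀ e ∈ D, v ∉ G.ends e := by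
  unfold deg
  rw [Nat.add_eq_zero_iff, Finset.card_eq_zero, Finset.card_eq_zero, Finset.filter_eq_empty_iff,
    Finset.filter_eq_empty_iff]
  constructor
  · rintro ⟨h, _⟩ e he
    exact h he
  · intro h
    refine ⟨fun e he => h e he, fun e he h' => h e he ?_⟩
    rw [h']
    exact Sym2.mem_mk_left _ _

lemma deg_ne_zero_iff {D : Finset E} {v : V} : G.deg D v ≠ 0 ↔ ∃ e ∈ D, v ∈ G.ends e := by
  rw [Ne, deg_eq_zero_iff]
  push Not
  rfl

open Classical in
/-- The edges of `A` in the component of `e`. -/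
noncomputable def comp (G : MGraph V E) (A : Finset E) (e : E) : Finset E :=
  A.filter fun f => ∃ u ∈ G.ends e, ∃ w ∈ G.ends f, G.Reach A u w

lemma mem_comp {A : Finset E} {e f : E} : f ∈ G.comp A e ↔
    f ∈ A ∧ ∃ u ∈ G.ends e, ∃ w ∈ G.ends f, G.Reach A u w := by
  classical
  unfold comp
  rw [Finset.mem_filter]

lemma exists_end (e : E) : ∃ u, u ∈ G.ends e := by
  induction h : G.ends e with
  | _ x y => exact ⟨x, Sym2.mem_mk_left _ _⟩

lemma self_mem_comp {A : Finset E} {e : E} (he : e ∈ A) : e ∈ G.comp A e := by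
  obtain ⟨u, hu⟩ := exists_end (G := G) e
  exact mem_comp.2 ⟨he, u, hu, u, hu, Relation.ReflTransGen.refl⟩

lemma comp_subset {A : Finset E} {e : E} : G.comp A e ⊆ A := fun _ hf => (mem_comp.1 hf).1

lemma comp_eq {A : Finset E} {e f : E} (he : e ∈ A) (hf : f ∈ G.comp A e) :
    G.comp A f = G.comp A e := by
  obtain ⟨hfA, u, hu, w, hw, huw⟩ := mem_comp.1 hf
  ext x
  rw [mem_comp, mem_comp]
  constructor
  · rintro ⟨hx, a, ha, b, hb, hab⟩
    exact ⟨hx, u, hu, b, hb, huw.trans ((reach_ends hfA hw ha).trans hab)⟩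
  · rintro ⟨hx, a, ha, b, hb, hab⟩
    exact ⟨hx, w, hw, b, hb, huw.symm.trans ((reach_ends he hu ha).trans hab)⟩

lemma mem_comp_of_vertex {A : Finset E} {e f f' : E} {v : V} (hf : f ∈ G.comp A e)
    (hv : v ∈ G.ends f) (hf' : f' ∈ A) (hv' : v ∈ G.ends f') : f' ∈ G.comp A e := by
  obtain ⟨hfA, u, hu, w, hw, huw⟩ := mem_comp.1 hf
  exact mem_comp.2 ⟨hf', u, hu, v, hv', huw.trans (reach_ends hfA hw hv)⟩

lemma reach_comp {A : Finset E} {e : E} {a u v : V} (ha : a ∈ G.ends e) (hau : G.Reach A a u)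
    (huv : G.Reach A u v) : G.Reach (G.comp A e) u v := by
  induction huv with
  | refl => exact Relation.ReflTransGen.refl
  | @tail b c hub hbc ih =>
    obtain ⟨g, hg, hgbc⟩ := hbc
    refine Relation.ReflTransGen.tail ih ⟨g, ?_, hgbc⟩
    refine mem_comp.2 ⟨hg, a, ha, b, ?_, hau.trans hub⟩
    rw [hgbc]
    exact Sym2.mem_mk_left _ _

lemma isCircuit_comp {A : Finset E} (hA : ∀ v, G.deg A v = 0 ∨ G.deg A v = 2) {e : E}
    (he : e ∈ A) : G.IsCircuit (G.comp A e) := by
  classical
  refine ⟨⟨e, self_mem_comp he⟩, ?_, ?_⟩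
  · intro v
    by_cases h : ∃ f ∈ G.comp A e, v ∈ G.ends f
    · obtain ⟨f, hf, hvf⟩ := h
      have h1 : G.deg (G.comp A e) v = G.deg A v := by
        unfold deg
        congr 2
        · ext x
          simp only [Finset.mem_filter]
          constructor
          · rintro ⟨hx, hvx⟩
            exact ⟨comp_subset hx, hvx⟩
          · rintro ⟨hx, hvx⟩
            exact ⟨mem_comp_of_vertex hf hvf hx hvx, hvx⟩
        · ext x
          simp only [Finset.mem_filter]
          constructor
          · rintro ⟨hx, hvx⟩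
            exact ⟨comp_subset hx, hvx⟩
          · rintro ⟨hx, hvx⟩
            refine ⟨mem_comp_of_vertex hf hvf hx ?_, hvx⟩
            rw [hvx]
            exact Sym2.mem_mk_left _ _
      rw [h1]
      exact hA v
    · left
      rw [deg_eq_zero_iff]
      intro f hf hv
      exact h ⟨f, hf, hv⟩
  · intro u v hu hv
    obtain ⟨f, hf, hfu⟩ := deg_ne_zero_iff.1 hu
    obtain ⟨f', hf', hfv⟩ := deg_ne_zero_iff.1 hv
    obtain ⟨hfA, a, ha, w, hw, haw⟩ := mem_comp.1 hf
    obtain ⟨hfA', a', ha', w', hw', haw'⟩ := mem_comp.1 hf'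
    have h1 : G.Reach A a u := haw.trans (reach_ends hfA hw hfu)
    have h2 : G.Reach A a' v := haw'.trans (reach_ends hfA' hw' hfv)
    exact reach_comp ha h1 (h1.symm.trans ((reach_ends he ha ha').trans h2))

/-- The circuits of a 2-regular edge set. -/
noncomputable def circuits (G : MGraph V E) (A : Finset E) : Multiset (Finset E) :=
  (A.image (G.comp A)).val

lemma mem_circuits {A : Finset E} (hA : ∀ v, G.deg A v = 0 ∨ G.deg A v = 2) {D : Finset E}
    (hD : D ∈ G.circuits A) : G.IsCircuit D := by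
  have : D ∈ A.image (G.comp A) := hD
  obtain ⟨e, he, rfl⟩ := Finset.mem_image.1 this
  exact isCircuit_comp hA he

lemma countP_circuits {A : Finset E} (e : E) :
    (G.circuits A).countP (fun D => e ∈ D) = if e ∈ A then 1 else 0 := by
  rw [Multiset.countP_eq_card_filter]
  change ((A.image (G.comp A)).filter (fun D => e ∈ D)).card = _
  split_ifs with he
  · have : (A.image (G.comp A)).filter (fun D => e ∈ D) = {G.comp A e} := by
      ext D
      simp only [Finset.mem_filter, Finset.mem_image, Finset.mem_singleton]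
      constructor
      · rintro ⟨⟨f, hf, rfl⟩, hef⟩
        exact (comp_eq hf hef).symm
      · rintro rfl
        exact ⟨⟨e, he, rfl⟩, self_mem_comp he⟩
    rw [this]
    exact Finset.card_singleton _
  · rw [Finset.card_eq_zero, Finset.filter_eq_empty_iff]
    intro D hD heD
    obtain ⟨f, hf, rfl⟩ := Finset.mem_image.1 hD
    exact he (comp_subset heD)

/-- From `2`-regular edge sets covering each edge of the circuit `C` once and every other edge
twice to a circuit double cover containing `C`. -/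
theorem exists_doubleCover {Λ : Type} [Fintype Λ] {C : Finset E} (hC : G.IsCircuit C)
    (A : Λ → Finset E) (hA : ∀ l v, G.deg (A l) v = 0 ∨ G.deg (A l) v = 2)
    (hcount : ∀ e, (if e ∈ C then 1 else 0) + ∑ l, (if e ∈ A l then 1 else 0) = 2) :
    ∃ F : Multiset (Finset E), G.IsCircuitDoubleCover F ∧ C ∈ F := by
  refine ⟨C ::ₘ ∑ l, G.circuits (A l), ⟨?_, ?_⟩, Multiset.mem_cons_self _ _⟩
  · intro D hD
    rw [Multiset.mem_cons] at hD
    rcases hD with rfl | hD
    · exact hC
    · rw [Multiset.mem_sum] at hD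
      obtain ⟨l, _, hl⟩ := hD
      exact mem_circuits (hA l) hl
  · intro e
    rw [Multiset.countP_cons, ← hcount e, add_comm]
    congr 1
    rw [← Multiset.coe_countPAddMonoidHom, map_sum]
    refine Finset.sum_congr rfl fun l _ => ?_
    rw [Multiset.coe_countPAddMonoidHom]
    exact countP_circuits e

end Pool.Agent.SCDC.MGraph
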