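import Mathlib

/-!
# Finite graphs with parallel edges, circuits, circuit double covers
-/

namespace Pool.Agent.SCDC

/-- A graph with vertex set `V` and edge set `E`: the edge `e` joins the two vertices of the
unordered pair `ends e`. Parallel edges are allowed (and loops are not excluded). -/
structure MGraph (V E : Type) where
  /-- the unordered pair of the ends of an edge -/
  ends : E → Sym2 V

namespace MGraph

variable {V E : Type} [DecidableEq V] (G : MGraph V E)

/-- The degree of the vertex `v` in the graph with edge set `D`; loops count twice. -/
def deg (D : Finset E) (v : V) : ℕ :=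
  (D.filter fun e => v ∈ G.ends e).card + (D.filter fun e => G.ends e = s(v, v)).card

/-- Some edge of `D` joins `u` and `v`. -/
def Adj (D : Finset E) (u v : V) : Prop := ∃ e ∈ D, G.ends e = s(u, v)

/-- `u` and `v` are joined by a walk with edges in `D`. -/
def Reach (D : Finset E) (u v : V) : Prop := Relation.ReflTransGen (G.Adj D) u v

/-- The graph has no loops. -/
def Loopless : Prop := ∀ e, ¬ (G.ends e).IsDiag

/-- Every vertex has degree three. -/
def Cubic [Fintype E] : Prop := ∀ v, G.deg Finset.univ v = 3

/-- The graph is connected and stays connected when any one edge is deleted, i.e. it is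
connected and has no bridge. -/
def TwoEdgeConnected [Fintype E] [DecidableEq E] : Prop :=
  (∀ u v, G.Reach Finset.univ u v) ∧ ∀ e : E, ∀ u v, G.Reach (Finset.univ.erase e) u v

/-- `D` is the edge set of a circuit: of a connected `2`-regular subgraph. -/
def IsCircuit (D : Finset E) : Prop :=
  D.Nonempty ∧ (∀ v, G.deg D v = 0 ∨ G.deg D v = 2) ∧
    ∀ u v, G.deg D u ≠ 0 → G.deg D v ≠ 0 → G.Reach D u v

/-- A circuit double cover: a finite family of circuits (repetitions allowed) such that every edge
lies in exactly two of its members. -/
def IsCircuitDoubleCover [DecidableEq E] (F : Multiset (Finset E)) : Prop :=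
  (∀ D ∈ F, G.IsCircuit D) ∧ ∀ e : E, F.countP (fun D => e ∈ D) = 2

end MGraph

end Pool.Agent.SCDC
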