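import Pool.Agent.Lib_helper95.SCDCComp

/-!
# Cyclic enumeration of the edges and vertices of a circuit
-/

set_option linter.unusedSectionVars false

namespace Pool.Agent.SCDC.MGraph

variable {V E : Type} [DecidableEq V] [DecidableEq E] {G : MGraph V E}

lemma deg_eq_card (hG : G.Loopless) (D : Finset E) (v : V) :
    G.deg D v = (D.filter fun e => v ∈ G.ends e).card := by
  unfold deg
  have : (D.filter fun e => G.ends e = s(v, v)) = ∅ := by
    rw [Finset.filter_eq_empty_iff]
    intro e _ h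
    exact hG e (by rw [h]; exact Sym2.mk_isDiag_iff.2 rfl)
  rw [this, Finset.card_empty, add_zero]

lemma exists_other (hG : G.Loopless) {e : E} {v : V} (hv : v ∈ G.ends e) :
    ∃ w, w ≠ v ∧ G.ends e = s(v, w) := by
  obtain ⟨w, hw⟩ := hv
  refine ⟨w, ?_, hw⟩
  rintro rfl
  exact hG e (by rw [hw]; exact Sym2.mk_isDiag_iff.2 rfl)

/-- Darts of `C`. -/
abbrev Dart (G : MGraph V E) (C : Finset E) : Type := {x : E × V // x.1 ∈ C ∧ x.2 ∈ G.ends x.1}

section
variable {C : Finset E}

lemma exists_alpha (hG : G.Loopless) (x : G.Dart C) :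
    ∃ y : G.Dart C, y.1.1 = x.1.1 ∧ y.1.2 ≠ x.1.2 ∧ G.ends x.1.1 = s(x.1.2, y.1.2) := by
  obtain ⟨w, hw, h⟩ := exists_other hG x.2.2
  exact ⟨⟨(x.1.1, w), x.2.1, by rw [h]; exact Sym2.mem_mk_right _ _⟩, rfl, hw, h⟩

lemma exists_beta (hG : G.Loopless) (hC : ∀ v, G.deg C v = 0 ∨ G.deg C v = 2) (x : G.Dart C) :
    ∃ y : G.Dart C, y.1.2 = x.1.2 ∧ y.1.1 ≠ x.1.1 ∧
      ∀ f ∈ C, x.1.2 ∈ G.ends f → f = x.1.1 ∨ f = y.1.1 := by
  have h0 : G.deg C x.1.2 ≠ 0 := deg_ne_zero_iff.2 ⟨x.1.1, x.2.1, x.2.2⟩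
  have h2 : (C.filter fun e => x.1.2 ∈ G.ends e).card = 2 := by
    rw [← deg_eq_card hG]
    exact (hC x.1.2).resolve_left h0
  obtain ⟨a, b, hab, hs⟩ := Finset.card_eq_two.1 h2
  have hx : x.1.1 ∈ C.filter fun e => x.1.2 ∈ G.ends e := Finset.mem_filter.2 ⟨x.2.1, x.2.2⟩
  have ha : a ∈ C.filter fun e => x.1.2 ∈ G.ends e := by rw [hs]; simp
  have hb : b ∈ C.filter fun e => x.1.2 ∈ G.ends e := by rw [hs]; simp
  rw [Finset.mem_filter] at ha hb
  rw [hs, Finset.mem_insert, Finset.mem_singleton] at hx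
  rcases hx with hx | hx
  · refine ⟨⟨(b, x.1.2), hb.1, hb.2⟩, rfl, ?_, ?_⟩
    · change b ≠ x.1.1
      rw [hx]
      exact hab.symm
    · intro f hf hxf
      have : f ∈ C.filter fun e => x.1.2 ∈ G.ends e := Finset.mem_filter.2 ⟨hf, hxf⟩
      rw [hs, Finset.mem_insert, Finset.mem_singleton] at this
      rw [hx]
      exact this
  · refine ⟨⟨(a, x.1.2), ha.1, ha.2⟩, rfl, ?_, ?_⟩
    · change a ≠ x.1.1
      rw [hx]
      exact hab
    · intro f hf hxf
      have : f ∈ C.filter fun e => x.1.2 ∈ G.ends e := Finset.mem_filter.2 ⟨hf, hxf⟩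
      rw [hs, Finset.mem_insert, Finset.mem_singleton] at this
      rw [hx]
      exact this.symm

/-- A circuit has a cyclic enumeration. -/
theorem circuit_enum [Finite V] [Finite E] (hG : G.Loopless) (hC : G.IsCircuit C) :
    ∃ (m : ℕ) (v : ℕ → V) (e : ℕ → E), 0 < m ∧ (∀ i, e i ∈ C) ∧
      (∀ i, G.ends (e i) = s(v i, v (i + 1))) ∧ (∀ i, v (i + m) = v i) ∧ (∀ i, e (i + m) = e i) ∧
      (∀ i < m, ∀ j < m, v i = v j → i = j) ∧ (∀ i < m, ∀ j < m, e i = e j → i = j) ∧
      (∀ f ∈ C, ∃ i < m, e i = f) ∧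
      (∀ i, ∀ f ∈ C, v (i + 1) ∈ G.ends f → f = e i ∨ f = e (i + 1)) ∧
      ∀ i, e i ≠ e (i + 1) := by
  classical
  choose α hα1 hα2 hα3 using exists_alpha (G := G) (C := C) hG
  choose β hβ1 hβ2 hβ3 using exists_beta (G := G) (C := C) hG hC.2.1
  have hαα : Function.Involutive α := by
    intro x
    have h1 := hα3 x
    have h2 := hα3 (α x)
    rw [hα1 x, h1] at h2
    have h3 : (α (α x)).1.2 = x.1.2 := by
      rcases Sym2.eq_iff.1 h2 with ⟨h4, _⟩ | ⟨h4, _⟩
      · exact absurd h4.symm (hα2 x)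
      · exact h4.symm
    apply Subtype.ext
    apply Prod.ext
    · rw [hα1, hα1]
    · exact h3
  have hββ : Function.Involutive β := by
    intro x
    apply Subtype.ext
    apply Prod.ext
    · rcases hβ3 x (β (β x)).1.1 (β (β x)).2.1 (by
        rw [← hβ1 x, ← hβ1 (β x)]; exact (β (β x)).2.2) with h | h
      · exact h
      · exact absurd h (hβ2 (β x))
    · rw [hβ1, hβ1]
  let a : Equiv.Perm (G.Dart C) := hαα.toPerm
  let b : Equiv.Perm (G.Dart C) := hββ.toPerm
  have ha : ∀ x, a x = α x := fun _ => rfl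
  have hb : ∀ x, b x = β x := fun _ => rfl
  have haa : a * a = 1 := by
    ext1 x
    exact hαα x
  have hbb : b * b = 1 := by
    ext1 x
    exact hββ x
  have hafix : ∀ x, a x ≠ x := fun x h => hα2 x (by rw [← ha, h])
  have hbfix : ∀ x, b x ≠ x := fun x h => hβ2 x (by rw [← hb, h])
  let φ : Equiv.Perm (G.Dart C) := b * a
  have hinv : a * φ * a⁻¹ = φ⁻¹ := by
    rw [eq_inv_iff_mul_eq_one]
    have : a⁻¹ = a := inv_eq_of_mul_eq_one_right haa
    rw [this]
    change a * (b * a) * a * (b * a) = 1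
    calc a * (b * a) * a * (b * a) = a * b * (a * a) * b * a := by group
      _ = a * (b * b) * a := by rw [haa]; group
      _ = 1 := by rw [hbb, mul_one, haa]
  have hconj : ∀ (t : ℤ) (x), a ((φ ^ t) x) = (φ ^ (-t)) (a x) := by
    intro t x
    have h1 : a * φ ^ t * a⁻¹ = φ ^ (-t) := by
      rw [← conj_zpow, hinv, inv_zpow, zpow_neg]
    have h2 : a * φ ^ t = φ ^ (-t) * a := by
      rw [← h1]
      group
    exact congrArg (fun p : Equiv.Perm (G.Dart C) => p x) h2
  have key : ∀ (k : ℤ) (x), a x ≠ (φ ^ k) x := by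
    intro k x h
    rcases Int.even_or_odd' k with ⟨t, ht | ht⟩
    · apply hafix ((φ ^ t) x)
      rw [hconj, h, ← Equiv.Perm.mul_apply, ← zpow_add, ht]
      congr 2
      ring
    · apply hbfix (a ((φ ^ t) x))
      have h1 : a ((φ ^ t) x) = (φ ^ (1 + t)) x := by
        rw [hconj, h, ← Equiv.Perm.mul_apply, ← zpow_add, ht]
        congr 2
        ring
      rw [zpow_add, zpow_one, Equiv.Perm.mul_apply] at h1
      change φ ((φ ^ t) x) = _
      exact h1.symm
  -- the sequence
  obtain ⟨e0, he0⟩ := hC.1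
  obtain ⟨v0, hv0⟩ := exists_end (G := G) e0
  let x0 : G.Dart C := ⟨(e0, v0), he0, hv0⟩
  let x : ℕ → G.Dart C := fun i => (φ ^ i) x0
  have hx : ∀ i, x (i + 1) = β (α (x i)) := by
    intro i
    change (φ ^ (i + 1)) x0 = φ ((φ ^ i) x0)
    rw [pow_succ', Equiv.Perm.mul_apply]
  have hex : ∃ m : ℕ, 0 < m ∧ (φ ^ m) x0 = x0 := by
    refine ⟨orderOf φ, orderOf_pos φ, ?_⟩
    rw [pow_orderOf_eq_one]
    rfl
  let m := Nat.find hex
  have hm0 : 0 < m := (Nat.find_spec hex).1
  have hmx : (φ ^ m) x0 = x0 := (Nat.find_spec hex).2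
  have hmin : ∀ k, 0 < k → k < m → (φ ^ k) x0 ≠ x0 := by
    intro k hk0 hkm h
    exact Nat.find_min hex hkm ⟨hk0, h⟩
  have hper : ∀ i, x (i + m) = x i := by
    intro i
    change (φ ^ (i + m)) x0 = (φ ^ i) x0
    rw [pow_add, Equiv.Perm.mul_apply, hmx]
  have hinj' : ∀ i j, i < j → j < m → x i ≠ x j := by
    intro i j hij hj h
    apply hmin (j - i) (by omega) (by omega)
    have h1 : (φ ^ i) ((φ ^ (j - i)) x0) = (φ ^ i) x0 := by
      rw [← Equiv.Perm.mul_apply, ← pow_add, show i + (j - i) = j by omega]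
      exact h.symm
    exact (φ ^ i).injective h1
  have hinj : ∀ i < m, ∀ j < m, x i = x j → i = j := by
    intro i hi j hj h
    rcases lt_trichotomy i j with h1 | h1 | h1
    · exact absurd h (hinj' i j h1 hj)
    · exact h1
    · exact absurd h.symm (hinj' j i h1 hi)
  have hkey : ∀ i j, a (x i) ≠ x j := by
    intro i j h
    apply key ((j : ℤ) - i) (x i)
    rw [h]
    change (φ ^ j) x0 = (φ ^ ((j : ℤ) - i)) ((φ ^ i) x0)
    rw [← zpow_natCast, ← zpow_natCast, ← Equiv.Perm.mul_apply, ← zpow_add]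
    congr 2
    ring
  have hends : ∀ i, G.ends (x i).1.1 = s((x i).1.2, (x (i + 1)).1.2) := by
    intro i
    rw [hx, hβ1, ← hα3]
  have hvert : ∀ i, (x (i + 1)).1.2 = (α (x i)).1.2 := by
    intro i
    rw [hx, hβ1]
  have hedge : ∀ i, ∀ f ∈ C, (x (i + 1)).1.2 ∈ G.ends f → f = (x i).1.1 ∨ f = (x (i + 1)).1.1 := by
    intro i f hf hfv
    rw [hvert] at hfv
    have := hβ3 (α (x i)) f hf hfv
    rw [hα1] at this
    rw [hx]
    exact this
  have hne : ∀ i, (x i).1.1 ≠ (x (i + 1)).1.1 := by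
    intro i
    rw [hx]
    have := hβ2 (α (x i))
    rw [hα1] at this
    exact this.symm
  -- injectivity
  have hEinj : ∀ i < m, ∀ j < m, (x i).1.1 = (x j).1.1 → i = j := by
    intro i hi j hj h
    apply hinj i hi j hj
    by_cases hv : (x i).1.2 = (x j).1.2
    · exact Subtype.ext (Prod.ext h hv)
    · exfalso
      apply hkey i j
      apply Subtype.ext
      apply Prod.ext
      · change (α (x i)).1.1 = _
        rw [hα1, h]
      · change (α (x i)).1.2 = _
        have h1 := hα3 (x i)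
        have h2 := (x j).2.2
        rw [← h, h1, Sym2.mem_iff] at h2
        rcases h2 with h2 | h2
        · exact absurd h2.symm hv
        · exact h2.symm
  have hVinj : ∀ i < m, ∀ j < m, (x i).1.2 = (x j).1.2 → i = j := by
    intro i hi j hj h
    by_contra hij
    have hE : (x i).1.1 ≠ (x j).1.1 := fun h' => hij (hEinj i hi j hj h')
    -- `x i` is the `β` of `x j`
    have h1 : b (x j) = x i := by
      apply Subtype.ext
      apply Prod.ext
      · change (β (x j)).1.1 = (x i).1.1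
        rcases hβ3 (x j) (x i).1.1 (x i).2.1 (by rw [← h]; exact (x i).2.2) with h2 | h2
        · exact absurd h2 hE
        · exact h2.symm
      · change (β (x j)).1.2 = (x i).1.2
        rw [hβ1, h]
    -- then `a (x (i - 1)) = x j`
    have h2 : ∃ k, a (x k) = x j := by
      refine ⟨i + m - 1, ?_⟩
      have h3 : x (i + m - 1 + 1) = x i := by
        rw [show i + m - 1 + 1 = i + m by omega]
        exact hper i
      have h4 : b (a (x (i + m - 1))) = x i := by
        rw [← h3]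
        exact (hx _).symm
      rw [← h1] at h4
      exact b.injective h4
    obtain ⟨k, hk⟩ := h2
    exact hkey k j hk
  -- covering
  have hmod : ∀ i, x (i % m) = x i := by
    intro i
    have h1 : ∀ q r, x (r + m * q) = x r := by
      intro q
      induction q with
      | zero => intro r; simp
      | succ q ih =>
        intro r
        rw [Nat.mul_succ, ← add_assoc, hper]
        exact ih r
    have h2 := h1 (i / m) (i % m)
    rw [Nat.mod_add_div] at h2
    exact h2.symm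
  have hreach : ∀ u, G.Reach C (x 0).1.2 u → ∃ i, (x (i + 1)).1.2 = u := by
    intro u hu
    induction hu with
    | refl => exact ⟨m - 1, by rw [show m - 1 + 1 = 0 + m by omega, hper]⟩
    | @tail u w _ huw ih =>
      obtain ⟨i, hi⟩ := ih
      obtain ⟨f, hf, hfe⟩ := huw
      have hfu : (x (i + 1)).1.2 ∈ G.ends f := by
        rw [hi, hfe]
        exact Sym2.mem_mk_left _ _
      rcases hedge i f hf hfu with h1 | h1
      · have h2 := hends i
        rw [← h1, hfe, hi] at h2
        have h3 : w = (x i).1.2 := by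
          rcases Sym2.eq_iff.1 h2 with ⟨h4, h5⟩ | ⟨h4, h5⟩
          · exfalso
            apply hG f
            rw [hfe, h5]
            exact Sym2.mk_isDiag_iff.2 rfl
          · exact h5
        refine ⟨i + m - 1, ?_⟩
        rw [show i + m - 1 + 1 = i + m by omega, hper, h3]
      · have h2 := hends (i + 1)
        rw [← h1, hfe, hi] at h2
        refine ⟨i + 1, ?_⟩
        rcases Sym2.eq_iff.1 h2 with ⟨h4, h5⟩ | ⟨h4, h5⟩
        · exact h5.symm
        · rw [← h4, h5]
  have hcover : ∀ f ∈ C, ∃ i < m, (x i).1.1 = f := by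
    intro f hf
    obtain ⟨u, hu⟩ := exists_end (G := G) f
    have h1 : G.Reach C (x 0).1.2 u := hC.2.2 _ _
      (deg_ne_zero_iff.2 ⟨_, (x 0).2.1, (x 0).2.2⟩) (deg_ne_zero_iff.2 ⟨f, hf, hu⟩)
    obtain ⟨i, hi⟩ := hreach u h1
    rw [← hi] at hu
    rcases hedge i f hf hu with h2 | h2
    · exact ⟨i % m, Nat.mod_lt _ hm0, by rw [hmod, h2]⟩
    · exact ⟨(i + 1) % m, Nat.mod_lt _ hm0, by rw [hmod, h2]⟩
  exact ⟨m, fun i => (x i).1.2, fun i => (x i).1.1, hm0, fun i => (x i).2.1, hends,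
    fun i => by simp only [hper], fun i => by simp only [hper], hVinj, hEinj, hcover, hedge, hne⟩

end

end Pool.Agent.SCDC.MGraph
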