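import Mathlib

/-!
# The field with four elements and its alternating form
-/

namespace Pool.Agent.SCDC

/-- The field with four elements: the element `a + b ω`, where `ω ^ 2 = ω + 1`. -/
@[ext] structure F4 where
  a : ZMod 2
  b : ZMod 2
deriving DecidableEq, Fintype

namespace F4

instance : Zero F4 := ⟨⟨0, 0⟩⟩
instance : One F4 := ⟨⟨1, 0⟩⟩
instance : Add F4 := ⟨fun x y => ⟨x.a + y.a, x.b + y.b⟩⟩
instance : Neg F4 := ⟨fun x => x⟩
instance : Mul F4 := ⟨fun x y => ⟨x.a * y.a + x.b * y.b, x.a * y.b + x.b * y.a + x.b * y.b⟩⟩
instance : Inv F4 := ⟨fun x => x * x⟩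

instance : CommRing F4 where
  add_assoc := by decide
  zero_add := by decide
  add_zero := by decide
  add_comm := by decide
  neg_add_cancel := by decide
  mul_assoc := by decide
  one_mul := by decide
  mul_one := by decide
  mul_comm := by decide
  zero_mul := by decide
  mul_zero := by decide
  left_distrib := by decide
  right_distrib := by decide
  nsmul := nsmulRec
  zsmul := zsmulRec

instance : Field F4 where
  inv x := x * x
  exists_pair_ne := ⟨0, 1, by decide⟩
  mul_inv_cancel := by decide
  inv_zero := by decide
  nnqsmul := _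
  qsmul := _

instance : CharP F4 2 := by
  refine CharTwo.of_one_ne_zero_of_two_eq_zero ?_ ?_
  · decide
  · decide

/-- The conjugation `x ↦ x ^ 2` of `F4`. -/
def conj : F4 →+* F4 where
  toFun x := x * x
  map_one' := by decide
  map_mul' := by decide
  map_zero' := by decide
  map_add' := by decide

/-- The alternating form of `F4` over the prime field. -/
def B (x y : F4) : F4 := x * x * y + x * (y * y)

lemma conj_apply (x : F4) : conj x = x * x := rfl

lemma conj_conj : ∀ x : F4, conj (conj x) = x := by decide

lemma add_self (x : F4) : x + x = 0 := CharTwo.add_self_eq_zero x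

lemma B_add_left : ∀ x y z : F4, B (x + y) z = B x z + B y z := by decide
lemma B_add_right : ∀ x y z : F4, B x (y + z) = B x y + B x z := by decide
lemma B_mul_left : ∀ g x y : F4, B (g * x) y = B x (conj g * y) := by decide
lemma B_self : ∀ x : F4, B x x = 0 := by decide
lemma B_comm : ∀ x y : F4, B x y = B y x := by decide
lemma B_zero_right : ∀ x : F4, B x 0 = 0 := by decide
lemma B_zero_left : ∀ x : F4, B 0 x = 0 := by decide
lemma B_mul_self : ∀ t x : F4, x ≠ 0 → B x (t * x) = t + conj t := by decide
lemma B_eq_zero_or : ∀ x y : F4, B x y = 0 ∨ B x y = 1 := by decide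
lemma B_eq_zero_of : ∀ x y : F4, (y = 0 ∨ y = x) → B x y = 0 := by decide
lemma norm_eq_one : ∀ x : F4, x ≠ 0 → conj x * x = 1 := by decide
lemma eq_zero_or_one_of_conj : ∀ x : F4, conj x = x → x = 0 ∨ x = 1 := by decide

end F4

end Pool.Agent.SCDC
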