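import Pool.Agent.Lib_helper95.SCDCField

/-!
# The parity lemma for Hermitian matrices over the field with four elements
-/

namespace Pool.Agent.SCDC

open F4 Matrix

variable {I : Type} [Fintype I] [DecidableEq I]

/-- The diagonal 0/1 matrix given by `δ`. -/
def dg (δ : I → Bool) : Matrix I I F4 := Matrix.diagonal fun i => if δ i then 1 else 0

/-- The rows of `A + dg δ`. -/
def rowFun (A : Matrix I I F4) (i : I) (b : Bool) : I → F4 :=
  A i + (if b then Pi.single i (1 : F4) else 0)

lemma sum_det_add_dg (A : Matrix I I F4) : ∑ δ : I → Bool, (A + dg δ).det = 1 := by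
  have h1 : ∀ δ : I → Bool, (A + dg δ).det =
      (Matrix.detRowAlternating : (I → F4) [⋀^I]→ₗ[F4] F4).toMultilinearMap
        (fun i => rowFun A i (δ i)) := by
    intro δ
    change (A + dg δ).det = Matrix.det (fun i => rowFun A i (δ i))
    refine congrArg Matrix.det (funext fun i => funext fun j => ?_)
    simp only [Matrix.add_apply, dg, Matrix.diagonal_apply, rowFun, Pi.add_apply]
    refine congrArg (fun t => A i j + t) ?_
    by_cases hd : δ i
    · by_cases hij : i = j
      · subst hij
        simp [hd]
      · simp [hd, hij]
    · simp [hd]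
  rw [Finset.sum_congr rfl fun δ _ => h1 δ]
  have h3 := (Matrix.detRowAlternating : (I → F4) [⋀^I]→ₗ[F4] F4).toMultilinearMap.map_sum
    (fun i (b : Bool) => rowFun A i b)
  rw [← h3]
  have h2 : (fun i : I => ∑ b : Bool, rowFun A i b) = (1 : Matrix I I F4) := by
    funext i
    rw [Fintype.sum_bool]
    funext j
    have h4 := F4.add_self (A i j)
    by_cases hij : j = i
    · subst hij
      simp only [rowFun, if_true, Pi.add_apply, Pi.single_eq_same, Bool.false_eq_true, if_false,
        Pi.zero_apply, Matrix.one_apply_eq]
      linear_combination h4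
    · simp only [rowFun, if_true, Pi.add_apply, Pi.single_eq_of_ne hij, Bool.false_eq_true,
        if_false, Pi.zero_apply, Matrix.one_apply_ne (Ne.symm hij)]
      linear_combination h4
  rw [h2]
  exact Matrix.det_one

lemma card_ker_parity (M : Matrix I I F4) (hM : M.det = 0 ∨ M.det = 1) :
    ∑ c : I → F4, (if M.mulVec c = 0 then (1 : F4) else 0) = M.det := by
  rcases hM with h | h
  · rw [h]
    obtain ⟨k, hk, hk0⟩ := Matrix.exists_mulVec_eq_zero_iff.2 h
    refine Finset.sum_involution (fun c _ => c + k) ?_ ?_ ?_ ?_
    · intro c _
      rw [Matrix.mulVec_add, hk0, add_zero]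
      exact F4.add_self _
    · intro c _ _ hc
      apply hk
      simpa using hc
    · intro c _
      exact Finset.mem_univ _
    · intro c _
      funext i
      have := F4.add_self (k i)
      simp only [Pi.add_apply]
      linear_combination this
  · rw [h]
    rw [Finset.sum_eq_single 0]
    · simp
    · intro c _ hc
      rw [if_neg]
      intro hc0
      apply hc
      exact Matrix.eq_zero_of_mulVec_eq_zero (by rw [h]; exact one_ne_zero) hc0
    · intro h'
      exact absurd (Finset.mem_univ _) h'

/-- **Parity lemma.** For every Hermitian matrix `A` over the field with four elements there is a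
nowhere zero vector `c` such that each coordinate of `A c` is zero or the coordinate of `c`. -/
theorem exists_nowhere_zero (A : Matrix I I F4) (hA : ∀ i j, A j i = conj (A i j)) :
    ∃ c : I → F4, (∀ i, c i ≠ 0) ∧ ∀ i, A.mulVec c i = 0 ∨ A.mulVec c i = c i := by
  classical
  by_contra hcon
  push Not at hcon
  -- the sum over all pairs
  have hS : ∑ δ : I → Bool, ∑ c : I → F4, (if (A + dg δ).mulVec c = 0 then (1 : F4) else 0) = 1 := by
    refine Eq.trans (Finset.sum_congr rfl fun δ _ => card_ker_parity (A + dg δ) ?_)
      (sum_det_add_dg A)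
    apply eq_zero_or_one_of_conj
    rw [RingHom.map_det]
    have : (conj.mapMatrix (A + dg δ)) = (A + dg δ)ᵀ := by
      refine funext fun i => funext fun j => ?_
      simp only [RingHom.mapMatrix_apply, Matrix.map_apply, Matrix.transpose_apply,
        Matrix.add_apply, map_add, dg, Matrix.diagonal_apply]
      rw [hA i j]
      congr 1
      by_cases hij : i = j
      · subst hij
        by_cases hd : δ i <;> simp [hd]
      · simp [hij, Ne.symm hij]
    rw [this, Matrix.det_transpose]
  rw [← Finset.sum_product'] at hS
  have hzero : ∀ c : I → F4, ∀ δ : I → Bool, (A + dg δ).mulVec c = 0 → ∃ i, c i = 0 := by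
    intro c δ h
    by_contra hc
    push Not at hc
    obtain ⟨i, hi1, hi2⟩ := hcon c hc
    have h1 := congrFun h i
    rw [Matrix.add_mulVec] at h1
    simp only [Pi.add_apply, dg, Matrix.mulVec_diagonal, Pi.zero_apply] at h1
    by_cases hd : δ i
    · simp only [hd, if_true, one_mul] at h1
      apply hi2
      have := F4.add_self (c i)
      linear_combination h1 - this
    · simp only [hd, Bool.false_eq_true, if_false, zero_mul, add_zero] at h1
      exact hi1 h1
  -- involution
  let z : (I → F4) → Option I := fun c => if h : ∃ i, c i = 0 then some h.choose else none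
  have hz : ∀ c i, z c = some i → c i = 0 := by
    intro c i h
    simp only [z] at h
    split_ifs at h with h'
    · cases h
      exact h'.choose_spec
  let φ : (I → Bool) × (I → F4) → (I → Bool) × (I → F4) := fun p =>
    match z p.2 with
    | some i => (Function.update p.1 i (!p.1 i), p.2)
    | none => p
  have hφ : ∀ p i, z p.2 = some i → φ p = (Function.update p.1 i (!p.1 i), p.2) := by
    intro p i h
    simp only [φ, h]
  have hφ0 : ∀ p, z p.2 = none → φ p = p := by
    intro p h
    simp only [φ, h]
  have hM : ∀ (p : (I → Bool) × (I → F4)) (i : I), z p.2 = some i →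
      (A + dg (Function.update p.1 i (!p.1 i))).mulVec p.2 = (A + dg p.1).mulVec p.2 := by
    intro p i h
    rw [Matrix.add_mulVec, Matrix.add_mulVec]
    congr 1
    funext j
    simp only [dg, Matrix.mulVec_diagonal]
    by_cases hj : j = i
    · subst hj
      rw [hz _ _ h]
      simp
    · rw [Function.update_of_ne hj]
  have h0 : ∑ p ∈ (Finset.univ : Finset (I → Bool)) ×ˢ (Finset.univ : Finset (I → F4)),
      (if (A + dg p.1).mulVec p.2 = 0 then (1 : F4) else 0) = 0 := by
    refine Finset.sum_involution (fun p _ => φ p) ?_ ?_ ?_ ?_
    · rintro p -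
      rcases hzp : z p.2 with _ | i
      · rw [hφ0 p hzp]
        exact F4.add_self _
      · rw [hφ p i hzp]
        simp only
        rw [hM p i hzp]
        exact F4.add_self _
    · rintro p - hp
      have h1 : (A + dg p.1).mulVec p.2 = 0 := by
        by_contra h'
        rw [if_neg h'] at hp
        exact hp rfl
      have h2 := hzero p.2 p.1 h1
      have hzp : ∃ i, z p.2 = some i := by
        simp only [z]
        rw [dif_pos h2]
        exact ⟨_, rfl⟩
      obtain ⟨i, hi⟩ := hzp
      rw [hφ p i hi]
      intro h3
      have h4 := congrFun (congrArg Prod.fst h3) i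
      simp at h4
    · rintro p -
      exact Finset.mem_product.2 ⟨Finset.mem_univ _, Finset.mem_univ _⟩
    · rintro p -
      rcases hzp : z p.2 with _ | i
      · simp only [hφ0 p hzp]
      · have h1 := hφ p i hzp
        have h2 : z (φ p).2 = some i := by rw [h1]; exact hzp
        rw [hφ (φ p) i h2, h1]
        simp
  rw [h0] at hS
  exact zero_ne_one hS

end Pool.Agent.SCDC
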