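import Pool.Agent.Lib_helper95.SCDCKey

/-!
# Labellings of cyclic words
-/

namespace Pool.Agent.SCDC

open F4 Matrix

variable {I : Type} [Fintype I] [DecidableEq I]

/-- The form `B x` as an additive map. -/
def Bhom (x : F4) : F4 →+ F4 where
  toFun := B x
  map_zero' := B_zero_right x
  map_add' := B_add_right x

lemma Bhom_apply (x y : F4) : Bhom x y = B x y := rfl

section
variable {P : Type} [Fintype P] [LinearOrder P] (κ : P → I) (g : P → F4)

/-- The interlacement matrix. -/
def T (K L : I) : F4 :=
  ∑ k : P, ∑ l : P, if κ k = K ∧ κ l = L ∧ l < k then conj (g k) * g l else 0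

variable {κ g}

lemma conj_T (hg : ∀ k, g k ≠ 0) (hsum : ∀ K, ∑ k : P, (if κ k = K then g k else 0) = 0)
    (K L : I) : conj (T κ g K L) + T κ g L K =
      if K = L then ∑ k : P, (if κ k = K then (1 : F4) else 0) else 0 := by
  have h1 : conj (T κ g K L) = ∑ k : P, ∑ l : P,
      if κ k = K ∧ κ l = L ∧ l < k then g k * conj (g l) else 0 := by
    unfold T
    rw [map_sum]
    refine Finset.sum_congr rfl fun k _ => ?_
    rw [map_sum]
    refine Finset.sum_congr rfl fun l _ => ?_
    split_ifs
    · rw [map_mul, conj_conj]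
    · exact map_zero _
  have h2 : T κ g L K = ∑ k : P, ∑ l : P,
      if κ k = K ∧ κ l = L ∧ k < l then g k * conj (g l) else 0 := by
    unfold T
    rw [Finset.sum_comm]
    refine Finset.sum_congr rfl fun k _ => ?_
    refine Finset.sum_congr rfl fun l _ => ?_
    by_cases h : κ k = K ∧ κ l = L ∧ k < l
    · rw [if_pos h, if_pos ⟨h.2.1, h.1, h.2.2⟩, mul_comm]
    · rw [if_neg h, if_neg]
      rintro ⟨h3, h4, h5⟩
      exact h ⟨h4, h3, h5⟩
  have h3 : (∑ k : P, ∑ l : P, if κ k = K ∧ κ l = L then g k * conj (g l) else 0) = 0 := by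
    have : (∑ k : P, ∑ l : P, if κ k = K ∧ κ l = L then g k * conj (g l) else 0) =
        (∑ k : P, if κ k = K then g k else 0) * conj (∑ l : P, if κ l = L then g l else 0) := by
      rw [map_sum, Finset.sum_mul_sum]
      refine Finset.sum_congr rfl fun k _ => Finset.sum_congr rfl fun l _ => ?_
      by_cases hk : κ k = K <;> by_cases hl : κ l = L <;> simp [hk, hl]
    rw [this, hsum, zero_mul]
  have h4 : ∀ k l : P, (if κ k = K ∧ κ l = L then g k * conj (g l) else 0) =
      (if κ k = K ∧ κ l = L ∧ l < k then g k * conj (g l) else 0) +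
      (if κ k = K ∧ κ l = L ∧ k < l then g k * conj (g l) else 0) +
      (if k = l then (if κ k = K ∧ κ l = L then 1 else 0) else 0) := by
    intro k l
    by_cases h : κ k = K ∧ κ l = L
    · rcases lt_trichotomy k l with h5 | h5 | h5
      · simp [h, h5, not_lt.2 h5.le, h5.ne]
      · subst h5
        have := norm_eq_one (g k) (hg k)
        rw [mul_comm] at this
        simp [h, this]
      · simp [h, h5, not_lt.2 h5.le, h5.ne']
    · have h5 : ¬ (κ k = K ∧ κ l = L ∧ l < k) := fun h' => h ⟨h'.1, h'.2.1⟩
      have h6 : ¬ (κ k = K ∧ κ l = L ∧ k < l) := fun h' => h ⟨h'.1, h'.2.1⟩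
      simp [h, h5, h6]
  have h5 : (∑ k : P, ∑ l : P, (if k = l then (if κ k = K ∧ κ l = L then (1 : F4) else 0) else 0)) =
      if K = L then ∑ k : P, (if κ k = K then (1 : F4) else 0) else 0 := by
    by_cases hKL : K = L
    · subst hKL
      rw [if_pos rfl]
      refine Finset.sum_congr rfl fun k _ => ?_
      rw [Finset.sum_ite_eq]
      simp
    · rw [if_neg hKL]
      refine Finset.sum_eq_zero fun k _ => ?_
      rw [Finset.sum_ite_eq]
      rw [if_pos (Finset.mem_univ _), if_neg]
      rintro ⟨h6, h7⟩
      exact hKL (h6.symm.trans h7)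
  rw [← h5, h1, h2]
  have h6 : (∑ k : P, ∑ l : P, if κ k = K ∧ κ l = L then g k * conj (g l) else 0) =
      (∑ k : P, ∑ l : P, if κ k = K ∧ κ l = L ∧ l < k then g k * conj (g l) else 0) +
      (∑ k : P, ∑ l : P, if κ k = K ∧ κ l = L ∧ k < l then g k * conj (g l) else 0) +
      (∑ k : P, ∑ l : P, (if k = l then (if κ k = K ∧ κ l = L then (1 : F4) else 0) else 0)) := by
    rw [← Finset.sum_add_distrib, ← Finset.sum_add_distrib]
    refine Finset.sum_congr rfl fun k _ => ?_
    rw [← Finset.sum_add_distrib, ← Finset.sum_add_distrib]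
    exact Finset.sum_congr rfl fun l _ => h4 k l
  rw [h3] at h6
  have h7 := F4.add_self (∑ k : P, ∑ l : P,
    (if k = l then (if κ k = K ∧ κ l = L then (1 : F4) else 0) else 0))
  linear_combination (-1 : F4) * h6 - h7

/-- For a word `κ` over the alphabet `I` and weights `g` with zero sum over each letter, there is a
nowhere zero colouring of the letters satisfying the coset conditions. -/
theorem exists_colouring (hg : ∀ k, g k ≠ 0)
    (hsum : ∀ K, ∑ k : P, (if κ k = K then g k else 0) = 0) :
    ∃ c : I → F4, (∀ K, c K ≠ 0) ∧ ∀ K,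
      ∑ k : P, (if κ k = K then B (g k * c K) (∑ l : P, if l < k then g l * c (κ l) else 0) else 0) =
      ∑ k : P, (if κ k = K then (1 : F4) else 0) := by
  classical
  let A : Matrix I I F4 := fun K L => if K = L then 0 else T κ g K L
  have hA : ∀ K L, A L K = conj (A K L) := by
    intro K L
    by_cases h : K = L
    · subst h
      simp [A]
    · have h1 := conj_T (κ := κ) (g := g) hg hsum K L
      rw [if_neg h] at h1
      simp only [A, if_neg h, if_neg (Ne.symm h)]
      have h2 := F4.add_self (conj (T κ g K L))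
      linear_combination h1 - h2
  obtain ⟨c, hc, hAc⟩ := exists_nowhere_zero A hA
  refine ⟨c, hc, fun K => ?_⟩
  have h1 : ∀ k : P, (if κ k = K then
      B (g k * c K) (∑ l : P, if l < k then g l * c (κ l) else 0) else 0) =
      Bhom (c K) (if κ k = K then conj (g k) * (∑ l : P, if l < k then g l * c (κ l) else 0)
        else 0) := by
    intro k
    split_ifs
    · rw [B_mul_left]
      rfl
    · exact (map_zero _).symm
  rw [Finset.sum_congr rfl fun k _ => h1 k, ← map_sum]
  have h2 : (∑ k : P, if κ k = K then conj (g k) * (∑ l : P, if l < k then g l * c (κ l) else 0)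
        else 0) = ∑ L, T κ g K L * c L := by
    have h3 : ∀ L, T κ g K L * c L = ∑ k : P, ∑ l : P,
        if κ k = K ∧ κ l = L ∧ l < k then conj (g k) * (g l * c (κ l)) else 0 := by
      intro L
      unfold T
      rw [Finset.sum_mul]
      refine Finset.sum_congr rfl fun k _ => ?_
      rw [Finset.sum_mul]
      refine Finset.sum_congr rfl fun l _ => ?_
      split_ifs with h
      · rw [h.2.1]
        ring
      · exact zero_mul _
    rw [Finset.sum_congr rfl fun L _ => h3 L]
    rw [Finset.sum_comm]
    refine Finset.sum_congr rfl fun k _ => ?_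
    rw [Finset.sum_comm]
    by_cases hk : κ k = K
    · rw [if_pos hk, Finset.mul_sum]
      refine Finset.sum_congr rfl fun l _ => ?_
      rw [Finset.sum_eq_single (κ l)]
      · by_cases hl : l < k
        · simp [hk, hl]
        · simp [hl]
      · intro L _ hL
        rw [if_neg]
        rintro ⟨_, h, _⟩
        exact hL h.symm
      · intro h
        exact absurd (Finset.mem_univ _) h
    · rw [if_neg hk]
      symm
      refine Finset.sum_eq_zero fun l _ => Finset.sum_eq_zero fun L _ => ?_
      rw [if_neg]
      rintro ⟨h, _⟩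
      exact hk h
  have h4 : ∑ L, T κ g K L * c L = T κ g K K * c K + A.mulVec c K := by
    have h5 : ∀ L, T κ g K L * c L = (if K = L then T κ g K K * c K else 0) + A K L * c L := by
      intro L
      by_cases h : K = L
      · subst h
        simp [A]
      · simp [A, h]
    rw [Finset.sum_congr rfl fun L _ => h5 L, Finset.sum_add_distrib]
    congr 1
    rw [Finset.sum_ite_eq]
    simp
  rw [h2, h4, map_add, Bhom_apply, Bhom_apply, B_eq_zero_of (c K) _ (hAc K), add_zero,
    B_mul_self _ _ (hc K)]
  have h6 := conj_T (κ := κ) (g := g) hg hsum K K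
  rw [if_pos rfl] at h6
  rw [← h6]
  ring

end

end Pool.Agent.SCDC
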