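import Pool.Agent.Lib_helper95.SCDCEnum
import Pool.Agent.Lib_helper95.SCDCWord

/-!
# Strong circuit double covers
-/

set_option linter.unusedSectionVars false

namespace Pool.Agent.SCDC

open F4 Matrix

/-- The Fredholm alternative for matrices over a field. -/
theorem fredholm {k ι κ : Type} [Field k] [Fintype ι] [Fintype κ] [DecidableEq ι] [DecidableEq κ]
    (M : Matrix ι κ k) (r : ι → k) (h : ∀ a : ι → k, a ᵥ* M = 0 → a ⬝ᵥ r = 0) :
    ∃ y, M *ᵥ y = r := by
  by_contra hcon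
  have h1 : r ∉ LinearMap.range M.mulVecLin := by
    rintro ⟨y, hy⟩
    exact hcon ⟨y, hy⟩
  obtain ⟨φ, hφ, hφ0⟩ := Submodule.exists_dual_map_eq_bot_of_notMem h1 inferInstance
  have h2 : ∀ w : ι → k, φ w = (fun i => φ (Pi.single i 1)) ⬝ᵥ w := by
    intro w
    rw [LinearMap.pi_apply_eq_sum_univ φ w]
    refine Finset.sum_congr rfl fun i _ => ?_
    rw [smul_eq_mul, mul_comm]
    congr 2
    funext j
    simp [Pi.single_apply, eq_comm]
  apply hφ
  rw [h2]
  apply h
  funext j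
  have h3 : φ (M *ᵥ (Pi.single j 1)) = 0 := by
    have h4 : φ (M *ᵥ (Pi.single j 1)) ∈ (LinearMap.range M.mulVecLin).map φ :=
      Submodule.mem_map_of_mem ⟨_, rfl⟩
    rw [hφ0] at h4
    exact (Submodule.mem_bot k).1 h4
  rw [h2, Matrix.mulVec_single_one] at h3
  exact h3

namespace F4

lemma B_eq : ∀ x y : F4, B x y = ⟨x.a * y.b + x.b * y.a, 0⟩ := by decide

lemma const_of_sum : ∀ (d₁ d₂ d₃ : F4) (a₁ a₂ a₃ : ZMod 2), d₁ ≠ 0 → d₂ ≠ 0 → d₃ ≠ 0 →
    d₁ + d₂ + d₃ = 0 → a₁ * d₁.a + a₂ * d₂.a + a₃ * d₃.a = 0 →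
    a₁ * d₁.b + a₂ * d₂.b + a₃ * d₃.b = 0 → a₁ = a₂ ∧ a₁ = a₃ := by decide

lemma count_out : ∀ d₁ d₂ d₃ x : F4, d₁ ≠ 0 → d₂ ≠ 0 → d₃ ≠ 0 → d₁ + d₂ + d₃ = 0 →
    ((if B d₁ x = 1 then 1 else 0) + (if B d₂ x = 1 then 1 else 0) +
      (if B d₃ x = 1 then 1 else 0) = 0) ∨
    ((if B d₁ x = 1 then 1 else 0) + (if B d₂ x = 1 then 1 else 0) +
      (if B d₃ x = 1 then 1 else 0) = 2) := by decide

lemma count_in : ∀ d s x : F4, d ≠ 0 →
    ((if s = x then 1 else 0) + (if s + d = x then 1 else 0) +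
      (if B d (x + s) = 0 then 1 else 0) = 0) ∨
    ((if s = x then 1 else 0) + (if s + d = x then 1 else 0) +
      (if B d (x + s) = 0 then 1 else 0) = 2) := by decide

lemma count_edge : ∀ d q t : F4, d ≠ 0 → (t = 0 ∨ t = 1) →
    (∑ l : F4, if B d (l + q) = t then 1 else 0) = 2 := by decide

end F4

namespace MGraph

variable {V E : Type} [DecidableEq V] [DecidableEq E] [Fintype V] [Fintype E] {G : MGraph V E}
  {C : Finset E}

lemma card_at (hcub : G.Cubic) (hG : G.Loopless) (u : V) :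
    (Finset.univ.filter fun f => u ∈ G.ends f).card = 3 := by
  rw [← deg_eq_card hG]
  exact hcub u

lemma exists_third (hcub : G.Cubic) (hG : G.Loopless) (hC : G.IsCircuit C) {u : V}
    (hu : G.deg C u ≠ 0) :
    ∃ f, f ∉ C ∧ u ∈ G.ends f ∧ ∀ f', f' ∉ C → u ∈ G.ends f' → f' = f := by
  have h3 := card_at hcub hG u
  have h2 : (C.filter fun f => u ∈ G.ends f).card = 2 := by
    rw [← deg_eq_card hG]
    exact (hC.2.1 u).resolve_left hu
  have hsub : (C.filter fun f => u ∈ G.ends f) ⊆ (Finset.univ.filter fun f => u ∈ G.ends f) :=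
    Finset.filter_subset_filter _ (Finset.subset_univ _)
  have h1 := Finset.card_sdiff_add_card_eq_card hsub
  have h4 : ((Finset.univ.filter fun f => u ∈ G.ends f) \
      (C.filter fun f => u ∈ G.ends f)).card = 1 := by omega
  obtain ⟨f, hf⟩ := Finset.card_eq_one.1 h4
  have hmem : ∀ x, x ∈ ((Finset.univ.filter fun f => u ∈ G.ends f) \
      (C.filter fun f => u ∈ G.ends f)) ↔ x ∉ C ∧ u ∈ G.ends x := by
    intro x
    simp only [Finset.mem_sdiff, Finset.mem_filter, Finset.mem_univ, true_and]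
    tauto
  have hf1 := (hmem f).1 (by rw [hf]; exact Finset.mem_singleton_self _)
  refine ⟨f, hf1.1, hf1.2, fun f' h5 h6 => ?_⟩
  have := (hmem f').2 ⟨h5, h6⟩
  rw [hf] at this
  exact Finset.mem_singleton.1 this

lemma notMem_of_deg_eq_zero {u : V} (hu : G.deg C u = 0) {f : E} (hf : u ∈ G.ends f) : f ∉ C :=
  fun h => deg_eq_zero_iff.1 hu f h hf

/-- Sum over the ends of an edge. -/
lemma sum_ends (hG : G.Loopless) {M : Type} [AddCommMonoid M] (f : E) (w : V → M) {a b : V}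
    (hab : G.ends f = s(a, b)) : ∑ u : V, (if u ∈ G.ends f then w u else 0) = w a + w b := by
  have hne : a ≠ b := by
    rintro rfl
    exact hG f (by rw [hab]; exact Sym2.mk_isDiag_iff.2 rfl)
  rw [← Finset.sum_filter]
  have : (Finset.univ.filter fun u => u ∈ G.ends f) = {a, b} := by
    ext u
    simp [hab, Sym2.mem_iff]
  rw [this, Finset.sum_pair hne]

/-- Double counting of the incidences of the edges outside `C`. -/
lemma double_count (hcub : G.Cubic) (hG : G.Loopless) (hC : G.IsCircuit C)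
    {m : ℕ} {v : ℕ → V} (hV : ∀ i < m, ∀ j < m, v i = v j → i = j)
    (hVC : ∀ u, G.deg C u ≠ 0 ↔ ∃ i < m, v i = u)
    (h : V → E) (hh : ∀ u, G.deg C u ≠ 0 → h u ∉ C ∧ u ∈ G.ends (h u) ∧
      ∀ f', f' ∉ C → u ∈ G.ends f' → f' = h u)
    {I : Type} [DecidableEq I] (κ : E → I) (K : I) (w : V → E → F4) :
    (∑ f : E, if f ∉ C ∧ κ f = K then ∑ u : V, (if u ∈ G.ends f then w u f else 0) else 0) =
    (∑ u : V, if G.deg C u = 0 then ∑ f : E, (if u ∈ G.ends f ∧ κ f = K then w u f else 0)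
      else 0) +
    ∑ k : Fin m, if κ (h (v k)) = K then w (v k) (h (v k)) else 0 := by
  classical
  have h1 : (∑ f : E, if f ∉ C ∧ κ f = K then ∑ u : V, (if u ∈ G.ends f then w u f else 0) else 0)
      = ∑ u : V, ∑ f : E, if (f ∉ C ∧ κ f = K) ∧ u ∈ G.ends f then w u f else 0 := by
    rw [Finset.sum_comm]
    refine Finset.sum_congr rfl fun f _ => ?_
    by_cases hf : f ∉ C ∧ κ f = K
    · rw [if_pos hf]
      refine Finset.sum_congr rfl fun u _ => ?_
      simp only [hf, true_and, not_false_eq_true]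
    · rw [if_neg hf]
      symm
      refine Finset.sum_eq_zero fun u _ => ?_
      rw [if_neg]
      rintro ⟨h', _⟩
      exact hf h'
  rw [h1]
  have h2 : ∀ u : V, (∑ f : E, if (f ∉ C ∧ κ f = K) ∧ u ∈ G.ends f then w u f else 0) =
      (if G.deg C u = 0 then ∑ f : E, (if u ∈ G.ends f ∧ κ f = K then w u f else 0) else 0) +
      (if G.deg C u ≠ 0 then (if κ (h u) = K then w u (h u) else 0) else 0) := by
    intro u
    by_cases hu : G.deg C u = 0
    · rw [if_pos hu, if_neg (not_not.2 hu), add_zero]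
      refine Finset.sum_congr rfl fun f _ => ?_
      by_cases hf : u ∈ G.ends f
      · have := notMem_of_deg_eq_zero hu hf
        simp [hf, this]
      · simp [hf]
    · rw [if_neg hu, if_pos hu, zero_add]
      obtain ⟨h3, h4, h5⟩ := hh u hu
      rw [Finset.sum_eq_single (h u)]
      · simp [h3, h4]
      · intro f _ hf
        rw [if_neg]
        rintro ⟨⟨h6, _⟩, h7⟩
        exact hf (h5 f h6 h7)
      · intro h'
        exact absurd (Finset.mem_univ _) h'
  rw [Finset.sum_congr rfl fun u _ => h2 u, Finset.sum_add_distrib]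
  congr 1
  rw [← Finset.sum_filter]
  symm
  refine Finset.sum_bij (fun (k : Fin m) _ => v k) ?_ ?_ ?_ ?_
  · intro k _
    rw [Finset.mem_filter]
    exact ⟨Finset.mem_univ _, (hVC _).2 ⟨k, k.2, rfl⟩⟩
  · intro k _ l _ hkl
    exact Fin.ext (hV k k.2 l l.2 hkl)
  · intro u hu
    rw [Finset.mem_filter] at hu
    obtain ⟨i, hi, rfl⟩ := (hVC u).1 hu.2
    exact ⟨⟨i, hi⟩, Finset.mem_univ _, rfl⟩
  · intro k _
    rfl

end MGraph

end Pool.Agent.SCDC
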