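import Pool.Agent.Lib_helper95.SCDCMain

/-!
# Strong circuit double covers: the general theorem
-/

set_option linter.unusedSectionVars false

namespace Pool.Agent.SCDC

open F4 Matrix

/-- The first coordinate. -/
def aHom : F4 →+ ZMod 2 where
  toFun := F4.a
  map_zero' := rfl
  map_add' _ _ := rfl

namespace MGraph

variable {V E : Type} [DecidableEq V] [DecidableEq E] [Fintype V] [Fintype E] {G : MGraph V E}
  {C : Finset E}

/-- A sum over the three edges at a vertex. -/
lemma exists_three (hcub : G.Cubic) (hG : G.Loopless) (u : V) :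
    ∃ f₁ f₂ f₃, f₁ ≠ f₂ ∧ f₁ ≠ f₃ ∧ f₂ ≠ f₃ ∧ (∀ f, u ∈ G.ends f ↔ f = f₁ ∨ f = f₂ ∨ f = f₃) ∧
      ∀ {M : Type} [AddCommMonoid M] (w : E → M),
        (∑ f, if u ∈ G.ends f then w f else 0) = w f₁ + w f₂ + w f₃ := by
  obtain ⟨f₁, f₂, f₃, h12, h13, h23, hs⟩ := Finset.card_eq_three.1 (card_at hcub hG u)
  refine ⟨f₁, f₂, f₃, h12, h13, h23, ?_, ?_⟩
  · intro f
    have : f ∈ (Finset.univ.filter fun f => u ∈ G.ends f) ↔ f ∈ ({f₁, f₂, f₃} : Finset E) := by
      rw [hs]
    simpa using this
  · intro M _ w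
    rw [← Finset.sum_filter, hs, Finset.sum_insert, Finset.sum_insert, Finset.sum_singleton,
      add_assoc]
    · simpa using h23
    · simp [h12, h13]

/-- Let `C` be a circuit of a loopless cubic graph such that the remaining edges can be coloured with
the three nonzero elements of `F4` properly at the vertices outside `C` (sum zero at each of
these vertices). Then `C` and four even subgraphs cover every edge exactly twice. -/
theorem exists_even_cover (hcub : G.Cubic) (hG : G.Loopless) (hC : G.IsCircuit C) (g : E → F4)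
    (hg : ∀ f, f ∉ C → g f ≠ 0)
    (hout : ∀ u, G.deg C u = 0 → ∑ f, (if u ∈ G.ends f then g f else 0) = 0) :
    ∃ A : F4 → Finset E, (∀ x u, G.deg (A x) u = 0 ∨ G.deg (A x) u = 2) ∧
      ∀ f, (if f ∈ C then 1 else 0) + ∑ x, (if f ∈ A x then 1 else 0) = 2 := by
  classical
  obtain ⟨m, v, e, hm0, heC, hends, hvp, hep, hVinj, hEinj, hcover, hedge, hne⟩ :=
    circuit_enum hG hC
  have hVC : ∀ u, G.deg C u ≠ 0 ↔ ∃ i < m, v i = u := by
    intro u
    rw [deg_ne_zero_iff]
    constructor
    · rintro ⟨f, hf, hu⟩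
      obtain ⟨i, hi, rfl⟩ := hcover f hf
      rw [hends i, Sym2.mem_iff] at hu
      rcases hu with rfl | rfl
      · exact ⟨i, hi, rfl⟩
      · by_cases h : i + 1 < m
        · exact ⟨i + 1, h, rfl⟩
        · refine ⟨0, hm0, ?_⟩
          have h1 : i + 1 = 0 + m := by omega
          rw [h1, hvp]
    · rintro ⟨i, hi, rfl⟩
      exact ⟨e i, heC i, by rw [hends i]; exact Sym2.mem_mk_left _ _⟩
  have hthird : ∀ u, ∃ f, G.deg C u ≠ 0 → f ∉ C ∧ u ∈ G.ends f ∧
      ∀ f', f' ∉ C → u ∈ G.ends f' → f' = f := by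
    intro u
    by_cases hu : G.deg C u ≠ 0
    · obtain ⟨f, hf⟩ := exists_third hcub hG hC hu
      exact ⟨f, fun _ => hf⟩
    · exact ⟨e 0, fun h => absurd h hu⟩
  choose h hh using hthird
  -- the letters
  let r : E → E → Prop := fun f f' => ∃ u, G.deg C u = 0 ∧ u ∈ G.ends f ∧ u ∈ G.ends f'
  let I := Quot r
  have : Fintype I := Fintype.ofFinite I
  let κ : E → I := Quot.mk r
  have hκ : ∀ u, G.deg C u = 0 → ∀ f f', u ∈ G.ends f → u ∈ G.ends f' → κ f = κ f' :=
    fun u hu f f' hf hf' => Quot.sound ⟨u, hu, hf, hf'⟩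
  -- sums at an outside vertex
  have houtsum : ∀ (w : E → F4) (K : I) (u : V), G.deg C u = 0 → ∃ f₀ : E,
      (∑ f : E, (if u ∈ G.ends f ∧ κ f = K then w f else 0)) =
        if κ f₀ = K then ∑ f : E, (if u ∈ G.ends f then w f else 0) else 0 := by
    intro w K u hu
    obtain ⟨f₁, f₂, f₃, -, -, -, hf, -⟩ := exists_three hcub hG u
    refine ⟨f₁, ?_⟩
    split_ifs with hK
    · refine Finset.sum_congr rfl fun f _ => ?_
      by_cases h1 : u ∈ G.ends f
      · have : κ f = K := (hκ u hu f f₁ h1 ((hf f₁).2 (Or.inl rfl))).trans hK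
        simp [h1, this]
      · simp [h1]
    · refine Finset.sum_eq_zero fun f _ => ?_
      rw [if_neg]
      rintro ⟨h1, h2⟩
      exact hK ((hκ u hu f₁ f ((hf f₁).2 (Or.inl rfl)) h1).trans h2)
  have hsum : ∀ K : I, ∑ k : Fin m, (if κ (h (v k)) = K then g (h (v k)) else 0) = 0 := by
    intro K
    have h1 := double_count hcub hG hC hVinj hVC h hh κ K (fun _ f => g f)
    have h2 : (∑ f : E, if f ∉ C ∧ κ f = K then ∑ u : V, (if u ∈ G.ends f then g f else 0)
        else 0) = 0 := by
      refine Finset.sum_eq_zero fun f _ => ?_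
      split_ifs
      · obtain ⟨a, ha⟩ := exists_end (G := G) f
        obtain ⟨b, hb⟩ := ha
        rw [sum_ends hG f (fun _ => g f) hb]
        exact F4.add_self _
      · rfl
    have h3 : (∑ u : V, if G.deg C u = 0 then
        ∑ f : E, (if u ∈ G.ends f ∧ κ f = K then g f else 0) else 0) = 0 := by
      refine Finset.sum_eq_zero fun u _ => ?_
      split_ifs with hu
      · obtain ⟨f₀, hf₀⟩ := houtsum g K u hu
        rw [hf₀, hout u hu]
        simp
      · rfl
    rw [h2, h3, zero_add] at h1
    exact h1.symm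
  obtain ⟨c, hc, hcond⟩ := exists_colouring (I := I) (P := Fin m) (κ := fun k => κ (h (v k)))
    (g := fun k => g (h (v k)))
    (fun k => hg _ (hh _ ((hVC _).2 ⟨k, k.2, rfl⟩)).1) hsum
  -- colours of the edges outside `C`
  let d : E → F4 := fun f => g f * c (κ f)
  have hd : ∀ f, f ∉ C → d f ≠ 0 := fun f hf => mul_ne_zero (hg f hf) (hc _)
  have hdout : ∀ u, G.deg C u = 0 → ∑ f, (if u ∈ G.ends f then d f else 0) = 0 := by
    intro u hu
    obtain ⟨f₁, f₂, f₃, -, -, -, hf, hfs⟩ := exists_three hcub hG u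
    have h1 := hout u hu
    rw [hfs] at h1 ⊢
    change g f₁ * c (κ f₁) + g f₂ * c (κ f₂) + g f₃ * c (κ f₃) = 0
    rw [hκ u hu f₂ f₁ ((hf f₂).2 (by simp)) ((hf f₁).2 (by simp)),
      hκ u hu f₃ f₁ ((hf f₃).2 (by simp)) ((hf f₁).2 (by simp)), ← add_mul, ← add_mul, h1, zero_mul]
  -- the potentials
  let S : ℕ → F4 := fun i => ∑ l : Fin m, if (l : ℕ) < i then d (h (v l)) else 0
  have hS0 : S 0 = 0 := by simp [S]
  have hSm : S m = 0 := by
    have h1 : S m = ∑ l : Fin m, d (h (v l)) := by
      refine Finset.sum_congr rfl fun l _ => ?_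
      rw [if_pos l.2]
    rw [h1]
    have h2 : ∀ l : Fin m, d (h (v l)) =
        ∑ K : I, (if κ (h (v l)) = K then g (h (v l)) else 0) * c K := by
      intro l
      rw [Finset.sum_eq_single (κ (h (v l)))]
      · rw [if_pos rfl]
      · intro K _ hK
        rw [if_neg (Ne.symm hK), zero_mul]
      · intro h'
        exact absurd (Finset.mem_univ _) h'
    rw [Finset.sum_congr rfl fun l _ => h2 l, Finset.sum_comm]
    refine Finset.sum_eq_zero fun K _ => ?_
    rw [← Finset.sum_mul, hsum, zero_mul]
  have hSsucc : ∀ i < m, S (i + 1) = S i + d (h (v i)) := by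
    intro i hi
    have h1 : ∀ l : Fin m, (if (l : ℕ) < i + 1 then d (h (v l)) else 0) =
        (if (l : ℕ) < i then d (h (v l)) else 0) + (if l = ⟨i, hi⟩ then d (h (v i)) else 0) := by
      intro l
      rcases lt_trichotomy (l : ℕ) i with h2 | h2 | h2
      · have : l ≠ ⟨i, hi⟩ := fun h' => by
          rw [h'] at h2
          exact lt_irrefl _ h2
        simp [h2, this, Nat.lt_succ_of_lt h2]
      · have : l = ⟨i, hi⟩ := Fin.ext h2
        simp [this]
      · have h3 : l ≠ ⟨i, hi⟩ := fun h' => by
          rw [h'] at h2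
          exact lt_irrefl _ h2
        have h4 : ¬ ((l : ℕ) < i + 1) := by omega
        have h5 : ¬ ((l : ℕ) < i) := by omega
        simp [h3, h4, h5]
    change ∑ l : Fin m, (if (l : ℕ) < i + 1 then d (h (v l)) else 0) = _
    rw [Finset.sum_congr rfl fun l _ => h1 l, Finset.sum_add_distrib, Finset.sum_ite_eq']
    simp [S]
  have hlab : ∃ lab : E → F4, ∀ i < m, lab (e i) = S (i + 1) := by
    refine ⟨fun f => if hf : f ∈ C then S ((hcover f hf).choose + 1) else 0, ?_⟩
    intro i hi
    simp only
    rw [dif_pos (heC i)]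
    have h1 := (hcover (e i) (heC i)).choose_spec
    rw [hEinj _ h1.1 i hi h1.2]
  obtain ⟨lab, hlab⟩ := hlab
  have hp : ∃ p : V → F4, ∀ i < m, p (v i) = S i := by
    refine ⟨fun u => if hu : G.deg C u ≠ 0 then S (((hVC u).1 hu).choose) else 0, ?_⟩
    intro i hi
    have h1 : G.deg C (v i) ≠ 0 := (hVC _).2 ⟨i, hi, rfl⟩
    simp only
    rw [dif_pos h1]
    have h2 := ((hVC (v i)).1 h1).choose_spec
    rw [hVinj _ h2.1 i hi h2.2]
  obtain ⟨p, hp⟩ := hp
  -- the situation at a vertex of `C`
  have hin : ∀ u, G.deg C u ≠ 0 → ∃ f₁ f₂, f₁ ∈ C ∧ f₂ ∈ C ∧ f₁ ≠ f₂ ∧ u ∈ G.ends f₁ ∧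
      u ∈ G.ends f₂ ∧ (∀ f ∈ C, u ∈ G.ends f → f = f₁ ∨ f = f₂) ∧ lab f₁ = p u ∧
      lab f₂ = p u + d (h u) := by
    intro u hu
    obtain ⟨i, hi, rfl⟩ := (hVC u).1 hu
    have h1 : i + m - 1 + 1 = i + m := by omega
    refine ⟨e (i + m - 1), e i, heC _, heC _, ?_, ?_, ?_, ?_, ?_, ?_⟩
    · have := hne (i + m - 1)
      rw [h1, hep] at this
      exact this
    · rw [hends, h1, hvp]
      exact Sym2.mem_mk_right _ _
    · rw [hends]
      exact Sym2.mem_mk_left _ _
    · intro f hf hfu
      have := hedge (i + m - 1) f hf (by rw [h1, hvp]; exact hfu)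
      rw [h1, hep] at this
      exact this
    · rw [hp i hi]
      by_cases h0 : i = 0
      · subst h0
        have h2 : 0 + m - 1 = m - 1 := by omega
        rw [h2, hlab (m - 1) (by omega), show m - 1 + 1 = m by omega, hSm, hS0]
      · have h2 : i + m - 1 = (i - 1) + m := by omega
        rw [h2, hep, hlab (i - 1) (by omega), show i - 1 + 1 = i by omega]
    · rw [hp i hi, hlab i hi, hSsucc i hi]
  -- the condition on the letters
  have hcond' : ∀ K : I, ∑ k : Fin m, (if κ (h (v k)) = K then B (d (h (v k))) (p (v k)) else 0) =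
      ∑ k : Fin m, (if κ (h (v k)) = K then (1 : F4) else 0) := by
    intro K
    rw [← hcond K]
    refine Finset.sum_congr rfl fun k _ => ?_
    split_ifs with hk
    · rw [hp k k.2, ← hk]
      rfl
    · rfl
  -- the right hand sides
  let ω : V → E → F4 := fun u f => if G.deg C u = 0 then 1 else B (d f) (p u)
  let ρ : E → F4 := fun f => ∑ u : V, if u ∈ G.ends f then ω u f else 0
  have hρ : ∀ K : I, (∑ f : E, if f ∉ C ∧ κ f = K then ρ f else 0) = 0 := by
    intro K
    have h1 := double_count hcub hG hC hVinj hVC h hh κ K ω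
    have h2 := double_count hcub hG hC hVinj hVC h hh κ K (fun _ _ => (1 : F4))
    have h3 : (∑ f : E, if f ∉ C ∧ κ f = K then ∑ u : V, (if u ∈ G.ends f then (1 : F4) else 0)
        else 0) = 0 := by
      refine Finset.sum_eq_zero fun f _ => ?_
      split_ifs
      · obtain ⟨a, ha⟩ := exists_end (G := G) f
        obtain ⟨b, hb⟩ := ha
        rw [sum_ends hG f (fun _ => (1 : F4)) hb]
        exact F4.add_self _
      · rfl
    rw [h3] at h2
    have h4 : (∑ u : V, if G.deg C u = 0 then
        ∑ f : E, (if u ∈ G.ends f ∧ κ f = K then ω u f else 0) else 0) =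
        (∑ u : V, if G.deg C u = 0 then
        ∑ f : E, (if u ∈ G.ends f ∧ κ f = K then (1 : F4) else 0) else 0) := by
      refine Finset.sum_congr rfl fun u _ => ?_
      split_ifs with hu
      · refine Finset.sum_congr rfl fun f _ => ?_
        simp only [ω, hu, if_true]
      · rfl
    have h5 : (∑ k : Fin m, if κ (h (v k)) = K then ω (v k) (h (v k)) else 0) =
        ∑ k : Fin m, (if κ (h (v k)) = K then (1 : F4) else 0) := by
      rw [← hcond' K]
      refine Finset.sum_congr rfl fun k _ => ?_
      have : G.deg C (v k) ≠ 0 := (hVC _).2 ⟨k, k.2, rfl⟩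
      simp only [ω, this, if_false]
    change (∑ f : E, if f ∉ C ∧ κ f = K then ρ f else 0) = _ at h1
    rw [h1, h4, h5, ← h2]
  have hρb : ∀ f, (ρ f).b = 0 := by
    intro f
    obtain ⟨a, ha⟩ := exists_end (G := G) f
    obtain ⟨b, hb⟩ := ha
    have h1 : ρ f = ω a f + ω b f := sum_ends hG f (fun u => ω u f) hb
    have h2 : ∀ u, (ω u f).b = 0 := by
      intro u
      simp only [ω]
      split_ifs
      · rfl
      · rw [B_eq]
    rw [h1]
    change (ω a f).b + (ω b f).b = 0
    rw [h2, h2, add_zero]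
  -- Fredholm
  let M : Matrix E (V × Bool) (ZMod 2) := fun f ub =>
    if f ∉ C ∧ G.deg C ub.1 = 0 ∧ ub.1 ∈ G.ends f then (if ub.2 then (d f).a else (d f).b) else 0
  obtain ⟨y, hy⟩ := fredholm M (fun f => if f ∉ C then (ρ f).a else 0) (by
    intro a ha
    have hconst : ∀ f f', r f f' → a f = a f' := by
      rintro f f' ⟨u, hu, hf, hf'⟩
      obtain ⟨f₁, f₂, f₃, -, -, -, hfe, hfs⟩ := exists_three hcub hG u
      have hnot : ∀ f, u ∈ G.ends f → f ∉ C := fun f hf => notMem_of_deg_eq_zero hu hf
      have hM : ∀ b : Bool, (∑ f, if u ∈ G.ends f then a f * (if b then (d f).a else (d f).b)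
          else 0) = 0 := by
        intro b
        have h1 : ∑ f, a f * M f (u, b) = 0 := congrFun ha (u, b)
        refine Eq.trans (Finset.sum_congr rfl fun f _ => ?_) h1
        simp only [M]
        by_cases h2 : u ∈ G.ends f
        · simp [h2, hu, hnot f h2]
        · simp [h2]
      have h1 := hM true
      have h2 := hM false
      rw [hfs] at h1 h2
      simp only [if_true, Bool.false_eq_true, if_false] at h1 h2
      have h3 := hdout u hu
      rw [hfs] at h3
      have h4 := const_of_sum _ _ _ _ _ _ (hd _ (hnot f₁ ((hfe f₁).2 (by simp))))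
        (hd _ (hnot f₂ ((hfe f₂).2 (by simp)))) (hd _ (hnot f₃ ((hfe f₃).2 (by simp)))) h3 h1 h2
      have h5 : ∀ f, u ∈ G.ends f → a f₁ = a f := by
        intro f hf
        rcases (hfe f).1 hf with h6 | h6 | h6
        · rw [h6]
        · rw [h6]
          exact h4.1
        · rw [h6]
          exact h4.2
      exact (h5 f hf).symm.trans (h5 f' hf')
    let a' : I → ZMod 2 := Quot.lift a hconst
    have h1 : ∀ f, a f * (if f ∉ C then (ρ f).a else 0) =
        ∑ K : I, a' K * aHom (if f ∉ C ∧ κ f = K then ρ f else 0) := by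
      intro f
      rw [Finset.sum_eq_single (κ f)]
      · change a f * _ = a f * _
        congr 1
        by_cases hf : f ∉ C
        · rw [if_pos hf, if_pos ⟨hf, rfl⟩]
          rfl
        · rw [if_neg hf, if_neg (fun h' => hf h'.1)]
          rfl
      · intro K _ hK
        rw [if_neg (fun h' => hK h'.2.symm), map_zero, mul_zero]
      · intro h'
        exact absurd (Finset.mem_univ _) h'
    change ∑ f, a f * (if f ∉ C then (ρ f).a else 0) = 0
    rw [Finset.sum_congr rfl fun f _ => h1 f, Finset.sum_comm]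
    refine Finset.sum_eq_zero fun K _ => ?_
    rw [← Finset.mul_sum, ← map_sum, hρ K, map_zero, mul_zero])
  let l : V → F4 := fun u => ⟨y (u, false), y (u, true)⟩
  have hl : ∀ f, f ∉ C → (∑ u, if u ∈ G.ends f then (if G.deg C u = 0 then B (d f) (l u) else 0)
      else 0) = ρ f := by
    intro f hf
    have h1 : (M *ᵥ y) f = if f ∉ C then (ρ f).a else 0 := congrFun hy f
    rw [if_pos hf] at h1
    have h2 : aHom (∑ u, if u ∈ G.ends f then (if G.deg C u = 0 then B (d f) (l u) else 0)
      else 0) = (ρ f).a := by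
      rw [← h1, map_sum]
      change _ = ∑ ub : V × Bool, M f ub * y ub
      rw [Fintype.sum_prod_type]
      refine Finset.sum_congr rfl fun u _ => ?_
      rw [Fintype.sum_bool]
      simp only [M]
      by_cases h3 : u ∈ G.ends f
      · by_cases h4 : G.deg C u = 0
        · simp only [h3, h4, hf, not_false_eq_true, and_self, if_true, Bool.false_eq_true,
            if_false]
          rw [B_eq]
          rfl
        · simp [h3, h4]
      · simp [h3]
    have h5 : (∑ u, if u ∈ G.ends f then (if G.deg C u = 0 then B (d f) (l u) else 0)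
      else 0).b = 0 := by
      obtain ⟨a, ha⟩ := exists_end (G := G) f
      obtain ⟨b, hb⟩ := ha
      rw [sum_ends hG f (fun u => if G.deg C u = 0 then B (d f) (l u) else 0) hb]
      have h6 : ∀ u, (if G.deg C u = 0 then B (d f) (l u) else 0).b = 0 := by
        intro u
        split_ifs
        · rw [B_eq]
        · rfl
      change (if G.deg C a = 0 then B (d f) (l a) else 0).b +
        (if G.deg C b = 0 then B (d f) (l b) else 0).b = 0
      rw [h6, h6, add_zero]
    exact F4.ext h2 (h5.trans (hρb f).symm)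
  -- the points and types of the vertices
  let q : V → F4 := fun u => if G.deg C u = 0 then l u else p u
  let τ : V → F4 := fun u => if G.deg C u = 0 then 1 else 0
  have hτ : ∀ u, τ u = 0 ∨ τ u = 1 := by
    intro u
    simp only [τ]
    split_ifs
    · exact Or.inr rfl
    · exact Or.inl rfl
  have hq : ∀ f, f ∉ C → ∀ a b, G.ends f = s(a, b) →
      B (d f) (q a) + B (d f) (q b) = τ a + τ b := by
    intro f hf a b hab
    have h1 := hl f hf
    rw [sum_ends hG f (fun u => if G.deg C u = 0 then B (d f) (l u) else 0) hab] at h1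
    have h2 : ρ f = ω a f + ω b f := sum_ends hG f (fun u => ω u f) hab
    rw [h2] at h1
    simp only [ω] at h1
    simp only [q, τ]
    have h3 := F4.add_self (B (d f) (p a))
    have h4 := F4.add_self (B (d f) (p b))
    split_ifs at h1 ⊢ with h5 h6 h6
    · exact h1
    · linear_combination h1 + h4
    · linear_combination h1 + h3
    · linear_combination (-1 : F4) * h1
  have hmem : ∀ f, f ∉ C → ∀ x a b, a ∈ G.ends f → b ∈ G.ends f →
      (B (d f) (x + q a) = τ a ↔ B (d f) (x + q b) = τ b) := by
    intro f hf x a b ha hb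
    by_cases hab : a = b
    · rw [hab]
    · have h1 := hq f hf a b ((Sym2.mem_and_mem_iff hab).1 ⟨ha, hb⟩)
      rw [B_add_right, B_add_right]
      have h2 := F4.add_self (B (d f) (q a))
      have h3 := F4.add_self (B (d f) (q b))
      have h4 := F4.add_self (τ a)
      have h5 := F4.add_self (τ b)
      constructor
      · intro h6
        linear_combination h6 + h1 - h2 + h4
      · intro h6
        linear_combination h6 + h1 - h3 + h5
  -- the four even subgraphs
  let A : F4 → Finset E := fun x => Finset.univ.filter fun f =>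
    (f ∈ C ∧ lab f = x) ∨ (f ∉ C ∧ ∀ u ∈ G.ends f, B (d f) (x + q u) = τ u)
  have hAC : ∀ x f, f ∈ C → (f ∈ A x ↔ lab f = x) := by
    intro x f hf
    simp [A, hf]
  have hAn : ∀ x f u, f ∉ C → u ∈ G.ends f → (f ∈ A x ↔ B (d f) (x + q u) = τ u) := by
    intro x f u hf hu
    simp only [A, Finset.mem_filter, Finset.mem_univ, true_and, hf, false_and, false_or,
      not_false_eq_true]
    constructor
    · intro h1
      exact h1 u hu
    · intro h1 b hb
      exact (hmem f hf x u b hu hb).1 h1
  have hdegA : ∀ x u, G.deg (A x) u = ∑ f, if u ∈ G.ends f then (if f ∈ A x then 1 else 0)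
      else 0 := by
    intro x u
    rw [deg_eq_card hG, Finset.card_eq_sum_ones, Finset.sum_filter]
    rw [← Finset.sum_filter_add_sum_filter_not (s := (Finset.univ : Finset E)) (fun f => f ∈ A x)]
    have h1 : (∑ f with f ∉ A x, if u ∈ G.ends f then (if f ∈ A x then 1 else 0) else 0) = 0 := by
      refine Finset.sum_eq_zero fun f hf => ?_
      have : f ∉ A x := (Finset.mem_filter.1 hf).2
      simp [this]
    rw [h1, add_zero]
    have h2 : (Finset.univ.filter fun f => f ∈ A x) = A x := by
      ext f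
      simp
    rw [h2]
    refine Finset.sum_congr rfl fun f hf => ?_
    simp [hf]
  refine ⟨A, ?_, ?_⟩
  · intro x u
    rw [hdegA]
    by_cases hu : G.deg C u = 0
    · obtain ⟨f₁, f₂, f₃, -, -, -, hfe, hfs⟩ := exists_three hcub hG u
      have hnot : ∀ f, u ∈ G.ends f → f ∉ C := fun f hf => notMem_of_deg_eq_zero hu hf
      rw [hfs]
      have hm : ∀ f, u ∈ G.ends f → ((if f ∈ A x then 1 else 0) =
          if B (d f) (x + q u) = 1 then 1 else 0) := by
        intro f hf
        have h1 := hAn x f u (hnot f hf) hf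
        have h2 : τ u = 1 := by simp [τ, hu]
        rw [h2] at h1
        simp only [h1]
      have e1 := (hfe f₁).2 (by simp)
      have e2 := (hfe f₂).2 (by simp)
      have e3 := (hfe f₃).2 (by simp)
      rw [hm f₁ e1, hm f₂ e2, hm f₃ e3]
      have h3 := hdout u hu
      rw [hfs] at h3
      exact count_out _ _ _ _ (hd _ (hnot _ e1)) (hd _ (hnot _ e2)) (hd _ (hnot _ e3)) h3
    · obtain ⟨f₁, f₂, hf₁, hf₂, hne12, hu₁, hu₂, hall, hl₁, hl₂⟩ := hin u hu
      obtain ⟨h3C, hu₃, huniq⟩ := hh u hu
      have h13 : f₁ ≠ h u := fun h' => h3C (h' ▸ hf₁)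
      have h23 : f₂ ≠ h u := fun h' => h3C (h' ▸ hf₂)
      have hs : (Finset.univ.filter fun f => u ∈ G.ends f) = {f₁, f₂, h u} := by
        ext f
        simp only [Finset.mem_filter, Finset.mem_univ, true_and, Finset.mem_insert,
          Finset.mem_singleton]
        constructor
        · intro hf
          by_cases hfC : f ∈ C
          · rcases hall f hfC hf with h' | h'
            · exact Or.inl h'
            · exact Or.inr (Or.inl h')
          · exact Or.inr (Or.inr (huniq f hfC hf))
        · rintro (rfl | rfl | rfl)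
          · exact hu₁
          · exact hu₂
          · exact hu₃
      rw [← Finset.sum_filter, hs, Finset.sum_insert (by simp [hne12, h13]),
        Finset.sum_insert (by simp [h23]), Finset.sum_singleton, ← add_assoc]
      have e1 : (if f₁ ∈ A x then 1 else 0) = if p u = x then 1 else 0 := by
        simp only [hAC x f₁ hf₁, hl₁]
      have e2 : (if f₂ ∈ A x then 1 else 0) = if p u + d (h u) = x then 1 else 0 := by
        simp only [hAC x f₂ hf₂, hl₂]
      have e3 : (if h u ∈ A x then 1 else 0) = if B (d (h u)) (x + p u) = 0 then 1 else 0 := by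
        have h1 := hAn x (h u) u h3C hu₃
        have h2 : τ u = 0 := by simp [τ, hu]
        have h3 : q u = p u := by simp [q, hu]
        rw [h2, h3] at h1
        simp only [h1]
      rw [e1, e2, e3]
      exact count_in _ _ _ (hd _ h3C)
  · intro f
    by_cases hf : f ∈ C
    · rw [if_pos hf]
      have : (∑ x, if f ∈ A x then 1 else 0) = 1 := by
        rw [Finset.sum_congr rfl fun x _ => by rw [if_congr (hAC x f hf) rfl rfl]]
        rw [Finset.sum_ite_eq]
        simp
      rw [this]
    · rw [if_neg hf, zero_add]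
      obtain ⟨u, hu⟩ := exists_end (G := G) f
      rw [Finset.sum_congr rfl fun x _ => by rw [if_congr (hAn x f u hf hu) rfl rfl]]
      exact count_edge _ _ _ (hd f hf) (hτ u)

/-- The three colours. -/
def col : Fin 3 → F4 := ![1, ⟨0, 1⟩, ⟨1, 1⟩]

lemma col_ne_zero : ∀ i, col i ≠ 0 := by decide

lemma col_sum : ∀ i j k : Fin 3, i ≠ j → i ≠ k → j ≠ k → col i + col j + col k = 0 := by decide

/-- Let `C` be a circuit of a loopless cubic graph such that the graph obtained by deleting the
edges of `C` has a proper 3-edge-colouring. Then there are four edge sets `A 0, …, A 3` with all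
degrees 0 or 2 such that every edge lies in exactly two of `C, A 0, …, A 3`. -/
theorem exists_five_cover (hcub : G.Cubic) (hG : G.Loopless) (hC : G.IsCircuit C)
    (hcol : ∃ φ : E → Fin 3, ∀ f f' u, f ∉ C → f' ∉ C → f ≠ f' → u ∈ G.ends f →
      u ∈ G.ends f' → φ f ≠ φ f') :
    ∃ A : Fin 4 → Finset E, (∀ i u, G.deg (A i) u = 0 ∨ G.deg (A i) u = 2) ∧
      ∀ f, (if f ∈ C then 1 else 0) + ∑ i, (if f ∈ A i then 1 else 0) = 2 := by
  obtain ⟨φ, hφ⟩ := hcol
  obtain ⟨A, hA, hA'⟩ := exists_even_cover hcub hG hC (fun f => col (φ f))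
    (fun f _ => col_ne_zero _) (by
      intro u hu
      obtain ⟨f₁, f₂, f₃, h12, h13, h23, hfe, hfs⟩ := exists_three hcub hG u
      have hnot : ∀ f, u ∈ G.ends f → f ∉ C := fun f hf => notMem_of_deg_eq_zero hu hf
      have e1 := (hfe f₁).2 (by simp)
      have e2 := (hfe f₂).2 (by simp)
      have e3 := (hfe f₃).2 (by simp)
      rw [hfs]
      exact col_sum _ _ _ (hφ _ _ u (hnot _ e1) (hnot _ e2) h12 e1 e2)
        (hφ _ _ u (hnot _ e1) (hnot _ e3) h13 e1 e3) (hφ _ _ u (hnot _ e2) (hnot _ e3) h23 e2 e3))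
  have hcard : Fintype.card F4 = Fintype.card (Fin 4) := by decide
  let ι : Fin 4 ≃ F4 := (Fintype.equivOfCardEq hcard).symm
  refine ⟨fun i => A (ι i), fun i u => hA (ι i) u, fun f => ?_⟩
  rw [← hA' f]
  congr 1
  exact ι.sum_comp (fun x => if f ∈ A x then 1 else 0)

/-- A 2-edge-connected cubic graph has no loops. -/
lemma loopless (hcub : G.Cubic) (h2 : G.TwoEdgeConnected) : G.Loopless := by
  intro e he
  obtain ⟨v, hv⟩ : ∃ v, G.ends e = s(v, v) := by
    induction h : G.ends e with
    | _ a b =>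
      rw [h] at he
      have := Sym2.mk_isDiag_iff.1 he
      subst this
      exact ⟨a, rfl⟩
  have h3 := hcub v
  unfold deg at h3
  have he1 : e ∈ Finset.univ.filter fun f => v ∈ G.ends f := by
    simp [hv]
  have he2 : e ∈ Finset.univ.filter fun f => G.ends f = s(v, v) := by
    simp [hv]
  have hsub : (Finset.univ.filter fun f => G.ends f = s(v, v)) ⊆
      Finset.univ.filter fun f => v ∈ G.ends f := by
    intro f hf
    rw [Finset.mem_filter] at hf ⊢
    exact ⟨hf.1, by rw [hf.2]; exact Sym2.mem_mk_left _ _⟩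
  have hle := Finset.card_le_card hsub
  have hpos : 0 < (Finset.univ.filter fun f => G.ends f = s(v, v)).card :=
    Finset.card_pos.2 ⟨e, he2⟩
  have hc1 : (Finset.univ.filter fun f => G.ends f = s(v, v)).card = 1 := by omega
  have hc2 : (Finset.univ.filter fun f => v ∈ G.ends f).card = 2 := by omega
  obtain ⟨a, b, hab, hs⟩ := Finset.card_eq_two.1 hc2
  -- the other edge at `v`
  have hother : ∃ f, f ≠ e ∧ v ∈ G.ends f ∧ ∀ f', v ∈ G.ends f' → f' = e ∨ f' = f := by
    have h4 : ∀ f, v ∈ G.ends f ↔ f = a ∨ f = b := by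
      intro f
      have : f ∈ (Finset.univ.filter fun f => v ∈ G.ends f) ↔ f ∈ ({a, b} : Finset E) := by rw [hs]
      simpa using this
    have h5 := (h4 e).1 (by simp [hv])
    rcases h5 with h5 | h5
    · exact ⟨b, fun h => hab (by rw [← h5, ← h]), (h4 b).2 (Or.inr rfl), fun f' hf' => by
        rcases (h4 f').1 hf' with h6 | h6
        · exact Or.inl (h6.trans h5.symm)
        · exact Or.inr h6⟩
    · exact ⟨a, fun h => hab (by rw [← h5, ← h]), (h4 a).2 (Or.inl rfl), fun f' hf' => by
        rcases (h4 f').1 hf' with h6 | h6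
        · exact Or.inr h6
        · exact Or.inl (h6.trans h5.symm)⟩
  obtain ⟨f, hfe, hvf, hall⟩ := hother
  obtain ⟨w, hw⟩ := hvf
  have hwv : w ≠ v := by
    rintro rfl
    have : f ∈ Finset.univ.filter fun f => G.ends f = s(w, w) := by simp [hw]
    obtain ⟨c, hc⟩ := Finset.card_eq_one.1 hc1
    rw [hc, Finset.mem_singleton] at this he2
    exact hfe (this.trans he2.symm)
  have hreach := h2.2 f v w
  have hstay : ∀ u, G.Reach (Finset.univ.erase f) v u → u = v := by
    intro u hu
    induction hu with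
    | refl => rfl
    | @tail b c _ hbc ih =>
      obtain ⟨f', hf', hbc'⟩ := hbc
      rw [ih] at hbc'
      rcases hall f' (by rw [hbc']; exact Sym2.mem_mk_left _ _) with h6 | h6
      · rw [h6, hv] at hbc'
        rcases Sym2.eq_iff.1 hbc' with ⟨_, h7⟩ | ⟨h7, _⟩
        · exact h7.symm
        · exact h7.symm
      · rw [h6] at hf'
        exact absurd hf' (Finset.notMem_erase _ _)
  exact hwv (hstay w hreach)

/-- If exactly two vertices lie outside the circuit `C` then the graph without the edges of `C`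
has a proper 3-edge-colouring. -/
lemma exists_edge_colouring (hcub : G.Cubic) (hG : G.Loopless) (hC : G.IsCircuit C)
    (hlen : C.card + 2 = Fintype.card V) :
    ∃ φ : E → Fin 3, ∀ f f' u, f ∉ C → f' ∉ C → f ≠ f' → u ∈ G.ends f →
      u ∈ G.ends f' → φ f ≠ φ f' := by
  classical
  obtain ⟨m, v, e, hm0, heC, hends, hvp, hep, hVinj, hEinj, hcover, hedge, hne⟩ :=
    circuit_enum hG hC
  have hVC : ∀ u, G.deg C u ≠ 0 ↔ ∃ i < m, v i = u := by
    intro u
    rw [deg_ne_zero_iff]
    constructor
    · rintro ⟨f, hf, hu⟩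
      obtain ⟨i, hi, rfl⟩ := hcover f hf
      rw [hends i, Sym2.mem_iff] at hu
      rcases hu with rfl | rfl
      · exact ⟨i, hi, rfl⟩
      · by_cases h : i + 1 < m
        · exact ⟨i + 1, h, rfl⟩
        · refine ⟨0, hm0, ?_⟩
          have h1 : i + 1 = 0 + m := by omega
          rw [h1, hvp]
    · rintro ⟨i, hi, rfl⟩
      exact ⟨e i, heC i, by rw [hends i]; exact Sym2.mem_mk_left _ _⟩
  have hCm : C.card = m := by
    have h1 : C = (Finset.range m).image e := by
      ext f
      rw [Finset.mem_image]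
      constructor
      · intro hf
        obtain ⟨i, hi, h⟩ := hcover f hf
        exact ⟨i, Finset.mem_range.2 hi, h⟩
      · rintro ⟨i, _, rfl⟩
        exact heC i
    rw [h1, Finset.card_image_of_injOn, Finset.card_range]
    intro i hi j hj hij
    exact hEinj i (Finset.mem_range.1 hi) j (Finset.mem_range.1 hj) hij
  have hVm : (Finset.univ.filter fun u => G.deg C u ≠ 0).card = m := by
    have h1 : (Finset.univ.filter fun u => G.deg C u ≠ 0) = (Finset.range m).image v := by
      ext u
      rw [Finset.mem_filter, Finset.mem_image, hVC]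
      simp
    rw [h1, Finset.card_image_of_injOn, Finset.card_range]
    intro i hi j hj hij
    exact hVinj i (Finset.mem_range.1 hi) j (Finset.mem_range.1 hj) hij
  have hout : (Finset.univ.filter fun u => G.deg C u = 0).card = 2 := by
    have h1 := Finset.card_filter_add_card_filter_not (s := (Finset.univ : Finset V))
      (fun u => G.deg C u = 0)
    rw [Finset.card_univ] at h1
    have h2 : (Finset.univ.filter fun u => ¬ G.deg C u = 0).card = m := hVm
    omega
  obtain ⟨x, y, hxy, hs⟩ := Finset.card_eq_two.1 hout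
  have houtside : ∀ u, G.deg C u = 0 → u = x ∨ u = y := by
    intro u hu
    have : u ∈ Finset.univ.filter fun u => G.deg C u = 0 := by simp [hu]
    rw [hs] at this
    simpa using this
  -- at a vertex of `C` there is only one edge outside `C`
  have hone : ∀ u, G.deg C u ≠ 0 → ∀ f f', f ∉ C → f' ∉ C → u ∈ G.ends f → u ∈ G.ends f' →
      f = f' := by
    intro u hu f f' hf hf' huf huf'
    obtain ⟨h, _, _, h3⟩ := exists_third hcub hG hC hu
    rw [h3 f hf huf, h3 f' hf' huf']
  -- colouring at `x`
  let δ : V → Finset E := fun u => Finset.univ.filter fun f => u ∈ G.ends f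
  have hδ : ∀ u, (δ u).card = 3 := fun u => card_at hcub hG u
  have hψ : ∃ ψ : E → Fin 3, ∀ f ∈ δ x, ∀ f' ∈ δ x, ψ f = ψ f' → f = f' := by
    have h1 : Fintype.card (δ x) = Fintype.card (Fin 3) := by
      rw [Fintype.card_coe, hδ x, Fintype.card_fin]
    let ι := Fintype.equivOfCardEq h1
    refine ⟨fun f => if hf : f ∈ δ x then ι ⟨f, hf⟩ else 0, ?_⟩
    intro f hf f' hf' h
    simp only [dif_pos hf, dif_pos hf'] at h
    have := ι.injective h
    exact congrArg Subtype.val this
  obtain ⟨ψ, hψ⟩ := hψ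
  obtain ⟨ι, hι⟩ := Finset.exists_equiv_extend_of_card_eq (α := δ y) (β := Fin 3)
    (t := Finset.univ) (by rw [Fintype.card_coe, hδ y, Finset.card_univ, Fintype.card_fin])
    (s := Finset.univ.filter fun f : δ y => (f : E) ∈ δ x) (f := fun f => ψ f)
    (Finset.subset_univ _) (by
      intro f hf f' hf' h
      have h1 : (f : E) ∈ δ x := by simpa using hf
      have h2 : (f' : E) ∈ δ x := by simpa using hf'
      exact Subtype.ext (hψ f h1 f' h2 h))
  let φ : E → Fin 3 := fun f => if hf : f ∈ δ y then (ι ⟨f, hf⟩ : Fin 3) else ψ f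
  have hφy : ∀ f ∈ δ y, ∀ f' ∈ δ y, φ f = φ f' → f = f' := by
    intro f hf f' hf' h
    simp only [φ, dif_pos hf, dif_pos hf'] at h
    have := ι.injective (Subtype.ext h)
    exact congrArg Subtype.val this
  have hφx : ∀ f ∈ δ x, φ f = ψ f := by
    intro f hf
    by_cases hfy : f ∈ δ y
    · simp only [φ, dif_pos hfy]
      exact hι ⟨f, hfy⟩ (by simpa using hf)
    · simp only [φ, dif_neg hfy]
  refine ⟨φ, ?_⟩
  intro f f' u hf hf' hne huf huf' h
  by_cases hu : G.deg C u = 0
  · have m1 : f ∈ δ u := Finset.mem_filter.2 ⟨Finset.mem_univ _, huf⟩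
    have m2 : f' ∈ δ u := Finset.mem_filter.2 ⟨Finset.mem_univ _, huf'⟩
    rcases houtside u hu with rfl | rfl
    · rw [hφx f m1, hφx f' m2] at h
      exact hne (hψ f m1 f' m2 h)
    · exact hne (hφy f m1 f' m2 h)
  · exact hne (hone u hu f f' hf hf' huf huf')

/-- Strong circuit double covers for circuits missing exactly two vertices. -/
theorem strong_cdc_two (hcub : G.Cubic) (h2 : G.TwoEdgeConnected) (hC : G.IsCircuit C)
    (hlen : C.card + 2 = Fintype.card V) :
    ∃ F : Multiset (Finset E), G.IsCircuitDoubleCover F ∧ C ∈ F := by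
  have hG := loopless hcub h2
  obtain ⟨A, hA, hA'⟩ := exists_five_cover hcub hG hC (exists_edge_colouring hcub hG hC hlen)
  exact exists_doubleCover hC A hA hA'

end MGraph

end Pool.Agent.SCDC
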